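import Pool.Agent.Lib.MP_de485e_gt.Hi.R3

/-! The form of the evolution equations of all derivatives of the tangential projector. -/

open scoped Pointwise

namespace Pool.Agent.Lib.MP_de485e_gt.Hi.QA

variable {ι : Type} [Fintype ι] {R : Type} [CommRing R] [Algebra ℝ R] (S : QA ι R)

/-- Derivative along a word; the first letter acts last. -/
def Dw : List ι → R → R
  | [], g => g
  | a :: w, g => S.D a (Dw w g)

/-- The derivatives of order `k` of the projector. -/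
def gen (k : ℕ) : Set R := {g | ∃ (w : List ι) (a b : ι), w.length = k ∧ g = S.Dw w (S.P a b)}

/-- Polynomials in the derivatives of order at most `k`. -/
def alg (k : ℕ) : Subalgebra ℝ R := Algebra.adjoin ℝ {g | ∃ j ≤ k, g ∈ S.gen j}

theorem gen_D {k : ℕ} {g : R} (hg : g ∈ S.gen k) (a : ι) : S.D a g ∈ S.gen (k + 1) := by
  obtain ⟨w, b, c, rfl, rfl⟩ := hg
  exact ⟨a :: w, b, c, rfl, rfl⟩

theorem gen_succ {k : ℕ} {g : R} (hg : g ∈ S.gen (k + 1)) : ∃ a, ∃ g' ∈ S.gen k, g = S.D a g' := by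
  obtain ⟨w, b, c, hw, rfl⟩ := hg
  cases w with
  | nil => simp at hw
  | cons a w => exact ⟨a, _, ⟨w, b, c, by simpa using hw, rfl⟩, rfl⟩

theorem gen_alg {j k : ℕ} (h : j ≤ k) {g : R} (hg : g ∈ S.gen j) : g ∈ S.alg k :=
  Algebra.subset_adjoin ⟨j, h, hg⟩

theorem alg_mono {j k : ℕ} (h : j ≤ k) {g : R} (hg : g ∈ S.alg j) : g ∈ S.alg k :=
  Algebra.adjoin_mono (fun _ (hx : ∃ i ≤ j, _) => hx.imp fun _ hi => And.intro (hi.1.trans h) hi.2) hg

theorem P_gen (a b : ι) : S.P a b ∈ S.gen 0 := ⟨[], a, b, rfl, rfl⟩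

theorem T_alg (a b c : ι) : S.T a b c ∈ S.alg 1 :=
  sub_mem (S.gen_alg le_rfl (S.gen_D (S.P_gen _ _) _)) (sum_mem fun _ _ =>
    mul_mem (S.gen_alg zero_le_one (S.P_gen _ _)) (S.gen_alg le_rfl (S.gen_D (S.P_gen _ _) _)))

theorem M_alg (a b : ι) : S.arr.M a b ∈ S.alg 1 :=
  sum_mem fun _ _ => sum_mem fun _ _ => mul_mem (S.T_alg _ _ _) (S.T_alg _ _ _)

theorem G_alg (a b : ι) : S.arr.G a b ∈ S.alg 1 :=
  sum_mem fun _ _ => sum_mem fun _ _ => mul_mem (S.T_alg _ _ _) (S.T_alg _ _ _)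

variable {S} in
theorem Bl1_mul {k : ℕ} {N : Submodule (S.alg k) R} {a g : R} (ha : a ∈ S.alg k) (hg : g ∈ N) :
    a * g ∈ N := N.smul_mem ⟨a, ha⟩ hg

variable {S} in
theorem Bl1_one {k : ℕ} {s : Set R} {a : R} (ha : a ∈ S.alg k) (h : (1 : R) ∈ s) :
    a ∈ Submodule.span (S.alg k) s := mul_one a ▸ Bl1_mul ha (Submodule.subset_span h)

theorem D_mul (a : ι) (f g : R) : S.D a (f * g) = f * S.D a g + g * S.D a f := by
  rw [Derivation.leibniz, smul_eq_mul, smul_eq_mul]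

theorem D_alg {k : ℕ} {g : R} (hg : g ∈ S.alg k) (a : ι) :
    S.D a g ∈ Submodule.span (S.alg k) ({1} ∪ S.gen (k + 1)) := by
  induction hg using Algebra.adjoin_induction with
  | mem g hg =>
    obtain ⟨j, hj, hg⟩ := hg
    rcases hj.eq_or_lt with rfl | hj
    · exact Submodule.subset_span (Or.inr (S.gen_D hg a))
    · exact Bl1_one (S.gen_alg hj (S.gen_D hg a)) (Or.inl rfl)
  | algebraMap r => rw [Derivation.map_algebraMap]; exact zero_mem _
  | add f g _ _ h1 h2 => rw [map_add]; exact add_mem h1 h2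
  | mul f g hf hg h1 h2 => rw [D_mul]; exact add_mem (Bl1_mul hf h2) (Bl1_mul hg h1)

variable {S} in
theorem Bl1_ind {k : ℕ} {s : Set R} {p : R → Prop} (h0 : p 0) (ha : ∀ f g, p f → p g → p (f + g))
    (hm : ∀ a ∈ S.alg k, ∀ g ∈ s, p (a * g)) {g : R} (hg : g ∈ Submodule.span (S.alg k) s) :
    p g := by
  suffices H : ∀ a ∈ S.alg k, p (a * g) from one_mul g ▸ H 1 (one_mem _)
  induction hg using Submodule.span_induction with
  | mem g hg => exact fun a h => hm a h g hg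
  | zero => exact fun a _ => (mul_zero a).symm ▸ h0
  | add f g _ _ h1 h2 => exact fun a h => (mul_add a f g).symm ▸ ha _ _ (h1 a h) (h2 a h)
  | smul c g _ h1 => exact fun a h => (mul_assoc a c g) ▸ h1 (a * c) (mul_mem h c.2)

theorem D_alg' {k : ℕ} {g : R} (hg : g ∈ S.alg k) (a : ι) : S.D a g ∈ S.alg (k + 1) :=
  Bl1_ind (p := fun g => g ∈ S.alg (k + 1)) (zero_mem _) (fun _ _ => add_mem)
    (fun _ hb _ hg => mul_mem (S.alg_mono k.le_succ hb)
      (hg.elim (fun e => e ▸ one_mem _) (S.gen_alg le_rfl))) (S.D_alg hg a)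

theorem Bl1_rest {k : ℕ} {g : R} (hg : g ∈ S.gen k) (a : ι) :
    ∃ p ∈ Submodule.span (S.alg 1) (S.gen (k + 2)),
      ∃ q ∈ Submodule.span (S.alg 1) (S.gen (k + 1)), S.L (S.D a g) = S.D a (S.L g) + p + q := by
  have h2 : (2 : R) ∈ S.alg 1 := ofNat_mem _ 2
  refine ⟨-(2 * ∑ b, ∑ d, S.T b d a * S.D b (S.D d g)), neg_mem (Bl1_mul h2 (sum_mem fun b _ =>
    sum_mem fun d _ => Bl1_mul (S.T_alg _ _ _) (Submodule.subset_span (S.gen_D (S.gen_D hg _) _)))),
    -(S.n * S.D a g) + 2 * ∑ d, S.arr.M a d * S.D d g, add_mem (neg_mem (Bl1_mul (natCast_mem _ _)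
      (Submodule.subset_span (S.gen_D hg _)))) (Bl1_mul h2 (sum_mem fun d _ =>
      Bl1_mul (S.M_alg _ _) (Submodule.subset_span (S.gen_D hg _)))), ?_⟩
  rw [S.L_D]
  ring

theorem L_gen1 {g : R} (hg : g ∈ S.gen 1) :
    S.L g ∈ Submodule.span (S.alg 1) ({1} ∪ S.gen 2) := by
  obtain ⟨a, g, hg', rfl⟩ := S.gen_succ hg
  obtain ⟨p, hp, q, hq, e⟩ := S.Bl1_rest hg' a
  obtain ⟨w, b, c, hw, rfl⟩ := hg'
  obtain rfl := List.length_eq_zero_iff.1 hw
  have h2 : (2 : R) ∈ S.alg 1 := ofNat_mem _ 2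
  rw [e]
  refine add_mem (add_mem (S.D_alg ?_ a) (Submodule.span_mono Set.subset_union_right hp))
    (Submodule.span_le.2 (fun g hg => Bl1_one (S.gen_alg le_rfl hg) (Or.inl rfl)) hq)
  rw [Dw, S.L_P]
  exact sub_mem (mul_mem h2 (S.M_alg _ _)) (mul_mem h2 (S.G_alg _ _))

theorem L_gen2 {g : R} (hg : g ∈ S.gen 2) :
    S.L g ∈ Submodule.span (S.alg 1) ({1} ∪ S.gen 2 ∪ S.gen 2 * S.gen 2 ∪ S.gen 3) := by
  obtain ⟨a, g, hg', rfl⟩ := S.gen_succ hg
  obtain ⟨p, hp, q, hq, e⟩ := S.Bl1_rest hg' a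
  rw [e]
  refine add_mem (add_mem ?_ (Submodule.span_mono Set.subset_union_right hp))
    (Submodule.span_mono (fun g hg => Or.inl (Or.inl (Or.inr hg))) hq)
  refine Bl1_ind (p := fun g => S.D a g ∈ _) (by rw [map_zero]; exact zero_mem _)
    (fun f g h1 h2 => by rw [map_add]; exact add_mem h1 h2) (fun c hc g hg => ?_) (S.L_gen1 hg')
  rcases hg with rfl | hg
  · rw [mul_one]
    exact Submodule.span_mono (fun g hg => Or.inl (Or.inl hg)) (S.D_alg hc a)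
  rw [D_mul]
  refine add_mem (Bl1_mul hc (Submodule.subset_span (Or.inr (S.gen_D hg a)))) ?_
  refine Bl1_ind (p := fun f => g * f ∈ _) (by rw [mul_zero]; exact zero_mem _)
    (fun f f' h1 h2 => by rw [mul_add]; exact add_mem h1 h2) (fun c' hc' f hf => ?_)
    (S.D_alg hc a)
  rw [mul_left_comm]
  refine Bl1_mul hc' (Submodule.subset_span ?_)
  rcases hf with rfl | hf
  · rw [mul_one]
    exact Or.inl (Or.inl (Or.inr hg))
  · exact Or.inl (Or.inr (Set.mul_mem_mul hg hf))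

/-- The form of the equations from order three on. -/
def Bl1F (k : ℕ) (g : R) : Prop := ∃ p ∈ Submodule.span (S.alg 1) (S.gen (k + 2)),
  ∃ q ∈ Submodule.span (S.alg k) ({1} ∪ S.gen (k + 1)), g = p + q

variable {S} {k : ℕ}

theorem Bl1F.add {f g : R} (hf : S.Bl1F k f) (hg : S.Bl1F k g) : S.Bl1F k (f + g) := by
  obtain ⟨p, hp, q, hq, rfl⟩ := hf
  obtain ⟨p', hp', q', hq', rfl⟩ := hg
  exact ⟨_, add_mem hp hp', _, add_mem hq hq', add_add_add_comm _ _ _ _⟩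

theorem Bl1F.top {g : R} (h : g ∈ Submodule.span (S.alg 1) (S.gen (k + 2))) : S.Bl1F k g :=
  ⟨g, h, 0, zero_mem _, (add_zero g).symm⟩

theorem Bl1F.low {g : R} (h : g ∈ S.alg k) : S.Bl1F k g :=
  ⟨0, zero_mem _, g, Bl1_one h (Or.inl rfl), (zero_add g).symm⟩

theorem Bl1F.lin {c g : R} (hc : c ∈ S.alg k) (h : g ∈ S.gen (k + 1)) : S.Bl1F k (c * g) :=
  ⟨0, zero_mem _, _, Bl1_mul hc (Submodule.subset_span (Or.inr h)), (zero_add _).symm⟩

theorem Bl1F.of_D {j : ℕ} {s : Set R} {a : ι}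
    (hm : ∀ c ∈ S.alg j, ∀ g ∈ s, S.Bl1F k (S.D a (c * g))) {g : R}
    (hg : g ∈ Submodule.span (S.alg j) s) : S.Bl1F k (S.D a g) :=
  Bl1_ind (p := fun g => S.Bl1F k (S.D a g)) (by rw [map_zero]; exact .low (zero_mem _))
    (fun f g h1 h2 => by rw [map_add]; exact h1.add h2) hm hg

theorem Bl1F.D_top (hk : 2 ≤ k) {a : ι} {c g : R} (hc : c ∈ S.alg 1) (hg : g ∈ S.gen (k + 1)) :
    S.Bl1F k (S.D a (c * g)) := by
  rw [D_mul, mul_comm g]
  exact (top (Bl1_mul hc (Submodule.subset_span (S.gen_D hg a)))).add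
    (lin (S.alg_mono hk (S.D_alg' hc a)) hg)

theorem Bl1F.D_low {a : ι} {c g : R} (hc : c ∈ S.alg k) (hg : g ∈ {1} ∪ S.gen (k + 1)) :
    S.Bl1F (k + 1) (S.D a (c * g)) := by
  rcases hg with rfl | hg
  · rw [mul_one]
    exact low (S.D_alg' hc a)
  rw [D_mul]
  exact (lin (S.alg_mono k.le_succ hc) (S.gen_D hg a)).add
    (low (mul_mem (S.gen_alg le_rfl hg) (S.D_alg' hc a)))

variable (S)

theorem L_gen {k : ℕ} (hk : 2 ≤ k) {g : R} (hg : g ∈ S.gen (k + 1)) :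
    ∃ p ∈ Submodule.span (S.alg 1) (S.gen (k + 2)),
      ∃ q ∈ Submodule.span (S.alg k) ({1} ∪ S.gen (k + 1)), S.L g = p + q := by
  change S.Bl1F k (S.L g)
  have step : ∀ {k : ℕ}, 1 ≤ k → ∀ {g : R}, g ∈ S.gen k → ∀ a, S.Bl1F k (S.D a (S.L g)) →
      S.Bl1F k (S.L (S.D a g)) := fun {k} hk {g} hg a h => by
    obtain ⟨p, hp, q, hq, e⟩ := S.Bl1_rest hg a
    rw [e]
    exact (h.add (.top hp)).add (Bl1_ind (p := S.Bl1F k) (.low (zero_mem _)) (fun _ _ => .add)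
      (fun c hc g hg => .lin (S.alg_mono hk hc) hg) hq)
  induction k, hk using Nat.le_induction generalizing g with
  | base =>
    obtain ⟨a, g, hg', rfl⟩ := S.gen_succ hg
    refine step one_le_two hg' a (.of_D (fun c hc g hg => ?_) (S.L_gen2 hg'))
    rcases hg with (hg | ⟨s, hs, s', hs', rfl⟩) | hg
    · exact .D_low hc hg
    · have e : S.D a (c * (s * s')) = c * s * S.D a s' + c * s' * S.D a s + s * s' * S.D a c := by
        rw [D_mul, D_mul]
        ring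
      have hc' := S.alg_mono one_le_two hc
      exact e ▸ ((Bl1F.lin (mul_mem hc' (S.gen_alg le_rfl hs)) (S.gen_D hs' a)).add
        (.lin (mul_mem hc' (S.gen_alg le_rfl hs')) (S.gen_D hs a))).add
        (.low (mul_mem (mul_mem (S.gen_alg le_rfl hs) (S.gen_alg le_rfl hs')) (S.D_alg' hc a)))
    · exact .D_top le_rfl hc hg
  | succ k hk ih =>
    obtain ⟨a, g, hg', rfl⟩ := S.gen_succ hg
    refine step k.succ_pos hg' a ?_
    obtain ⟨p, hp, q, hq, e⟩ := ih hg'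
    rw [e, map_add]
    exact (Bl1F.of_D (fun c hc g hg => .D_top (hk.trans k.le_succ) hc hg) hp).add
      (.of_D (fun c hc g hg => .D_low hc hg) hq)

end Pool.Agent.Lib.MP_de485e_gt.Hi.QA
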