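import Pool.Agent.Lib.MP_de485e_gt.Ex.Bl1

/-! Pointwise inequalities for the derivatives of the projector. -/

namespace Pool.Agent.Lib.MP_de485e_gt.Hi.QA

variable {ι : Type} [Fintype ι] {R : Type} [CommRing R] [Algebra ℝ R] (S : QA ι R)
  {Z : Type} (ev : Z → R →ₐ[ℝ] ℝ)

/-- Sum of the squares of the derivatives of order `k`. -/
noncomputable def sig (k : ℕ) : R :=
  ∑ w ∈ (List.finite_length_eq ι k).toFinset, ∑ a, ∑ b, S.Dw w (S.P a b) * S.Dw w (S.P a b)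

/-- The derivatives of order at most `k` are bounded. -/
def Bdd (k : ℕ) : Prop := ∀ j ≤ k, ∀ g ∈ S.gen j, ∃ C, ∀ z, |ev z g| ≤ C

/-- The index set of the derivatives of order `k`. -/
noncomputable def bl2Idx (ι : Type) [Fintype ι] (k : ℕ) : Finset (List ι × ι × ι) :=
  (List.finite_length_eq ι k).toFinset ×ˢ (Finset.univ ×ˢ Finset.univ)

/-- The derivative with a given index. -/
def bl2El (t : List ι × ι × ι) : R := S.Dw t.1 (S.P t.2.1 t.2.2)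

theorem bl2_mem_idx {k : ℕ} {t : List ι × ι × ι} : t ∈ bl2Idx ι k ↔ t.1.length = k := by
  simp [bl2Idx]

theorem bl2_sig_eq (k : ℕ) : S.sig k = ∑ t ∈ bl2Idx ι k, S.bl2El t * S.bl2El t := by
  simp only [sig, bl2Idx, bl2El, Finset.sum_product]

theorem bl2_el_mem {k : ℕ} {t : List ι × ι × ι} (ht : t ∈ bl2Idx ι k) : S.bl2El t ∈ S.gen k :=
  ⟨t.1, t.2.1, t.2.2, bl2_mem_idx.1 ht, rfl⟩

theorem bl2_D_mem {k : ℕ} {g : R} (hg : g ∈ S.gen k) (c : ι) : S.D c g ∈ S.gen (k + 1) := by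
  obtain ⟨w, a, b, hw, rfl⟩ := hg
  exact ⟨c :: w, a, b, by simp [hw], rfl⟩

theorem bl2_sig_succ (k : ℕ) :
    S.sig (k + 1) = ∑ t ∈ bl2Idx ι k, S.grad (S.bl2El t) (S.bl2El t) := by
  rw [bl2_sig_eq]
  simp only [grad]
  rw [← Finset.sum_product' (bl2Idx ι k) Finset.univ
    (fun t c => S.D c (S.bl2El t) * S.D c (S.bl2El t))]
  symm
  refine Finset.sum_bij (fun p _ => (p.2 :: p.1.1, p.1.2)) ?_ ?_ ?_ ?_
  · intro p hp
    have := bl2_mem_idx.1 (Finset.mem_product.1 hp).1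
    exact bl2_mem_idx.2 (by simp [this])
  · rintro ⟨⟨w, x⟩, c⟩ _ ⟨⟨w', x'⟩, c'⟩ _ h
    simp only [Prod.mk.injEq, List.cons.injEq] at h
    obtain ⟨⟨rfl, rfl⟩, rfl⟩ := h
    rfl
  · rintro ⟨w, x⟩ hw
    have hl := bl2_mem_idx.1 hw
    cases w with
    | nil => simp at hl
    | cons c w =>
      refine ⟨((w, x), c), Finset.mem_product.2 ⟨bl2_mem_idx.2 ?_, Finset.mem_univ _⟩, rfl⟩
      simpa using hl
  · intro p _
    rfl

theorem bl2_L_sig (k : ℕ) : S.L (S.sig k) =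
    ∑ t ∈ bl2Idx ι k, 2 * (S.bl2El t * S.L (S.bl2El t)) - 2 * S.sig (k + 1) := by
  rw [bl2_sig_succ, bl2_sig_eq, S.L_sum, Finset.mul_sum, ← Finset.sum_sub_distrib]
  refine Finset.sum_congr rfl fun t _ => ?_
  rw [S.L_mul]
  ring

theorem bl2_D_sig (k : ℕ) (c : ι) : S.D c (S.sig k) =
    ∑ t ∈ bl2Idx ι k, 2 * (S.bl2El t * S.D c (S.bl2El t)) := by
  rw [bl2_sig_eq, map_sum]
  refine Finset.sum_congr rfl fun t _ => ?_
  rw [Derivation.leibniz]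
  simp only [smul_eq_mul]
  ring

theorem sq_le_sig {k : ℕ} {g : R} (hg : g ∈ S.gen k) (φ : R →ₐ[ℝ] ℝ) :
    φ g ^ 2 ≤ φ (S.sig k) := by
  obtain ⟨w, a, b, hw, rfl⟩ := hg
  rw [bl2_sig_eq, map_sum]
  have hm : (w, a, b) ∈ bl2Idx ι k := bl2_mem_idx.2 hw
  have := Finset.single_le_sum (f := fun t => φ (S.bl2El t * S.bl2El t))
    (fun t _ => by rw [map_mul]; exact mul_self_nonneg _) hm
  simpa only [map_mul, bl2El, sq] using this

theorem sig_nonneg (k : ℕ) (φ : R →ₐ[ℝ] ℝ) : 0 ≤ φ (S.sig k) := by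
  rw [bl2_sig_eq, map_sum]
  exact Finset.sum_nonneg fun t _ => by rw [map_mul]; exact mul_self_nonneg _

/-- Domination by a weight along all evaluations. -/
def bl2Dom (ψ : Z → ℝ) (g : R) : Prop := ∃ C, 0 ≤ C ∧ ∀ z, |ev z g| ≤ C * ψ z

section Dom

variable {ev} {ψ χ : Z → ℝ} {g h : R}

theorem bl2Dom.add (hψ : ∀ z, 0 ≤ ψ z) (hg : bl2Dom ev ψ g) (hh : bl2Dom ev ψ h) :
    bl2Dom ev ψ (g + h) := by
  obtain ⟨C, hC, hg⟩ := hg
  obtain ⟨C', hC', hh⟩ := hh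
  refine ⟨C + C', by positivity, fun z => ?_⟩
  rw [map_add]
  have := abs_add_le (ev z g) (ev z h)
  have := hg z
  have := hh z
  have := hψ z
  nlinarith

theorem bl2Dom.zero : bl2Dom ev ψ (0 : R) := ⟨0, le_rfl, fun z => by simp⟩

theorem bl2Dom.mul (hg : bl2Dom ev ψ g) (hh : bl2Dom ev χ h) :
    bl2Dom ev (fun z => ψ z * χ z) (g * h) := by
  obtain ⟨C, hC, hg⟩ := hg
  obtain ⟨C', hC', hh⟩ := hh
  refine ⟨C * C', by positivity, fun z => ?_⟩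
  rw [map_mul, abs_mul]
  calc |ev z g| * |ev z h| ≤ (C * ψ z) * (C' * χ z) :=
        mul_le_mul (hg z) (hh z) (abs_nonneg _) ((abs_nonneg _).trans (hg z))
    _ = C * C' * (ψ z * χ z) := by ring

theorem bl2Dom.mono (hg : bl2Dom ev ψ g) (hle : ∀ z, ψ z ≤ χ z) : bl2Dom ev χ g := by
  obtain ⟨C, hC, hg⟩ := hg
  exact ⟨C, hC, fun z => (hg z).trans (mul_le_mul_of_nonneg_left (hle z) hC)⟩

theorem bl2Dom.sum {κ : Type} (hψ : ∀ z, 0 ≤ ψ z) (s : Finset κ) (f : κ → R)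
    (hf : ∀ t ∈ s, bl2Dom ev ψ (f t)) : bl2Dom ev ψ (∑ t ∈ s, f t) :=
  Finset.sum_induction f (bl2Dom ev ψ) (fun _ _ ha hb => ha.add hψ hb) bl2Dom.zero hf

theorem bl2Dom.alg (r : ℝ) : bl2Dom ev (fun _ => 1) (algebraMap ℝ R r) :=
  ⟨|r|, abs_nonneg _, fun z => by simp⟩

theorem bl2Dom.one : bl2Dom ev (fun _ => 1) (1 : R) := ⟨1, zero_le_one, fun z => by simp⟩

theorem bl2Dom.two_mul (hψ : ∀ z, 0 ≤ ψ z) (hg : bl2Dom ev ψ g) : bl2Dom ev ψ (2 * g) := by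
  rw [_root_.two_mul]
  exact hg.add hψ hg

theorem bl2Dom.of_bound (hg : ∃ C, ∀ z, |ev z g| ≤ C) : bl2Dom ev (fun _ => 1) g := by
  obtain ⟨C, hC⟩ := hg
  exact ⟨|C|, abs_nonneg _, fun z => by simpa using (hC z).trans (le_abs_self C)⟩

end Dom

theorem bl2_alg_dom {k : ℕ} (h : S.Bdd ev k) {g : R} (hg : g ∈ S.alg k) :
    bl2Dom ev (fun _ => 1) g := by
  induction hg using Algebra.adjoin_induction with
  | mem x hx =>
    obtain ⟨j, hj, hx⟩ := hx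
    exact bl2Dom.of_bound (h j hj x hx)
  | algebraMap r => exact bl2Dom.alg r
  | add x y _ _ hx hy => exact hx.add (fun _ => zero_le_one) hy
  | mul x y _ _ hx hy => exact (hx.mul hy).mono fun _ => by simp

theorem bl2_span_dom {k : ℕ} (h : S.Bdd ev k) {ψ : Z → ℝ} (hψ : ∀ z, 0 ≤ ψ z) {s : Set R}
    (hs : ∀ g ∈ s, bl2Dom ev ψ g) {g : R} (hg : g ∈ Submodule.span (S.alg k) s) :
    bl2Dom ev ψ g := by
  induction hg using Submodule.span_induction with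
  | mem x hx => exact hs x hx
  | zero => exact bl2Dom.zero
  | add x y _ _ hx hy => exact hx.add hψ hy
  | smul a x _ hx =>
    have := (S.bl2_alg_dom ev h a.2).mul hx
    exact this.mono fun _ => by simp

/-- The norm of the derivatives of order `k`. -/
noncomputable def bl2R (k : ℕ) (z : Z) : ℝ := Real.sqrt (ev z (S.sig k))

theorem bl2R_nonneg (k : ℕ) (z : Z) : 0 ≤ S.bl2R ev k z := Real.sqrt_nonneg _

theorem bl2R_sq (k : ℕ) (z : Z) : ev z (S.sig k) = S.bl2R ev k z ^ 2 :=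
  (Real.sq_sqrt (S.sig_nonneg k (ev z))).symm

theorem bl2_gen_dom {k : ℕ} {g : R} (hg : g ∈ S.gen k) : bl2Dom ev (S.bl2R ev k) g :=
  ⟨1, zero_le_one, fun z => by
    rw [one_mul]
    exact Real.abs_le_sqrt (S.sq_le_sig hg (ev z))⟩

theorem bl2_poly {K : ℝ} (hK : 0 ≤ K) {r : ℝ} (hr : 0 ≤ r) :
    K * (r + r ^ 2 + r ^ 3) - r ^ 4 ≤ 3 * K + (3 * K) ^ 4 := by
  have h4 : 0 ≤ (3 * K) ^ 4 := by positivity
  rcases le_total r 1 with h1 | h1
  · have h2 : r ^ 2 ≤ 1 := pow_le_one₀ hr h1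
    have h3 : r ^ 3 ≤ 1 := pow_le_one₀ hr h1
    have : K * (r + r ^ 2 + r ^ 3) ≤ K * 3 := mul_le_mul_of_nonneg_left (by linarith) hK
    have : 0 ≤ r ^ 4 := by positivity
    linarith
  · have h2 : r ≤ r ^ 3 := by nlinarith [mul_nonneg hr hr]
    have h3 : r ^ 2 ≤ r ^ 3 := by nlinarith [mul_nonneg hr hr]
    have h5 : K * (r + r ^ 2 + r ^ 3) ≤ K * (3 * r ^ 3) :=
      mul_le_mul_of_nonneg_left (by linarith) hK
    have h3n : 0 ≤ r ^ 3 := by positivity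
    rcases le_total r (3 * K) with h6 | h6
    · have h7 : r ^ 3 ≤ (3 * K) ^ 3 := pow_le_pow_left₀ hr h6 3
      have h8 : 3 * K * r ^ 3 ≤ 3 * K * (3 * K) ^ 3 :=
        mul_le_mul_of_nonneg_left h7 (by positivity)
      have : 0 ≤ r ^ 4 := by positivity
      nlinarith
    · have h8 : 3 * K * r ^ 3 ≤ r * r ^ 3 := mul_le_mul_of_nonneg_right h6 h3n
      nlinarith

theorem bl2_arith {C1 C2 C3 B : ℝ} (h1 : 0 ≤ C1) (h2 : 0 ≤ C2) (hB : 0 ≤ B) :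
    ∃ C : ℝ, ∀ s x y A1 A2 A3 : ℝ, 0 ≤ s → s ≤ B → 0 ≤ x → 0 ≤ y → A1 ≤ C1 * (1 + x) →
      A2 ≤ C2 * (x * (1 + x + x * x + y)) → |A3| ≤ C3 * (x * (x * y)) →
      (A1 - 2 * x ^ 2) * x ^ 2 + (1 + C3 ^ 2 + s) * (A2 - 2 * y ^ 2) - 2 * A3 ≤ C := by
  set M := 1 + C3 ^ 2 + B with hM
  have hM0 : 0 ≤ M := by positivity
  set K := C1 + M * C2 + M * C2 ^ 2 with hK
  have hK0 : 0 ≤ K := by positivity
  refine ⟨3 * K + (3 * K) ^ 4, fun s x y A1 A2 A3 hs hsB hx hy a1 a2 a3 => ?_⟩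
  refine le_trans ?_ (bl2_poly hK0 hx)
  set m := 1 + C3 ^ 2 + s with hm
  have hm0 : 0 ≤ m := by positivity
  have hmM : m ≤ M := by linarith
  have e1 : A1 * x ^ 2 ≤ C1 * (1 + x) * x ^ 2 := mul_le_mul_of_nonneg_right a1 (by positivity)
  have e2 : A2 - y ^ 2 ≤ C2 * (x + x ^ 2 + x ^ 3) + C2 ^ 2 * x ^ 2 := by
    nlinarith [sq_nonneg (C2 * x - y), mul_nonneg (mul_nonneg h2 hx) hy]
  have e2' : 0 ≤ C2 * (x + x ^ 2 + x ^ 3) + C2 ^ 2 * x ^ 2 := by positivity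
  have e3 : m * (A2 - y ^ 2) ≤ M * (C2 * (x + x ^ 2 + x ^ 3) + C2 ^ 2 * x ^ 2) :=
    (mul_le_mul_of_nonneg_left e2 hm0).trans (mul_le_mul_of_nonneg_right hmM e2')
  have e4 : -(2 * A3) ≤ x ^ 4 + C3 ^ 2 * y ^ 2 := by
    have := neg_abs_le A3
    nlinarith [sq_nonneg (x ^ 2 - C3 * y)]
  have e5 : C3 ^ 2 * y ^ 2 ≤ m * y ^ 2 :=
    mul_le_mul_of_nonneg_right (by linarith) (by positivity)
  have e6 : 0 ≤ C1 * x := by positivity
  have e7 : 0 ≤ M * C2 ^ 2 * (x + x ^ 3) := by positivity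
  have e8 : K * (x + x ^ 2 + x ^ 3) = C1 * x + C1 * (1 + x) * x ^ 2 +
      M * (C2 * (x + x ^ 2 + x ^ 3) + C2 ^ 2 * x ^ 2) + M * C2 ^ 2 * (x + x ^ 3) := by
    rw [hK]; ring
  have e9 : (A1 - 2 * x ^ 2) * x ^ 2 + m * (A2 - 2 * y ^ 2) - 2 * A3 =
      A1 * x ^ 2 - 2 * x ^ 4 + m * (A2 - y ^ 2) - m * y ^ 2 + -(2 * A3) := by ring
  rw [e8, e9]
  linarith

theorem bern_two (h : S.Bdd ev 1) : ∃ Λ C : ℝ, 1 ≤ Λ ∧
    ∀ z, ev z (S.L ((algebraMap ℝ R Λ + S.sig 1) * S.sig 2)) ≤ C := by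
  have hx := S.bl2R_nonneg ev 2
  have hy := S.bl2R_nonneg ev 3
  set x := S.bl2R ev 2 with hxd
  set y := S.bl2R ev 3 with hyd
  have b1 : ∀ g ∈ S.gen 1, bl2Dom ev (fun _ => 1) g := fun g hg =>
    bl2Dom.of_bound (h 1 le_rfl g hg)
  have b2 : ∀ g ∈ S.gen 2, bl2Dom ev x g := fun g hg => S.bl2_gen_dom ev hg
  have b3 : ∀ g ∈ S.gen 3, bl2Dom ev y g := fun g hg => S.bl2_gen_dom ev hg
  have p1 : ∀ z, 0 ≤ 1 + x z := fun z => by have := hx z; positivity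
  have p2 : ∀ z, 0 ≤ 1 + x z + x z * x z + y z := fun z => by
    have := hx z; have := hy z; positivity
  have p3 : ∀ z, 0 ≤ x z * y z := fun z => mul_nonneg (hx z) (hy z)
  obtain ⟨B, hB, hsB⟩ : bl2Dom ev (fun _ => 1) (S.sig 1) := by
    rw [bl2_sig_eq]
    exact bl2Dom.sum (fun _ => zero_le_one) _ _ fun t ht =>
      ((b1 _ (S.bl2_el_mem ht)).mul (b1 _ (S.bl2_el_mem ht))).mono fun _ => by simp
  obtain ⟨C1, h1, a1⟩ : bl2Dom ev (fun z => 1 + x z)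
      (∑ t ∈ bl2Idx ι 1, 2 * (S.bl2El t * S.L (S.bl2El t))) := by
    refine bl2Dom.sum p1 _ _ fun t ht => bl2Dom.two_mul p1 ?_
    have hL : bl2Dom ev (fun z => 1 + x z) (S.L (S.bl2El t)) := by
      refine S.bl2_span_dom ev h p1 ?_ (S.L_gen1 (S.bl2_el_mem ht))
      rintro g (rfl | hg)
      · exact bl2Dom.one.mono fun z => by linarith [hx z]
      · exact (b2 g hg).mono fun z => by linarith
    exact ((b1 _ (S.bl2_el_mem ht)).mul hL).mono fun _ => by simp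
  obtain ⟨C2, h2, a2⟩ : bl2Dom ev (fun z => x z * (1 + x z + x z * x z + y z))
      (∑ t ∈ bl2Idx ι 2, 2 * (S.bl2El t * S.L (S.bl2El t))) := by
    have p4 : ∀ z, 0 ≤ x z * (1 + x z + x z * x z + y z) := fun z => mul_nonneg (hx z) (p2 z)
    refine bl2Dom.sum p4 _ _ fun t ht => bl2Dom.two_mul p4 ?_
    have hL : bl2Dom ev (fun z => 1 + x z + x z * x z + y z) (S.L (S.bl2El t)) := by
      refine S.bl2_span_dom ev h p2 ?_ (S.L_gen2 (S.bl2_el_mem ht))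
      rintro g (((rfl | hg) | hg) | hg)
      · exact bl2Dom.one.mono fun z => by nlinarith [hx z, hy z]
      · exact (b2 g hg).mono fun z => by nlinarith [hx z, hy z]
      · obtain ⟨u, hu, v, hv, rfl⟩ := hg
        exact ((b2 u hu).mul (b2 v hv)).mono fun z => by nlinarith [hx z, hy z]
      · exact (b3 g hg).mono fun z => by nlinarith [hx z, hy z]
    exact (b2 _ (S.bl2_el_mem ht)).mul hL
  obtain ⟨C3, -, a3⟩ : bl2Dom ev (fun z => x z * (x z * y z)) (S.grad (S.sig 1) (S.sig 2)) := by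
    refine bl2Dom.sum (fun z => mul_nonneg (hx z) (p3 z)) _ _ fun c _ => bl2Dom.mul ?_ ?_
    · rw [bl2_D_sig]
      refine bl2Dom.sum hx _ _ fun t ht => bl2Dom.two_mul hx ?_
      exact ((b1 _ (S.bl2_el_mem ht)).mul
        (b2 _ (S.bl2_D_mem (S.bl2_el_mem ht) c))).mono fun _ => by simp
    · rw [bl2_D_sig]
      refine bl2Dom.sum p3 _ _ fun t ht => bl2Dom.two_mul p3 ?_
      exact (b2 _ (S.bl2_el_mem ht)).mul (b3 _ (S.bl2_D_mem (S.bl2_el_mem ht) c))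
  obtain ⟨C, hC⟩ := bl2_arith (C3 := C3) h1 h2 hB
  refine ⟨1 + C3 ^ 2, C, by nlinarith [sq_nonneg C3], fun z => ?_⟩
  have hg : S.grad (algebraMap ℝ R (1 + C3 ^ 2) + S.sig 1) (S.sig 2) =
      S.grad (S.sig 1) (S.sig 2) := by
    simp only [grad, map_add (S.D _), Derivation.map_algebraMap, zero_add]
  have key := hC (ev z (S.sig 1)) (x z) (y z) _ _ _ (S.sig_nonneg 1 (ev z))
    (by simpa using (le_abs_self _).trans (hsB z)) (hx z) (hy z)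
    ((le_abs_self _).trans (a1 z)) ((le_abs_self _).trans (a2 z)) (a3 z)
  have q2 : ev z (S.sig 2) = x z ^ 2 := S.bl2R_sq ev 2 z
  have q3 : ev z (S.sig 3) = y z ^ 2 := S.bl2R_sq ev 3 z
  have t2 : ev z (2 : R) = 2 := map_ofNat _ 2
  rw [S.L_mul, S.L_add, S.L_alg, zero_add, hg, bl2_L_sig, bl2_L_sig]
  rw [map_sub, map_add, map_mul, map_mul, map_mul, map_sub, map_sub, map_mul, map_mul, map_add,
    AlgHom.commutes, t2]
  simp only [Nat.reduceAdd, q2, q3, Algebra.algebraMap_self, RingHom.id_apply]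
  exact key

theorem bern_high {k : ℕ} (hk : 2 ≤ k) (h : S.Bdd ev k) :
    ∃ C : ℝ, ∀ z, ev z (S.L (S.sig (k + 1))) ≤ C * (1 + ev z (S.sig (k + 1))) := by
  have hx := S.bl2R_nonneg ev (k + 1)
  have hy := S.bl2R_nonneg ev (k + 2)
  set x := S.bl2R ev (k + 1) with hxd
  set y := S.bl2R ev (k + 2) with hyd
  have h1 : S.Bdd ev 1 := fun j hj => h j (by omega)
  have b2 : ∀ g ∈ S.gen (k + 1), bl2Dom ev x g := fun g hg => S.bl2_gen_dom ev hg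
  have b3 : ∀ g ∈ S.gen (k + 2), bl2Dom ev y g := fun g hg => S.bl2_gen_dom ev hg
  have p2 : ∀ z, 0 ≤ 1 + x z + y z := fun z => by
    have := hx z; have := hy z; positivity
  have p4 : ∀ z, 0 ≤ x z * (1 + x z + y z) := fun z => mul_nonneg (hx z) (p2 z)
  obtain ⟨C, hC, a⟩ : bl2Dom ev (fun z => x z * (1 + x z + y z))
      (∑ t ∈ bl2Idx ι (k + 1), 2 * (S.bl2El t * S.L (S.bl2El t))) := by
    refine bl2Dom.sum p4 _ _ fun t ht => bl2Dom.two_mul p4 ?_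
    obtain ⟨p, hp, q, hq, hL⟩ := S.L_gen hk (S.bl2_el_mem ht)
    refine (b2 _ (S.bl2_el_mem ht)).mul ?_
    rw [hL]
    refine bl2Dom.add p2 (S.bl2_span_dom ev h1 p2 ?_ hp) (S.bl2_span_dom ev h p2 ?_ hq)
    · exact fun g hg => (b3 g hg).mono fun z => by linarith [hx z]
    · rintro g (rfl | hg)
      · exact bl2Dom.one.mono fun z => by linarith [hx z, hy z]
      · exact (b2 g hg).mono fun z => by linarith [hy z]
  refine ⟨2 * C + C ^ 2, fun z => ?_⟩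
  have q2 : ev z (S.sig (k + 1)) = x z ^ 2 := S.bl2R_sq ev (k + 1) z
  have q3 : ev z (S.sig (k + 1 + 1)) = y z ^ 2 := S.bl2R_sq ev (k + 2) z
  have t2 : ev z (2 : R) = 2 := map_ofNat _ 2
  have a' := (le_abs_self _).trans (a z)
  rw [bl2_L_sig, map_sub, map_mul, t2, q2, q3]
  have := hx z
  have := hy z
  nlinarith [sq_nonneg (C * x z - y z), mul_nonneg hC (sq_nonneg (x z - 1)), sq_nonneg C,
    mul_nonneg (mul_nonneg hC (hx z)) (hy z), mul_nonneg hC (hx z), sq_nonneg (y z)]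

end Pool.Agent.Lib.MP_de485e_gt.Hi.QA
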