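import Pool.Agent.Lib.MP_de485e_gt.Ex.Bl2
import Pool.Agent.Lib.MP_de485e_gt.Hi.M2
import Pool.Agent.Lib.MP_de485e_gt.Conv.MaxP

/-! Bounded curvature bounds all derivatives of the projector. -/

open Set Filter Topology Module Metric
open scoped RealInnerProductSpace InnerProduct Manifold ContDiff

namespace Pool.Agent.Lib.MP_de485e_gt.Ex

open Conv

variable {P Q : Type} [NormedAddCommGroup P] [InnerProductSpace ℝ P] [CompleteSpace P]
  [FiniteDimensional ℝ P] [NormedAddCommGroup Q] [InnerProductSpace ℝ Q] [CompleteSpace Q]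
  [FiniteDimensional ℝ Q]

section alg

variable {ι : Type} [Fintype ι] {X : Hi.Arr ι ℝ}

theorem bl3_PP (hG : X.Good) (a : ι) : ∑ c, X.P a c * X.P a c = X.P a a := by
  rw [← hG.PP a a]
  exact Finset.sum_congr rfl fun c _ => by rw [hG.Psymm c a]

theorem bl3_Pa (hG : X.Good) (a c : ι) : X.P a c * X.P a c ≤ X.P a a := by
  rw [← bl3_PP hG a]
  exact Finset.single_le_sum (f := fun c => X.P a c * X.P a c) (fun _ _ => mul_self_nonneg _)
    (Finset.mem_univ c)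

theorem bl3_P1 (hG : X.Good) (a : ι) : X.P a a ≤ 1 := by
  have := bl3_Pa hG a a
  nlinarith

theorem bl3_P (hG : X.Good) (a c : ι) : |X.P a c| ≤ 1 :=
  abs_le_one_iff_mul_self_le_one.2 ((bl3_Pa hG a c).trans (bl3_P1 hG a))

theorem bl3_T (hG : X.Good) {K : ℝ} (hK : 0 ≤ K)
    (h : ∀ x, X.Tan x → ∀ c, |X.Tv x x c| ≤ K * Hi.dot x x) (a b c : ι) : |X.T a b c| ≤ K := by
  have e1 : X.Tv (X.P a) (X.P b) c = X.T a b c := by
    unfold Hi.Arr.Tv
    have t : ∀ a e, X.T a e c = ∑ d, X.P a d * X.T d e c := fun a e => (hG.Ttan e c a).symm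
    rw [Finset.sum_comm, hG.Tsymm a b c, t b a]
    refine Finset.sum_congr rfl fun e _ => ?_
    rw [hG.Tsymm e a c, t a e, Finset.mul_sum]
    exact Finset.sum_congr rfl fun d _ => by ring
  have e2 : X.Tv (X.P b) (X.P a) c = X.Tv (X.P a) (X.P b) c := by
    unfold Hi.Arr.Tv
    rw [Finset.sum_comm]
    exact Finset.sum_congr rfl fun e _ => Finset.sum_congr rfl fun d _ => by
      rw [hG.Tsymm d e c]; ring
  have tan : ∀ r : ℝ, X.Tan fun d => X.P a d + r * X.P b d := fun r d => by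
    simp only [mul_add, Finset.sum_add_distrib, mul_left_comm _ r, ← Finset.mul_sum]
    have : ∀ e, ∑ f, X.P d f * X.P e f = X.P e d := fun e => by
      rw [hG.Psymm e d, ← hG.PP d e]
      exact Finset.sum_congr rfl fun f _ => by rw [hG.Psymm f e]
    rw [this, this]
  have e3 : X.Tv (fun d => X.P a d + 1 * X.P b d) (fun d => X.P a d + 1 * X.P b d) c -
      X.Tv (fun d => X.P a d + -1 * X.P b d) (fun d => X.P a d + -1 * X.P b d) c =
      2 * X.Tv (X.P a) (X.P b) c + 2 * X.Tv (X.P b) (X.P a) c := by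
    simp only [Hi.Arr.Tv, Finset.mul_sum, ← Finset.sum_sub_distrib, ← Finset.sum_add_distrib]
    exact Finset.sum_congr rfl fun e _ => Finset.sum_congr rfl fun d _ => by ring
  have e4 : Hi.dot (fun d => X.P a d + 1 * X.P b d) (fun d => X.P a d + 1 * X.P b d) +
      Hi.dot (fun d => X.P a d + -1 * X.P b d) (fun d => X.P a d + -1 * X.P b d) =
      2 * X.P a a + 2 * X.P b b := by
    rw [← bl3_PP hG a, ← bl3_PP hG b]
    simp only [Hi.dot, Finset.mul_sum, ← Finset.sum_add_distrib]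
    exact Finset.sum_congr rfl fun e _ => by ring
  have h1 := abs_le.1 (h _ (tan 1) c)
  have h2 := abs_le.1 (h _ (tan (-1)) c)
  have h3 := mul_le_mul_of_nonneg_left
    (e4.trans_le (by linarith [bl3_P1 hG a, bl3_P1 hG b] : _ ≤ (4 : ℝ))) hK
  rw [e2, e1] at e3
  rw [mul_add] at h3
  exact abs_le.2 ⟨by linarith, by linarith⟩

end alg

variable {M : Type} [TopologicalSpace M] [ChartedSpace P M] [IsManifold 𝓘(ℝ, P) ∞ M]
  [CompactSpace M] {F : ℝ → M → Q} {n : ℕ} {ι : Type} [Fintype ι] [DecidableEq ι] {s a T : ℝ}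

theorem bound_of_L (h : Hi.Flow P n F (Ioo s T)) (b : OrthonormalBasis ι ℝ Q) (ha : a ∈ Ioo s T)
    (g : Rg P (Ioo s T ×ˢ (univ : Set M))) {C : ℝ}
    (hL : ∀ z : (Ioo s T ×ˢ (univ : Set M) : Set (ℝ × M)), a ≤ z.1.1 →
      0 ≤ ev z g ∧ ev z ((h.S b).L g) ≤ C * (1 + ev z g)) :
    ∃ C', ∀ t ∈ Ico a T, ∀ x, fn g (t, x) ≤ C' := by
  obtain ⟨E, hE, hED, hET⟩ := h.dom.exists_time
    (f := fun r => Real.exp (-(|C| + 1) * (r - a)))
    (f' := fun r => Real.exp (-(|C| + 1) * (r - a)) * -(|C| + 1)) (by fun_prop) fun r => by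
      simpa using (((hasDerivAt_id r).sub_const a).const_mul (-(|C| + 1))).exp
  have h1 : ContinuousOn (fun x : M => fn (E * (1 + g)) (a, x)) univ :=
    (h.cont _).comp (continuous_const.prodMk continuous_id).continuousOn fun x _ =>
      ⟨ha, mem_univ _⟩
  obtain ⟨B, hB⟩ := isCompact_univ.bddAbove_image h1
  refine ⟨(|B| + 1) * Real.exp ((|C| + 1) * (T - a)), fun t ht x => ?_⟩
  have htJ : t ∈ Ioo s T := ⟨ha.1.trans_le ht.1, ht.2⟩
  have hsub : Icc a t ⊆ Ioo s T := h.ord.out ha htJ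
  have main : fn (E * (1 + g)) (t, x) < |B| + 1 := by
    refine maxP (a := a) (b := t) (K := |B| + 1) ((h.cont _).mono (prod_mono_left hsub)) ?_ ?_ t
      ⟨ht.1, le_rfl⟩ x
    · intro y
      have := hB ⟨y, mem_univ _, rfl⟩
      have := le_abs_self B
      simp only at *
      linarith
    · intro r hr y hle he
      have hrJ : r ∈ Ioo s T := hsub ⟨hr.1.le, hr.2⟩
      let z : (Ioo s T ×ˢ (univ : Set M) : Set (ℝ × M)) := ⟨(r, y), hrJ, mem_univ y⟩
      have ht : (h.S b).Touch (ev z) (E * (1 + g)) :=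
        Hi.touch_max h.dom h.dim h.flw b _ (G := fn (E * (1 + g))) (fun z => ev_eq z _) z hr.1
          fun r' hr' w => (hle r' hr' w).trans he.ge
      have h2 := ht.2
      have h3 : (h.S b).L 1 = 0 := by simp [Hi.QA.L, Hi.QA.Lap]
      rw [(h.S b).L_time_mul (fun a => hED (b a)), (h.S b).L_add, h3, zero_add, map_add, map_mul,
        map_mul, map_add, map_one] at h2
      have h4 : ev z ((h.S b).dt E) = Real.exp (-(|C| + 1) * (r - a)) * -(|C| + 1) := hET z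
      have h5 : ev z E = Real.exp (-(|C| + 1) * (r - a)) := hE z
      rw [h4, h5] at h2
      obtain ⟨g0, g1⟩ := hL z hr.1.le
      have g2 : C * (1 + ev z g) ≤ |C| * (1 + ev z g) :=
        mul_le_mul_of_nonneg_right (le_abs_self C) (by linarith)
      have p := Real.exp_pos (-(|C| + 1) * (r - a))
      have g3 := mul_le_mul_of_nonneg_left (g1.trans g2) p.le
      have g4 : 0 < Real.exp (-(|C| + 1) * (r - a)) * (1 + ev z g) := mul_pos p (by linarith)
      linarith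
  let z : (Ioo s T ×ˢ (univ : Set M) : Set (ℝ × M)) := ⟨(t, x), htJ, mem_univ x⟩
  have e := (ev_eq z _).trans_lt main
  rw [map_mul, hE, map_add, map_one, ev_eq] at e
  have e' : Real.exp (-(|C| + 1) * (t - a)) * (1 + fn g (t, x)) < |B| + 1 := e
  have q1 : Real.exp ((|C| + 1) * (t - a)) * Real.exp (-(|C| + 1) * (t - a)) = 1 := by
    rw [← Real.exp_add]; simp only [neg_mul, add_neg_cancel, Real.exp_zero]
  have q2 : Real.exp ((|C| + 1) * (t - a)) ≤ Real.exp ((|C| + 1) * (T - a)) :=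
    Real.exp_le_exp.2 (mul_le_mul_of_nonneg_left (by linarith [ht.2]) (by positivity))
  have q3 := mul_le_mul_of_nonneg_left e'.le (Real.exp_pos ((|C| + 1) * (t - a))).le
  rw [← mul_assoc, q1, one_mul] at q3
  have q4 := mul_le_mul_of_nonneg_right q2 (by positivity : 0 ≤ |B| + 1)
  linarith

theorem proj_bdd (h : Hi.Flow P n F (Ioo s T)) (b : OrthonormalBasis ι ℝ Q) (ha : a ∈ Ioo s T)
    {C : ℝ} (hC : ∀ t ∈ Ico a T, ∀ x u, ‖sff P (F t) x u u‖ ≤ C * ‖dF P (F t) x u‖ ^ 2)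
    (w : List ι) (i j : ι) :
    ∃ C', ∀ t ∈ Ico a T, ∀ x, |fn ((h.S b).Dw w ((h.S b).P i j)) (t, x)| ≤ C' := by
  let Z := {z : (Ioo s T ×ˢ (univ : Set M) : Set (ℝ × M)) // a ≤ z.1.1}
  let ev' : Z → Rg P (Ioo s T ×ˢ (univ : Set M)) →ₐ[ℝ] ℝ := fun z => ev z.1
  have hT : ∀ (z : Z) (a b' c : ι), |ev z.1 ((h.S b).T a b' c)| ≤ |C| + 1 := by
    intro z
    have hG := (h.S b).good_pt (ev z.1)
    refine bl3_T hG (by positivity) fun x hx c => ?_
    obtain ⟨ξ, hξ⟩ := Hi.pt_lift h.dom h.dim h.flw b z.1 hx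
    have e1 := Hi.pt_sff h.dom h.dim h.flw b z.1 ξ ξ c
    simp only [hξ] at e1
    have e2 : Hi.dot x x = ‖dF P (F z.1.1.1) z.1.1.2 ξ‖ ^ 2 := by
      rw [← real_inner_self_eq_norm_sq, ← b.sum_inner_mul_inner]
      exact Finset.sum_congr rfl fun a _ => by rw [real_inner_comm (b a), hξ]
    have e3 := hC z.1.1.1 ⟨z.2, z.1.2.1.2⟩ z.1.1.2 ξ
    have e4 := abs_real_inner_le_norm (b c) (sff P (F z.1.1.1) z.1.1.2 ξ ξ)
    rw [b.orthonormal.1 c, one_mul] at e4
    have e5 : |⟪b c, F z.1.1.1 z.1.1.2⟫| ≤ 1 := by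
      refine abs_le_one_iff_mul_self_le_one.2 (le_of_le_of_eq ?_ hG.FF)
      exact Finset.single_le_sum (f := fun c => ((h.S b).pt (ev z.1)).F c *
        ((h.S b).pt (ev z.1)).F c) (fun _ _ => mul_self_nonneg _) (Finset.mem_univ c)
    rw [real_inner_self_eq_norm_sq] at e1
    have e6 : ((h.S b).pt (ev z.1)).Tv x x c = ⟪b c, sff P (F z.1.1.1) z.1.1.2 ξ ξ⟫ -
        ‖dF P (F z.1.1.1) z.1.1.2 ξ‖ ^ 2 * ⟪b c, F z.1.1.1 z.1.1.2⟫ := eq_sub_of_add_eq e1.symm
    rw [e6, e2]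
    have n0 := sq_nonneg ‖dF P (F z.1.1.1) z.1.1.2 ξ‖
    have e7 := mul_le_mul_of_nonneg_left e5 n0
    have e8 := mul_le_mul_of_nonneg_right (le_abs_self C) n0
    refine (abs_sub _ _).trans ?_
    rw [abs_mul, abs_of_nonneg n0]
    linarith
  have B1 : (h.S b).Bdd ev' 1 := by
    rintro k hk g ⟨w, i, j, hw, rfl⟩
    match w, hw with
    | [], _ => exact ⟨1, fun z => bl3_P ((h.S b).good_pt (ev z.1)) i j⟩
    | [d], _ =>
      refine ⟨|C| + 1 + (|C| + 1), fun z => ?_⟩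
      change |ev z.1 ((h.S b).D d ((h.S b).P i j))| ≤ _
      rw [(h.S b).D_P, map_add]
      exact (abs_add_le _ _).trans (add_le_add (hT z _ _ _) (hT z _ _ _))
    | _ :: _ :: _, hw => simp only [List.length_cons] at hw; omega
  have up : ∀ k, (h.S b).Bdd ev' k → (∃ C', ∀ z : Z, ev z.1 ((h.S b).sig (k + 1)) ≤ C') →
      (h.S b).Bdd ev' (k + 1) := by
    rintro k hk ⟨C', hC'⟩ j hj g hg
    rcases hj.eq_or_lt with rfl | hj
    · refine ⟨C' + 1, fun z => ?_⟩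
      have h1 := ((h.S b).sq_le_sig hg (ev z.1)).trans (hC' z)
      change |ev z.1 g| ≤ _
      rw [← sq_abs] at h1
      nlinarith [abs_nonneg (ev z.1 g)]
    · exact hk j (by omega) g hg
  have toZ : ∀ g : Rg P (Ioo s T ×ˢ (univ : Set M)),
      (∃ C', ∀ t ∈ Ico a T, ∀ x, fn g (t, x) ≤ C') → ∃ C', ∀ z : Z, ev z.1 g ≤ C' := by
    rintro g ⟨C', hC'⟩
    exact ⟨C', fun z => (ev_eq z.1 g).trans_le (hC' _ ⟨z.2, z.1.2.1.2⟩ _)⟩
  have B2 : (h.S b).Bdd ev' 2 := by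
    obtain ⟨Λ, K, hΛ, hK⟩ := (h.S b).bern_two ev' B1
    have lo : ∀ z : (Ioo s T ×ˢ (univ : Set M) : Set (ℝ × M)), ev z ((h.S b).sig 2) ≤
        ev z ((algebraMap ℝ _ Λ + (h.S b).sig 1) * (h.S b).sig 2) := fun z => by
      rw [map_mul, map_add, AlgHom.commutes]
      exact le_mul_of_one_le_left ((h.S b).sig_nonneg 2 _)
        (le_add_of_le_of_nonneg hΛ ((h.S b).sig_nonneg 1 _))
    obtain ⟨C', hC'⟩ := toZ _ (bound_of_L h b ha _ (C := |K|) fun z hz => by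
      have h0 := ((h.S b).sig_nonneg 2 _).trans (lo z)
      refine ⟨h0, (hK ⟨z, hz⟩).trans ((le_abs_self K).trans ?_)⟩
      exact le_mul_of_one_le_right (abs_nonneg K) (by linarith))
    exact up 1 B1 ⟨C', fun z => (lo z.1).trans (hC' z)⟩
  have Bk : ∀ k, (h.S b).Bdd ev' (k + 2) := by
    intro k
    induction k with
    | zero => exact B2
    | succ k ih =>
      obtain ⟨K, hK⟩ := (h.S b).bern_high ev' (k := k + 2) (by omega) ih
      exact up (k + 2) ih (toZ _ (bound_of_L h b ha _ (C := K) fun z hz =>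
        ⟨(h.S b).sig_nonneg _ _, hK ⟨z, hz⟩⟩))
  obtain ⟨C', hC'⟩ := Bk w.length w.length (by omega) _ ⟨w, i, j, rfl, rfl⟩
  refine ⟨C', fun t ht x => ?_⟩
  have := hC' ⟨⟨(t, x), ⟨ha.1.trans_le ht.1, ht.2⟩, mem_univ x⟩, ht.1⟩
  rwa [show ev' _ = ev _ from rfl, ev_eq] at this

end Pool.Agent.Lib.MP_de485e_gt.Ex
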