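import Pool.Agent.Lib.MP_de485e_gt.Ex.Boot2

/-! From bounds along a moving frame to bounds in fixed coordinates. -/

open Set Filter Topology
open scoped ContDiff

namespace Pool.Agent.Lib.MP_de485e_gt.Ex

variable {E κ α ι : Type} [NormedAddCommGroup E] [NormedSpace ℝ E] [Fintype ι] {s a T : ℝ}
  {U K : Set E} {g : α → ℝ → E → ℝ} {D : ι → α → α} {φ η : ι → α}

/-- A family of bounded functions closed under the derivatives of a moving frame. -/
structure Mov (s a T : ℝ) (U K : Set E) (g : α → ℝ → E → ℝ) (D : ι → α → α) (φ η : ι → α) :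
    Prop where
  ha : a ∈ Ioo s T
  hU : IsOpen U
  hK : IsCompact K
  sub : K ⊆ U
  sm : ∀ i, ContDiffOn ℝ ∞ (fun p : ℝ × E => g i p.1 p.2) (Ioo s T ×ˢ U)
  bd : ∀ i, ∃ C, ∀ t ∈ Ico a T, ∀ y ∈ K, |g i t y| ≤ C
  sp : ∀ i, ∀ t ∈ Ioo s T, ∀ y ∈ U, ∀ ξ,
    fderiv ℝ (g i t) y ξ = ∑ c, fderiv ℝ (g (φ c) t) y ξ * g (D c i) t y
  tm : ∀ c, ∀ t ∈ Ioo s T, ∀ y ∈ U, HasDerivAt (fun r => g (φ c) r y) (g (η c) t y) t

/-- Bounded families. -/
def Bl4Bd (a T : ℝ) (K : Set E) (f : ℝ → E → ℝ) : Prop :=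
  ∃ C, ∀ t ∈ Ico a T, ∀ y ∈ K, |f t y| ≤ C

/-- Families with bounded derivatives along short words. -/
def Bl4B (b : κ → E) (a T : ℝ) (K : Set E) (k : ℕ) (f : ℝ → E → ℝ) : Prop :=
  ∀ w : List κ, w.length < k → Bl4Bd a T K fun t => sw b w (f t)

/-- Families of smooth functions. -/
def Bl4Sm (a T : ℝ) (U : Set E) (f : ℝ → E → ℝ) : Prop := ∀ t ∈ Ico a T, ContDiffOn ℝ ∞ (f t) U

section aux

variable {b : κ → E} {f f' : ℝ → E → ℝ} {k : ℕ}

omit [NormedAddCommGroup E] [NormedSpace ℝ E] in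
theorem Bl4Bd.add (h : Bl4Bd a T K f) (h' : Bl4Bd a T K f') :
    Bl4Bd a T K fun t y => f t y + f' t y := by
  obtain ⟨C, hC⟩ := h
  obtain ⟨C', hC'⟩ := h'
  exact ⟨C + C', fun t ht y hy => (abs_add_le _ _).trans (add_le_add (hC t ht y hy) (hC' t ht y hy))⟩

omit [NormedAddCommGroup E] [NormedSpace ℝ E] in
theorem Bl4Bd.mul (h : Bl4Bd a T K f) (h' : Bl4Bd a T K f') :
    Bl4Bd a T K fun t y => f t y * f' t y := by
  obtain ⟨C, hC⟩ := h
  obtain ⟨C', hC'⟩ := h'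
  refine ⟨C * C', fun t ht y hy => ?_⟩
  rw [abs_mul]
  exact mul_le_mul (hC t ht y hy) (hC' t ht y hy) (abs_nonneg _)
    ((abs_nonneg _).trans (hC t ht y hy))

omit [NormedAddCommGroup E] [NormedSpace ℝ E] in
theorem Bl4Bd.congr (h : Bl4Bd a T K f) (e : ∀ t ∈ Ico a T, ∀ y ∈ K, f' t y = f t y) :
    Bl4Bd a T K f' :=
  h.imp fun _ hC t ht y hy => (e t ht y hy).symm ▸ hC t ht y hy

omit [NormedAddCommGroup E] [NormedSpace ℝ E] in
theorem Bl4Bd.unif {β : Type} [Fintype β] {F : β → ℝ → E → ℝ} (h : ∀ c, Bl4Bd a T K (F c)) :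
    ∃ C, 0 ≤ C ∧ ∀ c, ∀ t ∈ Ico a T, ∀ y ∈ K, |F c t y| ≤ C := by
  choose C hC using h
  exact ⟨∑ c, |C c|, Finset.sum_nonneg fun _ _ => abs_nonneg _, fun c t ht y hy =>
    ((hC c t ht y hy).trans (le_abs_self _)).trans
      (Finset.single_le_sum (f := fun c => |C c|) (fun _ _ => abs_nonneg _) (Finset.mem_univ c))⟩

omit [NormedAddCommGroup E] [NormedSpace ℝ E] in
theorem Bl4Bd.sum {F : ι → ℝ → E → ℝ} (h : ∀ c, Bl4Bd a T K (F c)) :
    Bl4Bd a T K fun t y => ∑ c, F c t y := by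
  choose C hC using h
  exact ⟨∑ c, C c, fun t ht y hy => (Finset.abs_sum_le_sum_abs _ _).trans
    (Finset.sum_le_sum fun c _ => hC c t ht y hy)⟩

theorem Bl4B.mono {k' : ℕ} (h : Bl4B b a T K k f) (hk : k' ≤ k) : Bl4B b a T K k' f :=
  fun w hw => h w (hw.trans_le hk)

theorem Bl4B.der (h : Bl4B b a T K (k + 1) f) (i : κ) :
    Bl4B b a T K k fun t y => fderiv ℝ (f t) y (b i) :=
  fun w hw => h (i :: w) (Nat.succ_lt_succ hw)

theorem Bl4Sm.der (hU : IsOpen U) (h : Bl4Sm a T U f) (v : E) :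
    Bl4Sm a T U fun t y => fderiv ℝ (f t) y v :=
  fun t ht => sw_contDiffOn (b := fun _ : Unit => v) hU (h t ht) [()]

theorem Bl4_add (hU : IsOpen U) (w : List κ) : ∀ {p q : E → ℝ}, ContDiffOn ℝ ∞ p U →
    ContDiffOn ℝ ∞ q U → EqOn (sw b w fun y => p y + q y) (fun y => sw b w p y + sw b w q y) U := by
  induction w with
  | nil => exact fun _ _ _ _ => rfl
  | cons i w ih =>
    intro p q hp hq
    refine (sw_congr hU (fun y hy => ?_) w).trans
      (ih (sw_contDiffOn hU hp [i]) (sw_contDiffOn hU hq [i]))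
    have h1 := (hp.contDiffAt (hU.mem_nhds hy)).differentiableAt (by simp)
    have h2 := (hq.contDiffAt (hU.mem_nhds hy)).differentiableAt (by simp)
    exact congrArg (fun L : E →L[ℝ] ℝ => L (b i)) (fderiv_fun_add h1 h2)

theorem Bl4_leib (hU : IsOpen U) (i : κ) (w : List κ) {p q : E → ℝ} (hp : ContDiffOn ℝ ∞ p U)
    (hq : ContDiffOn ℝ ∞ q U) : EqOn (sw b (i :: w) fun y => p y * q y)
      (fun y => sw b w (fun y => fderiv ℝ p y (b i) * q y) y +
        sw b w (fun y => p y * fderiv ℝ q y (b i)) y) U := by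
  refine (sw_congr hU (fun y hy => ?_) w).trans (Bl4_add hU w
    ((sw_contDiffOn hU hp [i]).mul hq) (hp.mul (sw_contDiffOn hU hq [i])))
  have h1 := (hp.contDiffAt (hU.mem_nhds hy)).differentiableAt (by simp)
  have h2 := (hq.contDiffAt (hU.mem_nhds hy)).differentiableAt (by simp)
  change fderiv ℝ (fun y => p y * q y) y (b i) = fderiv ℝ p y (b i) * q y + p y * fderiv ℝ q y (b i)
  rw [fderiv_fun_mul h1 h2]
  simp only [add_apply, smul_apply, smul_eq_mul]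
  ring

theorem Bl4B.mul (hU : IsOpen U) (sub : K ⊆ U) (k : ℕ) : ∀ {f f' : ℝ → E → ℝ}, Bl4Sm a T U f →
    Bl4Sm a T U f' → Bl4B b a T K k f → Bl4B b a T K k f' →
      Bl4B b a T K k fun t y => f t y * f' t y := by
  induction k with
  | zero => exact fun _ _ _ _ w hw => absurd hw (Nat.not_lt_zero _)
  | succ k ih =>
    intro f f' s s' h h' w hw
    rcases w with _ | ⟨i, w⟩
    · exact (h [] hw).mul (h' [] hw)
    · exact ((ih (s.der hU _) s' (h.der i) (h'.mono k.le_succ) w (Nat.lt_of_succ_lt_succ hw)).add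
        (ih s (s'.der hU _) (h.mono k.le_succ) (h'.der i) w (Nat.lt_of_succ_lt_succ hw))).congr
        fun t ht y hy => Bl4_leib hU i w (s t ht) (s' t ht) (sub hy)

theorem Bl4_comm (hU : IsOpen U) (sub : K ⊆ U) (w : List κ) : ∀ {f f' : ℝ → E → ℝ},
    Bl4Sm a T U f → Bl4Sm a T U f' → Bl4B b a T K w.length f → Bl4B b a T K (w.length + 1) f' →
      Bl4Bd a T K fun t y => sw b w (fun y => f t y * f' t y) y - sw b w (f t) y * f' t y := by
  induction w with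
  | nil => exact fun _ _ _ _ => ⟨0, fun t _ y _ => by simp [sw]⟩
  | cons i w ih =>
    intro f f' s s' h h'
    refine ((ih (s.der hU _) s' (h.der i) (h'.mono (Nat.le_succ _))).add
      (Bl4B.mul hU sub _ s (s'.der hU _) h (h'.der i) w (Nat.lt_succ_self _))).congr
      fun t ht y hy => ?_
    rw [Bl4_leib hU i w (s t ht) (s' t ht) (sub hy)]
    simp only [sw]
    ring

end aux

omit [Fintype ι] in
theorem Bl4_mem (ha : a ∈ Ioo s T) {t : ℝ} (ht : t ∈ Ico a T) : t ∈ Ioo s T :=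
  ⟨ha.1.trans_le ht.1, ht.2⟩

theorem Mov.bl4_sm (h : Mov s a T U K g D φ η) (i : α) : Bl4Sm a T U (g i) := fun _ ht =>
  (h.sm i).comp (contDiffOn_const.prodMk contDiffOn_id) fun _ hy =>
    mk_mem_prod (Bl4_mem h.ha ht) hy

theorem Mov.bl4_sw (h : Mov s a T U K g D φ η) (b : κ → E) (j : α) (i : κ) (w : List κ) {t : ℝ}
    (ht : t ∈ Ico a T) {y : E} (hy : y ∈ U) : sw b (i :: w) (g j t) y =
      ∑ c, sw b w (fun y => fderiv ℝ (g (φ c) t) y (b i) * g (D c j) t y) y :=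
  ((sw_congr h.hU (fun y hy => h.sp j t (Bl4_mem h.ha ht) y hy (b i)) w).trans
    (sw_sum h.hU Finset.univ (fun c _ =>
      (((h.bl4_sm (φ c)).der h.hU (b i)) t ht).mul (h.bl4_sm (D c j) t ht)) w)) hy

theorem Mov.bl4_der (h : Mov s a T U K g D φ η) (b : κ → E) (c : ι) (w : List κ) {t : ℝ}
    (ht : t ∈ Ico a T) {y : E} (hy : y ∈ U) :
    HasDerivAt (fun r => sw b w (g (φ c) r) y) (sw b w (g (η c) t) y) t :=
  (Cm.swap (convex_Ioo s T) h.hU (Cm.of_contDiffOn isOpen_Ioo.uniqueDiffOn h.hU (h.sm (φ c)))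
    (Cm.of_contDiffOn isOpen_Ioo.uniqueDiffOn h.hU (h.sm (η c)))
    (fun t ht y hy => (h.tm c t ht y hy).hasDerivWithinAt) w t (Bl4_mem h.ha ht) y hy).hasDerivAt
    (isOpen_Ioo.mem_nhds (Bl4_mem h.ha ht))

theorem Mov.bl4_step (h : Mov s a T U K g D φ η) (b : κ → E) (i : κ) (w : List κ)
    (hV : ∀ c, Bl4B b a T K w.length fun t y => fderiv ℝ (g (φ c) t) y (b i))
    (hg : ∀ j, Bl4B b a T K (w.length + 1) (g j)) (c : ι) :
    Bl4Bd a T K fun t => sw b (i :: w) (g (φ c) t) := by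
  obtain ⟨A, hA0, hA⟩ := Bl4Bd.unif (a := a) (T := T) (K := K)
    (F := fun p : ι × ι => g (D p.2 (η p.1))) fun p => h.bd _
  obtain ⟨R, hR0, hR⟩ := Bl4Bd.unif fun c : ι => Bl4Bd.sum fun c' : ι =>
    Bl4_comm h.hU h.sub w ((h.bl4_sm (φ c')).der h.hU (b i)) (h.bl4_sm (D c' (η c))) (hV c') (hg _)
  obtain ⟨δ, hδ⟩ := h.hK.exists_bound_of_continuousOn
    (f := fun y c => sw b (i :: w) (g (φ c) a) y) (continuousOn_pi.2 fun c =>
      (sw_contDiffOn h.hU (h.bl4_sm (φ c) a ⟨le_rfl, h.ha.2⟩) _).continuousOn.mono h.sub)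
  refine ⟨gronwallBound |δ| (Fintype.card ι * A) R (T - a), fun t ht y hy => ?_⟩
  have hd : ∀ r ∈ Icc a t, HasDerivAt (fun r c => sw b (i :: w) (g (φ c) r) y)
      (fun c => sw b (i :: w) (g (η c) r) y) r := fun r hr =>
    hasDerivAt_pi.2 fun c => h.bl4_der b c _ ⟨hr.1, hr.2.trans_lt ht.2⟩ (h.sub hy)
  have h1 := norm_le_gronwallBound_of_norm_deriv_right_le (K := Fintype.card ι * A) (ε := R)
    (fun r hr => (hd r hr).continuousAt.continuousWithinAt)
    (fun r hr => (hd r (Ico_subset_Icc_self hr)).hasDerivWithinAt)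
    ((hδ y hy).trans (le_abs_self δ)) (fun r hr => ?_) t ⟨ht.1, le_rfl⟩
  · exact ((norm_le_pi_norm (fun c => sw b (i :: w) (g (φ c) t) y) c).trans h1).trans
      (gronwallBound_mono (abs_nonneg δ) hR0 (by positivity) (by linarith [ht.2]))
  · have hr' : r ∈ Ico a T := ⟨hr.1, hr.2.trans ht.2⟩
    refine (pi_norm_le_iff_of_nonneg (by positivity)).2 fun c => ?_
    have h2 := hR c r hr' y hy
    rw [Finset.sum_sub_distrib, ← h.bl4_sw b (η c) i w hr' (h.sub hy)] at h2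
    have h3 : |∑ c', sw b (i :: w) (g (φ c') r) y * g (D c' (η c)) r y| ≤
        Fintype.card ι * A * ‖fun c => sw b (i :: w) (g (φ c) r) y‖ := by
      refine (Finset.abs_sum_le_sum_abs _ _).trans ((Finset.sum_le_card_nsmul _ _
        (A * ‖fun c => sw b (i :: w) (g (φ c) r) y‖) fun c' _ => ?_).trans (le_of_eq ?_))
      · rw [abs_mul, mul_comm]
        exact mul_le_mul (hA (c, c') r hr' y hy)
          (norm_le_pi_norm (fun c => sw b (i :: w) (g (φ c) r) y) c') (abs_nonneg _) hA0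
      · rw [nsmul_eq_mul, Finset.card_univ, mul_assoc]
    exact (abs_sub_abs_le_abs_sub _ _).trans h2 |> fun h4 => by
      rw [Real.norm_eq_abs]
      exact (sub_le_iff_le_add'.1 h4).trans (add_le_add h3 le_rfl)

theorem Mov.upper (h : Mov s a T U K g D φ η) (b : κ → E) (i : α) (w : List κ) :
    ∃ C, ∀ t ∈ Ico a T, ∀ y ∈ K, |sw b w (g i t) y| ≤ C := by
  have key : ∀ k, (∀ i c, Bl4B b a T K k fun t y => fderiv ℝ (g (φ c) t) y (b i)) ∧
      ∀ j, Bl4B b a T K k (g j) := by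
    intro k
    induction k with
    | zero =>
      exact ⟨fun _ _ w hw => absurd hw (Nat.not_lt_zero _),
        fun _ w hw => absurd hw (Nat.not_lt_zero _)⟩
    | succ k ih =>
      have h1 : ∀ j, Bl4B b a T K (k + 1) (g j) := fun j w hw => by
        rcases w with _ | ⟨i, w⟩
        · exact h.bd j
        · exact (Bl4Bd.sum fun c => Bl4B.mul h.hU h.sub k ((h.bl4_sm (φ c)).der h.hU (b i))
            (h.bl4_sm (D c j)) (ih.1 i c) (ih.2 _) w (Nat.lt_of_succ_lt_succ hw)).congr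
            fun t ht y hy => h.bl4_sw b j i w ht (h.sub hy)
      exact ⟨fun i c w hw => h.bl4_step b i w (fun c => (ih.1 i c).mono (Nat.le_of_lt_succ hw))
        (fun j => (h1 j).mono hw) c, h1⟩
  exact (key _).2 i w (Nat.lt_succ_self _)

theorem Mov.lower (h : Mov s a T U K g D φ η) : ∃ l : ℝ, 0 < l ∧ ∀ t ∈ Ico a T, ∀ y ∈ K, ∀ ξ,
    l * ∑ c, fderiv ℝ (g (φ c) a) y ξ ^ 2 ≤ ∑ c, fderiv ℝ (g (φ c) t) y ξ ^ 2 := by
  obtain ⟨A, hA0, hA⟩ := Bl4Bd.unif (a := a) (T := T) (K := K)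
    (F := fun p : ι × ι => g (D p.2 (η p.1))) fun p => h.bd _
  obtain ⟨M, hM⟩ : ∃ M : ℝ, M = 2 * Fintype.card ι * A := ⟨_, rfl⟩
  have hM0 : 0 ≤ M := by rw [hM]; positivity
  refine ⟨Real.exp (-(M * (T - a))), Real.exp_pos _, fun t ht y hy ξ => ?_⟩
  have hd : ∀ r ∈ Ico a T, HasDerivAt
      (fun r => (∑ c, fderiv ℝ (g (φ c) r) y ξ ^ 2) * Real.exp (M * (r - a)))
      ((∑ c, 2 * fderiv ℝ (g (φ c) r) y ξ * fderiv ℝ (g (η c) r) y ξ +
        M * ∑ c, fderiv ℝ (g (φ c) r) y ξ ^ 2) * Real.exp (M * (r - a))) r := fun r hr => by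
    have h1 := HasDerivAt.fun_sum (u := Finset.univ) fun c _ =>
      (h.bl4_der (fun _ : Unit => ξ) c [()] hr (h.sub hy)).fun_pow 2
    have h2 := (((hasDerivAt_id r).sub_const a).const_mul M).exp
    refine (h1.mul h2).congr_deriv ?_
    simp only [sw, id, Nat.cast_ofNat, Nat.add_one_sub_one, pow_one]
    ring
  have h1 := monotoneOn_of_hasDerivWithinAt_nonneg (convex_Ico a T)
    (fun r hr => (hd r hr).continuousAt.continuousWithinAt)
    (fun r hr => (hd r (interior_subset hr)).hasDerivWithinAt) (fun r hr => ?_)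
    ⟨le_rfl, h.ha.2⟩ ht ht.1
  · simp only [sub_self, mul_zero, Real.exp_zero, mul_one] at h1
    have h2 : Real.exp (-(M * (T - a))) * Real.exp (M * (t - a)) ≤ 1 := by
      rw [← Real.exp_add]
      exact Real.exp_le_one_iff.2 (by nlinarith [ht.2])
    have h3 : 0 ≤ ∑ c, fderiv ℝ (g (φ c) t) y ξ ^ 2 := Finset.sum_nonneg fun _ _ => sq_nonneg _
    nlinarith [Real.exp_pos (-(M * (T - a)))]
  · have hr' : r ∈ Ico a T := interior_subset hr
    refine mul_nonneg ?_ (Real.exp_pos _).le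
    have h2 : ∀ c c', -(A * (fderiv ℝ (g (φ c) r) y ξ ^ 2 + fderiv ℝ (g (φ c') r) y ξ ^ 2)) ≤
        2 * fderiv ℝ (g (φ c) r) y ξ * (fderiv ℝ (g (φ c') r) y ξ * g (D c' (η c)) r y) := by
      intro c c'
      obtain ⟨h3, h4⟩ := abs_le.1 (hA (c, c') r hr' y hy)
      nlinarith [mul_nonneg (sub_nonneg.2 h3)
        (sq_nonneg (fderiv ℝ (g (φ c) r) y ξ + fderiv ℝ (g (φ c') r) y ξ)), mul_nonneg
        (sub_nonneg.2 h4) (sq_nonneg (fderiv ℝ (g (φ c) r) y ξ - fderiv ℝ (g (φ c') r) y ξ))]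
    have h3 := Finset.sum_le_sum fun c (_ : c ∈ Finset.univ) =>
      Finset.sum_le_sum fun c' (_ : c' ∈ Finset.univ) => h2 c c'
    simp only [← Finset.mul_sum, ← h.sp _ r (Bl4_mem h.ha hr') y (h.sub hy), Finset.sum_neg_distrib,
      Finset.sum_add_distrib, Finset.sum_const, Finset.card_univ, nsmul_eq_mul] at h3
    rw [hM]
    linarith

end Pool.Agent.Lib.MP_de485e_gt.Ex
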