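import Pool.Agent.Lib.MP_de485e_gt.Ex.GDef
import Pool.Agent.Lib.MP_de485e_gt.Hi.M1a

/-! Algebra and chart independence of the mean curvature vector. -/

open Set Filter Topology Module Metric
open scoped RealInnerProductSpace InnerProduct Manifold ContDiff

namespace Pool.Agent.Lib.MP_de485e_gt.Ex

open Conv

variable {P Q : Type} [NormedAddCommGroup P] [InnerProductSpace ℝ P] [CompleteSpace P]
  [FiniteDimensional ℝ P] [NormedAddCommGroup Q] [InnerProductSpace ℝ Q] [CompleteSpace Q]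
  [FiniteDimensional ℝ Q]

omit [FiniteDimensional ℝ Q] in
theorem Geo1_sum_gi {W : Type} [NormedAddCommGroup W] [NormedSpace ℝ W] {n : ℕ}
    (e : OrthonormalBasis (Fin n) ℝ P) {L : P →L[ℝ] Q}
    (hL : Function.Injective L) {A : P →L[ℝ] P} (hA : Function.Surjective A)
    (h : ∀ a b, ⟪L (A a), L (A b)⟫ = ⟪a, b⟫) (B : P →L[ℝ] P →L[ℝ] W) :
    ∑ j, B (e j) (gi L (e j)) = ∑ i, B (A (e i)) (A (e i)) := by
  have k : ∀ w, gi L w = A ((A†) w) := by
    intro w
    have : (L†) (L (A ((A†) w))) = w := by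
      refine ext_inner_right ℝ fun b => ?_
      obtain ⟨b, rfl⟩ := hA b
      rw [ContinuousLinearMap.adjoint_inner_left, h, ContinuousLinearMap.adjoint_inner_left]
    rw [← gi_gram hL (A _), this]
  calc ∑ j, B (e j) (gi L (e j)) = ∑ j, ∑ i, ⟪e j, A (e i)⟫ • B (e j) (A (e i)) := by
        refine Finset.sum_congr rfl fun j _ => ?_
        rw [k, ← e.sum_repr' ((A†) (e j)), map_sum, map_sum]
        refine Finset.sum_congr rfl fun i _ => ?_
        rw [map_smul, map_smul, ContinuousLinearMap.adjoint_inner_right, real_inner_comm]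
    _ = _ := by
        rw [Finset.sum_comm]
        refine Finset.sum_congr rfl fun i _ => ?_
        conv_rhs => rw [← e.sum_repr' (A (e i)), map_sum B, e.sum_repr' (A (e i))]
        simp

theorem trB_frame {W : Type} [NormedAddCommGroup W] [NormedSpace ℝ W] {L : P →L[ℝ] Q}
    (hL : Function.Injective L) (B : P →L[ℝ] P →L[ℝ] W) {b : Fin (finrank ℝ P) → P}
    (hb : Orthonormal ℝ fun i => L (b i)) : trB L B = ∑ i, B (b i) (b i) := by
  let e := stdOrthonormalBasis ℝ P
  let A : P →L[ℝ] P := LinearMap.toContinuousLinearMap (e.toBasis.constr ℝ b)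
  have hA : ∀ i, A (e i) = b i := fun i => e.toBasis.constr_basis ℝ b i
  have hi : ∀ a c, ⟪L (A a), L (A c)⟫ = ⟪a, c⟫ := fun a c =>
    (LinearMap.isometryOfOrthonormal (L ∘L A).toLinearMap (v := e.toBasis) e.orthonormal
      (by
        convert hb using 1
        funext i
        exact congrArg L (hA i))).inner_map_map a c
  have hs : Function.Surjective A := by
    refine (LinearMap.injective_iff_surjective (f := A.toLinearMap)).1 ?_
    rw [injective_iff_map_eq_zero]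
    intro a ha
    have ha' : A a = 0 := ha
    rw [← inner_self_eq_zero (𝕜 := ℝ), ← hi, ha', map_zero, inner_zero_right]
  rw [trB, Geo1_sum_gi e hL hs hi B]
  simp only [hA]

theorem exists_frame {L : P →L[ℝ] Q} (hL : Function.Injective L) :
    ∃ b : Fin (finrank ℝ P) → P, Orthonormal ℝ fun i => L (b i) :=
  (Hi.m_frame hL).imp fun _ h => h.1

theorem isOpen_inj : IsOpen {L : P →L[ℝ] Q | Function.Injective L} := by
  exact ContinuousLinearMap.isOpen_injective

omit [FiniteDimensional ℝ Q] in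
theorem Geo1_gi {L : P →L[ℝ] Q} (hL : Function.Injective L) :
    ContDiffAt ℝ ∞ (gi : (P →L[ℝ] Q) → P →L[ℝ] P) L := by
  have hA : ContDiffAt ℝ ∞ (fun q : P →L[ℝ] Q => q†) L :=
    (adjL (P := P) (Q := Q)).contDiff.contDiffAt
  obtain ⟨u, hu⟩ := isUnit_gram hL
  have hi := contDiffAt_ringInverse ℝ (n := ∞) u
  rw [hu] at hi
  exact hi.comp (f := fun q : P →L[ℝ] Q => q† ∘L q) L (hA.clm_comp contDiffAt_id)

theorem contDiffAt_pinv {L : P →L[ℝ] Q} (hL : Function.Injective L) :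
    ContDiffAt ℝ ∞ (pinv : (P →L[ℝ] Q) → Q →L[ℝ] P) L := by
  exact (Geo1_gi hL).clm_comp (adjL (P := P) (Q := Q)).contDiff.contDiffAt

theorem contDiffOn_Hj : ContDiffOn ℝ ∞
    (fun p : Q × (P →L[ℝ] Q) × (P →L[ℝ] P →L[ℝ] Q) => Hj p.1 p.2.1 p.2.2)
    {p | Function.Injective p.2.1} := by
  intro p hp
  have hL : ContDiffAt ℝ ∞ (fun q : Q × (P →L[ℝ] Q) × (P →L[ℝ] P →L[ℝ] Q) => q.2.1) p :=
    contDiffAt_snd.fst
  have hB : ContDiffAt ℝ ∞ (fun q : Q × (P →L[ℝ] Q) × (P →L[ℝ] P →L[ℝ] Q) => q.2.2) p :=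
    contDiffAt_snd.snd
  have hg := (Geo1_gi hp).comp p hL
  have hi := (contDiffAt_pinv hp).comp p hL
  have ht : ContDiffAt ℝ ∞
      (fun q : Q × (P →L[ℝ] Q) × (P →L[ℝ] P →L[ℝ] Q) => trB q.2.1 q.2.2) p :=
    ContDiffAt.sum fun j _ =>
      (hB.clm_apply contDiffAt_const).clm_apply (hg.clm_apply contDiffAt_const)
  exact ((ht.sub (hL.clm_apply (hi.clm_apply ht))).add
    (contDiffAt_fst.const_smul _)).contDiffWithinAt

theorem adj_Hj {L : P →L[ℝ] Q} (hL : Function.Injective L) {f : Q} (hf : (L†) f = 0)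
    (B : P →L[ℝ] P →L[ℝ] Q) : (L†) (Hj f L B) = 0 := by
  have k : (L†) (L (pinv L (trB L B))) = (L†) (trB L B) := gram_gi hL _
  rw [Hj, map_add, map_sub, map_smul, hf, k, sub_self, smul_zero, add_zero]

theorem sum_hS {f : P → Q} {y : P} (h : Nice f y) {b : Fin (finrank ℝ P) → P}
    (hb : Orthonormal ℝ fun i => fderiv ℝ f y (b i)) : ∑ i, hS f y (b i) (b i) = Hc f y := by
  have k : ∀ i, ⟪fderiv ℝ f y (b i), fderiv ℝ f y (b i)⟫ = (1 : ℝ) := fun i => by
    rw [real_inner_self_eq_norm_sq, hb.1 i, one_pow]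
  simp only [h.hS_eq, k, one_smul, Finset.sum_add_distrib, Finset.sum_sub_distrib, ← map_sum,
    Finset.sum_const, Finset.card_univ, Fintype.card_fin, ← Nat.cast_smul_eq_nsmul ℝ]
  rw [Hc, Hj, trB_frame h.inj _ hb]
  rfl

theorem Hc_reparam {f f' : P → Q} {ψ : P → P} {z : P} (hf : Nice f (ψ z))
    (hψ : ContDiffAt ℝ 2 ψ z) (e : f' =ᶠ[𝓝 z] f ∘ ψ) (hi : Function.Injective (fderiv ℝ f' z)) :
    Hc f' z = Hc f (ψ z) := by
  obtain ⟨A, -, k1, k2, -⟩ := reparam hf.sm hψ e hi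
  have hn : Nice f' z := ⟨(hf.sm.comp z hψ).congr_of_eventuallyEq e, by
    filter_upwards [e, hψ.continuousAt.eventually hf.sph] with w h1 h2
    rw [h1]
    exact h2, hi⟩
  obtain ⟨b, hb⟩ := exists_frame hi
  rw [← sum_hS hn hb, ← sum_hS hf (b := fun i => A (b i))
    (by simpa only [k1, ContinuousLinearMap.comp_apply] using hb)]
  exact Finset.sum_congr rfl fun i _ => k2 _ _

theorem Geo1_second {V : Type} [NormedAddCommGroup V] [NormedSpace ℝ V] {f : V → ℝ} {y : V}
    (hf : ContDiffAt ℝ 2 f y) (hm : IsLocalMax f y) (e : V) :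
    fderiv ℝ (fderiv ℝ f) y e e ≤ 0 := by
  have hl : ∀ s : ℝ, HasDerivAt (fun s : ℝ => y + s • e) e s := fun s => by
    simpa using ((hasDerivAt_id s).smul_const e).const_add y
  have h0 : y + (0 : ℝ) • e = y := by simp
  have ht : Tendsto (fun s : ℝ => y + s • e) (𝓝 0) (𝓝 y) := by
    have := (hl 0).continuousAt.tendsto
    rwa [h0] at this
  have h2 : HasFDerivAt (fderiv ℝ f) (fderiv ℝ (fderiv ℝ f) y) (y + (0 : ℝ) • e) := by
    rw [h0]
    exact ((hf.fderiv_right (m := 1) (by norm_num)).differentiableAt (by norm_num)).hasFDerivAt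
  have hJ : Jet (fun s : ℝ => f (y + s • e) - f y) 0 (fderiv ℝ f y e)
      (fderiv ℝ (fderiv ℝ f) y e e) := by
    refine ⟨by simp, fun s => fderiv ℝ f (y + s • e) e, ?_, by simp, ?_⟩
    · filter_upwards [ht.eventually (hf.eventually (by simp))] with s hs
      exact ((hs.differentiableAt (by norm_num)).hasFDerivAt.comp_hasDerivAt s (hl s)).sub_const _
    · have := (h2.comp_hasDerivAt 0 (hl 0)).clm_apply (hasDerivAt_const 0 e)
      simpa using this
  exact (hJ.max ((ht.eventually hm).mono fun s hs => sub_nonpos.2 hs)).2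

theorem trB_max {L : P →L[ℝ] Q} (hL : Function.Injective L) {f : P → ℝ} {y : P}
    (hf : ContDiffAt ℝ 2 f y) (hm : IsLocalMax f y) : trB L (fderiv ℝ (fderiv ℝ f) y) ≤ 0 := by
  obtain ⟨b, hb⟩ := exists_frame hL
  rw [trB_frame hL _ hb]
  exact Finset.sum_nonpos fun i _ => Geo1_second hf hm (b i)

variable {M : Type} [TopologicalSpace M] [ChartedSpace P M] [IsManifold 𝓘(ℝ, P) ∞ M]

theorem loc_smooth {V : Type} [NormedAddCommGroup V] [NormedSpace ℝ V] {F : M → V}
    (h : ContMDiff 𝓘(ℝ, P) 𝓘(ℝ, V) ∞ F) (c : M) :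
    ContDiffOn ℝ ∞ (loc P F c) (chartAt P c).target := by
  rw [← contMDiffOn_iff_contDiffOn]
  exact h.comp_contMDiffOn (contMDiffOn_chart_symm (I := 𝓘(ℝ, P)))

namespace SImm

variable {F : M → Q} (h : SImm P F)
include h

theorem Geo1_sm2 (c : M) {y : P} (hy : y ∈ (chartAt P c).target) :
    ContDiffAt ℝ 2 (loc P F c) y :=
  ((loc_smooth h.smooth c).contDiffAt ((chartAt P c).open_target.mem_nhds hy)).of_le
    (by norm_cast)

theorem Geo1_transfer {c x : M} (hx : x ∈ (chartAt P c).source) :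
    Nice (loc P F c) (chartAt P c x) ∧ mH P F x = Hc (loc P F c) (chartAt P c x) := by
  have hy := (chartAt P c).map_source hx
  have e0 := (chartAt P x).left_inv (mem_chart_source _ x)
  have c1 : ContMDiffAt 𝓘(ℝ, P) 𝓘(ℝ, P) ∞ (chartAt P x).symm (chartAt P x x) :=
    contMDiffOn_chart_symm.contMDiffAt
      ((chartAt P x).open_target.mem_nhds (mem_chart_target _ x))
  have c2 : ContMDiffAt 𝓘(ℝ, P) 𝓘(ℝ, P) ∞ (chartAt P c)
      ((chartAt P x).symm (chartAt P x x)) := by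
    rw [e0]; exact contMDiffOn_chart.contMDiffAt ((chartAt P c).open_source.mem_nhds hx)
  have c3 : ContDiffAt ℝ 2 (chartAt P c ∘ (chartAt P x).symm) (chartAt P x x) :=
    (contMDiffAt_iff_contDiffAt.1 (c2.comp _ c1)).of_le (by norm_cast)
  have e1 : loc P F x =ᶠ[𝓝 (chartAt P x x)] loc P F c ∘ (chartAt P c ∘ (chartAt P x).symm) := by
    filter_upwards [c1.continuousAt.eventually ((chartAt P c).open_source.mem_nhds
      (by rw [e0]; exact hx))] with w hw
    simp only [loc, Function.comp_apply, (chartAt P c).left_inv hw]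
  have e2 : (chartAt P c ∘ (chartAt P x).symm) (chartAt P x x) = chartAt P c x := by
    rw [Function.comp_apply, e0]
  have hn : Nice (loc P F c) (chartAt P c x) := by
    obtain ⟨A, hA, k1, -⟩ := reparam (f := loc P F c) (by rw [e2]; exact h.Geo1_sm2 c hy) c3 e1
      (h.imm x)
    rw [e2] at k1
    refine ⟨h.Geo1_sm2 c hy, Eventually.of_forall fun w => ?_, fun a b hab => ?_⟩
    · rw [real_inner_self_eq_norm_sq, loc, Function.comp_apply, h.sphere, one_pow]
    · obtain ⟨a, rfl⟩ := hA.2 a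
      obtain ⟨b, rfl⟩ := hA.2 b
      have : dF P F x a = dF P F x b := by
        unfold dF
        rw [k1]
        exact hab
      rw [h.imm x this]
  refine ⟨hn, ?_⟩
  have := Hc_reparam (f := loc P F c) (by rw [e2]; exact hn) c3 e1 (h.imm x)
  rwa [e2] at this

theorem nice (c : M) {y : P} (hy : y ∈ (chartAt P c).target) : Nice (loc P F c) y := by
  have := (h.Geo1_transfer ((chartAt P c).map_target hy)).1
  rwa [(chartAt P c).right_inv hy] at this

theorem mH_chart {c x : M} (hx : x ∈ (chartAt P c).source) :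
    mH P F x = Hc (loc P F c) (chartAt P c x) := by
  exact (h.Geo1_transfer hx).2

theorem sum_sff (x : M) {b : Fin (finrank ℝ P) → P}
    (hb : Orthonormal ℝ fun i => dF P F x (b i)) : ∑ i, sff P F x (b i) (b i) = mH P F x := by
  simp only [sff_eq (h.Geo1_sm2 x (mem_chart_target _ x))]
  exact sum_hS (h.nice x (mem_chart_target _ x)) hb

end SImm

variable {F G : ℝ → M → Q} {I J : Set ℝ}

theorem JSm.gc (h : JSm P F I) (c : M) :
    ContDiffOn ℝ ∞ (gc P F c) (I ×ˢ (chartAt P c).target) := by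
  rw [← contMDiffOn_iff_contDiffOn]
  refine ContMDiffOn.comp h (f := fun p : ℝ × P => (p.1, (chartAt P c).symm p.2)) ?_
    fun p hp => mk_mem_prod hp.1 (mem_univ _)
  exact contDiff_fst.contMDiff.contMDiffOn.prodMk ((contMDiffOn_chart_symm (I := 𝓘(ℝ, P))).comp
    contDiff_snd.contMDiff.contMDiffOn fun p hp => hp.2)

theorem JSm.slice (h : JSm P F I) {t : ℝ} (ht : t ∈ I) : ContMDiff 𝓘(ℝ, P) 𝓘(ℝ, Q) ∞ (F t) := by
  exact ContMDiffOn.comp_contMDiff h (f := fun x : M => (t, x))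
    (contMDiff_const.prodMk contMDiff_id) fun x => mk_mem_prod ht (mem_univ _)

theorem jsm_of_gc (h : ∀ t ∈ I, ∀ x,
    ContDiffWithinAt ℝ ∞ (gc P F x) (I ×ˢ univ) (t, chartAt P x x)) : JSm P F I := by
  rintro ⟨t, x⟩ hp
  have c1 : ContMDiffAt (𝓘(ℝ, ℝ).prod 𝓘(ℝ, P)) 𝓘(ℝ, ℝ × P) ∞
      (fun p : ℝ × M => (p.1, chartAt P x p.2)) (t, x) :=
    contMDiffAt_fst.prodMk_space
      ((contMDiffOn_chart.contMDiffAt (chart_source_mem_nhds P x)).comp (t, x) contMDiffAt_snd)
  have c2 := (contMDiffWithinAt_iff_contDiffWithinAt.2 (h t hp.1 x)).comp (t, x)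
    (c1.contMDiffWithinAt (s := I ×ˢ univ)) fun p hp => mk_mem_prod hp.1 (mem_univ _)
  refine c2.congr_of_eventuallyEq_of_mem (mem_nhdsWithin_of_mem_nhds ?_) hp
  filter_upwards [(continuousAt_snd (p := (t, x))).eventually (chart_source_mem_nhds P x)]
    with p hp
  simp only [Pool.Agent.Lib.MP_de485e_gt.gc, Function.comp_apply, (chartAt P x).left_inv hp]

theorem simm (h : IsSphereMCF P F I) {t : ℝ} (ht : t ∈ I) : SImm P (F t) :=
  ⟨JSm.slice h.smooth ht, h.sphere t ht, h.immersion t ht⟩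

theorem mcf_deriv (h : IsSphereMCF P F I) {t : ℝ} (ht : t ∈ I) (x : M) :
    HasDerivWithinAt (fun s => F s x) (mH P (F t) x) I t := by
  obtain ⟨b, hb⟩ := exists_frame (h.immersion t ht x)
  rw [← (simm h ht).sum_sff x hb]
  exact h.flow t ht x b hb

theorem mcf_of (hs : JSm P F I) (hi : ∀ t ∈ I, SImm P (F t))
    (hd : ∀ t ∈ I, ∀ x, HasDerivWithinAt (fun s => F s x) (mH P (F t) x) I t) :
    IsSphereMCF P F I :=
  ⟨hs, fun t ht => (hi t ht).sphere, fun t ht => (hi t ht).imm, fun t ht x b hb => by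
    rw [(hi t ht).sum_sff x hb]
    exact hd t ht x⟩

theorem mcf_mono (h : IsSphereMCF P F I) (hJ : J ⊆ I) : IsSphereMCF P F J := by
  exact ⟨h.smooth.mono (prod_mono_left hJ), fun t ht => h.sphere t (hJ ht),
    fun t ht => h.immersion t (hJ ht), fun t ht x b hb => (h.flow t (hJ ht) x b hb).mono hJ⟩

theorem mcf_congr (h : IsSphereMCF P F I) (e : ∀ t ∈ I, G t = F t) : IsSphereMCF P G I := by
  refine ⟨h.smooth.congr fun p hp => by rw [e p.1 hp.1], fun t ht => ?_, fun t ht => ?_,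
    fun t ht x b hb => ?_⟩
  · rw [e t ht]; exact h.sphere t ht
  · rw [e t ht]; exact h.immersion t ht
  · rw [e t ht] at hb ⊢
    exact (h.flow t ht x b hb).congr_of_mem (fun s hs => by rw [e s hs]) ht

theorem mcf_shift (h : IsSphereMCF P F I) (a : ℝ) :
    IsSphereMCF P (fun t => F (t - a)) {t | t - a ∈ I} := by
  refine ⟨h.smooth.comp (f := fun p : ℝ × M => (p.1 - a, p.2))
    (((contMDiff_fst.sub contMDiff_const).prodMk contMDiff_snd).contMDiffOn)
    (fun p hp => mk_mem_prod hp.1 (mem_univ _)), fun t ht => h.sphere _ ht,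
    fun t ht => h.immersion _ ht, fun t ht x b hb => ?_⟩
  have := (h.flow _ ht x b hb).scomp t (h := fun s => s - a) (s := {t | t - a ∈ I})
    ((hasDerivAt_id t).sub_const a).hasDerivWithinAt fun s hs => hs
  rwa [one_smul] at this

theorem mcf_local (h : ∀ t ∈ I, ∃ J ∈ 𝓝[I] t, t ∈ J ∧ IsSphereMCF P F J) :
    IsSphereMCF P F I := by
  refine ⟨fun p hp => ?_, fun t ht => ?_, fun t ht => ?_, fun t ht x b hb => ?_⟩
  · obtain ⟨J, hJ, ht, k⟩ := h p.1 hp.1
    exact (k.smooth p (mk_mem_prod ht (mem_univ _))).mono_of_mem_nhdsWithin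
      (nhdsWithin_prod hJ self_mem_nhdsWithin)
  · obtain ⟨J, -, ht', k⟩ := h t ht
    exact k.sphere t ht'
  · obtain ⟨J, -, ht', k⟩ := h t ht
    exact k.immersion t ht'
  · obtain ⟨J, hJ, ht', k⟩ := h t ht
    exact (k.flow t ht' x b hb).mono_of_mem_nhdsWithin hJ

end Pool.Agent.Lib.MP_de485e_gt.Ex
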