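import Pool.Agent.Lib.MP_de485e_gt.Ex.Bl3
import Pool.Agent.Lib.MP_de485e_gt.Ex.Bl4
import Pool.Agent.Lib.MP_de485e_gt.Ex.Geo1
import Pool.Agent.Lib.MP_de485e_gt.Hi.Final

/-! Bounds in charts. -/

open Set Filter Topology Module Metric
open scoped RealInnerProductSpace InnerProduct Manifold ContDiff

namespace Pool.Agent.Lib.MP_de485e_gt.Ex

open Conv

variable {P Q : Type} [NormedAddCommGroup P] [InnerProductSpace ℝ P] [CompleteSpace P]
  [FiniteDimensional ℝ P] [NormedAddCommGroup Q] [InnerProductSpace ℝ Q] [CompleteSpace Q]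
  [FiniteDimensional ℝ Q]

variable {M : Type} [TopologicalSpace M] [ChartedSpace P M] [IsManifold 𝓘(ℝ, P) ∞ M]
  {F : ℝ → M → Q} {s a T : ℝ}

variable (P) in
/-- Uniform control of the flow on `[a, T)` in a ball of the chart at `c`. -/
structure Ctl (F : ℝ → M → Q) (a T : ℝ) (c : M) (r : ℝ) : Prop where
  pos : 0 < r
  sub : ball (chartAt P c c) r ⊆ (chartAt P c).target
  bd : ∀ w, ∃ C, ∀ t ∈ Ico a T, ∀ y ∈ ball (chartAt P c c) r, ‖sw (sb P) w (loc P (F t) c) y‖ ≤ C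
  lip : ∀ w, ∃ C, ∀ t ∈ Ico a T, ∀ t' ∈ Ico a T, ∀ y ∈ ball (chartAt P c c) r,
    ‖sw (sb P) w (loc P (F t) c) y - sw (sb P) w (loc P (F t') c) y‖ ≤ C * |t - t'|
  low : ∃ l : ℝ, 0 < l ∧ ∀ t ∈ Ico a T, ∀ y ∈ ball (chartAt P c c) r, ∀ ξ,
    l * ‖ξ‖ ≤ ‖fderiv ℝ (loc P (F t) c) y ξ‖

theorem bl5_Dw {ι R : Type} [Fintype ι] [CommRing R] [Algebra ℝ R] (S : Hi.QA ι R) (w : List ι)
    (c : ι) (g : R) : S.Dw w (S.D c g) = S.Dw (w ++ [c]) g := by
  induction w with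
  | nil => rfl
  | cons i w ih => exact congrArg (S.D i) ih

/-- Elements all of whose derivatives are bounded along `ev`. -/
def bl5_B {ι R Z : Type} [Fintype ι] [CommRing R] [Algebra ℝ R] (S : Hi.QA ι R)
    (ev : Z → R →ₐ[ℝ] ℝ) (A : Set Z) : AddSubmonoid R where
  carrier := {g | ∀ w, ∃ C, ∀ z ∈ A, |ev z (S.Dw w g)| ≤ C}
  zero_mem' w := ⟨0, fun z _ => by
    have : S.Dw w 0 = 0 := by
      induction w with
      | nil => rfl
      | cons i w ih => exact (congrArg (S.D i) ih).trans (map_zero _)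
    rw [this, map_zero, abs_zero]⟩
  add_mem' {g g'} hg hg' w := by
    have : S.Dw w (g + g') = S.Dw w g + S.Dw w g' := by
      induction w with
      | nil => rfl
      | cons i w ih => exact (congrArg (S.D i) ih).trans (map_add _ _ _)
    obtain ⟨C, hC⟩ := hg w
    obtain ⟨C', hC'⟩ := hg' w
    refine ⟨C + C', fun z hz => ?_⟩
    rw [this, map_add]
    exact (abs_add_le _ _).trans (add_le_add (hC z hz) (hC' z hz))

theorem bl5_D {ι R Z : Type} [Fintype ι] [CommRing R] [Algebra ℝ R] {S : Hi.QA ι R}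
    {ev : Z → R →ₐ[ℝ] ℝ} {A : Set Z} (c : ι) {g : R} (hg : g ∈ bl5_B S ev A) :
    S.D c g ∈ bl5_B S ev A := fun w => by
  rw [bl5_Dw]
  exact hg _

theorem bl5_F {ι R Z : Type} [Fintype ι] [CommRing R] [Algebra ℝ R] {S : Hi.QA ι R}
    {ev : Z → R →ₐ[ℝ] ℝ} {A : Set Z} (h0 : ∀ c z, |ev z (S.F c)| ≤ 1)
    (hP : ∀ i j, S.P i j ∈ bl5_B S ev A) (c : ι) :
    S.F c ∈ bl5_B S ev A ∧ S.dt (S.F c) ∈ bl5_B S ev A := by
  have h1 : S.F c ∈ bl5_B S ev A := fun w => by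
    rcases w.eq_nil_or_concat' with rfl | ⟨w, i, rfl⟩
    · exact ⟨1, fun z _ => h0 c z⟩
    · rw [← bl5_Dw]
      exact hP i c w
  refine ⟨h1, ?_⟩
  rw [S.dtF, ← nsmul_eq_mul]
  exact add_mem (sum_mem fun i _ => bl5_D i (bl5_D i h1)) (nsmul_mem h1 _)

omit [CompleteSpace Q] [FiniteDimensional ℝ Q] in
theorem bl5_norm {ι : Type} [Fintype ι] (b : OrthonormalBasis ι ℝ Q) (v : Q) :
    ‖v‖ ≤ ∑ d, |⟪b d, v⟫| := by
  conv_lhs => rw [← b.sum_repr' v]
  refine (norm_sum_le _ _).trans (le_of_eq (Finset.sum_congr rfl fun d _ => ?_))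
  rw [norm_smul, b.orthonormal.1 d, mul_one, Real.norm_eq_abs]

omit [CompleteSpace P] [CompleteSpace Q] [FiniteDimensional ℝ Q] in
theorem bl5_low {K : Set P} (hK : IsCompact K) {L : P → P →L[ℝ] Q} (hL : ContinuousOn L K)
    (hi : ∀ y ∈ K, Function.Injective (L y)) :
    ∃ l : ℝ, 0 < l ∧ ∀ y ∈ K, ∀ ξ, l * ‖ξ‖ ≤ ‖L y ξ‖ := by
  obtain ⟨l, hl, h⟩ := (hK.prod (isCompact_sphere (0 : P) 1)).exists_forall_le'
    (f := fun p : P × P => ‖L p.1 p.2‖) (a := 0)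
    (((hL.comp continuousOn_fst fun _ hp => hp.1).clm_apply continuousOn_snd).norm)
    fun p hp => norm_pos_iff.2 fun e => by
      have h1 : p.2 = 0 := hi _ hp.1 (e.trans (map_zero _).symm)
      have h2 := hp.2
      rw [h1] at h2
      simp at h2
  refine ⟨l, hl, fun y hy ξ => ?_⟩
  rcases eq_or_ne ξ 0 with rfl | h0
  · simp
  have h1 : 0 < ‖ξ‖ := norm_pos_iff.2 h0
  have h2 := h (y, ‖ξ‖⁻¹ • ξ) ⟨hy, by simp [norm_smul, h1.ne']⟩
  simp only [map_smul, norm_smul, norm_inv, norm_norm] at h2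
  rwa [le_inv_mul_iff₀ h1, mul_comm] at h2

omit [IsManifold 𝓘(ℝ, P) ∞ M] in
theorem bl5_slice {V : Type} [NormedAddCommGroup V] [NormedSpace ℝ V] {O : Set (ℝ × M)}
    {G : ℝ × M → V} (hG : Smo P O G) (hO : IsOpen O) {c : M} {t : ℝ} {y : P}
    (hp : (t, y) ∈ cs P O c) : fderiv ℝ (fun y => rd P G c (t, y)) y =
      fderiv ℝ (rd P G c) (t, y) ∘L ContinuousLinearMap.inr ℝ ℝ P :=
  (((hG.contDiffAt hO hp).differentiableAt (by simp)).hasFDerivAt.comp y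
    (hasFDerivAt_prodMk_right t y)).fderiv

theorem exists_ctl [CompactSpace M] (hn : 2 ≤ finrank ℝ P) (h : IsSphereMCF P F (Ico s T))
    (ha : a ∈ Ioo s T) {C : ℝ}
    (hC : ∀ t ∈ Ico a T, ∀ x u, ‖sff P (F t) x u u‖ ≤ C * ‖dF P (F t) x u‖ ^ 2) (c : M) :
    ∃ r, Ctl P F a T c r := by
  have f : Hi.Flow P (finrank ℝ P) F (Ioo s T) :=
    Hi.flow_of_mcf ⟨hn, rfl⟩ h isOpen_Ioo ordConnected_Ioo Ioo_subset_Ico_self
  set b := stdOrthonormalBasis ℝ Q
  have hJ : Ico a T ⊆ Ioo s T := fun t ht => ⟨ha.1.trans_le ht.1, ht.2⟩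
  have hU := (chartAt P c).open_target
  obtain ⟨r, hr, hK⟩ := (nhds_basis_closedBall.mem_iff).1 (hU.mem_nhds (mem_chart_target P c))
  have hcs : ∀ t ∈ Ioo s T, ∀ y ∈ (chartAt P c).target,
      (t, y) ∈ cs P (Ioo s T ×ˢ (univ : Set M)) c := fun t ht y hy => ⟨hy, ht, mem_univ _⟩
  set A : Set (Ioo s T ×ˢ (univ : Set M) : Set (ℝ × M)) := {z | a ≤ z.1.1}
  have hF := bl5_F (S := f.S b) (ev := ev) (A := A)
    (fun d z => by
      refine (abs_real_inner_le_norm (b d) (F z.1.1 z.1.2)).trans (le_of_eq ?_)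
      rw [b.orthonormal.1 d, f.dom.sphere _ z.2, mul_one])
    fun i j w => (proj_bdd f b ha hC w i j).imp fun C' hC' z hz => by
      rw [ev_eq]
      exact hC' z.1.1 ⟨hz, z.2.1.2⟩ z.1.2
  obtain ⟨g, hg⟩ : ∃ g : bl5_B (f.S b) ev A → ℝ → P → ℝ,
      ∀ i t y, g i t y = rd P (fn i.1) c (t, y) := ⟨_, fun _ _ _ => rfl⟩
  have hg' : ∀ i t, g i t = fun y => rd P (fn i.1) c (t, y) := fun i t => funext (hg i t)
  have hs : ∀ t ∈ Ioo s T, ContDiffOn ℝ ∞ (loc P (F t) c) (chartAt P c).target := fun t ht =>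
    loc_smooth (simm h (Ioo_subset_Ico_self ht)).smooth c
  have hI : ∀ {κ : Type} (e : κ → P) (w : List κ) d, ∀ t ∈ Ioo s T, ∀ y ∈ (chartAt P c).target,
      sw e w (g ⟨_, (hF d).1⟩ t) y = ⟪b d, sw e w (loc P (F t) c) y⟫ := fun e w d t ht y hy => by
    have : g ⟨_, (hF d).1⟩ t = fun y => innerSL ℝ (b d) (loc P (F t) c y) := funext fun y => by
      rw [hg]
      exact (ev_eq (O := Ioo s T ×ˢ univ) ⟨(t, (chartAt P c).symm y), ht, mem_univ _⟩
        ((f.S b).F d)).symm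
    rw [this]
    exact sw_clm hU (hs t ht) _ w hy
  have hI1 : ∀ d, ∀ t ∈ Ioo s T, ∀ y ∈ (chartAt P c).target, ∀ ξ,
      fderiv ℝ (g ⟨_, (hF d).1⟩ t) y ξ = ⟪b d, fderiv ℝ (loc P (F t) c) y ξ⟫ :=
    fun d t ht y hy ξ => hI (fun _ : Unit => ξ) [()] d t ht y hy
  have hL : ∀ t ∈ Ioo s T, ∀ y ∈ (chartAt P c).target,
      fderiv ℝ (loc P (F t) c) y = Lc P F c (t, y) := fun t ht y hy =>
    bl5_slice f.dom.smooth f.dom.isOpen (hcs t ht y hy)
  have m : Mov s a T (chartAt P c).target (closedBall (chartAt P c c) r) g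
      (fun d i => ⟨_, bl5_D d i.2⟩) (fun d => ⟨_, (hF d).1⟩) fun d => ⟨_, (hF d).2⟩ := by
    refine ⟨ha, hU, isCompact_closedBall _ _, hK, fun i => ?_, fun i => ?_,
      fun i t ht y hy ξ => ?_, fun d t ht y hy => ?_⟩
    · simp only [hg]
      exact (fn_smo i.1 c).mono fun p hp => hcs _ hp.1 _ hp.2
    · refine (i.2 []).imp fun C' hC' t ht y _ => ?_
      have := hC' ⟨(t, (chartAt P c).symm y), hJ ht, mem_univ _⟩ ht.1
      rw [ev_eq] at this
      rw [hg]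
      exact this
    · have hp := hcs t ht y hy
      have e : ((0 : ℝ), ξ) = ∑ d, ⟪b d, Lc P F c (t, y) ξ⟫ •
          ((0 : ℝ), pinv (Lc P F c (t, y)) (b d)) := by
        refine Prod.ext ?_ ?_
        · simp [Prod.fst_sum]
        · simp only [Prod.snd_sum, Prod.smul_snd, ← map_smul, ← map_sum]
          rw [b.sum_repr' (Lc P F c (t, y) ξ), pinv_apply (f.dom.Lc_inj hp)]
      rw [hg' i, bl5_slice (fn_smo i.1) f.dom.isOpen hp, ContinuousLinearMap.comp_apply,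
        ContinuousLinearMap.inr_apply, e, map_sum]
      refine Finset.sum_congr rfl fun d _ => ?_
      rw [hI1 d t ht y hy, hL t ht y hy, map_smul, smul_eq_mul, hg]
      congr 1
      exact ((f.dom.X (b d)).rd_der f.dom.isOpen i.1 hp).symm
    · have := f.dom.hasDerivAt_fn ((f.S b).F d) ⟨(t, (chartAt P c).symm y), ht, mem_univ _⟩
      rw [ev_eq] at this
      simp only [hg]
      exact this
  have hb : ball (chartAt P c c) r ⊆ closedBall (chartAt P c c) r := ball_subset_closedBall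
  refine ⟨r, hr, hb.trans hK, fun w => ?_, fun w => ?_, ?_⟩
  · choose C' hC' using fun d => m.upper (sb P) ⟨_, (hF d).1⟩ w
    refine ⟨∑ d, C' d, fun t ht y hy => (bl5_norm b _).trans (Finset.sum_le_sum fun d _ => ?_)⟩
    rw [← hI _ w d t (hJ ht) y (hK (hb hy))]
    exact hC' d t ht y (hb hy)
  · choose C' hC' using fun d => m.upper (sb P) ⟨_, (hF d).2⟩ w
    refine ⟨∑ d, C' d, fun t ht t' ht' y hy => (bl5_norm b _).trans ?_⟩
    rw [Finset.sum_mul]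
    refine Finset.sum_le_sum fun d _ => ?_
    rw [inner_sub_right, ← hI _ w d t (hJ ht) y (hK (hb hy)), ← hI _ w d t' (hJ ht') y (hK (hb hy))]
    have k := Cm.swap (b := sb P) (u := g ⟨_, (hF d).1⟩) (G := g ⟨_, (hF d).2⟩) (convex_Ioo s T) hU
      (Cm.of_contDiffOn isOpen_Ioo.uniqueDiffOn hU (m.sm ⟨_, (hF d).1⟩))
      (Cm.of_contDiffOn isOpen_Ioo.uniqueDiffOn hU (m.sm ⟨_, (hF d).2⟩))
      (fun t ht y hy => (m.tm d t ht y hy).hasDerivWithinAt) w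
    exact (convex_Ico a T).norm_image_sub_le_of_norm_hasDerivWithin_le
      (fun τ hτ => (k τ (hJ hτ) y (hK (hb hy))).mono hJ) (fun τ hτ => hC' d τ hτ y (hb hy)) ht' ht
  · obtain ⟨l, hl, h1⟩ := m.lower
    obtain ⟨l', hl', h2⟩ := bl5_low (isCompact_closedBall (chartAt P c c) r)
      (L := fderiv ℝ (loc P (F a) c))
      (((hs a ha).continuousOn_fderiv_of_isOpen hU (by simp)).mono hK)
      fun y hy => hL a ha y (hK hy) ▸ f.dom.Lc_inj (hcs a ha y (hK hy))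
    refine ⟨√l * l', by positivity, fun t ht y hy ξ => ?_⟩
    have h3 := h1 t ht y (hb hy) ξ
    simp only [hI1 _ a ha y (hK (hb hy)), hI1 _ t (hJ ht) y (hK (hb hy)),
      b.sum_sq_inner_right] at h3
    have h4 := Real.sqrt_le_sqrt h3
    rw [Real.sqrt_mul hl.le, Real.sqrt_sq (norm_nonneg _), Real.sqrt_sq (norm_nonneg _)] at h4
    rw [mul_assoc]
    exact (mul_le_mul_of_nonneg_left (h2 y (hb hy) ξ) (Real.sqrt_nonneg _)).trans h4

end Pool.Agent.Lib.MP_de485e_gt.Ex
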