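import Pool.Agent.Lib.MP_de485e_gt.Ex.Boot1

/-! Joint smoothness from an evolution equation. -/

open Set
open scoped ContDiff

namespace Pool.Agent.Lib.MP_de485e_gt.Ex

variable {E κ V : Type} [NormedAddCommGroup E] [NormedSpace ℝ E] [NormedAddCommGroup V]
  [NormedSpace ℝ V] {J : Set ℝ} {U : Set E} {u G : ℝ → E → V}

omit [NormedSpace ℝ E] [NormedSpace ℝ V] in
/-- Joint continuity in `ε`-`δ` form, with the ball inside the open set. -/
theorem boot2_near (hU : IsOpen U) {D : ℝ × E → V} (hD : ContinuousOn D (J ×ˢ U)) {t : ℝ}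
    (ht : t ∈ J) {y : E} (hy : y ∈ U) {ε : ℝ} (hε : 0 < ε) :
    ∃ δ > 0, Metric.ball y δ ⊆ U ∧ ∀ s ∈ J ∩ Metric.ball t δ, ∀ z ∈ Metric.ball y δ,
      ‖D (s, z) - D (t, y)‖ ≤ ε := by
  obtain ⟨δ₁, h1, hb⟩ := Metric.isOpen_iff.1 hU y hy
  obtain ⟨δ₂, h2, hc⟩ := Metric.continuousWithinAt_iff.1 (hD (t, y) (mk_mem_prod ht hy)) ε hε
  refine ⟨min δ₁ δ₂, lt_min h1 h2, (Metric.ball_subset_ball (min_le_left _ _)).trans hb,
    fun s hs z hz => ?_⟩
  have hz1 : z ∈ U := hb (Metric.ball_subset_ball (min_le_left _ _) hz)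
  have hd : dist (s, z) (t, y) < δ₂ := by
    rw [Prod.dist_eq]
    exact max_lt (lt_of_lt_of_le hs.2 (min_le_right _ _)) (lt_of_lt_of_le hz (min_le_right _ _))
  have := hc (mk_mem_prod hs.1 hz1) hd
  rw [dist_eq_norm] at this
  exact this.le

/-- Mean value inequality in time. -/
theorem boot2_mv (hJ : Convex ℝ J) {f g : ℝ → V} {c : V} {t δ C : ℝ} (hδ : 0 < δ) (ht : t ∈ J)
    (hf : ∀ s ∈ J, HasDerivWithinAt f (g s) J s)
    (hc : ∀ s ∈ J ∩ Metric.ball t δ, ‖g s - c‖ ≤ C) {s : ℝ} (hs : s ∈ J ∩ Metric.ball t δ) :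
    ‖f s - f t - (s - t) • c‖ ≤ C * ‖s - t‖ := by
  have hK : Convex ℝ (J ∩ Metric.ball t δ) := hJ.inter (convex_ball t δ)
  have key := hK.norm_image_sub_le_of_norm_hasDerivWithin_le
    (f := fun σ : ℝ => f σ - σ • c) (f' := fun σ => g σ - c) (C := C)
    (fun σ hσ => by
      have h1 : HasDerivWithinAt (fun σ : ℝ => σ • c) c (J ∩ Metric.ball t δ) σ := by
        simpa using ((hasDerivAt_id σ).smul_const c).hasDerivWithinAt
      exact ((hf σ hσ.1).mono inter_subset_left).sub h1)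
    hc (⟨ht, Metric.mem_ball_self hδ⟩ : t ∈ J ∩ Metric.ball t δ) hs
  have e : f s - f t - (s - t) • c = f s - s • c - (f t - t • c) := by
    rw [sub_smul]; abel
  rw [e]
  exact key

theorem boot2_line {g : E → V} {y v : E} {h : ℝ} (hg : DifferentiableAt ℝ g (y + h • v)) :
    HasDerivAt (fun τ : ℝ => g (y + τ • v)) (fderiv ℝ g (y + h • v) v) h := by
  have h1 : HasDerivAt (fun τ : ℝ => y + τ • v) v h := by
    simpa using ((hasDerivAt_id h).smul_const v).const_add y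
  exact hg.hasFDerivAt.comp_hasDerivAt h h1

/-- One space derivative commutes with the time derivative. -/
theorem boot2_one (hJ : Convex ℝ J) (hU : IsOpen U) (v : E)
    (hu : ∀ t ∈ J, DifferentiableOn ℝ (u t) U) (hG : ∀ t ∈ J, DifferentiableOn ℝ (G t) U)
    (hD : ContinuousOn (fun p : ℝ × E => fderiv ℝ (G p.1) p.2 v) (J ×ˢ U))
    (he : ∀ t ∈ J, ∀ y ∈ U, HasDerivWithinAt (fun s => u s y) (G t y) J t) :
    ∀ t ∈ J, ∀ y ∈ U,
      HasDerivWithinAt (fun s => fderiv ℝ (u s) y v) (fderiv ℝ (G t) y v) J t := by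
  intro t ht y hy
  rw [hasDerivWithinAt_iff_isLittleO, Asymptotics.isLittleO_iff]
  intro ε hε
  obtain ⟨δ, hδ, hb, hc⟩ := boot2_near hU hD ht hy hε
  have hcont : Continuous fun τ : ℝ => y + τ • v := by fun_prop
  have hopen : IsOpen ((fun τ : ℝ => y + τ • v) ⁻¹' Metric.ball y δ) :=
    Metric.isOpen_ball.preimage hcont
  obtain ⟨η, hη, hηb⟩ := Metric.isOpen_iff.1 hopen 0 (by simpa using hδ)
  filter_upwards [inter_mem_nhdsWithin J (Metric.ball_mem_nhds t hδ)] with s hs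
  set D : V := fderiv ℝ (G t) y v with hDdef
  -- increments of `G` along the line
  have hGl : ∀ σ ∈ J ∩ Metric.ball t δ, ∀ h ∈ Metric.ball (0 : ℝ) η,
      ‖G σ (y + h • v) - G σ y - h • D‖ ≤ ε * ‖h‖ := by
    intro σ hσ h hh
    have := boot2_mv (J := Metric.ball (0 : ℝ) η) (convex_ball 0 η)
      (f := fun τ : ℝ => G σ (y + τ • v)) (g := fun τ => fderiv ℝ (G σ) (y + τ • v) v) (c := D)
      (t := 0) (δ := η) (C := ε) hη (Metric.mem_ball_self hη)
      (fun τ hτ => (boot2_line ((hG σ hσ.1).differentiableAt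
        (hU.mem_nhds (hb (hηb hτ))))).hasDerivWithinAt)
      (fun τ hτ => hc σ hσ _ (hηb hτ.1)) (s := h) ⟨hh, hh⟩
    simpa using this
  -- double increments of `u`
  have hul : ∀ h ∈ Metric.ball (0 : ℝ) η,
      ‖(u s (y + h • v) - u s y) - (u t (y + h • v) - u t y) - (s - t) • (h • D)‖
        ≤ (ε * ‖h‖) * ‖s - t‖ := by
    intro h hh
    exact boot2_mv hJ (f := fun σ => u σ (y + h • v) - u σ y)
      (g := fun σ => G σ (y + h • v) - G σ y) (c := h • D) hδ ht
      (fun σ hσ => (he σ hσ _ (hb (hηb hh))).sub (he σ hσ y hy))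
      (fun σ hσ => hGl σ hσ h hh) hs
  have hd : HasDerivAt (fun h : ℝ => u s (y + h • v) - u t (y + h • v) - (s - t) • (h • D))
      (fderiv ℝ (u s) y v - fderiv ℝ (u t) y v - (s - t) • D) 0 := by
    have a1 := boot2_line (g := u s) (y := y) (v := v) (h := 0)
      (by simpa using (hu s hs.1).differentiableAt (hU.mem_nhds hy))
    have a2 := boot2_line (g := u t) (y := y) (v := v) (h := 0)
      (by simpa using (hu t ht).differentiableAt (hU.mem_nhds hy))
    have a3 : HasDerivAt (fun h : ℝ => (s - t) • (h • D)) ((s - t) • D) 0 := by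
      have a4 : HasDerivAt (fun h : ℝ => h • D) D 0 := by
        simpa using (hasDerivAt_id (0 : ℝ)).smul_const D
      exact a4.const_smul (s - t)
    simp only [zero_smul, add_zero] at a1 a2
    exact (a1.sub a2).sub a3
  refine hd.le_of_lip' (mul_nonneg hε.le (norm_nonneg _)) ?_
  filter_upwards [Metric.ball_mem_nhds (0 : ℝ) hη] with h hh
  have := hul h hh
  have e : u s (y + h • v) - u t (y + h • v) - (s - t) • (h • D) -
      (u s (y + (0 : ℝ) • v) - u t (y + (0 : ℝ) • v) - (s - t) • ((0 : ℝ) • D)) =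
      (u s (y + h • v) - u s y) - (u t (y + h • v) - u t y) - (s - t) • (h • D) := by
    simp only [zero_smul, add_zero, smul_zero, sub_zero]
    abel
  rw [e, sub_zero]
  calc _ ≤ (ε * ‖h‖) * ‖s - t‖ := this
    _ = ε * ‖s - t‖ * ‖h‖ := by ring

theorem Cm.swap {b : κ → E} (hJ : Convex ℝ J) (hU : IsOpen U) (hu : Cm b J U 0 u)
    (hG : Cm b J U 0 G) (he : ∀ t ∈ J, ∀ y ∈ U, HasDerivWithinAt (fun s => u s y) (G t y) J t)
    (w : List κ) : ∀ t ∈ J, ∀ y ∈ U,
      HasDerivWithinAt (fun s => sw b w (u s) y) (sw b w (G t) y) J t := by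
  induction w generalizing u G with
  | nil => exact he
  | cons i w ih =>
    exact ih (hu.der i) (hG.der i)
      (boot2_one hJ hU (b i) (hu []).2 (hG []).2 (hG [i]).1.continuousOn he)

theorem boot2_sw {b : κ → E} {m : ℕ} (h : Cm b J U m u) (w : List κ) :
    Cm b J U m fun t => sw b w (u t) := by
  intro w'
  simpa only [sw_append] using h (w ++ w')

/-- A jointly continuous time derivative and a space derivative give the joint derivative. -/
theorem boot2_joint (hJ : Convex ℝ J) (hU : IsOpen U)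
    (hu : ∀ t ∈ J, DifferentiableOn ℝ (u t) U)
    (hG : ContinuousOn (fun p : ℝ × E => G p.1 p.2) (J ×ˢ U))
    (he : ∀ t ∈ J, ∀ y ∈ U, HasDerivWithinAt (fun s => u s y) (G t y) J t)
    {p : ℝ × E} (hp : p ∈ J ×ˢ U) :
    HasFDerivWithinAt (fun p : ℝ × E => u p.1 p.2)
      ((ContinuousLinearMap.fst ℝ ℝ E).smulRight (G p.1 p.2) +
        (fderiv ℝ (u p.1) p.2).comp (ContinuousLinearMap.snd ℝ ℝ E)) (J ×ˢ U) p := by
  obtain ⟨t, y⟩ := p
  have ht : t ∈ J := hp.1
  have hy : y ∈ U := hp.2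
  have h2 : HasFDerivWithinAt (fun p : ℝ × E => u t p.2)
      ((fderiv ℝ (u t) y).comp (ContinuousLinearMap.snd ℝ ℝ E)) (J ×ˢ U) (t, y) :=
    (((hu t ht).differentiableAt (hU.mem_nhds hy)).hasFDerivAt.comp (t, y)
      (hasFDerivAt_snd (𝕜 := ℝ) (p := (t, y)))).hasFDerivWithinAt
  have h1 : HasFDerivWithinAt (fun p : ℝ × E => u p.1 p.2 - u t p.2)
      ((ContinuousLinearMap.fst ℝ ℝ E).smulRight (G t y)) (J ×ˢ U) (t, y) := by
    rw [hasFDerivWithinAt_iff_isLittleO, Asymptotics.isLittleO_iff]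
    intro ε hε
    obtain ⟨δ, hδ, hb, hc⟩ := boot2_near hU hG ht hy hε
    filter_upwards [inter_mem_nhdsWithin (J ×ˢ U) (Metric.ball_mem_nhds (t, y) hδ)] with q hq
    have hq2 := hq.2
    rw [← ball_prod_same] at hq2
    have := boot2_mv hJ (f := fun σ => u σ q.2) (g := fun σ => G σ q.2) (c := G t y) hδ ht
      (fun σ hσ => he σ hσ _ hq.1.2) (fun σ hσ => hc σ hσ _ hq2.2) (s := q.1) ⟨hq.1.1, hq2.1⟩
    have hn : ‖q.1 - t‖ ≤ ‖q - (t, y)‖ := norm_fst_le (q - (t, y))
    simp only [sub_self, sub_zero, ContinuousLinearMap.smulRight_apply,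
      ContinuousLinearMap.coe_fst', Prod.fst_sub]
    exact this.trans (mul_le_mul_of_nonneg_left hn hε.le)
  have := h1.add h2
  refine this.congr (fun q _ => ?_) ?_ <;> simp

theorem boot [Fintype κ] [FiniteDimensional ℝ E] (b : Module.Basis κ ℝ E) (hJ : Convex ℝ J)
    (hJ' : UniqueDiffOn ℝ J) (hU : IsOpen U) (hu : Cm b J U 0 u)
    (hG : ∀ m, Cm b J U m u → Cm b J U m G)
    (he : ∀ t ∈ J, ∀ y ∈ U, HasDerivWithinAt (fun s => u s y) (G t y) J t) :
    ContDiffOn ℝ ∞ (fun p : ℝ × E => u p.1 p.2) (J ×ˢ U) := by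
  have all : ∀ m, Cm b J U m u := by
    intro m
    induction m with
    | zero => exact hu
    | succ m ih =>
      intro w
      refine ⟨?_, (hu w).2⟩
      have hg := ((hG m ih) w).1
      have hf : ContDiffOn ℝ m (fun p : ℝ × E => fderiv ℝ (sw b w (u p.1)) p.2) (J ×ˢ U) :=
        (((boot2_sw ih w).fderiv hJ' hU) []).1
      rw [Nat.cast_succ,
        contDiffOn_succ_iff_hasFDerivWithinAt_of_uniqueDiffOn (hJ'.prod hU.uniqueDiffOn)]
      refine ⟨by simp, fun p => (ContinuousLinearMap.fst ℝ ℝ E).smulRight (sw b w (G p.1) p.2) +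
        (fderiv ℝ (sw b w (u p.1)) p.2).comp (ContinuousLinearMap.snd ℝ ℝ E), ?_, fun p hp => ?_⟩
      · exact (contDiffOn_const.smulRight hg).add (hf.clm_comp contDiffOn_const)
      · exact boot2_joint (u := fun t => sw b w (u t)) (G := fun t => sw b w (G t)) hJ hU
          (hu w).2 hg.continuousOn (Cm.swap hJ hU hu (hG 0 hu) he w) hp
  exact contDiffOn_infty.2 fun m => (all m []).1

end Pool.Agent.Lib.MP_de485e_gt.Ex
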