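import Pool.Agent.Lib.MP_de485e_gt.Ex.Boot1

/-! Limits of smooth functions with bounded derivatives. -/

open Set Filter Topology
open scoped ContDiff

namespace Pool.Agent.Lib.MP_de485e_gt.Ex

variable {E κ V : Type} [NormedAddCommGroup E] [NormedSpace ℝ E] [FiniteDimensional ℝ E]
  [NormedAddCommGroup V] [NormedSpace ℝ V] [Fintype κ] (b : Module.Basis κ ℝ E) {J : Set ℝ}
  {U : Set E}

theorem Boot3_apply (L : E →L[ℝ] V) (v : E) : L v = ∑ i, b.equivFun v i • L (b i) := by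
  conv_lhs => rw [← b.sum_equivFun v]
  simp only [map_sum, map_smul]

theorem Boot3_norm : ∃ K : ℝ, 0 ≤ K ∧ ∀ (L : E →L[ℝ] V) (C : ℝ), (∀ i, ‖L (b i)‖ ≤ C) →
    ‖L‖ ≤ K * C := by
  refine ⟨∑ i, ‖LinearMap.toContinuousLinearMap (b.coord i)‖, by positivity, fun L C h => ?_⟩
  rw [Finset.sum_mul]
  refine L.opNorm_le_bound (Finset.sum_nonneg fun i _ =>
    mul_nonneg (norm_nonneg _) ((norm_nonneg _).trans (h i))) fun v => ?_
  rw [Boot3_apply b L v, Finset.sum_mul]
  refine (norm_sum_le _ _).trans (Finset.sum_le_sum fun i _ => ?_)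
  rw [norm_smul, mul_right_comm]
  exact mul_le_mul ((LinearMap.toContinuousLinearMap (b.coord i)).le_opNorm v) (h i)
    (norm_nonneg _) (by positivity)

theorem exists_lip : ∃ K : ℝ, 0 ≤ K ∧ ∀ (U : Set E) (g : E → V) (C : ℝ), IsOpen U → Convex ℝ U →
    DifferentiableOn ℝ g U → (∀ i, ∀ y ∈ U, ‖fderiv ℝ g y (b i)‖ ≤ C) →
    ∀ y ∈ U, ∀ y' ∈ U, ‖g y - g y'‖ ≤ K * C * ‖y - y'‖ := by
  obtain ⟨K, K0, hK⟩ := Boot3_norm (V := V) b
  exact ⟨K, K0, fun U g C hU hc hg h y hy y' hy' =>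
    hc.norm_image_sub_le_of_norm_fderiv_le (𝕜 := ℝ)
      (fun x hx => hg.differentiableAt (hU.mem_nhds hx)) (fun x hx => hK _ _ fun i => h i x hx)
      hy' hy⟩

theorem lim_fam (hU : IsOpen U) {α : Type} {l : Filter α} [l.NeBot] {f : α → E → V}
    (hs : ∀ᶠ a in l, ContDiffOn ℝ ∞ (f a) U)
    (hb : ∀ w, ∃ C, ∀ᶠ a in l, ∀ y ∈ U, ‖sw b w (f a) y‖ ≤ C) {g : List κ → E → V}
    (hg : ∀ w, ∀ y ∈ U, Tendsto (fun a => sw b w (f a) y) l (𝓝 (g w y))) (w : List κ) :
    ∀ y ∈ U, HasFDerivAt (g w) (b.constrL fun i => g (w ++ [i]) y) y := by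
  intro y hy
  obtain ⟨K, K0, hK⟩ := Boot3_norm (V := V) b
  obtain ⟨K', K0', hK'⟩ := exists_lip (V := V) b
  obtain ⟨r, r0, hr⟩ := Metric.isOpen_iff.1 hU y hy
  choose C hC using hb
  set D : ℝ := ∑ p : κ × κ, |C (w ++ [p.1] ++ [p.2])| with hD
  have D0 : 0 ≤ D := by positivity
  have key : ∀ z ∈ Metric.ball y r,
      ‖g w z - g w y - (b.constrL fun i => g (w ++ [i]) y) (z - y)‖
        ≤ K * (K' * D * ‖z - y‖) * ‖z - y‖ := by
    intro z hz
    have lim : Tendsto (fun a => ‖sw b w (f a) z - sw b w (f a) y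
        - ∑ i, b.equivFun (z - y) i • sw b (w ++ [i]) (f a) y‖) l
        (𝓝 ‖g w z - g w y - (b.constrL fun i => g (w ++ [i]) y) (z - y)‖) := by
      rw [Module.Basis.constrL_apply]
      exact (((hg w z (hr hz)).sub (hg w y hy)).sub
        (tendsto_finsetSum _ fun i _ => (hg _ y hy).const_smul _)).norm
    refine le_of_tendsto lim ?_
    filter_upwards [hs, eventually_all.2 fun p : κ × κ => hC (w ++ [p.1] ++ [p.2])] with a h1 h2
    have sub : Metric.closedBall y ‖z - y‖ ⊆ Metric.ball y r :=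
      Metric.closedBall_subset_ball (by rwa [← dist_eq_norm])
    have d : ∀ w', DifferentiableOn ℝ (sw b w' (f a)) U := fun w' =>
      (sw_contDiffOn hU h1 w').differentiableOn (by simp)
    have e := (convex_closedBall y ‖z - y‖).norm_image_sub_le_of_norm_fderiv_le' (𝕜 := ℝ)
      (f := sw b w (f a)) (φ := fderiv ℝ (sw b w (f a)) y) (C := K * (K' * D * ‖z - y‖))
      (fun x hx => (d w).differentiableAt (hU.mem_nhds (hr (sub hx)))) (fun x hx => ?_)
      (Metric.mem_closedBall_self (norm_nonneg _)) (y := z) (by simp [dist_eq_norm])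
    · rw [Boot3_apply b (fderiv ℝ (sw b w (f a)) y)] at e
      simpa only [sw_snoc] using e
    · refine hK _ _ fun i => ?_
      have := hK' (Metric.ball y r) (sw b (w ++ [i]) (f a)) D Metric.isOpen_ball (convex_ball y r)
        ((d _).mono hr) (fun j x hx => ?_) x (sub hx) y (Metric.mem_ball_self r0)
      · rw [sw_snoc] at this
        refine this.trans ?_
        gcongr
        rwa [← dist_eq_norm x y]
      · have h3 := h2 (i, j) x (hr hx)
        rw [sw_snoc] at h3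
        exact h3.trans ((le_abs_self _).trans (Finset.single_le_sum
          (f := fun p : κ × κ => |C (w ++ [p.1] ++ [p.2])|) (fun _ _ => abs_nonneg _)
          (Finset.mem_univ (i, j))))
  rw [hasFDerivAt_iff_isLittleO]
  refine Asymptotics.IsLittleO.of_bound fun c c0 => ?_
  have t : Tendsto (fun z => K * (K' * D * ‖z - y‖)) (𝓝 y) (𝓝 0) :=
    Continuous.tendsto' (by fun_prop) _ _ (by simp)
  filter_upwards [Metric.ball_mem_nhds y r0, t.eventually (ge_mem_nhds c0)] with z h1 h2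
  exact (key z h1).trans (by gcongr)

theorem sw_of_fam (hU : IsOpen U) {g : List κ → E → V}
    (hd : ∀ w, ∀ y ∈ U, HasFDerivAt (g w) (b.constrL fun i => g (w ++ [i]) y) y) :
    ContDiffOn ℝ ∞ (g []) U ∧ ∀ w, EqOn (sw b w (g [])) (g w) U := by
  have sm : ∀ n : ℕ, ∀ w, ContDiffOn ℝ n (g w) U := by
    intro n
    induction n with
    | zero =>
      exact fun w => contDiffOn_zero.2 fun y hy => (hd w y hy).continuousAt.continuousWithinAt
    | succ n ih =>
      intro w
      rw [Nat.cast_succ, contDiffOn_succ_iff_fderiv_of_isOpen hU]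
      refine ⟨fun y hy => (hd w y hy).differentiableAt.differentiableWithinAt, by simp, ?_⟩
      refine contDiffOn_clm_apply.2 fun v => ?_
      refine (ContDiffOn.sum (s := Finset.univ) fun i _ =>
        (ih (w ++ [i])).const_smul (b.equivFun v i)).congr fun y hy => ?_
      rw [(hd w y hy).fderiv, Module.Basis.constrL_apply]
  have eq : ∀ w w', EqOn (sw b w (g w')) (g (w' ++ w)) U := by
    intro w
    induction w with
    | nil => intro w' y _; simp [sw]
    | cons i w ih =>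
      intro w'
      have e : EqOn (fun y => fderiv ℝ (g w') y (b i)) (g (w' ++ [i])) U := fun y hy => by
        simp only [(hd w' y hy).fderiv, Module.Basis.constrL_basis]
      have := (sw_congr (b := b) hU e w).trans (ih (w' ++ [i]))
      rwa [List.append_assoc] at this
  exact ⟨contDiffOn_infty.2 fun n => sm n [], fun w => eq w []⟩

theorem cm_of_cont (hU : IsOpen U) {u : ℝ → E → V} (hs : ∀ t ∈ J, ContDiffOn ℝ ∞ (u t) U)
    (hc : ∀ w, ContinuousOn (fun p : ℝ × E => sw b w (u p.1) p.2) (J ×ˢ U)) : Cm b J U 0 u := by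
  exact fun w => ⟨contDiffOn_zero.2 (hc w), fun t ht =>
    (sw_contDiffOn hU (hs t ht) w).differentiableOn (by simp)⟩

theorem cm_of_lip (hU : IsOpen U) (hU' : Convex ℝ U) {u : ℝ → E → V}
    (hs : ∀ t ∈ J, ContDiffOn ℝ ∞ (u t) U)
    (hb : ∀ w, ∃ C, ∀ t ∈ J, ∀ y ∈ U, ‖sw b w (u t) y‖ ≤ C)
    (hl : ∀ w, ∃ C, ∀ s ∈ J, ∀ t ∈ J, ∀ y ∈ U, ‖sw b w (u s) y - sw b w (u t) y‖ ≤ C * |s - t|) :
    Cm b J U 0 u := by
  refine cm_of_cont b hU hs fun w => ?_
  obtain ⟨C, hC⟩ := hl w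
  refine continuousOn_prod_of_continuousOn_lipschitzOnWith _ C.toNNReal
    (fun t ht => (sw_contDiffOn hU (hs t ht) w).continuousOn) fun y hy => ?_
  refine LipschitzOnWith.of_dist_le' fun s hs t ht => ?_
  rw [dist_eq_norm, Real.dist_eq]
  exact hC s hs t ht y hy

end Pool.Agent.Lib.MP_de485e_gt.Ex
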