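import Pool.Agent.Lib.MP_de485e_gt.Ex.Geo1
import Pool.Agent.Lib.MP_de485e_gt.Ex.Boot2
import Pool.Agent.Lib.MP_de485e_gt.Ex.Boot3

/-! Openness of immersions, regularity and gluing of flows. -/

open Set Filter Topology Module Metric
open scoped RealInnerProductSpace InnerProduct Manifold ContDiff

namespace Pool.Agent.Lib.MP_de485e_gt.Ex

open Conv

variable {P Q : Type} [NormedAddCommGroup P] [InnerProductSpace ℝ P] [CompleteSpace P]
  [FiniteDimensional ℝ P] [NormedAddCommGroup Q] [InnerProductSpace ℝ Q] [CompleteSpace Q]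
  [FiniteDimensional ℝ Q]

theorem boot_H {J : Set ℝ} {U : Set P} (hJ : Convex ℝ J) (hJ' : UniqueDiffOn ℝ J) (hU : IsOpen U)
    {g : ℝ → P → Q} (hg : Cm (sb P) J U 0 g)
    (hi : ∀ t ∈ J, ∀ y ∈ U, Function.Injective (fderiv ℝ (g t) y))
    (he : ∀ t ∈ J, ∀ y ∈ U, HasDerivWithinAt (fun s => g s y) (Hc (g t) y) J t) :
    ContDiffOn ℝ ∞ (fun p : ℝ × P => g p.1 p.2) (J ×ˢ U) := by
  refine boot (sb P) hJ hJ' hU hg (G := fun t y => Hc (g t) y) (fun m hm => ?_) he
  have h1 := hm.fderiv hJ' hU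
  have h2 := h1.fderiv hJ' hU
  have h3 := hm.prod hU (h1.prod hU h2)
  have ho : IsOpen {p : Q × (P →L[ℝ] Q) × (P →L[ℝ] P →L[ℝ] Q) | Function.Injective p.2.1} :=
    (isOpen_inj (P := P) (Q := Q)).preimage
      (f := fun p : Q × (P →L[ℝ] Q) × (P →L[ℝ] P →L[ℝ] Q) => p.2.1) (by fun_prop)
  have hc := (contDiffOn_Hj (P := P) (Q := Q)).comp
    (s := J ×ˢ {p : Q × (P →L[ℝ] Q) × (P →L[ℝ] P →L[ℝ] Q) | Function.Injective p.2.1})
    (contDiff_snd (E := ℝ)).contDiffOn fun z hz => hz.2
  exact Cm.comp hJ' hU ho hc h3 hi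

variable {M : Type} [TopologicalSpace M] [ChartedSpace P M] [IsManifold 𝓘(ℝ, P) ∞ M]
  {F G : ℝ → M → Q} {I : Set ℝ}

omit [FiniteDimensional ℝ Q] in
theorem geo2_inj {f : M → Q} (h : ContMDiff 𝓘(ℝ, P) 𝓘(ℝ, Q) ∞ f) {c x : M}
    (hx : x ∈ (chartAt P c).source)
    (hi : Function.Injective (fderiv ℝ (loc P f c) (chartAt P c x))) :
    Function.Injective (dF P f x) := by
  have hy := (chartAt P c).map_source hx
  have e0 := (chartAt P c).left_inv hx
  have c1 : ContMDiffAt 𝓘(ℝ, P) 𝓘(ℝ, P) ∞ (chartAt P c).symm (chartAt P c x) :=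
    contMDiffOn_chart_symm.contMDiffAt ((chartAt P c).open_target.mem_nhds hy)
  have c2 : ContMDiffAt 𝓘(ℝ, P) 𝓘(ℝ, P) ∞ (chartAt P x)
      ((chartAt P c).symm (chartAt P c x)) := by
    rw [e0]
    exact contMDiffOn_chart.contMDiffAt (chart_source_mem_nhds P x)
  have key := reparam (f := loc P f x) (f' := loc P f c)
    (ψ := chartAt P x ∘ (chartAt P c).symm) (z := chartAt P c x)
    (by
      rw [Function.comp_apply, e0]
      exact ((loc_smooth h x).contDiffAt
        ((chartAt P x).open_target.mem_nhds (mem_chart_target _ x))).of_le (by norm_cast))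
    ((contMDiffAt_iff_contDiffAt.1 (c2.comp _ c1)).of_le (by norm_cast))
    (by
      filter_upwards [c1.continuousAt.eventually ((chartAt P x).open_source.mem_nhds
        (by rw [e0]; exact mem_chart_source _ x))] with w hw
      simp only [loc, Function.comp_apply, (chartAt P x).left_inv hw])
    hi
  rw [Function.comp_apply, e0] at key
  obtain ⟨A, hA, k1, -⟩ := key
  rw [k1] at hi
  exact Function.Injective.of_comp_right (g := A) hi hA.2

theorem imm_open [CompactSpace M] (hI : UniqueDiffOn ℝ I) (h : JSm P F I) {a : ℝ} (ha : a ∈ I)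
    (hi : ∀ x, Function.Injective (dF P (F a) x)) :
    ∀ᶠ t in 𝓝[I] a, ∀ x, Function.Injective (dF P (F t) x) := by
  rw [eventually_nhdsWithin_iff]
  suffices H : ∀ᶠ s in 𝓝 a, ∀ x ∈ (univ : Set M), s ∈ I → Function.Injective (dF P (F s) x) from
    H.mono fun s hs hI x => hs x (mem_univ x) hI
  refine isCompact_univ.eventually_forall_of_forall_eventually fun c _ => ?_
  have h1 := param hI (chartAt P c).open_target (m := 0) (by norm_num) (h.gc c)
  have H := eventually_nhdsWithin_iff.1 ((h1.continuousOn (a, chartAt P c c)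
    (mk_mem_prod ha (mem_chart_target _ c))).eventually (isOpen_inj.mem_nhds (hi c)))
  have T : Tendsto (fun z : ℝ × M => (z.1, chartAt P c z.2)) (𝓝 (a, c))
      (𝓝 (a, chartAt P c c)) :=
    continuousAt_fst.prodMk (((chartAt P c).continuousAt (mem_chart_source _ c)).comp_of_eq
      continuousAt_snd rfl)
  filter_upwards [T.eventually H, continuousAt_snd.eventually (chart_source_mem_nhds P c)]
    with z k1 k2 hz
  exact geo2_inj (h.slice hz) k2 (k1 (mk_mem_prod hz ((chartAt P c).map_source k2)))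

theorem geo2_deriv (hI : IsClosed I) (h : IsSphereMCF P F I) (t : ℝ) (x : M) :
    HasDerivWithinAt (fun s => F s x) (mH P (F t) x) I t := by
  by_cases ht : t ∈ I
  · exact mcf_deriv h ht x
  · exact hasDerivWithinAt_iff_hasFDerivWithinAt.2
      (HasFDerivWithinAt.of_notMem_closure (by rwa [hI.closure_eq]))

theorem geo2_cont (hI : IsClosed I) (hI' : UniqueDiffOn ℝ I) (h : IsSphereMCF P F I) (x : M)
    (w : List (Fin (finrank ℝ P))) {p : ℝ × P} (hp : p.2 ∈ (chartAt P x).target) :
    ContinuousWithinAt (fun p : ℝ × P => sw (sb P) w (loc P (F p.1) x) p.2)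
      (I ×ˢ (chartAt P x).target) p := by
  by_cases ht : p.1 ∈ I
  · exact (Cm.of_contDiffOn (b := sb P) (m := 0) (u := fun t => loc P (F t) x) hI'
      (chartAt P x).open_target (h.sm x) w).1.continuousOn p ⟨ht, hp⟩
  · refine continuousWithinAt_of_notMem_closure fun hc => ht ?_
    rw [closure_prod_eq, hI.closure_eq] at hc
    exact hc.1

theorem geo2_union {a b c : ℝ} (hab : a < b) (hbc : b < c) (h : IsSphereMCF P F (Icc a b))
    (k : IsSphereMCF P F (Icc b c)) : IsSphereMCF P F (Icc a c) := by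
  have hu : Icc a b ∪ Icc b c = Icc a c := Icc_union_Icc_eq_Icc hab.le hbc.le
  have hi : ∀ t ∈ Icc a c, SImm P (F t) := fun t ht => by
    rw [← hu] at ht
    exact ht.elim (simm h) (simm k)
  have hd : ∀ t x, HasDerivWithinAt (fun s => F s x) (mH P (F t) x) (Icc a c) t := fun t x => by
    rw [← hu]
    exact (geo2_deriv isClosed_Icc h t x).union (geo2_deriv isClosed_Icc k t x)
  refine mcf_of (jsm_of_gc fun t ht x => ?_) hi fun t _ x => hd t x
  have hU := (chartAt P x).open_target
  have key := boot_H (g := fun t => loc P (F t) x) (convex_Icc a c)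
    (uniqueDiffOn_Icc (hab.trans hbc)) hU
    (cm_of_cont (sb P) hU (fun s hs => loc_smooth (hi s hs).smooth x) fun w p hp => by
      rw [← hu, union_prod]
      exact (geo2_cont isClosed_Icc (uniqueDiffOn_Icc hab) h x w hp.2).union
        (geo2_cont isClosed_Icc (uniqueDiffOn_Icc hbc) k x w hp.2))
    (fun s hs y hy => ((hi s hs).nice x hy).inj)
    (fun s hs y hy => by
      have := hd s ((chartAt P x).symm y)
      rwa [(hi s hs).mH_chart ((chartAt P x).map_target hy), (chartAt P x).right_inv hy] at this)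
  exact (key (t, chartAt P x x) ⟨ht, mem_chart_target _ x⟩).mono_of_mem_nhdsWithin
    (mem_nhdsWithin.2 ⟨univ ×ˢ (chartAt P x).target, isOpen_univ.prod hU,
      ⟨trivial, mem_chart_target _ x⟩, fun p hp => ⟨hp.2.1, hp.1.2⟩⟩)

theorem mcf_glue {a b c : ℝ} (hab : a < b) (hbc : b < c) (h : IsSphereMCF P F (Icc a b))
    (k : IsSphereMCF P G (Icc b c)) (e : F b = G b) :
    IsSphereMCF P (fun t => if t ≤ b then F t else G t) (Icc a c) := by
  refine geo2_union hab hbc (mcf_congr h fun t ht => if_pos ht.2) (mcf_congr k fun t ht => ?_)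
  by_cases hb : t ≤ b
  · obtain rfl : t = b := le_antisymm hb ht.1
    exact (if_pos le_rfl).trans e
  · exact if_neg hb

end Pool.Agent.Lib.MP_de485e_gt.Ex
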