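import Pool.Agent.Lib.MP_de485e_gt.Ex.Bl5
import Pool.Agent.Lib.MP_de485e_gt.Ex.Geo2

/-! Extension to the final time. -/

open Set Filter Topology Module Metric
open scoped RealInnerProductSpace InnerProduct Manifold ContDiff

namespace Pool.Agent.Lib.MP_de485e_gt.Ex

open Conv

section

variable {V : Type} [NormedAddCommGroup V] {u : ℝ → V} {a T C : ℝ}

theorem bl6_lim [CompleteSpace V] (haT : a < T)
    (h : ∀ t ∈ Ico a T, ∀ t' ∈ Ico a T, ‖u t - u t'‖ ≤ C * |t - t'|) :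
    ∃ z, Tendsto u (𝓝[<] T) (𝓝 z) := by
  have hl : LipschitzOnWith C.toNNReal u (Ico a T) :=
    LipschitzOnWith.of_dist_le' fun t ht t' ht' => by
      rw [dist_eq_norm, Real.dist_eq]; exact h t ht t' ht'
  exact cauchy_map_iff_exists_tendsto.1 ((cauchy_nhds.mono nhdsWithin_le_nhds).map_of_le
    hl.uniformContinuousOn (le_principal_iff.2 (Ico_mem_nhdsLT haT)))

theorem bl6_bd (haT : a < T) (hl : Tendsto u (𝓝[<] T) (𝓝 (u T)))
    (h : ∀ t ∈ Ico a T, ‖u t‖ ≤ C) : ∀ t ∈ Icc a T, ‖u t‖ ≤ C := by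
  intro t ht
  rcases ht.2.lt_or_eq with h1 | rfl
  · exact h t ⟨ht.1, h1⟩
  · exact le_of_tendsto hl.norm (mem_of_superset (Ico_mem_nhdsLT haT) h)

theorem bl6_lip (haT : a < T) (hl : Tendsto u (𝓝[<] T) (𝓝 (u T)))
    (h : ∀ t ∈ Ico a T, ∀ t' ∈ Ico a T, ‖u t - u t'‖ ≤ C * |t - t'|) :
    ∀ t ∈ Icc a T, ∀ t' ∈ Icc a T, ‖u t - u t'‖ ≤ C * |t - t'| := by
  have k : ∀ t ∈ Ico a T, ‖u t - u T‖ ≤ C * |t - T| := fun t ht =>
    le_of_tendsto_of_tendsto (hl.const_sub (u t)).norm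
      ((((tendsto_id.mono_left nhdsWithin_le_nhds).const_sub t).abs).const_mul C)
      (mem_of_superset (Ico_mem_nhdsLT haT) (h t ht))
  intro t ht t' ht'
  rcases ht.2.lt_or_eq with h1 | rfl <;> rcases ht'.2.lt_or_eq with h2 | h2
  · exact h t ⟨ht.1, h1⟩ t' ⟨ht'.1, h2⟩
  · rw [h2]; exact k t ⟨ht.1, h1⟩
  · rw [norm_sub_rev, abs_sub_comm]; exact k t' ⟨ht'.1, h2⟩
  · simp [h2]

end

variable {P Q : Type} [NormedAddCommGroup P] [InnerProductSpace ℝ P] [CompleteSpace P]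
  [FiniteDimensional ℝ P] [NormedAddCommGroup Q] [InnerProductSpace ℝ Q] [CompleteSpace Q]
  [FiniteDimensional ℝ Q]

omit [CompleteSpace P] [FiniteDimensional ℝ Q] in
theorem bl6_cm {U : Set P} (hU : IsOpen U) (hU' : Convex ℝ U) {a T : ℝ} (haT : a < T)
    {g : ℝ → P → Q} (hs : ∀ t ∈ Ico a T, ContDiffOn ℝ ∞ (g t) U)
    (bd : ∀ w, ∃ C, ∀ t ∈ Ico a T, ∀ y ∈ U, ‖sw (sb P) w (g t) y‖ ≤ C)
    (lip : ∀ w, ∃ C, ∀ t ∈ Ico a T, ∀ t' ∈ Ico a T, ∀ y ∈ U,
      ‖sw (sb P) w (g t) y - sw (sb P) w (g t') y‖ ≤ C * |t - t'|)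
    (lim : ∀ y ∈ U, Tendsto (fun t => g t y) (𝓝[<] T) (𝓝 (g T y))) :
    Cm (sb P) (Icc a T) U 0 g := by
  have hI := Ico_mem_nhdsLT haT
  have h1 : ∀ w, ∀ y ∈ U, Tendsto (fun t => sw (sb P) w (g t) y) (𝓝[<] T)
      (𝓝 (limUnder (𝓝[<] T) fun t => sw (sb P) w (g t) y)) := fun w y hy => by
    obtain ⟨C, hC⟩ := lip w
    exact tendsto_nhds_limUnder (bl6_lim haT fun t ht t' ht' => hC t ht t' ht' y hy)
  obtain ⟨h2, h3⟩ := sw_of_fam (sb P) hU (lim_fam (sb P) hU (mem_of_superset hI hs)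
    (fun w => (bd w).imp fun C hC => mem_of_superset hI hC) h1)
  have e : EqOn (g T) (fun y => limUnder (𝓝[<] T) fun t => sw (sb P) [] (g t) y) U :=
    fun y hy => tendsto_nhds_unique (lim y hy) (h1 [] y hy)
  have h4 : ∀ w, ∀ y ∈ U, Tendsto (fun t => sw (sb P) w (g t) y) (𝓝[<] T)
      (𝓝 (sw (sb P) w (g T) y)) := fun w y hy => by
    rw [sw_congr hU e w hy, h3 w hy]
    exact h1 w y hy
  refine cm_of_lip (sb P) hU hU' (fun t ht => ?_) (fun w => ?_) fun w => ?_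
  · rcases ht.2.lt_or_eq with h5 | rfl
    · exact hs t ⟨ht.1, h5⟩
    · exact h2.congr e
  · obtain ⟨C, hC⟩ := bd w
    exact ⟨C, fun t ht y hy => bl6_bd haT (h4 w y hy) (fun t ht => hC t ht y hy) t ht⟩
  · obtain ⟨C, hC⟩ := lip w
    exact ⟨C, fun t ht t' ht' y hy =>
      bl6_lip haT (h4 w y hy) (fun t ht t' ht' => hC t ht t' ht' y hy) t ht t' ht'⟩

omit [CompleteSpace P] in
theorem bl6_cont {V : Type} [NormedAddCommGroup V] [NormedSpace ℝ V] {U : Set P} {J : Set ℝ}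
    {g : ℝ → P → V} (h : Cm (sb P) J U 0 g) {y : P} (hy : y ∈ U) :
    ContinuousOn (fun t => g t y) J :=
  (h []).1.continuousOn.comp (f := fun t : ℝ => (t, y)) (by fun_prop) fun _ ht => ⟨ht, hy⟩

theorem bl6_Hj {J : Set ℝ} {f : ℝ → Q} {L : ℝ → P →L[ℝ] Q} {B : ℝ → P →L[ℝ] P →L[ℝ] Q}
    (hf : ContinuousOn f J) (hL : ContinuousOn L J) (hB : ContinuousOn B J)
    (hi : ∀ s ∈ J, Function.Injective (L s)) : ContinuousOn (fun s => Hj (f s) (L s) (B s)) J := by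
  have := (contDiffOn_Hj (P := P) (Q := Q)).continuousOn.comp (hf.prodMk (hL.prodMk hB)) hi
  simpa only [Function.comp_def] using this

theorem bl6_core {U : Set P} (hU : IsOpen U) {a T : ℝ} (haT : a < T) {g : ℝ → P → Q}
    (hg : Cm (sb P) (Icc a T) U 0 g)
    (low : ∃ l : ℝ, 0 < l ∧ ∀ t ∈ Ico a T, ∀ y ∈ U, ∀ ξ, l * ‖ξ‖ ≤ ‖fderiv ℝ (g t) y ξ‖)
    (he : ∀ t ∈ Ico a T, ∀ y ∈ U, HasDerivWithinAt (fun s => g s y) (Hc (g t) y) (Ico a T) t) :
    (∀ t ∈ Icc a T, ∀ y ∈ U, Function.Injective (fderiv ℝ (g t) y)) ∧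
      ∀ t ∈ Icc a T, ∀ y ∈ U, HasDerivWithinAt (fun s => g s y) (Hc (g t) y) (Icc a T) t := by
  have hI := Ico_mem_nhdsLT haT
  have hJ := uniqueDiffOn_Icc haT
  have hT : T ∈ Icc a T := right_mem_Icc.2 haT.le
  have hle : 𝓝[<] T ≤ 𝓝[Icc a T] T :=
    nhdsWithin_le_of_mem (mem_of_superset hI Ico_subset_Icc_self)
  have h1 := hg.fderiv hJ hU
  have h2 := h1.fderiv hJ hU
  obtain ⟨l, hl, low⟩ := low
  have hi : ∀ t ∈ Icc a T, ∀ y ∈ U, Function.Injective (fderiv ℝ (g t) y) := by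
    intro t ht y hy
    have k : ∀ ξ, l * ‖ξ‖ ≤ ‖fderiv ℝ (g t) y ξ‖ := fun ξ => by
      rcases ht.2.lt_or_eq with h5 | rfl
      · exact low t ⟨ht.1, h5⟩ y hy ξ
      · exact ge_of_tendsto (Tendsto.mono_left
          (((bl6_cont h1 hy).clm_apply continuousOn_const).norm t hT) hle)
          (mem_of_superset hI fun s hs => low s hs y hy ξ)
    refine (injective_iff_map_eq_zero _).2 fun ξ hξ => ?_
    have := k ξ
    rw [hξ, norm_zero] at this
    exact norm_le_zero_iff.1 (nonpos_of_mul_nonpos_right this hl)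
  refine ⟨hi, fun t ht y hy => ?_⟩
  rcases ht.2.lt_or_eq with h5 | rfl
  · exact (he t ⟨ht.1, h5⟩ y hy).mono_of_mem_nhdsWithin
      (mem_of_superset (inter_mem_nhdsWithin _ (Iio_mem_nhds h5)) fun s hs => ⟨hs.1.1, hs.2⟩)
  have hd : ∀ s ∈ Ioo a t, HasDerivAt (fun s => g s y) (Hc (g s) y) s := fun s hs =>
    (he s (Ioo_subset_Ico_self hs) y hy).hasDerivAt (Ico_mem_nhds hs.1 hs.2)
  have hH : ContinuousOn (fun s => Hc (g s) y) (Icc a t) :=
    bl6_Hj (bl6_cont hg hy) (bl6_cont h1 hy) (bl6_cont h2 hy) fun s hs => hi s hs y hy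
  refine (hasDerivWithinAt_Iic_of_tendsto_deriv (s := Ioo a t)
    (fun s hs => (hd s hs).differentiableAt.differentiableWithinAt)
    ((bl6_cont hg hy t hT).mono Ioo_subset_Icc_self) (Ioo_mem_nhdsLT haT) ?_).mono
    Icc_subset_Iic_self
  exact (Tendsto.mono_left (hH t hT) hle).congr'
    (mem_of_superset (Ioo_mem_nhdsLT haT) fun s hs => (hd s hs).deriv.symm)

variable {M : Type} [TopologicalSpace M] [ChartedSpace P M] [IsManifold 𝓘(ℝ, P) ∞ M]
  {F : ℝ → M → Q} {s a T : ℝ}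

theorem bl6_end (h : IsSphereMCF P F (Ico a T)) (haT : a < T) (hc : ∀ c, ∃ r, Ctl P F a T c r)
    (lim : ∀ x, Tendsto (fun t => F t x) (𝓝[<] T) (𝓝 (F T x))) : IsSphereMCF P F (Icc a T) := by
  have key : ∀ c : M, ∃ U, IsOpen U ∧ chartAt P c c ∈ U ∧
      Cm (sb P) (Icc a T) U 0 (fun t => loc P (F t) c) ∧
      (∀ t ∈ Icc a T, ∀ y ∈ U, Function.Injective (fderiv ℝ (loc P (F t) c) y)) ∧
      ∀ t ∈ Icc a T, ∀ y ∈ U,
        HasDerivWithinAt (fun s => loc P (F s) c y) (Hc (loc P (F t) c) y) (Icc a T) t := by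
    intro c
    obtain ⟨r, k⟩ := hc c
    have hg := bl6_cm isOpen_ball (convex_ball _ _) haT
      (fun t ht => (loc_smooth (simm h ht).smooth c).mono k.sub) k.bd k.lip fun y _ => lim _
    refine ⟨_, isOpen_ball, mem_ball_self k.pos, hg, bl6_core isOpen_ball haT hg k.low
      fun t ht y hy => ?_⟩
    have := mcf_deriv h ht ((chartAt P c).symm y)
    rwa [(simm h ht).mH_chart ((chartAt P c).map_target (k.sub hy)),
      (chartAt P c).right_inv (k.sub hy)] at this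
  have hs : JSm P F (Icc a T) := jsm_of_gc fun t ht x => by
    obtain ⟨U, hU, hx, hg, hi, he⟩ := key x
    exact (boot_H (convex_Icc a T) (uniqueDiffOn_Icc haT) hU hg hi he (t, _)
      ⟨ht, hx⟩).mono_of_mem_nhdsWithin
      (nhdsWithin_prod self_mem_nhdsWithin (mem_nhdsWithin_of_mem_nhds (hU.mem_nhds hx)))
  refine mcf_of hs (fun t ht => ⟨hs.slice ht, fun x => ?_, fun x => ?_⟩) fun t ht x => ?_
  · rcases ht.2.lt_or_eq with h5 | rfl
    · exact h.sphere t ⟨ht.1, h5⟩ x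
    · exact tendsto_nhds_unique (lim x).norm (tendsto_const_nhds.congr'
        (mem_of_superset (Ico_mem_nhdsLT haT) fun s hs => (h.sphere s hs x).symm))
  · obtain ⟨U, -, hx, -, hi, -⟩ := key x
    exact hi t ht _ hx
  · obtain ⟨U, -, hx, -, -, he⟩ := key x
    have := he t ht _ hx
    simp only [loc, Function.comp_apply, (chartAt P x).left_inv (mem_chart_source P x)] at this
    exact this

theorem extend (h : IsSphereMCF P F (Ico s T)) (ha : a ∈ Ioo s T)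
    (hc : ∀ c, ∃ r, Ctl P F a T c r) :
    ∃ G, IsSphereMCF P G (Icc s T) ∧ ∀ t < T, G t = F t := by
  let G : ℝ → M → Q := fun t => if t < T then F t else fun x => limUnder (𝓝[<] T) fun t => F t x
  have e : ∀ t < T, G t = F t := fun t ht => if_pos ht
  have hG : IsSphereMCF P G (Ico s T) := mcf_congr h fun t ht => e t ht.2
  have hE : IsSphereMCF P G (Icc a T) := by
    refine bl6_end (mcf_mono hG (Ico_subset_Ico_left ha.1.le)) ha.2 (fun c => ?_) fun x => ?_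
    · obtain ⟨r, k⟩ := hc c
      refine ⟨r, k.pos, k.sub, fun w => (k.bd w).imp fun C hC t ht => ?_,
        fun w => (k.lip w).imp fun C hC t ht t' ht' => ?_,
        k.low.imp fun l hl => ⟨hl.1, fun t ht => ?_⟩⟩
      · rw [e t ht.2]; exact hC t ht
      · rw [e t ht.2, e t' ht'.2]; exact hC t ht t' ht'
      · rw [e t ht.2]; exact hl.2 t ht
    · obtain ⟨r, k⟩ := hc x
      obtain ⟨C, hC⟩ := k.lip []
      have h1 : ∃ z, Tendsto (fun t => F t x) (𝓝[<] T) (𝓝 z) :=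
        bl6_lim (C := C) ha.2 fun t ht t' ht' => by
          have := hC t ht t' ht' _ (mem_ball_self k.pos)
          simpa only [sw, loc, Function.comp_apply,
            (chartAt P x).left_inv (mem_chart_source P x)] using this
      rw [show G T x = limUnder (𝓝[<] T) fun t => F t x by simp [G]]
      exact (tendsto_nhds_limUnder h1).congr'
        (mem_of_superset self_mem_nhdsWithin fun t ht => (congrFun (e t ht) x).symm)
  refine ⟨G, mcf_local fun t ht => ?_, e⟩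
  rcases ht.2.lt_or_eq with h5 | rfl
  · exact ⟨Ico s T, mem_of_superset (inter_mem_nhdsWithin _ (Iio_mem_nhds h5))
      fun s hs => ⟨hs.1.1, hs.2⟩, ⟨ht.1, h5⟩, hG⟩
  · exact ⟨Icc a t, mem_of_superset (inter_mem_nhdsWithin _ (Ioi_mem_nhds ha.2))
      fun s hs => ⟨le_of_lt hs.2, hs.1.2⟩, right_mem_Icc.2 ha.2.le, hE⟩

end Pool.Agent.Lib.MP_de485e_gt.Ex
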