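import Mathlib

/-! Functions of time and space whose space derivatives all have a given joint regularity. -/

open Set
open scoped ContDiff

namespace Pool.Agent.Lib.MP_de485e_gt.Ex

variable {E κ V W : Type} [NormedAddCommGroup E] [NormedSpace ℝ E] [NormedAddCommGroup V]
  [NormedSpace ℝ V] [NormedAddCommGroup W] [NormedSpace ℝ W]

/-- Derivative along a word; the first letter acts first. -/
noncomputable def sw (b : κ → E) : List κ → (E → V) → E → V
  | [], g => g
  | i :: w, g => sw b w fun y => fderiv ℝ g y (b i)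

/-- All space derivatives are jointly `C^m`. -/
def Cm (b : κ → E) (J : Set ℝ) (U : Set E) (m : ℕ) (u : ℝ → E → V) : Prop :=
  ∀ w, ContDiffOn ℝ m (fun p : ℝ × E => sw b w (u p.1) p.2) (J ×ˢ U) ∧
    ∀ t ∈ J, DifferentiableOn ℝ (sw b w (u t)) U

variable {b : κ → E} {J : Set ℝ} {U : Set E} {m : ℕ}

theorem sw_append (w w' : List κ) (g : E → V) : sw b (w ++ w') g = sw b w' (sw b w g) := by
  induction w generalizing g with
  | nil => rfl
  | cons i w ih => exact ih _

theorem sw_snoc (w : List κ) (i : κ) (g : E → V) :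
    sw b (w ++ [i]) g = fun y => fderiv ℝ (sw b w g) y (b i) := sw_append w [i] g

theorem sw_congr (hU : IsOpen U) {g g' : E → V} (e : EqOn g g' U) (w : List κ) :
    EqOn (sw b w g) (sw b w g') U := by
  induction w generalizing g g' with
  | nil => exact e
  | cons i w ih =>
    exact ih fun y hy => by simp only [(e.eventuallyEq_of_mem (hU.mem_nhds hy)).fderiv_eq]

theorem sw_contDiffOn (hU : IsOpen U) {g : E → V} (h : ContDiffOn ℝ ∞ g U) (w : List κ) :
    ContDiffOn ℝ ∞ (sw b w g) U := by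
  induction w generalizing g with
  | nil => exact h
  | cons i w ih => exact ih ((h.fderiv_of_isOpen hU (le_of_eq rfl)).clm_apply contDiffOn_const)

theorem Boot1_clm (hU : IsOpen U) {g : E → V} (h : ∀ w, DifferentiableOn ℝ (sw b w g) U)
    (A : V →L[ℝ] W) (w : List κ) :
    EqOn (sw b w fun y => A (g y)) (fun y => A (sw b w g y)) U := by
  induction w generalizing g with
  | nil => exact fun _ _ => rfl
  | cons i w ih =>
    refine (sw_congr hU (g' := fun y => A (fderiv ℝ g y (b i))) (fun y hy => ?_) w).trans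
      (ih fun w => h (i :: w))
    have e : fderiv ℝ (fun y => A (g y)) y = _ := (A.hasFDerivAt.comp y
      ((h []).differentiableAt (hU.mem_nhds hy)).hasFDerivAt).fderiv
    simp only [e]
    rfl

theorem Boot1_pair (hU : IsOpen U) {g : E → V} {k : E → W}
    (hg : ∀ w, DifferentiableOn ℝ (sw b w g) U) (hk : ∀ w, DifferentiableOn ℝ (sw b w k) U)
    (w : List κ) : EqOn (sw b w fun y => (g y, k y)) (fun y => (sw b w g y, sw b w k y)) U := by
  induction w generalizing g k with
  | nil => exact fun _ _ => rfl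
  | cons i w ih =>
    refine (sw_congr hU (g' := fun y => (fderiv ℝ g y (b i), fderiv ℝ k y (b i)))
      (fun y hy => ?_) w).trans (ih (fun w => hg (i :: w)) fun w => hk (i :: w))
    have e : fderiv ℝ (fun y => (g y, k y)) y = _ :=
      (((hg []).differentiableAt (hU.mem_nhds hy)).hasFDerivAt.prodMk
        ((hk []).differentiableAt (hU.mem_nhds hy)).hasFDerivAt).fderiv
    simp only [e]
    rfl

theorem Boot1_pi (hU : IsOpen U) {α : Type} [Fintype α] {v : E → α → V}
    (h : ∀ a w, DifferentiableOn ℝ (sw b w fun y => v y a) U) (w : List κ) :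
    EqOn (sw b w v) (fun y a => sw b w (fun y => v y a) y) U := by
  induction w generalizing v with
  | nil => exact fun _ _ => rfl
  | cons i w ih =>
    refine (sw_congr hU (g' := fun y a => fderiv ℝ (fun y => v y a) y (b i))
      (fun y hy => ?_) w).trans (ih fun a w => h a (i :: w))
    have e : fderiv ℝ v y = _ :=
      fderiv_pi (φ := fun a y => v y a) fun a => (h a []).differentiableAt (hU.mem_nhds hy)
    simp only [e]
    rfl

theorem Boot1_const (w : List κ) (c : V) : ∃ c' : V, (sw b w fun _ => c) = fun _ => c' := by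
  induction w generalizing c with
  | nil => exact ⟨c, rfl⟩
  | cons i w ih =>
    obtain ⟨c', h⟩ := ih 0
    exact ⟨c', by simpa [sw] using h⟩

theorem Boot1_basis [Fintype κ] [FiniteDimensional ℝ E] (b : Module.Basis κ ℝ E)
    (L : E →L[ℝ] V) :
    L = ∑ i, (LinearMap.toContinuousLinearMap (b.coord i)).smulRight (L (b i)) := by
  ext x
  have e : L x = ∑ i, b.repr x i • L (b i) := by
    conv_lhs => rw [← b.sum_repr x, map_sum]
    simp only [map_smul]
  rw [e]
  simp

theorem sw_clm (hU : IsOpen U) {g : E → V} (h : ContDiffOn ℝ ∞ g U) (A : V →L[ℝ] W) (w : List κ) :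
    EqOn (sw b w fun y => A (g y)) (fun y => A (sw b w g y)) U := by
  exact Boot1_clm hU (fun w => (sw_contDiffOn hU h w).differentiableOn (by simp)) A w

theorem sw_sum (hU : IsOpen U) {α : Type} (s : Finset α) {g : α → E → V}
    (h : ∀ a ∈ s, ContDiffOn ℝ ∞ (g a) U) (w : List κ) :
    EqOn (sw b w fun y => ∑ a ∈ s, g a y) (fun y => ∑ a ∈ s, sw b w (g a) y) U := by
  induction w generalizing g with
  | nil => exact fun _ _ => rfl
  | cons i w ih =>
    refine (sw_congr hU (g' := fun y => ∑ a ∈ s, fderiv ℝ (g a) y (b i)) (fun y hy => ?_) w).trans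
      (ih fun a ha => sw_contDiffOn (b := b) hU (h a ha) [i])
    have e := fderiv_fun_sum (𝕜 := ℝ) (u := s) (A := g) (x := y) fun a ha =>
      ((h a ha).differentiableOn (by simp)).differentiableAt (hU.mem_nhds hy)
    simp only [e]
    simp

theorem param' (hJ : UniqueDiffOn ℝ J) (hU : IsOpen U) {G : ℝ × E → V} {m k : WithTop ℕ∞}
    (hm : m + 1 ≤ k) (h : ContDiffOn ℝ k G (J ×ˢ U)) :
    ContDiffOn ℝ m (fun p : ℝ × E => fderiv ℝ (fun y => G (p.1, y)) p.2) (J ×ˢ U) := by
  refine ((h.fderivWithin (hJ.prod hU.uniqueDiffOn) hm).clm_comp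
    (contDiffOn_const (c := ContinuousLinearMap.inr ℝ ℝ E))).congr fun p hp => ?_
  have hk : k ≠ 0 := by rintro rfl; simp at hm
  exact (((h.differentiableOn hk p hp).hasFDerivWithinAt.comp p.2
    (hasFDerivAt_prodMk_right (𝕜 := ℝ) p.1 p.2).hasFDerivWithinAt (s := U)
    fun y hy => mk_mem_prod hp.1 hy).hasFDerivAt (hU.mem_nhds hp.2)).fderiv

namespace Cm

variable {u u' : ℝ → E → V}

theorem congr (hU : IsOpen U) (h : Cm b J U m u) (e : ∀ t ∈ J, ∀ y ∈ U, u' t y = u t y) :
    Cm b J U m u' := by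
  intro w
  have k : ∀ t ∈ J, EqOn (sw b w (u' t)) (sw b w (u t)) U := fun t ht => sw_congr hU (e t ht) w
  exact ⟨(h w).1.congr fun p hp => k p.1 hp.1 hp.2, fun t ht => ((h w).2 t ht).congr (k t ht)⟩

theorem der (h : Cm b J U m u) (i : κ) : Cm b J U m fun t y => fderiv ℝ (u t) y (b i) :=
  fun w => h (i :: w)

theorem mono (h : Cm b J U m u) {J' : Set ℝ} {U' : Set E} (hJ : J' ⊆ J) (hU : U' ⊆ U) :
    Cm b J' U' m u :=
  fun w => ⟨(h w).1.mono (prod_mono hJ hU), fun t ht => ((h w).2 t (hJ ht)).mono hU⟩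

theorem id : Cm b J U m fun _ y => y := by
  intro w
  cases w with
  | nil => exact ⟨contDiffOn_snd, fun _ _ => differentiableOn_id⟩
  | cons i w =>
    obtain ⟨c, h⟩ := Boot1_const (b := b) w (b i)
    have e : (sw b (i :: w) fun y : E => y) = fun _ => c := by simpa [sw] using h
    simp only [e]
    exact ⟨contDiffOn_const, fun _ _ => differentiableOn_const _⟩

theorem prod (hU : IsOpen U) {v : ℝ → E → W} (h : Cm b J U m u) (k : Cm b J U m v) :
    Cm b J U m fun t y => (u t y, v t y) := by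
  intro w
  have e := fun t ht => Boot1_pair hU (fun w => (h w).2 t ht) (fun w => (k w).2 t ht) w
  exact ⟨((h w).1.prodMk (k w).1).congr fun p hp => e p.1 hp.1 hp.2,
    fun t ht => (((h w).2 t ht).prodMk ((k w).2 t ht)).congr (e t ht)⟩

theorem pi (hU : IsOpen U) {α : Type} [Fintype α] {v : ℝ → E → α → V}
    (h : ∀ a, Cm b J U m fun t y => v t y a) : Cm b J U m v := by
  intro w
  have e := fun t ht => Boot1_pi hU (v := v t) (fun a w => (h a w).2 t ht) w
  exact ⟨(contDiffOn_pi.2 fun a => (h a w).1).congr fun p hp => e p.1 hp.1 hp.2,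
    fun t ht => (differentiableOn_pi.2 fun a => (h a w).2 t ht).congr (e t ht)⟩

theorem Boot1_comp (hJ : UniqueDiffOn ℝ J) (hU : IsOpen U) (w : List κ) :
    ∀ {V : Type} [NormedAddCommGroup V] [NormedSpace ℝ V] {u : ℝ → E → V} {Ω : Set V}
      {Φ : ℝ × V → W}, IsOpen Ω → ContDiffOn ℝ ∞ Φ (J ×ˢ Ω) → Cm b J U m u →
      (∀ t ∈ J, ∀ y ∈ U, u t y ∈ Ω) →
      ContDiffOn ℝ m (fun p : ℝ × E => sw b w (fun y => Φ (p.1, u p.1 y)) p.2) (J ×ˢ U) ∧
        ∀ t ∈ J, DifferentiableOn ℝ (sw b w fun y => Φ (t, u t y)) U := by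
  induction w with
  | nil =>
    intro V _ _ u Ω Φ _ hΦ h hm
    exact ⟨(hΦ.of_le (by exact_mod_cast le_top)).comp (contDiffOn_fst.prodMk (h []).1)
      fun p hp => ⟨hp.1, hm _ hp.1 _ hp.2⟩, fun t ht => (hΦ.differentiableOn (by simp)).comp
        ((differentiableOn_const t).prodMk ((h []).2 t ht)) fun y hy => ⟨ht, hm t ht y hy⟩⟩
  | cons i w ih =>
    intro V _ _ u Ω Φ hΩ hΦ h hm
    have h1 : ContDiffOn ℝ ∞ (fun q : ℝ × V × V => fderiv ℝ (fun a => Φ (q.1, a)) q.2.1 q.2.2)
        (J ×ˢ Ω ×ˢ univ) :=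
      ((param' hJ hΩ (m := ∞) (le_of_eq rfl) hΦ).comp
        (contDiffOn_fst.prodMk contDiffOn_snd.fst) fun q hq => ⟨hq.1, hq.2.1⟩).clm_apply
        contDiffOn_snd.snd
    obtain ⟨k1, k2⟩ := ih (hΩ.prod isOpen_univ) h1 (prod hU h (h.der i))
      fun t ht y hy => ⟨hm t ht y hy, trivial⟩
    have e : ∀ t ∈ J, EqOn (sw b (i :: w) fun y => Φ (t, u t y))
        (sw b w fun y => fderiv ℝ (fun a => Φ (t, a)) (u t y) (fderiv ℝ (u t) y (b i))) U :=
      fun t ht => sw_congr hU (fun y hy => by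
        have d1 : DifferentiableOn ℝ (fun a => Φ (t, a)) Ω := (hΦ.differentiableOn (by simp)).comp
          ((differentiableOn_const t).prodMk differentiableOn_id) fun a ha => ⟨ht, ha⟩
        have e1 : fderiv ℝ (fun y => Φ (t, u t y)) y = _ :=
          ((d1.differentiableAt (hΩ.mem_nhds (hm t ht y hy))).hasFDerivAt.comp y
            (((h []).2 t ht).differentiableAt (hU.mem_nhds hy)).hasFDerivAt).fderiv
        simp only [e1]
        rfl) w
    exact ⟨k1.congr fun p hp => e p.1 hp.1 hp.2, fun t ht => (k2 t ht).congr (e t ht)⟩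

theorem comp (hJ : UniqueDiffOn ℝ J) (hU : IsOpen U) {Ω : Set V} (hΩ : IsOpen Ω) {Φ : ℝ × V → W}
    (hΦ : ContDiffOn ℝ ∞ Φ (J ×ˢ Ω)) (h : Cm b J U m u) (hm : ∀ t ∈ J, ∀ y ∈ U, u t y ∈ Ω) :
    Cm b J U m fun t y => Φ (t, u t y) := by
  exact fun w => Boot1_comp hJ hU w hΩ hΦ h hm

theorem of_contDiffOn (hJ : UniqueDiffOn ℝ J) (hU : IsOpen U)
    (h : ContDiffOn ℝ ∞ (fun p : ℝ × E => u p.1 p.2) (J ×ˢ U)) : Cm b J U m u :=
  comp hJ hU hU h id fun _ _ _ hy => hy

theorem fderiv [Fintype κ] [FiniteDimensional ℝ E] {b : Module.Basis κ ℝ E}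
    (hJ : UniqueDiffOn ℝ J) (hU : IsOpen U) (h : Cm b J U m u) :
    Cm b J U m fun t y => fderiv ℝ (u t) y := by
  refine congr hU (comp hJ hU isOpen_univ (Φ := fun q : ℝ × (κ → V) =>
    ∑ i, (LinearMap.toContinuousLinearMap (b.coord i)).smulRight (q.2 i)) ?_
    (pi hU (v := fun t y i => _root_.fderiv ℝ (u t) y (b i)) fun i => h.der i)
    fun _ _ _ _ => trivial) fun t _ y _ => Boot1_basis b _
  exact (ContDiff.sum fun i _ =>
    contDiff_const.smulRight ((contDiff_apply ℝ V i).comp contDiff_snd)).contDiffOn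

theorem slice [Fintype κ] [FiniteDimensional ℝ E] {b : Module.Basis κ ℝ E} (hU : IsOpen U)
    (h : Cm b J U m u) {t : ℝ} (ht : t ∈ J) : ContDiffOn ℝ ∞ (u t) U := by
  have key : ∀ n : ℕ, ∀ w, ContDiffOn ℝ n (sw b w (u t)) U := by
    intro n
    induction n with
    | zero => exact fun w => contDiffOn_zero.2 ((h w).2 t ht).continuousOn
    | succ n ih =>
      intro w
      rw [Nat.cast_succ, contDiffOn_succ_iff_fderiv_of_isOpen hU]
      refine ⟨(h w).2 t ht, by simp, (ContDiffOn.sum (s := Finset.univ) fun i _ =>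
        (contDiffOn_const (c := LinearMap.toContinuousLinearMap (b.coord i))).smulRight
          (ih (w ++ [i]))).congr fun y _ => ?_⟩
      simp only [sw_snoc]
      exact Boot1_basis b _
  exact contDiffOn_infty.2 fun n => key n []

end Cm

end Pool.Agent.Lib.MP_de485e_gt.Ex
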