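import Pool.Agent.Lib.MP_de485e_gt.Ex.Geo1

/-! Inverse of the Gram matrix of an overcomplete frame. -/

open Set Filter Topology Module Metric
open scoped RealInnerProductSpace InnerProduct Manifold ContDiff

namespace Pool.Agent.Lib.MP_de485e_gt.Ex

open Conv

variable {P Q : Type} [NormedAddCommGroup P] [InnerProductSpace ℝ P] [CompleteSpace P]
  [FiniteDimensional ℝ P] [NormedAddCommGroup Q] [InnerProductSpace ℝ Q] [CompleteSpace Q]
  [FiniteDimensional ℝ Q]

theorem dt1_key {ι : Type} [Fintype ι] [DecidableEq ι] (O : OrthonormalBasis ι ℝ Q)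
    {L₀ L : P →L[ℝ] Q} (h₀ : Function.Injective L₀) (hL : Function.Injective L) {a : ι → ι → ℝ}
    (ha : ∀ i k, ∑ j, (⟪L (pinv L₀ (O i)), L (pinv L₀ (O j))⟫ +
      ((if i = j then 1 else 0) - ⟪O j, L₀ (pinv L₀ (O i))⟫)) * a j k = if i = k then 1 else 0)
    (p : P) : ∑ i, ∑ j, (a i j * ⟪p, pinv L₀ (O j)⟫) • pinv L₀ (O i) = gi L p := by
  obtain ⟨z, hz⟩ : ∃ z : Q, z = ∑ i, (∑ j, a i j * ⟪p, pinv L₀ (O j)⟫) • O i := ⟨_, rfl⟩
  have e : ∑ i, ∑ j, (a i j * ⟪p, pinv L₀ (O j)⟫) • pinv L₀ (O i) = pinv L₀ z := by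
    rw [hz, map_sum]
    exact Finset.sum_congr rfl fun i _ => by rw [map_smul, Finset.sum_smul]
  have h1 : ∀ i, ⟪L (pinv L₀ (O i)), L (pinv L₀ z)⟫ + (⟪O i, z⟫ - ⟪z, L₀ (pinv L₀ (O i))⟫) =
      ⟪p, pinv L₀ (O i)⟫ := by
    intro i
    have h2 : ∑ k, (∑ j, (⟪L (pinv L₀ (O i)), L (pinv L₀ (O j))⟫ +
        ((if i = j then 1 else 0) - ⟪O j, L₀ (pinv L₀ (O i))⟫)) * a j k) * ⟪p, pinv L₀ (O k)⟫ =
        ⟪p, pinv L₀ (O i)⟫ := by
      simp only [ha, ite_mul, one_mul, zero_mul, Finset.sum_ite_eq, Finset.mem_univ, if_true]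
    rw [← h2, hz]
    simp only [Finset.sum_mul]
    rw [Finset.sum_comm, map_sum, map_sum, inner_sum, inner_sum, sum_inner,
      ← Finset.sum_sub_distrib, ← Finset.sum_add_distrib]
    refine Finset.sum_congr rfl fun j _ => ?_
    rw [map_smul, map_smul, real_inner_smul_right, real_inner_smul_right, real_inner_smul_left,
      orthonormal_iff_ite.1 O.orthonormal i j]
    simp only [mul_assoc]
    rw [← Finset.mul_sum]
    ring
  have h3 : ∀ y : Q, ⟪L (pinv L₀ y), L (pinv L₀ z)⟫ + (⟪y, z⟫ - ⟪z, L₀ (pinv L₀ y)⟫) =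
      ⟪p, pinv L₀ y⟫ := by
    intro y
    rw [← O.sum_repr' y, map_sum, map_sum, map_sum, sum_inner, sum_inner, inner_sum, inner_sum,
      ← Finset.sum_sub_distrib, ← Finset.sum_add_distrib]
    refine Finset.sum_congr rfl fun i _ => ?_
    rw [map_smul, map_smul, map_smul, real_inner_smul_left, real_inner_smul_left,
      real_inner_smul_right, real_inner_smul_right, ← h1 i]
    ring
  have h4 : (L†) (L (pinv L₀ z)) = p := by
    refine ext_inner_left ℝ fun q => ?_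
    have h5 := h3 (L₀ q)
    rw [pinv_apply h₀, real_inner_comm (L₀ q) z, sub_self, add_zero] at h5
    rw [ContinuousLinearMap.adjoint_inner_right, h5, real_inner_comm]
  rw [e, ← h4, gi_gram hL]

omit [FiniteDimensional ℝ Q] in
theorem dt1_symm {L : P →L[ℝ] Q} (hL : Function.Injective L) (p q : P) :
    ⟪p, gi L q⟫ = ⟪gi L p, q⟫ := by
  conv_lhs => rw [← gram_gi hL p]
  conv_rhs => rw [← gram_gi hL q]
  rw [ContinuousLinearMap.adjoint_inner_left, ContinuousLinearMap.adjoint_inner_right]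

theorem inv_trace {ι : Type} [Fintype ι] [DecidableEq ι] (O : OrthonormalBasis ι ℝ Q)
    {L₀ L : P →L[ℝ] Q} (h₀ : Function.Injective L₀) (hL : Function.Injective L) {a : ι → ι → ℝ}
    (ha : ∀ i k, ∑ j, (⟪L (pinv L₀ (O i)), L (pinv L₀ (O j))⟫ +
      ((if i = j then 1 else 0) - ⟪O j, L₀ (pinv L₀ (O i))⟫)) * a j k = if i = k then 1 else 0) :
    (∀ B : P →L[ℝ] P →L[ℝ] Q,
      ∑ i, ∑ j, a i j • B (pinv L₀ (O i)) (pinv L₀ (O j)) = trB L B) ∧
    ∀ w : Q, ∑ i, ∑ j, (a i j * ⟪w, L (pinv L₀ (O j))⟫) • pinv L₀ (O i) = pinv L w := by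
  have k := dt1_key O h₀ hL ha
  have k' : ∀ p : P, gi L p = ∑ i, ∑ j, (a i j * ⟪p, pinv L₀ (O i)⟫) • pinv L₀ (O j) := by
    intro p
    refine ext_inner_right ℝ fun q => ?_
    rw [← dt1_symm hL, ← k q]
    simp only [inner_sum, sum_inner, real_inner_smul_left, real_inner_smul_right]
    refine Finset.sum_congr rfl fun i _ => Finset.sum_congr rfl fun j _ => ?_
    rw [real_inner_comm q]
    ring
  refine ⟨fun B => ?_, fun w => ?_⟩
  · unfold trB
    simp only [k', map_sum, map_smul]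
    rw [Finset.sum_comm (s := (Finset.univ : Finset (Fin (finrank ℝ P))))]
    refine Finset.sum_congr rfl fun i _ => ?_
    rw [Finset.sum_comm]
    refine Finset.sum_congr rfl fun j _ => ?_
    conv_lhs => rw [← (stdOrthonormalBasis ℝ P).sum_repr' (pinv L₀ (O i))]
    simp only [map_sum, map_smul, sum_apply, smul_apply,
      Finset.smul_sum, smul_smul]
  · have h := k ((L†) w)
    simp only [ContinuousLinearMap.adjoint_inner_left] at h
    exact h

end Pool.Agent.Lib.MP_de485e_gt.Ex
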