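import Mathlib

/-! Smooth periodic functions, derivatives, energies, and the quasilinear operator. -/

open Set MeasureTheory
open scoped ContDiff

namespace Pool.Agent.Lib.MP_de485e_gt.Ex

variable (d : Type) [Fintype d] [DecidableEq d]

/-- Smooth functions with period one in every coordinate. -/
def Ts : Subalgebra ℝ ((d → ℝ) → ℝ) where
  carrier := {f | ContDiff ℝ ∞ f ∧ ∀ i x, f (x + Pi.single i 1) = f x}
  mul_mem' hf hg := ⟨hf.1.mul hg.1, fun i x => by simp only [Pi.mul_apply, hf.2, hg.2]⟩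
  add_mem' hf hg := ⟨hf.1.add hg.1, fun i x => by simp only [Pi.add_apply, hf.2, hg.2]⟩
  algebraMap_mem' r := ⟨contDiff_const, fun _ _ => rfl⟩

/-- The same as a type. -/
abbrev Tr : Type := Ts d

variable {d}

theorem Tr.smooth (u : Tr d) : ContDiff ℝ ∞ u.1 := u.2.1

theorem Tr.per (u : Tr d) (i : d) (x : d → ℝ) : u.1 (x + Pi.single i 1) = u.1 x := u.2.2 i x

theorem Tr.diff (u : Tr d) (x : d → ℝ) : DifferentiableAt ℝ u.1 x :=
  u.smooth.differentiable (by simp) x

theorem Tr.cont (u : Tr d) : Continuous u.1 := u.smooth.continuous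

theorem Tr.ext' {u v : Tr d} (h : ∀ x, u.1 x = v.1 x) : u = v := Subtype.ext (funext h)

/-- Evaluation at a point. -/
noncomputable def evx (x : d → ℝ) : Tr d →ₐ[ℝ] ℝ :=
  (Pi.evalAlgHom ℝ (fun _ : d → ℝ => ℝ) x).comp (Ts d).val

theorem evx_apply (x : d → ℝ) (u : Tr d) : evx x u = u.1 x := rfl

theorem pd_mem (i : d) (u : Tr d) : (fun x => fderiv ℝ u.1 x (Pi.single i 1)) ∈ Ts d := by
  refine ⟨(u.smooth.fderiv_right (m := ∞) (by simp)).clm_apply contDiff_const, fun l x => ?_⟩
  have e : (fun y => u.1 (y + Pi.single l 1)) = u.1 := funext (u.per l)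
  change fderiv ℝ u.1 (x + _) _ = fderiv ℝ u.1 x _
  rw [← fderiv_comp_add_right, e]

/-- The partial derivative. -/
noncomputable def pd (i : d) : Derivation ℝ (Tr d) (Tr d) :=
  Derivation.mk'
    { toFun := fun u => ⟨_, pd_mem i u⟩
      map_add' := fun u v => Tr.ext' fun x => by
        change fderiv ℝ (u.1 + v.1) x _ = fderiv ℝ u.1 x _ + fderiv ℝ v.1 x _
        rw [fderiv_add (u.diff x) (v.diff x)]; rfl
      map_smul' := fun r u => Tr.ext' fun x => by
        change fderiv ℝ (r • u.1) x _ = r * fderiv ℝ u.1 x _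
        rw [fderiv_const_smul (u.diff x)]; rfl }
    fun u v => Tr.ext' fun x => by
      change fderiv ℝ (u.1 * v.1) x _ = u.1 x * fderiv ℝ v.1 x _ + v.1 x * fderiv ℝ u.1 x _
      rw [fderiv_mul (u.diff x) (v.diff x)]; rfl

theorem pd_apply (i : d) (u : Tr d) (x : d → ℝ) :
    (pd i u).1 x = fderiv ℝ u.1 x (Pi.single i 1) := rfl

/-- The derivative along a word; the first letter acts first. -/
noncomputable def dw : List d → Tr d →ₗ[ℝ] Tr d
  | [] => LinearMap.id
  | i :: w => dw w ∘ₗ (pd i).toLinearMap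

theorem dw_nil (u : Tr d) : dw [] u = u := rfl

theorem dw_cons (i : d) (w : List d) (u : Tr d) : dw (i :: w) u = dw w (pd i u) := rfl

theorem dw_append (w w' : List d) (u : Tr d) : dw (w ++ w') u = dw w' (dw w u) := by
  induction w generalizing u with
  | nil => rfl
  | cons i w ih => exact ih _

theorem Tr.integrableOn (u : Tr d) : IntegrableOn u.1 (Icc 0 1) :=
  u.cont.continuousOn.integrableOn_compact isCompact_Icc

/-- The integral over the unit cube. -/
noncomputable def I : Tr d →ₗ[ℝ] ℝ where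
  toFun u := ∫ x in Icc (0 : d → ℝ) 1, u.1 x
  map_add' u v := integral_add u.integrableOn v.integrableOn
  map_smul' r u := integral_const_mul r u.1

theorem I_apply (u : Tr d) : I u = ∫ x in Icc (0 : d → ℝ) 1, u.1 x := rfl

/-- The words of length at most `k`. -/
noncomputable def wd (α : Type) [Finite α] (k : ℕ) : Finset (List α) :=
  (List.finite_length_le α k).toFinset

theorem mem_wd {α : Type} [Finite α] {k : ℕ} {w : List α} : w ∈ wd α k ↔ w.length ≤ k :=
  Set.Finite.mem_toFinset _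

/-- The `L²` norm. -/
noncomputable def n0 (u : Tr d) : ℝ := √(I (u * u))

/-- The `H^k` inner product. -/
noncomputable def ip (k : ℕ) (u v : Tr d) : ℝ := ∑ w ∈ wd d k, I (dw w u * dw w v)

variable {ι : Type} [Fintype ι]

/-- The `H^k` energy of a system. -/
noncomputable def en (k : ℕ) (v : ι → Tr d) : ℝ := ∑ c, ip k (v c) (v c)

/-- All derivatives of order at most `j` are bounded by `B`. -/
def CB (j : ℕ) (v : ι → Tr d) (B : ℝ) : Prop :=
  ∀ c, ∀ w : List d, w.length ≤ j → ∀ x, |(dw w (v c)).1 x| ≤ B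

/-- A smooth function of finitely many periodic functions. -/
def cmp {σ : Type} [Fintype σ] (Φ : (σ → ℝ) → ℝ) (hΦ : ContDiff ℝ ∞ Φ) (g : σ → Tr d) : Tr d :=
  ⟨fun x => Φ fun s => (g s).1 x, hΦ.comp (contDiff_pi.2 fun s => (g s).smooth),
    fun i x => by simp only [Tr.per]⟩

/-- Derivative along a periodic vector field. -/
noncomputable def vf (X : d → Tr d) (u : Tr d) : Tr d := ∑ i, X i * pd i u

variable (d ι) in
/-- A quasilinear operator that is elliptic along the fields `X a`. -/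
structure Op where
  X : ι → d → Tr d
  K : ι → ι → Tr d
  Φ : ι → ι → (ι × ι → ℝ) → ℝ
  sm : ∀ a b, ContDiff ℝ ∞ (Φ a b)
  lam : ℝ
  pos : 0 < lam
  ell : ∀ m (ξ : ι → ℝ), lam * ∑ a, ξ a ^ 2 ≤ ∑ a, ∑ b, Φ a b m * ξ a * ξ b
  c : ℝ

namespace Op

variable (S : Op d ι)

/-- Gram matrix of the first derivatives, plus `K`. -/
noncomputable def mm (v : ι → Tr d) (s : ι × ι) : Tr d :=
  ∑ c, vf (S.X s.1) (v c) * vf (S.X s.2) (v c) + S.K s.1 s.2

/-- The coefficients. -/
noncomputable def co (v : ι → Tr d) (a b : ι) : Tr d := cmp (S.Φ a b) (S.sm a b) (S.mm v)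

/-- The operator. -/
noncomputable def rhs (v : ι → Tr d) (c : ι) : Tr d :=
  ∑ a, ∑ b, S.co v a b * vf (S.X a) (vf (S.X b) (v c)) + S.c • v c

end Op

variable (d ι) in
/-- Jets of order two. -/
abbrev Jt : Type := (ι → ℝ) × (d → ι → ℝ) × (d → d → ι → ℝ)

/-- The jet of a system at a point. -/
noncomputable def jet (v : ι → Tr d) (x : d → ℝ) : Jt d ι :=
  (fun c => (v c).1 x, fun i c => (pd i (v c)).1 x, fun i l c => (pd i (pd l (v c))).1 x)

variable (d) in
/-- Finite rank projections that commute with derivatives. -/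
structure Gal where
  κ : ℕ → Type
  fin : ∀ N, Fintype (κ N)
  e : ∀ N, κ N → Tr d
  pr : ℕ → Tr d →ₗ[ℝ] Tr d
  pr_eq : ∀ N u, pr N u = ∑ i, I (e N i * u) • e N i
  pr_e : ∀ N i, pr N (e N i) = e N i
  pr_pd : ∀ N l u, pr N (pd l u) = pd l (pr N u)
  m : ℕ
  C : ℝ
  sob : ∀ (u : Tr d) x, |u.1 x| ≤ C * √(ip m u u)
  ε : ℕ → ℝ
  lim : Filter.Tendsto ε Filter.atTop (nhds 0)
  tail : ∀ N (u : Tr d) x, |u.1 x - (pr N u).1 x| ≤ ε N * √(ip m u u)

attribute [instance] Gal.fin

end Pool.Agent.Lib.MP_de485e_gt.Ex
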