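import Pool.Agent.Lib.MP_de485e_gt.Ex.GDef
import Pool.Agent.Lib.MP_de485e_gt.Ex.TDef

/-! Embedding into a torus with extension of functions. -/

open Set Filter Topology Module Metric
open scoped RealInnerProductSpace InnerProduct Manifold ContDiff

namespace Pool.Agent.Lib.MP_de485e_gt.Ex

open Conv

variable {P Q : Type} [NormedAddCommGroup P] [InnerProductSpace ℝ P] [CompleteSpace P]
  [FiniteDimensional ℝ P] [NormedAddCommGroup Q] [InnerProductSpace ℝ Q] [CompleteSpace Q]
  [FiniteDimensional ℝ Q]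

variable {M : Type} [TopologicalSpace M] [ChartedSpace P M] [IsManifold 𝓘(ℝ, P) ∞ M]

variable (P) in
/-- An embedding along which smooth functions extend to periodic ones. -/
structure Emb {d : Type} [Fintype d] [DecidableEq d] (e : M → d → ℝ) : Prop where
  smooth : ContMDiff 𝓘(ℝ, P) 𝓘(ℝ, d → ℝ) ∞ e
  ext : ∀ f : M → ℝ, ContMDiff 𝓘(ℝ, P) 𝓘(ℝ, ℝ) ∞ f → ∃ u : Tr d, ∀ x, u.1 (e x) = f x
  inj : Function.Injective e
  left : ∀ z : M, ∃ r : (d → ℝ) → P, ContDiff ℝ ∞ r ∧ ∀ᶠ x in 𝓝 z, r (e x) = chartAt P z x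

omit [CompleteSpace P] in
/-- A bump times the chart is smooth. -/
theorem Emb_bump [T2Space M] {c : M} (b : SmoothBumpFunction 𝓘(ℝ, P) c) :
    ContMDiff 𝓘(ℝ, P) 𝓘(ℝ, P) ∞ fun x => b x • chartAt P c x :=
  b.contMDiff_smul contMDiffOn_chart

omit [CompleteSpace P] in
/-- A smooth map, read in a chart and cut off, is smooth on the model space. -/
theorem Emb_read {W : Type} [NormedAddCommGroup W] [NormedSpace ℝ W] {c : M}
    (b : SmoothBumpFunction 𝓘(ℝ, P) c) {f : M → W} (hf : ContMDiff 𝓘(ℝ, P) 𝓘(ℝ, W) ∞ f) :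
    ∃ G : P → W, ContDiff ℝ ∞ G ∧
      ∀ x ∈ (chartAt P c).source, b x = 1 → G (chartAt P c x) = f x := by
  refine ⟨fun p => b.toContDiffBump p • f ((chartAt P c).symm p), ?_, fun x hx h1 => ?_⟩
  · rw [← contMDiff_iff_contDiff]
    refine contMDiff_of_tsupport fun p hp => ?_
    have h1 : p ∈ tsupport b.toContDiffBump := tsupport_smul_subset_left _ _ hp
    rw [ContDiffBump.tsupport_eq] at h1
    have h2 : p ∈ (chartAt P c).target := by
      have := b.closedBall_subset ⟨h1, by simp⟩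
      simpa using this
    have h3 : ContMDiffAt 𝓘(ℝ, P) 𝓘(ℝ, P) ∞ (chartAt P c).symm p :=
      (contMDiffOn_chart_symm (I := 𝓘(ℝ, P)) (n := ∞) (x := c)).contMDiffAt
        ((chartAt P c).open_target.mem_nhds h2)
    exact b.toContDiffBump.contDiff.contMDiff.contMDiffAt.smul ((hf _).comp p h3)
  · have h2 := b.eqOn_source hx
    simp only [Function.comp, extChartAt_coe, modelWithCornersSelf_coe, id] at h2
    have h3 : b.toContDiffBump (chartAt P c x) = 1 := h2.symm.trans h1
    simp only [(chartAt P c).left_inv hx, h3, one_smul]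

omit [CompleteSpace P] in
/-- An embedding into a Euclidean space along which smooth maps extend. -/
theorem Emb_pre [T2Space M] [CompactSpace M] : ∃ (N : ℕ) (e : M → Fin N → ℝ),
    ContMDiff 𝓘(ℝ, P) 𝓘(ℝ, Fin N → ℝ) ∞ e ∧
    ∀ (W : Type) [NormedAddCommGroup W] [NormedSpace ℝ W] (f : M → W),
      ContMDiff 𝓘(ℝ, P) 𝓘(ℝ, W) ∞ f →
        ∃ g : (Fin N → ℝ) → W, ContDiff ℝ ∞ g ∧ ∀ x, g (e x) = f x := by
  classical
  have b : ∀ c : M, SmoothBumpFunction 𝓘(ℝ, P) c := fun c => Classical.choice inferInstance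
  obtain ⟨s, hs⟩ := (isCompact_univ (X := M)).elim_finite_subcover
    (fun c : M => interior {x | b c x = 1}) (fun _ => isOpen_interior)
    (fun x _ => mem_iUnion.2 ⟨x, mem_interior_iff_mem_nhds.2 (b x).eventuallyEq_one⟩)
  obtain ⟨ρ, hρ⟩ := SmoothPartitionOfUnity.exists_isSubordinate (ι := s) 𝓘(ℝ, P) isClosed_univ
    (fun c : s => interior {x | b c x = 1}) (fun _ => isOpen_interior)
    (fun x hx => by
      obtain ⟨c, hc, h⟩ := mem_iUnion₂.1 (hs hx)
      exact mem_iUnion.2 ⟨⟨c, hc⟩, h⟩)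
  let L : ((s → P) × (s → ℝ)) ≃L[ℝ] (Fin (finrank ℝ ((s → P) × (s → ℝ))) → ℝ) :=
    ContinuousLinearEquiv.ofFinrankEq (by simp)
  refine ⟨_, fun x => L (fun c => b c x • chartAt P (c : M) x, fun c => ρ c x), ?_,
    fun W _ _ f hf => ?_⟩
  · refine L.contDiff.contMDiff.comp (ContMDiff.prodMk_space ?_ ?_)
    · exact contMDiff_pi_space.2 fun c => Emb_bump (b c)
    · exact contMDiff_pi_space.2 fun c => (ρ c).contMDiff
  · choose G hG hGf using fun c : s => Emb_read (b c) hf
    refine ⟨fun y => ∑ c, (L.symm y).2 c • G c ((L.symm y).1 c), ?_, fun x => ?_⟩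
    · refine ContDiff.sum fun c _ => ContDiff.smul ?_ ((hG c).comp ?_)
      · exact (contDiff_apply ℝ ℝ c).comp (contDiff_snd.comp L.symm.contDiff)
      · exact (contDiff_apply ℝ P c).comp (contDiff_fst.comp L.symm.contDiff)
    · simp only [ContinuousLinearEquiv.symm_apply_apply]
      have h1 : ∑ c, ρ c x = 1 := by
        rw [← finsum_eq_sum_of_fintype]; exact ρ.sum_eq_one (mem_univ x)
      have h2 : ∀ c : s, ρ c x • G c (b c x • chartAt P (c : M) x) = ρ c x • f x := by
        intro c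
        by_cases h : ρ c x = 0
        · simp only [h, zero_smul]
        · have h5 : x ∈ interior {x | b c x = 1} := hρ c (subset_tsupport _ h)
          have h6 := interior_subset h5
          have h3 : b c x = 1 := h6
          have h4 : x ∈ (chartAt P (c : M)).source :=
            (b c).support_subset_source (by simp [Function.mem_support, h3])
          rw [h3, one_smul, hGf c x h4 h3]
      simp only [h2, ← Finset.sum_smul, h1, one_smul]

omit [CompleteSpace P] in
/-- The same with periodic extensions. -/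
theorem Emb_per [T2Space M] [CompactSpace M] : ∃ (N : ℕ) (e : M → Fin N → ℝ),
    ContMDiff 𝓘(ℝ, P) 𝓘(ℝ, Fin N → ℝ) ∞ e ∧
    ∀ (W : Type) [NormedAddCommGroup W] [NormedSpace ℝ W] (f : M → W),
      ContMDiff 𝓘(ℝ, P) 𝓘(ℝ, W) ∞ f →
        ∃ g : (Fin N → ℝ) → W, ContDiff ℝ ∞ g ∧ (∀ i y, g (y + Pi.single i 1) = g y) ∧
          ∀ x, g (e x) = f x := by
  obtain ⟨N, e, he, hx⟩ := Emb_pre (P := P) (M := M)
  obtain ⟨R, hR⟩ := (isCompact_univ (X := M)).exists_bound_of_continuousOn
    he.continuous.continuousOn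
  have hpos : 0 < |R| + 1 := by positivity
  have hb : ∀ x i, |e x i / (|R| + 1)| < 1 := by
    intro x i
    rw [abs_div, abs_of_pos hpos, div_lt_one hpos]
    have h1 : |e x i| ≤ ‖e x‖ := norm_le_pi_norm (e x) i
    linarith [hR x (mem_univ x), le_abs_self R]
  have hpi : (2 * Real.pi) ≠ 0 := by positivity
  refine ⟨N, fun x i => Real.arcsin (e x i / (|R| + 1)) / (2 * Real.pi), ?_,
    fun W _ _ f hf => ?_⟩
  · refine contMDiff_pi_space.2 fun i x => ?_
    have h1 : ContDiffAt ℝ ∞ (fun t : ℝ => Real.arcsin (t / (|R| + 1)) / (2 * Real.pi))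
        (e x i) := by
      refine ContDiffAt.div_const ?_ _
      have h2 : ContDiffAt ℝ ∞ (fun t : ℝ => t / (|R| + 1)) (e x i) := by fun_prop
      exact ContDiffAt.comp (g := Real.arcsin) (f := fun t : ℝ => t / (|R| + 1)) (e x i)
        (Real.contDiffAt_arcsin (abs_lt.1 (hb x i)).1.ne' (abs_lt.1 (hb x i)).2.ne) h2
    exact h1.contMDiffAt.comp x (contMDiff_pi_space.1 he i x)
  · obtain ⟨g, hg, hgf⟩ := hx W f hf
    refine ⟨fun y => g fun i => (|R| + 1) * Real.sin (2 * Real.pi * y i), ?_, fun i y => ?_,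
      fun x => ?_⟩
    · exact hg.comp (contDiff_pi.2 fun i => by fun_prop)
    · refine congrArg g (funext fun l => ?_)
      by_cases h : l = i
      · subst h
        rw [Pi.add_apply, Pi.single_eq_same, mul_add (2 * Real.pi), mul_one, Real.sin_add_two_pi]
      · simp only [Pi.add_apply, Pi.single_eq_of_ne h, add_zero]
    · rw [← hgf x]
      refine congrArg g (funext fun i => ?_)
      beta_reduce
      rw [mul_div_cancel₀ _ hpi,
        Real.sin_arcsin (abs_lt.1 (hb x i)).1.le (abs_lt.1 (hb x i)).2.le,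
        mul_div_cancel₀ _ hpos.ne']

theorem exists_emb [T2Space M] [CompactSpace M] : ∃ (N : ℕ) (e : M → Fin N → ℝ), Emb P e := by
  obtain ⟨N, e, he, hx⟩ := Emb_per (P := P) (M := M)
  have b : ∀ c : M, SmoothBumpFunction 𝓘(ℝ, P) c := fun c => Classical.choice inferInstance
  refine ⟨N, e, he, fun f hf => ?_, fun x y hxy => ?_, fun z => ?_⟩
  · obtain ⟨g, hg, hp, hgf⟩ := hx ℝ f hf
    exact ⟨⟨g, hg, hp⟩, hgf⟩
  · obtain ⟨g, -, -, hg⟩ := hx ℝ _ (b x).contMDiff
    obtain ⟨r, -, -, hr⟩ := hx P _ (Emb_bump (b x))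
    have h1 : b x y = 1 := by rw [← hg y, ← hxy, hg x, (b x).eq_one]
    have h2 : y ∈ (chartAt P x).source :=
      (b x).support_subset_source (by simp [Function.mem_support, h1])
    refine (chartAt P x).injOn (mem_chart_source P x) h2 ?_
    have h3 := hr x
    rw [hxy, hr y, h1, (b x).eq_one, one_smul, one_smul] at h3
    exact h3.symm
  · obtain ⟨r, hr, -, hrz⟩ := hx P _ (Emb_bump (b z))
    refine ⟨r, hr, (b z).eventuallyEq_one.mono fun x h => ?_⟩
    rw [hrz x, h, Pi.one_apply, one_smul]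

end Pool.Agent.Lib.MP_de485e_gt.Ex
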