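import Pool.Agent.Lib.MP_de485e_gt.Ex.Geo1
import Pool.Agent.Lib.MP_de485e_gt.Ex.Emb

/-! The gradient fields of an immersion extend to the torus. -/

open Set Filter Topology Module Metric
open scoped RealInnerProductSpace InnerProduct Manifold ContDiff

namespace Pool.Agent.Lib.MP_de485e_gt.Ex

open Conv

variable {P Q : Type} [NormedAddCommGroup P] [InnerProductSpace ℝ P] [CompleteSpace P]
  [FiniteDimensional ℝ P] [NormedAddCommGroup Q] [InnerProductSpace ℝ Q] [CompleteSpace Q]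
  [FiniteDimensional ℝ Q]

variable {M : Type} [TopologicalSpace M] [ChartedSpace P M] [IsManifold 𝓘(ℝ, P) ∞ M]
  {d : Type} [Fintype d] [DecidableEq d] {ι : Type} [Fintype ι] [DecidableEq ι]

variable (P) in
/-- Periodic fields that restrict to the gradients of the coordinates of `F`. -/
structure Flds (F : M → Q) (e : M → d → ℝ) (O : OrthonormalBasis ι ℝ Q) (X : ι → d → Tr d)
    (K : ι → ι → Tr d) : Prop where
  hK : ∀ a b x, (K a b).1 (e x) =
    (if a = b then 1 else 0) - ⟪O b, dF P F x (pinv (dF P F x) (O a))⟫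
  hX : ∀ a x l, (X a l).1 (e x) =
    fderiv ℝ (loc P e x) (chartAt P x x) (pinv (dF P F x) (O a)) l
  d1 : ∀ a x (u : Tr d), (vf (X a) u).1 (e x) =
    fderiv ℝ (loc P (u.1 ∘ e) x) (chartAt P x x) (pinv (dF P F x) (O a))
  d2 : ∀ a b x, ∃ η : P, ∀ u : Tr d, (vf (X a) (vf (X b) u)).1 (e x) =
    fderiv ℝ (fderiv ℝ (loc P (u.1 ∘ e) x)) (chartAt P x x) (pinv (dF P F x) (O a))
        (pinv (dF P F x) (O b)) +
      fderiv ℝ (loc P (u.1 ∘ e) x) (chartAt P x x) η

theorem DT2_trans {c x : M} (hc : x ∈ (chartAt P c).source) : ∃ A : P ≃L[ℝ] P,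
    ∀ {V : Type} [NormedAddCommGroup V] [NormedSpace ℝ V] (f : M → V),
      DifferentiableAt ℝ (loc P f c) (chartAt P c x) →
        fderiv ℝ (loc P f x) (chartAt P x x) =
          fderiv ℝ (loc P f c) (chartAt P c x) ∘L (A : P →L[ℝ] P) := by
  have hx := mem_chart_source P x
  refine ⟨ContinuousLinearEquiv.equivOfInverse
    (fderiv ℝ (chartAt P c ∘ (chartAt P x).symm) (chartAt P x x))
    (fderiv ℝ (chartAt P x ∘ (chartAt P c).symm) (chartAt P c x))
    (Mod1b_trans_inv hx hc) (Mod1b_trans_inv hc hx), fun f hf => ?_⟩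
  have e0 : (chartAt P c ∘ (chartAt P x).symm) (chartAt P x x) = chartAt P c x := by
    rw [Function.comp_apply, (chartAt P x).left_inv hx]
  have e : loc P f x =ᶠ[𝓝 (chartAt P x x)] loc P f c ∘ (chartAt P c ∘ (chartAt P x).symm) := by
    filter_upwards [Mod1b_near hx hc] with y hy
    simp only [loc, Function.comp_apply, (chartAt P c).left_inv hy.2]
  rw [e.fderiv_eq, fderiv_comp _ (e0 ▸ hf) (Mod1b_trans_diff hx hc), e0]
  rfl

section

variable {V : Type} [NormedAddCommGroup V] [NormedSpace ℝ V] {F : M → Q} {f : M → V}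

theorem DT2_at (hf : ContMDiff 𝓘(ℝ, P) 𝓘(ℝ, V) ∞ f) {c : M} {y : P}
    (hy : y ∈ (chartAt P c).target) : ContDiffAt ℝ ∞ (loc P f c) y :=
  (loc_smooth hf c).contDiffAt ((chartAt P c).open_target.mem_nhds hy)

theorem DT2_chart (hF : SImm P F) (hf : ContMDiff 𝓘(ℝ, P) 𝓘(ℝ, V) ∞ f) (w : Q) {c x : M}
    (hc : x ∈ (chartAt P c).source) :
    fderiv ℝ (loc P f x) (chartAt P x x) (pinv (dF P F x) w) =
      fderiv ℝ (loc P f c) (chartAt P c x) (pinv (fderiv ℝ (loc P F c) (chartAt P c x)) w) := by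
  obtain ⟨A, hA⟩ := DT2_trans (P := P) hc
  have ht := (chartAt P c).map_source hc
  rw [dF, hA f ((DT2_at hf ht).differentiableAt (by simp)),
    hA F ((DT2_at hF.smooth ht).differentiableAt (by simp)), ← pinv_comp (hF.nice c ht).inj A w]
  rfl

theorem DT2_xi (hF : SImm P F) (w : Q) {c : M} {y : P} (hy : y ∈ (chartAt P c).target) :
    ContDiffAt ℝ ∞ (fun y => pinv (fderiv ℝ (loc P F c) y) w) y :=
  ((contDiffAt_pinv (hF.nice c hy).inj).comp y
    ((DT2_at hF.smooth hy).fderiv_right (m := ∞) (by simp))).clm_apply contDiffAt_const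

theorem DT2_smooth (hF : SImm P F) (hf : ContMDiff 𝓘(ℝ, P) 𝓘(ℝ, V) ∞ f) (w : Q) :
    ContMDiff 𝓘(ℝ, P) 𝓘(ℝ, V) ∞
      fun x => fderiv ℝ (loc P f x) (chartAt P x x) (pinv (dF P F x) w) := fun c => by
  have hc := mem_chart_source P c
  have ht := (chartAt P c).map_source hc
  have h1 := ((DT2_at hf ht).fderiv_right (m := ∞) (by simp)).clm_apply (DT2_xi hF w ht)
  have h2 : ContMDiffAt 𝓘(ℝ, P) 𝓘(ℝ, P) ∞ (chartAt P c) c :=
    contMDiffOn_chart.contMDiffAt ((chartAt P c).open_source.mem_nhds hc)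
  refine (h1.contMDiffAt.comp c h2).congr_of_eventuallyEq ?_
  filter_upwards [(chartAt P c).open_source.mem_nhds hc] with x hx
  exact DT2_chart hF hf w hx

end

theorem DT2_vf (X : d → Tr d) (u : Tr d) (y : d → ℝ) :
    (vf X u).1 y = fderiv ℝ u.1 y fun i => (X i).1 y := by
  have e : (fun i => (X i).1 y) = ∑ i, (X i).1 y • (Pi.single i 1 : d → ℝ) := by
    ext j
    simp [Finset.sum_apply, Pi.single_apply]
  rw [e, map_sum, ← evx_apply, vf, map_sum]
  exact Finset.sum_congr rfl fun i _ => by rw [map_mul, map_smul]; rfl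

theorem exists_flds {F : M → Q} (hF : SImm P F) {e : M → d → ℝ} (he : Emb P e)
    (O : OrthonormalBasis ι ℝ Q) : ∃ X K, Flds P F e O X K := by
  choose X hX using fun (a : ι) (l : d) => he.ext
    (fun x => fderiv ℝ (loc P e x) (chartAt P x x) (pinv (dF P F x) (O a)) l)
    ((ContinuousLinearMap.proj (R := ℝ) (φ := fun _ : d => ℝ) l).contMDiff.comp
      (DT2_smooth hF he.smooth (O a)))
  choose K hK using fun a b : ι => he.ext
    (fun x => (if a = b then 1 else 0) - ⟪O b, dF P F x (pinv (dF P F x) (O a))⟫)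
    (contMDiff_const.sub ((innerSL ℝ (O b)).contMDiff.comp (DT2_smooth hF hF.smooth (O a))))
  have d1 : ∀ a x (u : Tr d), (vf (X a) u).1 (e x) =
      fderiv ℝ (loc P (u.1 ∘ e) x) (chartAt P x x) (pinv (dF P F x) (O a)) := fun a x u => by
    have hx := mem_chart_source P x
    have e0 : loc P e x (chartAt P x x) = e x := by
      rw [loc, Function.comp_apply, (chartAt P x).left_inv hx]
    have e1 : loc P (u.1 ∘ e) x = u.1 ∘ loc P e x := rfl
    rw [DT2_vf, e1, fderiv_comp _ (u.diff _)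
      ((DT2_at he.smooth ((chartAt P x).map_source hx)).differentiableAt (by simp)), e0]
    simp only [hX]
    rfl
  refine ⟨X, K, hK, fun a x l => hX a l x, d1, fun a b x => ?_⟩
  refine ⟨fderiv ℝ (fun y => pinv (fderiv ℝ (loc P F x) y) (O b)) (chartAt P x x)
    (pinv (dF P F x) (O a)), fun u => ?_⟩
  have ht := (chartAt P x).map_source (mem_chart_source P x)
  have hu : ContMDiff 𝓘(ℝ, P) 𝓘(ℝ, ℝ) ∞ (u.1 ∘ e) := u.smooth.contMDiff.comp he.smooth
  have e1 : loc P ((vf (X b) u).1 ∘ e) x =ᶠ[𝓝 (chartAt P x x)] fun y =>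
      fderiv ℝ (loc P (u.1 ∘ e) x) y (pinv (fderiv ℝ (loc P F x) y) (O b)) := by
    filter_upwards [(chartAt P x).open_target.mem_nhds ht] with y hy
    have := DT2_chart hF hu (O b) ((chartAt P x).map_target hy)
    rw [(chartAt P x).right_inv hy] at this
    exact (d1 b _ u).trans this
  rw [d1, e1.fderiv_eq, fderiv_clm_apply
    (((DT2_at hu ht).fderiv_right (m := ∞) (by simp)).differentiableAt (by simp))
    ((DT2_xi hF (O b) ht).differentiableAt (by simp)), add_comm]
  rfl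

end Pool.Agent.Lib.MP_de485e_gt.Ex
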