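import Pool.Agent.Lib.MP_de485e_gt.Ex.DT1
import Pool.Agent.Lib.MP_de485e_gt.Ex.DT2

/-! The operator on the torus restricted to the manifold. -/

open Set Filter Topology Module Metric
open scoped RealInnerProductSpace InnerProduct Manifold ContDiff

namespace Pool.Agent.Lib.MP_de485e_gt.Ex

open Conv

variable {P Q : Type} [NormedAddCommGroup P] [InnerProductSpace ℝ P] [CompleteSpace P]
  [FiniteDimensional ℝ P] [NormedAddCommGroup Q] [InnerProductSpace ℝ Q] [CompleteSpace Q]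
  [FiniteDimensional ℝ Q]

variable {M : Type} [TopologicalSpace M] [ChartedSpace P M] [IsManifold 𝓘(ℝ, P) ∞ M]
  {d : Type} [Fintype d] [DecidableEq d] {ι : Type} [Fintype ι] [DecidableEq ι]
  {F G : M → Q} {e : M → d → ℝ} {O : OrthonormalBasis ι ℝ Q} {S : Op d ι} {v : ι → Tr d}

omit [CompleteSpace P] [FiniteDimensional ℝ P] [CompleteSpace Q] [FiniteDimensional ℝ Q] in
theorem dt3_clm {g : P → Q} {y : P} (hg : ContDiffAt ℝ ∞ g y) (A : Q →L[ℝ] ℝ) (u w : P) :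
    fderiv ℝ (A ∘ g) y u = A (fderiv ℝ g y u) ∧
      fderiv ℝ (fderiv ℝ (A ∘ g)) y u w = A (fderiv ℝ (fderiv ℝ g) y u w) := by
  have h2 : ContDiffAt ℝ 2 g y := hg.of_le (WithTop.coe_le_coe.2 le_top)
  have h1 : ∀ᶠ z in 𝓝 y, fderiv ℝ (A ∘ g) z = A ∘L fderiv ℝ g z := by
    filter_upwards [h2.eventually (by simp)] with z hz
    exact (A.hasFDerivAt.comp z (hz.differentiableAt (by simp)).hasFDerivAt).fderiv
  refine ⟨by rw [h1.self_of_nhds]; rfl, ?_⟩
  have h3 : DifferentiableAt ℝ (fderiv ℝ g) y :=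
    (h2.fderiv_right (m := 1) (by norm_num)).differentiableAt (by simp)
  have h4 : fderiv ℝ (A ∘ g) =ᶠ[𝓝 y] (ContinuousLinearMap.compL ℝ P Q ℝ A) ∘ fderiv ℝ g := h1
  rw [h4.fderiv_eq, ((ContinuousLinearMap.compL ℝ P Q ℝ A).hasFDerivAt.comp y
    h3.hasFDerivAt).fderiv]
  rfl

omit [CompleteSpace Q] [FiniteDimensional ℝ Q] [DecidableEq ι] in
theorem dt3_coord (hG : ContMDiff 𝓘(ℝ, P) 𝓘(ℝ, Q) ∞ G)
    (hv : ∀ c x, (v c).1 (e x) = ⟪O c, G x⟫) (c : ι) (x : M) (u w : P) :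
    fderiv ℝ (loc P ((v c).1 ∘ e) x) (chartAt P x x) u = ⟪O c, dF P G x u⟫ ∧
      fderiv ℝ (fderiv ℝ (loc P ((v c).1 ∘ e) x)) (chartAt P x x) u w =
        ⟪O c, fderiv ℝ (fderiv ℝ (loc P G x)) (chartAt P x x) u w⟫ := by
  have e1 : loc P ((v c).1 ∘ e) x = innerSL ℝ (O c) ∘ loc P G x := funext fun y => hv c _
  rw [e1]
  exact dt3_clm ((loc_smooth hG x).contDiffAt
    ((chartAt P x).open_target.mem_nhds (mem_chart_target P x))) _ u w

omit [FiniteDimensional ℝ Q] in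
theorem dt3_vf (hX : Flds P F e O S.X S.K) (hG : ContMDiff 𝓘(ℝ, P) 𝓘(ℝ, Q) ∞ G)
    (hv : ∀ c x, (v c).1 (e x) = ⟪O c, G x⟫) (a c : ι) (x : M) :
    evx (e x) (vf (S.X a) (v c)) = ⟪O c, dF P G x (pinv (dF P F x) (O a))⟫ :=
  (hX.d1 a x (v c)).trans (dt3_coord hG hv c x _ 0).1

theorem mm_eq (hX : Flds P F e O S.X S.K) (hG : ContMDiff 𝓘(ℝ, P) 𝓘(ℝ, Q) ∞ G)
    (hv : ∀ c x, (v c).1 (e x) = ⟪O c, G x⟫) (a b : ι) (x : M) : (S.mm v (a, b)).1 (e x) =
      ⟪dF P G x (pinv (dF P F x) (O a)), dF P G x (pinv (dF P F x) (O b))⟫ +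
        ((if a = b then 1 else 0) - ⟪O b, dF P F x (pinv (dF P F x) (O a))⟫) := by
  rw [← evx_apply, Op.mm, map_add, map_sum, evx_apply, hX.hK,
    ← O.sum_inner_mul_inner (dF P G x (pinv (dF P F x) (O a)))]
  refine congrArg₂ (· + ·) (Finset.sum_congr rfl fun c _ => ?_) rfl
  rw [map_mul, dt3_vf hX hG hv, dt3_vf hX hG hv, real_inner_comm (O c)]

theorem rhs_eq (hX : Flds P F e O S.X S.K) (hc : S.c = finrank ℝ P)
    (hG : ContMDiff 𝓘(ℝ, P) 𝓘(ℝ, Q) ∞ G) (hv : ∀ c x, (v c).1 (e x) = ⟪O c, G x⟫) {x : M}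
    (h₀ : Function.Injective (dF P F x)) (hi : Function.Injective (dF P G x))
    (ha : ∀ a c, ∑ b, (S.mm v (a, b)).1 (e x) * (S.co v b c).1 (e x) = if a = c then 1 else 0) :
    (∃ η : P, ∑ c, (S.rhs v c).1 (e x) • O c = mH P G x + dF P G x η) ∧
    ∀ l, (∑ a, ∑ b, S.co v a b * (∑ c, S.rhs v c * vf (S.X b) (v c)) * S.X a l).1 (e x) =
      fderiv ℝ (loc P e x) (chartAt P x x)
        (pinv (dF P G x) (∑ c, (S.rhs v c).1 (e x) • O c)) l := by
  have hm := ha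
  simp only [mm_eq hX hG hv] at hm
  obtain ⟨k1, k2⟩ := inv_trace O h₀ hi hm
  constructor
  · choose η hη using fun a b => hX.d2 a b x
    have h1 : ∀ c, (S.rhs v c).1 (e x) = ⟪O c, trB (dF P G x)
        (fderiv ℝ (fderiv ℝ (loc P G x)) (chartAt P x x)) +
        dF P G x (∑ a, ∑ b, (S.co v a b).1 (e x) • η a b) + (finrank ℝ P : ℝ) • G x⟫ := by
      intro c
      rw [← evx_apply, Op.rhs, map_add, map_sum, map_smul, evx_apply _ (v c), hv, hc, ← k1,
        inner_add_right, real_inner_smul_right, map_sum, ← Finset.sum_add_distrib, inner_sum,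
        smul_eq_mul]
      congr 1
      refine Finset.sum_congr rfl fun a _ => ?_
      rw [map_sum, map_sum, ← Finset.sum_add_distrib, inner_sum]
      refine Finset.sum_congr rfl fun b _ => ?_
      rw [map_mul, evx_apply, evx_apply, hη, (dt3_coord hG hv c x _ _).2,
        (dt3_coord hG hv c x _ 0).1, map_smul, ← smul_add, real_inner_smul_right, inner_add_right]
    refine ⟨pinv (dF P G x) (trB (dF P G x) (fderiv ℝ (fderiv ℝ (loc P G x)) (chartAt P x x))) +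
      ∑ a, ∑ b, (S.co v a b).1 (e x) • η a b, ?_⟩
    have h2 : loc P G x (chartAt P x x) = G x :=
      congrArg G ((chartAt P x).left_inv (mem_chart_source P x))
    simp only [h1]
    rw [O.sum_repr', map_add, mH, Hc, Hj, h2]
    change _ = trB (dF P G x) _ - dF P G x (pinv (dF P G x) (trB (dF P G x) _)) + _ + _
    abel
  · intro l
    rw [← k2, ← evx_apply, map_sum, map_sum, Finset.sum_apply]
    refine Finset.sum_congr rfl fun a _ => ?_
    rw [map_sum, map_sum, Finset.sum_apply]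
    refine Finset.sum_congr rfl fun b _ => ?_
    rw [map_mul, map_mul, map_sum, map_smul, Pi.smul_apply, smul_eq_mul, sum_inner,
      evx_apply _ (S.X a l), hX.hX, evx_apply]
    congr 2
    refine Finset.sum_congr rfl fun c _ => ?_
    rw [map_mul, dt3_vf hX hG hv, real_inner_smul_left, evx_apply]

end Pool.Agent.Lib.MP_de485e_gt.Ex
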