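import Pool.Agent.Lib.MP_de485e_gt.Ex.Geo1

/-! The unit sphere is preserved. -/

open Set Filter Topology Module Metric
open scoped RealInnerProductSpace InnerProduct Manifold ContDiff

namespace Pool.Agent.Lib.MP_de485e_gt.Ex

open Conv

variable {P Q : Type} [NormedAddCommGroup P] [InnerProductSpace ℝ P] [CompleteSpace P]
  [FiniteDimensional ℝ P] [NormedAddCommGroup Q] [InnerProductSpace ℝ Q] [CompleteSpace Q]
  [FiniteDimensional ℝ Q]

theorem max_lin {M : Type} [TopologicalSpace M] [CompactSpace M] {g : ℝ × M → ℝ} {T K : ℝ}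
    (hc : ContinuousOn g (Icc 0 T ×ˢ univ)) (h0 : ∀ x, g (0, x) ≤ 0)
    (hd : ∀ t ∈ Ioc 0 T, ∀ x, (∀ y, g (t, y) ≤ g (t, x)) →
      ∃ g', HasDerivWithinAt (fun s => g (s, x)) g' (Icc 0 T) t ∧ g' ≤ K * g (t, x)) :
    ∀ t ∈ Icc 0 T, ∀ x, g (t, x) ≤ 0 := by
  intro t ht x
  by_contra hpos
  have hpos' : 0 < g (t, x) := not_le.1 hpos
  obtain ⟨c, hcd⟩ : ∃ c : ℝ, c = |K| + 1 := ⟨_, rfl⟩
  have hcK : K < c := by rw [hcd]; linarith [le_abs_self K]
  have hcont : ContinuousOn (fun p : ℝ × M => g p * Real.exp (-c * p.1)) (Icc 0 T ×ˢ univ) :=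
    hc.mul (by fun_prop)
  obtain ⟨⟨t0, x0⟩, ⟨ht0, -⟩, hmax⟩ := (isCompact_Icc.prod isCompact_univ).exists_isMaxOn
    ⟨(t, x), ht, mem_univ x⟩ hcont
  have hE : 0 < Real.exp (-c * t0) := Real.exp_pos _
  have h1 : 0 < g (t0, x0) * Real.exp (-c * t0) :=
    (mul_pos hpos' (Real.exp_pos _)).trans_le (hmax (show (t, x) ∈ Icc 0 T ×ˢ univ from
      ⟨ht, mem_univ x⟩))
  have h2 : 0 < g (t0, x0) := (mul_pos_iff_of_pos_right hE).1 h1
  have h3 : 0 < t0 := by
    refine lt_of_le_of_ne ht0.1 fun e => ?_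
    rw [← e] at h2
    exact absurd (h0 x0) (not_le.2 h2)
  obtain ⟨g', hg', hle⟩ := hd t0 ⟨h3, ht0.2⟩ x0 fun y =>
    le_of_mul_le_mul_right (hmax (show (t0, y) ∈ Icc 0 T ×ˢ univ from ⟨ht0, mem_univ y⟩)) hE
  have hexp : HasDerivWithinAt (fun s : ℝ => Real.exp (-c * s)) (Real.exp (-c * t0) * (-c))
      (Icc 0 T) t0 := by
    have := ((hasDerivAt_id t0).const_mul (-c)).exp
    simpa using this.hasDerivWithinAt
  have hder := hg'.mul hexp
  have hloc : IsLocalMaxOn (fun s => g (s, x0) * Real.exp (-c * s)) (Icc 0 T) t0 :=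
    IsMaxOn.localize fun s hs => hmax (show (s, x0) ∈ Icc 0 T ×ˢ univ from ⟨hs, mem_univ x0⟩)
  have hcone : (0 - t0 : ℝ) ∈ posTangentConeAt (Icc 0 T) t0 :=
    sub_mem_posTangentConeAt_of_segment_subset
      ((convex_Icc 0 T).segment_subset ht0 ⟨le_rfl, ht0.1.trans ht0.2⟩)
  have h4 := hloc.hasFDerivWithinAt_nonpos hder.hasFDerivWithinAt hcone
  simp only [ContinuousLinearMap.toSpanSingleton_apply, smul_eq_mul] at h4
  have h5 : g' - c * g (t0, x0) < 0 := by nlinarith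
  have h6 : 0 < t0 * (Real.exp (-c * t0) * (c * g (t0, x0) - g')) :=
    mul_pos h3 (mul_pos hE (by linarith))
  nlinarith

theorem Geo3_key {u : P → Q} {y : P} (hu : ContDiffAt ℝ 2 u y)
    (hi : Function.Injective (fderiv ℝ u y)) {c : ℝ} (hc : c ≠ 0)
    (hm : IsLocalMax (fun z => c * ⟪u z, u z⟫) y) (η : P) :
    c * (2 * ⟪u y, Hc u y + fderiv ℝ u y η⟫) ≤
      2 * (finrank ℝ P : ℝ) * (c * (⟪u y, u y⟫ - 1)) := by
  have hφ : ContDiffAt ℝ 2 (fun z => c * ⟪u z, u z⟫) y := contDiffAt_const.mul (hu.inner ℝ hu)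
  have d1 : ∀ ξ, ∀ᶠ z in 𝓝 y, fderiv ℝ (fun z => c * ⟪u z, u z⟫) z ξ =
      c * (2 * ⟪u z, fderiv ℝ u z ξ⟫) := fun ξ => by
    filter_upwards [hu.eventually (by simp)] with z hz
    have hd := (hz.differentiableAt (by norm_num)).hasFDerivAt
    rw [((hd.inner ℝ hd).const_mul c).fderiv]
    simp only [smul_apply, ContinuousLinearMap.comp_apply,
      fderivInnerCLM_apply, ContinuousLinearMap.prod_apply, smul_eq_mul,
      real_inner_comm (u z) (fderiv ℝ u z ξ)]
    ring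
  have perp : ∀ ξ, ⟪u y, fderiv ℝ u y ξ⟫ = 0 := fun ξ => by
    have h1 := (d1 ξ).self_of_nhds
    rw [hm.fderiv_eq_zero, zero_apply] at h1
    have h2 := (mul_eq_zero.1 h1.symm).resolve_left hc
    linarith
  have hd := (hu.differentiableAt (by norm_num)).hasFDerivAt
  have hd2 := ((hu.fderiv_right (m := 1) (by norm_num)).differentiableAt
    (by norm_num)).hasFDerivAt
  have hφ2 := ((hφ.fderiv_right (m := 1) (by norm_num)).differentiableAt
    (by norm_num)).hasFDerivAt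
  have d2 : ∀ a, fderiv ℝ (fderiv ℝ fun z => c * ⟪u z, u z⟫) y a a =
      c * (2 * (⟪u y, fderiv ℝ (fderiv ℝ u) y a a⟫ + ⟪fderiv ℝ u y a, fderiv ℝ u y a⟫)) := by
    intro a
    have := congrArg (fun T : P →L[ℝ] ℝ => T a) ((hφ2.clm_apply (hasFDerivAt_const a y)).unique
      ((((hd.inner ℝ (hd2.clm_apply (hasFDerivAt_const a y))).const_mul 2).const_mul
        c).congr_of_eventuallyEq (d1 a)))
    simpa only [ContinuousLinearMap.comp_apply, fderivInnerCLM_apply,
      add_apply, ContinuousLinearMap.prod_apply,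
      zero_apply, map_zero, zero_add, ContinuousLinearMap.flip_apply,
      smul_apply, smul_eq_mul] using this
  obtain ⟨b, hb⟩ := exists_frame hi
  have h1 := trB_max hi hφ hm
  rw [trB_frame hi _ hb] at h1
  have h2 : ∀ i, ⟪fderiv ℝ u y (b i), fderiv ℝ u y (b i)⟫ = 1 := fun i => by
    rw [real_inner_self_eq_norm_sq, hb.1 i, one_pow]
  simp only [d2, h2, ← Finset.mul_sum, Finset.sum_add_distrib, Finset.sum_const,
    Finset.card_univ, Fintype.card_fin, nsmul_eq_mul, mul_one, ← inner_sum] at h1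
  rw [← trB_frame hi _ hb] at h1
  rw [Hc, Hj, inner_add_right, inner_add_right, inner_sub_right, perp, perp,
    real_inner_smul_right]
  linarith

variable {M : Type} [TopologicalSpace M] [ChartedSpace P M] [IsManifold 𝓘(ℝ, P) ∞ M]

theorem sphere_kept [CompactSpace M] {G : ℝ → M → Q} {T : ℝ} (hs : JSm P G (Icc 0 T))
    (h0 : ∀ x, ‖G 0 x‖ = 1) (hi : ∀ t ∈ Icc 0 T, ∀ x, Function.Injective (dF P (G t) x))
    (hd : ∀ t ∈ Icc 0 T, ∀ x, ∃ η : P, HasDerivWithinAt (fun s => G s x)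
      (mH P (G t) x + dF P (G t) x η) (Icc 0 T) t) : ∀ t ∈ Icc 0 T, ∀ x, ‖G t x‖ = 1 := by
  have key : ∀ c : ℝ, c ≠ 0 → ∀ t ∈ Icc 0 T, ∀ x, c * (⟪G t x, G t x⟫ - 1) ≤ 0 := by
    intro c hc
    refine max_lin (g := fun p : ℝ × M => c * (⟪G p.1 p.2, G p.1 p.2⟫ - 1))
      (K := 2 * (finrank ℝ P : ℝ)) ?_ (fun x => ?_) fun t ht x hx => ?_
    · have h1 : ContinuousOn (fun p : ℝ × M => G p.1 p.2) (Icc 0 T ×ˢ univ) :=
        ContMDiffOn.continuousOn hs
      exact continuousOn_const.mul ((h1.inner (𝕜 := ℝ) h1).sub continuousOn_const)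
    · simp only [real_inner_self_eq_norm_sq, h0 x]
      simp
    · have ht' : t ∈ Icc 0 T := ⟨ht.1.le, ht.2⟩
      obtain ⟨η, hη⟩ := hd t ht' x
      have hy : chartAt P x x ∈ (chartAt P x).target := mem_chart_target P x
      have hu : ContDiffAt ℝ 2 (loc P (G t) x) (chartAt P x x) :=
        ((loc_smooth (hs.slice ht') x).contDiffAt
          ((chartAt P x).open_target.mem_nhds hy)).of_le (WithTop.coe_le_coe.2 (le_top : (2 : ℕ∞) ≤ ⊤))
      have e : loc P (G t) x (chartAt P x x) = G t x := by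
        rw [loc, Function.comp_apply, (chartAt P x).left_inv (mem_chart_source P x)]
      have hm : IsLocalMax (fun z => c * ⟪loc P (G t) x z, loc P (G t) x z⟫) (chartAt P x x) := by
        refine Eventually.of_forall fun z => ?_
        have := hx ((chartAt P x).symm z)
        simp only [e]
        simp only [loc, Function.comp_apply]
        linarith
      have k := Geo3_key hu (hi t ht' x) hc hm η
      rw [e] at k
      refine ⟨_, ((hη.inner ℝ hη).sub_const 1).const_mul c, ?_⟩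
      rw [real_inner_comm (G t x) (mH P (G t) x + dF P (G t) x η), ← two_mul]
      exact k
  intro t ht x
  have h1 := key 1 one_ne_zero t ht x
  have h2 := key (-1) (by norm_num) t ht x
  rw [real_inner_self_eq_norm_sq] at h1 h2
  have h3 : ‖G t x‖ ^ 2 = 1 := by linarith
  exact (pow_eq_one_iff_of_nonneg (norm_nonneg _) two_ne_zero).1 h3

end Pool.Agent.Lib.MP_de485e_gt.Ex
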