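import Pool.Agent.Lib.MP_de485e_gt.Ex.TD1
import Pool.Agent.Lib.MP_de485e_gt.Ex.Boot2

/-! Short time existence on the torus. -/

open Set Filter Topology
open scoped ContDiff

namespace Pool.Agent.Lib.MP_de485e_gt.Ex

variable {d : Type} [Fintype d] [DecidableEq d] {ι : Type} [Fintype ι]

theorem torus_exists (S : Op d ι) (u₀ : ι → Tr d) :
    ∃ T, 0 < T ∧ ∃ u : ℝ → ι → Tr d, u 0 = u₀ ∧
      (∀ c, ContDiffOn ℝ ∞ (fun p : ℝ × (d → ℝ) => (u p.1 c).1 p.2) (Icc 0 T ×ˢ univ)) ∧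
      ∀ t ∈ Icc 0 T, ∀ c x,
        HasDerivWithinAt (fun s => (u s c).1 x) ((S.rhs (u t) c).1 x) (Icc 0 T) t := by
  obtain ⟨T, hT, u, h0, hc, he⟩ := gal_limit S u₀
  obtain ⟨Ψ, hΨ, eΨ⟩ := S.exists_psi
  refine ⟨T, hT, u, h0, fun c => ?_, he⟩
  have hJ := uniqueDiffOn_Icc hT
  have key := boot (Pi.basisFun ℝ d) (J := Icc 0 T) (U := univ)
    (u := fun t y c => (u t c).1 y) (G := fun t y c => (S.rhs (u t) c).1 y) (convex_Icc 0 T) hJ
    isOpen_univ (Cm.pi isOpen_univ hc) (fun m hm => ?_)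
    fun t ht y _ => hasDerivWithinAt_pi.2 fun c => he t ht c y
  · exact contDiffOn_pi.1 key c
  have h1 : ∀ c, Cm (Pi.basisFun ℝ d) (Icc 0 T) univ m fun t => (u t c).1 := fun c =>
    Cm.comp hJ isOpen_univ isOpen_univ (Φ := fun p : ℝ × (ι → ℝ) => p.2 c)
      (ContDiff.contDiffOn (by fun_prop)) hm fun _ _ _ _ => mem_univ _
  have h2 : ∀ i c, Cm (Pi.basisFun ℝ d) (Icc 0 T) univ m fun t => (pd i (u t c)).1 := fun i c =>
    ((h1 c).der i).congr isOpen_univ fun t _ y _ => by rw [pd_apply, Pi.basisFun_apply]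
  have h3 : ∀ i l c, Cm (Pi.basisFun ℝ d) (Icc 0 T) univ m fun t => (pd i (pd l (u t c))).1 :=
    fun i l c => ((h2 l c).der i).congr isOpen_univ fun t _ y _ => by
      rw [pd_apply, Pi.basisFun_apply]
  have h4 : Cm (Pi.basisFun ℝ d) (Icc 0 T) univ m fun t y => (y, jet (u t) y) :=
    Cm.id.prod isOpen_univ (hm.prod isOpen_univ
      ((Cm.pi isOpen_univ fun i => Cm.pi isOpen_univ (h2 i)).prod isOpen_univ
        (Cm.pi isOpen_univ fun i => Cm.pi isOpen_univ fun l => Cm.pi isOpen_univ (h3 i l))))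
  refine Cm.pi isOpen_univ fun c => ?_
  exact (Cm.comp hJ isOpen_univ isOpen_univ (Φ := fun p : ℝ × (d → ℝ) × Jt d ι => Ψ c p.2)
    ((hΨ c).comp contDiff_snd).contDiffOn h4 fun _ _ _ _ => mem_univ _).congr isOpen_univ
    fun t _ y _ => eΨ _ c y

end Pool.Agent.Lib.MP_de485e_gt.Ex
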