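import Pool.Agent.Lib.MP_de485e_gt.Ex.DT3
import Pool.Agent.Lib.MP_de485e_gt.Ex.Geo2
import Pool.Agent.Lib.MP_de485e_gt.Ex.Geo3
import Pool.Agent.Lib.MP_de485e_gt.Ex.TD2

/-! The flow up to a tangential field. -/

open Set Filter Topology Module Metric
open scoped RealInnerProductSpace InnerProduct Manifold ContDiff

namespace Pool.Agent.Lib.MP_de485e_gt.Ex

open Conv

section JS

variable {d : Type} [Fintype d] [DecidableEq d] {J : Set ℝ}

/-- Joint smoothness of a family of periodic functions. -/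
def dt4JS (J : Set ℝ) (f : ℝ → Tr d) : Prop :=
  ContDiffOn ℝ ∞ (fun p : ℝ × (d → ℝ) => (f p.1).1 p.2) (J ×ˢ univ)

theorem dt4_const (g : Tr d) : dt4JS J fun _ => g :=
  (g.smooth.comp contDiff_snd).contDiffOn

theorem dt4_add {f g : ℝ → Tr d} (hf : dt4JS J f) (hg : dt4JS J g) :
    dt4JS J fun t => f t + g t := ContDiffOn.add hf hg

theorem dt4_mul {f g : ℝ → Tr d} (hf : dt4JS J f) (hg : dt4JS J g) :
    dt4JS J fun t => f t * g t := ContDiffOn.mul hf hg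

theorem dt4_neg {f : ℝ → Tr d} (hf : dt4JS J f) : dt4JS J fun t => -f t := ContDiffOn.neg hf

theorem dt4_smul (r : ℝ) {f : ℝ → Tr d} (hf : dt4JS J f) : dt4JS J fun t => r • f t :=
  ContDiffOn.mul (contDiffOn_const (c := r)) hf

theorem dt4_sum {α : Type} [Fintype α] {f : α → ℝ → Tr d} (hf : ∀ a, dt4JS J (f a)) :
    dt4JS J fun t => ∑ a, f a t :=
  (ContDiffOn.sum (s := Finset.univ) fun a _ => hf a).congr fun p _ =>
    map_sum (evx p.2) (fun a => f a p.1) Finset.univ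

theorem dt4_pd (hJ : UniqueDiffOn ℝ J) (i : d) {f : ℝ → Tr d} (hf : dt4JS J f) :
    dt4JS J fun t => pd i (f t) :=
  (param' (m := ∞) hJ isOpen_univ (by simp) hf).clm_apply
    (contDiffOn_const (c := (Pi.single i 1 : d → ℝ)))

theorem dt4_cmp {σ : Type} [Fintype σ] (Φ : (σ → ℝ) → ℝ) (hΦ : ContDiff ℝ ∞ Φ)
    {g : ℝ → σ → Tr d} (hg : ∀ s, dt4JS J fun t => g t s) :
    dt4JS J fun t => cmp Φ hΦ (g t) :=
  hΦ.comp_contDiffOn (contDiffOn_pi.2 hg)

theorem dt4_vf (hJ : UniqueDiffOn ℝ J) (X : d → Tr d) {f : ℝ → Tr d} (hf : dt4JS J f) :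
    dt4JS J fun t => vf X (f t) :=
  dt4_sum fun i => dt4_mul (dt4_const (X i)) (dt4_pd hJ i hf)

variable {ι : Type} [Fintype ι] (S : Op d ι) {v : ℝ → ι → Tr d}

theorem dt4_mm (hJ : UniqueDiffOn ℝ J) (hv : ∀ c, dt4JS J fun t => v t c) (s : ι × ι) :
    dt4JS J fun t => S.mm (v t) s :=
  dt4_add (dt4_sum fun c => dt4_mul (dt4_vf hJ _ (hv c)) (dt4_vf hJ _ (hv c))) (dt4_const _)

theorem dt4_co (hJ : UniqueDiffOn ℝ J) (hv : ∀ c, dt4JS J fun t => v t c) (a b : ι) :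
    dt4JS J fun t => S.co (v t) a b :=
  dt4_cmp _ _ (dt4_mm S hJ hv)

theorem dt4_rhs (hJ : UniqueDiffOn ℝ J) (hv : ∀ c, dt4JS J fun t => v t c) (c : ι) :
    dt4JS J fun t => S.rhs (v t) c :=
  dt4_add (dt4_sum fun a => dt4_sum fun b =>
    dt4_mul (dt4_co S hJ hv a b) (dt4_vf hJ _ (dt4_vf hJ _ (hv c)))) (dt4_smul _ (hv c))

theorem dt4_fld (hJ : UniqueDiffOn ℝ J) (hv : ∀ c, dt4JS J fun t => v t c) (l : d) :
    dt4JS J fun t => -∑ a, ∑ b,
      S.co (v t) a b * (∑ c, S.rhs (v t) c * vf (S.X b) (v t c)) * S.X a l :=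
  dt4_neg (dt4_sum fun a => dt4_sum fun b => dt4_mul (dt4_mul (dt4_co S hJ hv a b)
    (dt4_sum fun c => dt4_mul (dt4_rhs S hJ hv c) (dt4_vf hJ _ (hv c)))) (dt4_const _))

theorem dt4_bdd (hJ : IsCompact J) {f : ℝ → Tr d} (hf : dt4JS J f) :
    ∃ C, ∀ t ∈ J, ∀ y, |(f t).1 y| ≤ C := by
  obtain ⟨C, hC⟩ := (hJ.prod (isCompact_Icc (a := (0 : d → ℝ)) (b := 1))).exists_bound_of_continuousOn
    (hf.continuousOn.mono (prod_mono subset_rfl (subset_univ _)))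
  refine ⟨C, fun t ht y => ?_⟩
  rw [← (f t).per_fract y]
  exact hC (t, fun i => Int.fract (y i))
    ⟨ht, fun i => Int.fract_nonneg _, fun i => (Int.fract_lt_one _).le⟩

theorem dt4_lip (hJ : IsCompact J) (hJ' : UniqueDiffOn ℝ J) {w : d → ℝ → Tr d}
    (hw : ∀ l, dt4JS J (w l)) :
    ∃ L : NNReal, ∀ t ∈ J, LipschitzWith L fun y l => (w l t).1 y := by
  choose C hC using fun p : d × d => dt4_bdd hJ (dt4_pd hJ' p.2 (hw p.1))
  obtain ⟨K, hK, h⟩ := exists_lip (V := ℝ) (Pi.basisFun ℝ d)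
  have h0 : 0 ≤ ∑ p, |C p| := Finset.sum_nonneg fun _ _ => abs_nonneg _
  refine ⟨⟨K * ∑ p, |C p|, mul_nonneg hK h0⟩, fun t ht => LipschitzWith.of_dist_le_mul fun y y' => ?_⟩
  rw [dist_eq_norm, dist_eq_norm]
  refine (pi_norm_le_iff_of_nonneg (mul_nonneg (mul_nonneg hK h0) (norm_nonneg _))).2 fun l => ?_
  refine h univ (w l t).1 _ isOpen_univ convex_univ (fun x _ => ((w l t).diff x).differentiableWithinAt)
    (fun i x _ => ?_) y trivial y' trivial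
  rw [Pi.basisFun_apply]
  exact ((hC (l, i) t ht x).trans (le_abs_self _)).trans
    (Finset.single_le_sum (f := fun p => |C p|) (fun _ _ => abs_nonneg _) (Finset.mem_univ (l, i)))

theorem dt4_shrink {T : ℝ} (hT : 0 < T) {p : ℝ → Prop} (h : ∀ᶠ t in 𝓝[Icc 0 T] 0, p t) :
    ∃ T', 0 < T' ∧ T' ≤ T ∧ ∀ t ∈ Icc 0 T', p t := by
  obtain ⟨ε, hε, h⟩ := Metric.eventually_nhds_iff.1 (eventually_nhdsWithin_iff.1 h)
  refine ⟨min T (ε / 2), lt_min hT (half_pos hε), min_le_left _ _, fun t ht =>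
    h ?_ ⟨ht.1, ht.2.trans (min_le_left _ _)⟩⟩
  rw [Real.dist_eq, sub_zero, abs_of_nonneg ht.1]
  exact (ht.2.trans (min_le_right _ _)).trans_lt (half_lt_self hε)

theorem dt4_near {M : Type} [TopologicalSpace M] [CompactSpace M] {e : M → d → ℝ}
    (he : Continuous e) {f : ℝ → Tr d} (hf : dt4JS J f) {a r δ : ℝ} (ha : a ∈ J) (hδ : 0 < δ)
    (h0 : ∀ x, (f a).1 (e x) = r) : ∀ᶠ t in 𝓝[J] a, ∀ x, |(f t).1 (e x) - r| < δ := by
  have key := (isCompact_range he).eventually_forall_of_forall_eventually (x₀ := a)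
    (P := fun t y => t ∈ J → |(f t).1 y - r| < δ) ?_
  · rw [eventually_nhdsWithin_iff]
    exact key.mono fun t ht htJ x => ht (e x) ⟨x, rfl⟩ htJ
  · rintro _ ⟨x, rfl⟩
    have hc := hf.continuousOn (a, e x) ⟨ha, trivial⟩
    have := Metric.tendsto_nhds.1 hc δ hδ
    rw [eventually_nhdsWithin_iff] at this
    refine this.mono fun z hz hzJ => ?_
    have h1 : |(f z.1).1 z.2 - (f a).1 (e x)| < δ := hz ⟨hzJ, trivial⟩
    rwa [h0] at h1

end JS

variable {P Q : Type} [NormedAddCommGroup P] [InnerProductSpace ℝ P] [CompleteSpace P]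
  [FiniteDimensional ℝ P] [NormedAddCommGroup Q] [InnerProductSpace ℝ Q] [CompleteSpace Q]
  [FiniteDimensional ℝ Q]

variable {M : Type} [TopologicalSpace M] [ChartedSpace P M] [IsManifold 𝓘(ℝ, P) ∞ M]

theorem deturck [T2Space M] [CompactSpace M] {F : M → Q} (hF : SImm P F) :
    ∃ (N : ℕ) (e : M → Fin N → ℝ) (T : ℝ) (u : ℝ × (Fin N → ℝ) → Q)
      (W : ℝ × (Fin N → ℝ) → Fin N → ℝ) (L : NNReal), Emb P e ∧ 0 < T ∧
      ContDiffOn ℝ ∞ u (Icc 0 T ×ˢ univ) ∧ ContDiffOn ℝ ∞ W (Icc 0 T ×ˢ univ) ∧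
      (∀ t ∈ Icc 0 T, LipschitzWith L fun y => W (t, y)) ∧ (∀ x, u (0, e x) = F x) ∧
      (∀ t ∈ Icc 0 T, SImm P fun x => u (t, e x)) ∧
      ∀ t ∈ Icc 0 T, ∀ x, ∃ ζ : P, W (t, e x) = fderiv ℝ (loc P e x) (chartAt P x x) ζ ∧
        HasDerivWithinAt (fun s => u (s, e x))
          (mH P (fun x => u (t, e x)) x - dF P (fun x => u (t, e x)) x ζ) (Icc 0 T) t := by
  classical
  obtain ⟨N, e, he⟩ := exists_emb (P := P) (M := M)
  set O := stdOrthonormalBasis ℝ Q with hO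
  obtain ⟨X, K, hX⟩ := exists_flds hF he O
  obtain ⟨Φ, lam, δ, hlam, hδ, hsm, hell, hinv⟩ := exists_phi (Fin (finrank ℝ Q))
  let S : Op (Fin N) (Fin (finrank ℝ Q)) := ⟨X, K, Φ, hsm, lam, hlam, hell, finrank ℝ P⟩
  have hX' : Flds P F e O S.X S.K := hX
  choose u₀ hu₀ using fun c => he.ext (fun x => ⟪O c, F x⟫)
    ((innerSL ℝ (O c)).contDiff.contMDiff.comp hF.smooth)
  obtain ⟨T, hT, v, hv0, hvs, hvd⟩ := torus_exists S u₀
  have hJ : UniqueDiffOn ℝ (Icc 0 T) := uniqueDiffOn_Icc hT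
  have hvs' : ∀ c, dt4JS (Icc 0 T) fun t => v t c := hvs
  let u : ℝ × (Fin N → ℝ) → Q := fun p => ∑ c, (v p.1 c).1 p.2 • O c
  have hu : ContDiffOn ℝ ∞ u (Icc 0 T ×ˢ univ) :=
    ContDiffOn.sum fun c _ => (hvs c).smul contDiffOn_const
  have hin : ∀ t c x, (v t c).1 (e x) = ⟪O c, u (t, e x)⟫ := fun t c x =>
    (O.orthonormal.inner_right_fintype (fun c => (v t c).1 (e x)) c).symm
  have hu0 : ∀ x, u (0, e x) = F x := fun x => by
    change ∑ c, (v 0 c).1 (e x) • O c = F x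
    simp only [hv0, hu₀]
    exact O.sum_repr' (F x)
  have hjs : JSm P (fun t x => u (t, e x)) (Icc 0 T) :=
    hu.contMDiffOn.comp
      (contMDiff_fst.prodMk_space (he.smooth.comp contMDiff_snd)).contMDiffOn
      fun p hp => ⟨hp.1, trivial⟩
  have h00 : (0 : ℝ) ∈ Icc 0 T := ⟨le_rfl, hT.le⟩
  have hF0 : (fun x => u (0, e x)) = F := funext hu0
  have e1 : ∀ᶠ t in 𝓝[Icc 0 T] 0, ∀ x, Function.Injective (dF P (fun x => u (t, e x)) x) :=
    imm_open hJ hjs h00 fun x => by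
      rw [hF0]
      exact hF.imm x
  have e2 : ∀ᶠ t in 𝓝[Icc 0 T] 0, ∀ a b x,
      |(S.mm (v t) (a, b)).1 (e x) - if a = b then 1 else 0| < δ := by
    refine eventually_all.2 fun a => eventually_all.2 fun b => ?_
    refine dt4_near he.smooth.continuous (dt4_mm S hJ hvs' (a, b)) h00 hδ fun x => ?_
    rw [mm_eq hX' hF.smooth (fun c x => by rw [hin, hu0]) a b x, real_inner_comm,
      inner_pinv (hF.imm x)]
    ring
  obtain ⟨T', hT', hle, hp⟩ := dt4_shrink hT (e1.and e2)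
  have hsub : Icc 0 T' ⊆ Icc 0 T := Icc_subset_Icc_right hle
  have hJ' : UniqueDiffOn ℝ (Icc 0 T') := uniqueDiffOn_Icc hT'
  have hprod : (Icc 0 T' ×ˢ univ : Set (ℝ × (Fin N → ℝ))) ⊆ Icc 0 T ×ˢ univ :=
    prod_mono hsub subset_rfl
  have hvs'' : ∀ c, dt4JS (Icc 0 T') fun t => v t c := fun c => (hvs c).mono hprod
  have hjs' : JSm P (fun t x => u (t, e x)) (Icc 0 T') :=
    ContMDiffOn.mono hjs (prod_mono hsub subset_rfl)
  have hder : ∀ t ∈ Icc 0 T', ∀ x, HasDerivWithinAt (fun s => u (s, e x))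
      (∑ c, (S.rhs (v t) c).1 (e x) • O c) (Icc 0 T') t := fun t ht x =>
    HasDerivWithinAt.fun_sum fun c _ => ((hvd t (hsub ht) c (e x)).mono hsub).smul_const (O c)
  have hr := fun t (ht : t ∈ Icc 0 T') x =>
    rhs_eq hX' rfl (hjs'.slice ht) (hin t) (hF.imm x) ((hp t ht).1 x)
      (hinv (fun s => (S.mm (v t) s).1 (e x)) fun a b => (hp t ht).2 a b x)
  have hsph := sphere_kept hjs' (fun x => by rw [hu0]; exact hF.sphere x) (fun t ht => (hp t ht).1)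
    fun t ht x => by
      obtain ⟨η, hη⟩ := (hr t ht x).1
      exact ⟨η, hη ▸ hder t ht x⟩
  have hsi : ∀ t ∈ Icc 0 T', SImm P fun x => u (t, e x) := fun t ht =>
    ⟨hjs'.slice ht, hsph t ht, (hp t ht).1⟩
  have hw := dt4_fld S hJ' hvs''
  obtain ⟨L, hL⟩ := dt4_lip isCompact_Icc hJ' hw
  refine ⟨N, e, T', u, fun p l => (-∑ a, ∑ b, S.co (v p.1) a b *
    (∑ c, S.rhs (v p.1) c * vf (S.X b) (v p.1 c)) * S.X a l : Tr (Fin N)).1 p.2, L, he, hT',
    hu.mono hprod, contDiffOn_pi.2 hw, hL, hu0, hsi, fun t ht x => ?_⟩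
  obtain ⟨⟨η, hη⟩, h2⟩ := hr t ht x
  have hz : pinv (dF P (fun x => u (t, e x)) x) (mH P (fun x => u (t, e x)) x) = 0 := by
    have h3 := adj_Hj ((hp t ht).1 x) ((hsi t ht).nice x (mem_chart_target P x)).perp
      (fderiv ℝ (fderiv ℝ (loc P (fun x => u (t, e x)) x)) (chartAt P x x))
    change gi _ (((dF P (fun x => u (t, e x)) x)†) (mH P (fun x => u (t, e x)) x)) = 0
    rw [show ((dF P (fun x => u (t, e x)) x)†) (mH P (fun x => u (t, e x)) x) = 0 from h3, map_zero]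
  refine ⟨-η, funext fun l => ?_, ?_⟩
  · have h4 := h2 l
    rw [hη, map_add, hz, zero_add, pinv_apply ((hp t ht).1 x)] at h4
    rw [map_neg, Pi.neg_apply, ← h4]
    rfl
  · rw [map_neg, sub_neg_eq_add, ← hη]
    exact hder t ht x

end Pool.Agent.Lib.MP_de485e_gt.Ex
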