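import Pool.Agent.Lib.MP_de485e_gt.Ex.Geo1
import Pool.Agent.Lib.MP_de485e_gt.Hi.RDefs
import Pool.Agent.Lib.MP_de485e_gt.Conv.RDefs

/-! A transversal radial bijection is a diffeomorphism to the round sphere. -/

set_option linter.unusedSectionVars false

open Set Filter Topology Module Metric
open scoped RealInnerProductSpace InnerProduct Manifold ContDiff

namespace Pool.Agent.Lib.MP_de485e_gt.Ex

variable {P Q : Type} [NormedAddCommGroup P] [InnerProductSpace ℝ P] [CompleteSpace P]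
  [FiniteDimensional ℝ P] [NormedAddCommGroup Q] [InnerProductSpace ℝ Q] [CompleteSpace Q]
  [FiniteDimensional ℝ Q] {M : Type} [TopologicalSpace M] [ChartedSpace P M]
  [IsManifold 𝓘(ℝ, P) ∞ M] [T2Space M] [CompactSpace M] {n : ℕ}

theorem diffeo_of_bij (hP : finrank ℝ P = n) {N : Type} [TopologicalSpace N] [T2Space N]
    [ChartedSpace (EuclideanSpace ℝ (Fin n)) N] [IsManifold (𝓡 n) ∞ N] {f : M → N}
    (hf : ContMDiff 𝓘(ℝ, P) (𝓡 n) ∞ f) (hb : Function.Bijective f)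
    (hi : ∀ x, Function.Injective (mfderiv 𝓘(ℝ, P) (𝓡 n) f x)) :
    Nonempty (Diffeomorph 𝓘(ℝ, P) (𝓡 n) M N ∞) := by
  let e : M ≃ₜ N := Continuous.homeoOfEquivCompactToT2 (f := Equiv.ofBijective f hb) hf.continuous
  refine ⟨⟨e.toEquiv, hf, fun y => ?_⟩⟩
  obtain ⟨x, rfl⟩ := hb.2 y
  have ex : e.symm (f x) = x := e.symm_apply_apply x
  let Φ := (chartAt P x).symm ≫ₕ e.toOpenPartialHomeomorph ≫ₕ chartAt (EuclideanSpace ℝ (Fin n)) (f x)
  have h1 := (contMDiffAt_iff.1 (hf x)).2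
  have h2 := ((hf x).mdifferentiableAt (by simp)).hasMFDerivAt.2
  simp only [mfld_simps, contDiffWithinAt_univ, hasFDerivWithinAt_univ] at h1 h2
  let A₀ : P →L[ℝ] EuclideanSpace ℝ (Fin n) := mfderiv 𝓘(ℝ, P) (𝓡 n) f x
  let A : P ≃L[ℝ] EuclideanSpace ℝ (Fin n) :=
    (LinearMap.linearEquivOfInjective A₀.toLinearMap (hi x)
      (hP.trans (finrank_euclideanSpace_fin).symm)).toContinuousLinearEquiv
  have e1 : Φ.symm (chartAt (EuclideanSpace ℝ (Fin n)) (f x) (f x)) = chartAt P x x := by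
    simp only [Φ, mfld_simps, ex]
  have h3 := Φ.contDiffAt_symm (𝕜 := ℝ) (n := ∞) (f₀' := A)
    (a := chartAt (EuclideanSpace ℝ (Fin n)) (f x) (f x)) (by simp only [Φ, mfld_simps, ex])
    (by rw [e1]; exact h2) (by rw [e1]; exact h1)
  refine contMDiffAt_iff.2 ⟨e.symm.continuous.continuousAt, ?_⟩
  simp only [mfld_simps, contDiffWithinAt_univ]
  erw [ex]
  exact h3

theorem diffeo_of_radial (hP : finrank ℝ P = n) {G : M → EuclideanSpace ℝ (Fin (n + 1))}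
    (hG : ContMDiff 𝓘(ℝ, P) 𝓘(ℝ, EuclideanSpace ℝ (Fin (n + 1))) ∞ G)
    (ht : ∀ x ξ (ρ : ℝ), dF P G x ξ = ρ • G x → ξ = 0)
    (hb : BijOn (fun x => ‖G x‖⁻¹ • G x) univ (sphere 0 1)) :
    Nonempty (Diffeomorph 𝓘(ℝ, P) (𝓡 n) M (sphere (0 : EuclideanSpace ℝ (Fin (n + 1))) 1) ∞) := by
  have : Fact (finrank ℝ (EuclideanSpace ℝ (Fin (n + 1))) = n + 1) := ⟨finrank_euclideanSpace_fin⟩
  have h0 : ∀ x, G x ≠ 0 := fun x e => by simpa [e] using hb.mapsTo (mem_univ x)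
  have hn : ContMDiff 𝓘(ℝ, P) 𝓘(ℝ, ℝ) ∞ fun x => ‖G x‖ := fun x =>
    (contDiffAt_norm ℝ (h0 x)).contMDiffAt.comp x (hG x)
  have hg : ContMDiff 𝓘(ℝ, P) 𝓘(ℝ, EuclideanSpace ℝ (Fin (n + 1))) ∞ fun x => ‖G x‖⁻¹ • G x :=
    (hn.inv₀ fun x => norm_ne_zero_iff.2 (h0 x)).smul hG
  have hf := hg.codRestrict_sphere (n := n) fun x => hb.mapsTo (mem_univ x)
  refine diffeo_of_bij hP hf ⟨fun x y e => hb.injOn (mem_univ x) (mem_univ y)
    (congrArg Subtype.val e), fun z => ?_⟩ fun x => ?_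
  · obtain ⟨x, -, e⟩ := hb.surjOn z.2
    exact ⟨x, Subtype.ext e⟩
  have hc := ((contMDiff_coe_sphere (m := ∞) (n := n) _).mdifferentiableAt
    (by simp)).hasMFDerivAt.comp x ((hf x).mdifferentiableAt (by simp)).hasMFDerivAt
  refine (injective_iff_map_eq_zero _).2 fun ξ hξ => ?_
  obtain ⟨D, hD, h2⟩ : ∃ D : P →L[ℝ] EuclideanSpace ℝ (Fin (n + 1)), D ξ = 0 ∧
      HasFDerivAt (loc P (fun x => ‖G x‖⁻¹ • G x) x) D (chartAt P x x) := by
    have h2 := hc.2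
    simp only [mfld_simps, hasFDerivWithinAt_univ] at h2
    refine ⟨_, ?_, h2⟩
    exact (congrArg (mfderiv (𝓡 n) 𝓘(ℝ, EuclideanSpace ℝ (Fin (n + 1))) Subtype.val _) hξ).trans
      (map_zero _)
  have d1 := ((loc_smooth hn x).contDiffAt ((chartAt P x).open_target.mem_nhds
    (mem_chart_target P x))).differentiableAt (by simp)
  have k := (d1.hasFDerivAt.smul h2).congr_of_eventuallyEq (f₁ := loc P G x)
    (Eventually.of_forall fun y => (smul_inv_smul₀ (norm_ne_zero_iff.2 (h0 _)) _).symm)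
  refine ht x ξ (fderiv ℝ (loc P (fun x => ‖G x‖) x) (chartAt P x x) ξ * ‖G x‖⁻¹) ?_
  rw [dF, k.fderiv, add_apply, smul_apply, hD, smul_zero, zero_add, mul_smul,
    ContinuousLinearMap.smulRight_apply, loc, loc, Function.comp_apply,
    (chartAt P x).left_inv (mem_chart_source P x)]

theorem diffeo_sphere (hP : finrank ℝ P = n) {V : Submodule ℝ Q} (hV : finrank ℝ V = n + 1)
    {G : M → Q} (hG : ContMDiff 𝓘(ℝ, P) 𝓘(ℝ, Q) ∞ G) {p : Q}
    (ht : ∀ x ξ (ρ : ℝ), V.starProjection (dF P G x ξ) = ρ • V.starProjection (G x - p) → ξ = 0)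
    (hb : SubBij V p G) :
    Nonempty (Diffeomorph 𝓘(ℝ, P) (𝓡 n) M (sphere (0 : EuclideanSpace ℝ (Fin (n + 1))) 1) ∞) := by
  let A : V ≃ₗᵢ[ℝ] EuclideanSpace ℝ (Fin (n + 1)) :=
    ((stdOrthonormalBasis ℝ V).reindex (finCongr hV)).repr
  let B : Q →L[ℝ] EuclideanSpace ℝ (Fin (n + 1)) :=
    A.toLinearIsometry.toContinuousLinearMap ∘L V.orthogonalProjectionOnto
  have hB : ∀ w, B w = A (V.orthogonalProjectionOnto w) := fun _ => rfl
  have hs : ∀ w, ((V.orthogonalProjectionOnto w : V) : Q) = V.starProjection w := fun _ => rfl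
  have e : ∀ x, ‖B (G x - p)‖⁻¹ • B (G x - p) =
      A ⟨sproj V p (G x), (hb.mapsTo (mem_univ x)).1⟩ := fun x => by
    rw [hB, A.norm_map, ← map_smul]
    rfl
  refine diffeo_of_radial hP (G := fun x => B (G x - p))
    (B.contMDiff.comp (hG.sub contMDiff_const)) (fun x ξ ρ h => ht x ξ ρ ?_)
    ⟨fun x _ => ?_, fun x _ y _ h => ?_, fun z hz => ?_⟩
  · have d1 := ((loc_smooth hG x).contDiffAt ((chartAt P x).open_target.mem_nhds
      (mem_chart_target P x))).differentiableAt (by simp)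
    have k : dF P (fun x => B (G x - p)) x = B ∘L dF P G x :=
      (B.hasFDerivAt.comp _ (d1.hasFDerivAt.sub_const p)).fderiv
    rw [k, ContinuousLinearMap.comp_apply, hB, hB, ← map_smul] at h
    exact congrArg Subtype.val (A.injective h)
  · simp only [e, mem_sphere_zero_iff_norm, A.norm_map]
    exact (hb.mapsTo (mem_univ x)).2
  · simp only [e] at h
    exact hb.injOn (mem_univ x) (mem_univ y) (congrArg Subtype.val (A.injective h))
  · obtain ⟨x, -, h⟩ := hb.surjOn (show ((A.symm z : V) : Q) ∈ {w | w ∈ V ∧ ‖w‖ = 1} from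
      ⟨(A.symm z).2, (A.symm.norm_map z).trans (mem_sphere_zero_iff_norm.1 hz)⟩)
    refine ⟨x, mem_univ x, ?_⟩
    simp only [e]
    exact (A.eq_symm_apply).1 (Subtype.ext h) 

end Pool.Agent.Lib.MP_de485e_gt.Ex
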