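import Pool.Agent.Lib.MP_de485e_gt.Ex.Diff
import Pool.Agent.Lib.MP_de485e_gt.Conv.Mod3a

/-! The limits of the flow give a diffeomorphism to the round sphere. -/

set_option linter.unusedSectionVars false

open Set Filter Topology Module Metric
open scoped RealInnerProductSpace InnerProduct Manifold ContDiff

namespace Pool.Agent.Lib.MP_de485e_gt.Ex

variable {P Q : Type} [NormedAddCommGroup P] [InnerProductSpace ℝ P] [CompleteSpace P]
  [FiniteDimensional ℝ P] [NormedAddCommGroup Q] [InnerProductSpace ℝ Q] [CompleteSpace Q]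
  [FiniteDimensional ℝ Q] {M : Type} [TopologicalSpace M] [ChartedSpace P M]
  [IsManifold 𝓘(ℝ, P) ∞ M] [T2Space M] [CompactSpace M] {n : ℕ}

theorem transv {V : Submodule ℝ Q} {a y : Q} {r ρ : ℝ} (hr : 0 < r) (h1 : 9 / 10 * r ≤ ‖y‖)
    (h2 : ‖y - V.starProjection y‖ ≤ 1 / 10 * r) (h3 : ‖a - V.starProjection a‖ ≤ 1 / 10 * ‖a‖)
    (h4 : |⟪y, a⟫| ≤ 1 / 10 * r * ‖a‖) (e : V.starProjection a = ρ • V.starProjection y) :
    a = 0 := by
  have k1 : ⟪y, a⟫ = ⟪V.starProjection y, V.starProjection a⟫ +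
      ⟪y - V.starProjection y, a - V.starProjection a⟫ := by
    have z1 := V.starProjection_inner_eq_zero y _ (V.starProjection_apply_mem a)
    have z2 := V.starProjection_inner_eq_zero a _ (V.starProjection_apply_mem y)
    rw [real_inner_comm] at z2
    simp only [inner_sub_left, inner_sub_right] at z1 z2 ⊢
    linarith
  have k2 : |⟪V.starProjection y, V.starProjection a⟫| =
      ‖V.starProjection y‖ * ‖V.starProjection a‖ := by
    rw [e, real_inner_smul_right, real_inner_self_eq_norm_sq, norm_smul, abs_mul, Real.norm_eq_abs,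
      abs_sq]
    ring
  have k3 := (abs_real_inner_le_norm (y - V.starProjection y) (a - V.starProjection a)).trans
    (mul_le_mul h2 h3 (norm_nonneg _) (by positivity))
  have k4 : 8 / 10 * r ≤ ‖V.starProjection y‖ := by linarith [norm_sub_norm_le y (V.starProjection y)]
  have k5 : 9 / 10 * ‖a‖ ≤ ‖V.starProjection a‖ := by
    linarith [norm_sub_norm_le a (V.starProjection a)]
  have k6 := mul_le_mul k4 k5 (by positivity) (norm_nonneg _)
  have k7 := abs_sub_abs_le_abs_sub ⟪V.starProjection y, V.starProjection a⟫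
    (-⟪y - V.starProjection y, a - V.starProjection a⟫)
  rw [sub_neg_eq_add, ← k1, abs_neg, k2] at k7
  have k8 : r * ‖a‖ ≤ 0 := by nlinarith [mul_nonneg hr.le (norm_nonneg a)]
  exact norm_le_zero_iff.1 (nonpos_of_mul_nonpos_right k8 hr)

theorem tang_small {G : M → Q} {x : M} {y : Q} {r ε : ℝ} (hr : 0 < r) (ξ : P)
    (h : ‖r • sff P G x ξ ξ + (⟪dF P G x ξ, dF P G x ξ⟫ / r) • y‖ ≤
      ε * ‖dF P G x ξ‖ * ‖dF P G x ξ‖) : |⟪y, dF P G x ξ⟫| ≤ ε * r * ‖dF P G x ξ‖ := by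
  rcases (norm_nonneg (dF P G x ξ)).eq_or_lt with e | hp
  · rw [norm_eq_zero.1 e.symm, inner_zero_right, abs_zero, norm_zero, mul_zero]
  have h0 : ⟪sff P G x ξ ξ, dF P G x ξ⟫ = 0 := by
    rw [real_inner_comm]
    exact (Conv.mem_normal_iff.1 (Submodule.starProjection_apply_mem _ _)).1 ξ
  have k := (abs_real_inner_le_norm _ (dF P G x ξ)).trans (mul_le_mul_of_nonneg_right h hp.le)
  rw [inner_add_left, real_inner_smul_left, real_inner_smul_left, h0, mul_zero, zero_add,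
    real_inner_self_eq_norm_sq, abs_mul, abs_of_nonneg (by positivity), div_mul_eq_mul_div,
    div_le_iff₀ hr] at k
  refine le_of_mul_le_mul_left ?_ (pow_pos hp 2)
  linarith

variable {F : ℝ → M → Q}

theorem diffeo_fin (hn : 2 ≤ n) (hP : finrank ℝ P = n) {S : ℝ} (hS : 0 < S)
    (h : IsSphereMCF P F (Ico 0 S)) {p : Q} {V : Submodule ℝ Q} (hV : finrank ℝ V = n + 1)
    (h1 : ∀ ε : ℝ, 0 < ε → ∀ᶠ t in 𝓝[<] S, ∀ x,
      |‖F t x - p‖ / √(2 * n * (S - t)) - 1| ≤ ε ∧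
      ‖F t x - p - V.starProjection (F t x - p)‖ ≤ ε * √(2 * n * (S - t)) ∧
      (∀ u, ‖dF P (F t) x u - V.starProjection (dF P (F t) x u)‖ ≤ ε * ‖dF P (F t) x u‖) ∧
      ∀ u v, ‖√(2 * n * (S - t)) • sff P (F t) x u v +
          (⟪dF P (F t) x u, dF P (F t) x v⟫ / √(2 * n * (S - t))) • (F t x - p)‖ ≤
        ε * ‖dF P (F t) x u‖ * ‖dF P (F t) x v‖)
    (h2 : ∀ᶠ t in 𝓝[<] S, SubBij V p (F t)) :
    Nonempty (Diffeomorph 𝓘(ℝ, P) (𝓡 n) M (sphere (0 : EuclideanSpace ℝ (Fin (n + 1))) 1) ∞) := by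
  obtain ⟨t, k1, k2, k3⟩ := ((h1 (1 / 10) (by norm_num)).and (h2.and (Ioo_mem_nhdsLT hS))).exists
  have ht : t ∈ Ico 0 S := Ioo_subset_Ico_self k3
  have hn' : (0 : ℝ) < n := by exact_mod_cast (by omega : 0 < n)
  have hr : 0 < √(2 * n * (S - t)) := Real.sqrt_pos.2 (by have := sub_pos.2 k3.2; positivity)
  refine diffeo_sphere hP hV (simm h ht).smooth (fun x ξ ρ e => ?_) k2
  obtain ⟨a1, a2, a3, a4⟩ := k1 x
  refine (injective_iff_map_eq_zero _).1 (h.immersion t ht x) ξ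
    (transv hr ?_ a2 (a3 ξ) (tang_small hr ξ (a4 ξ ξ)) e)
  have := (le_div_iff₀ hr).1 (show 9 / 10 ≤ ‖F t x - p‖ / √(2 * n * (S - t)) by
    linarith [(abs_le.1 a1).1])
  exact this

theorem diffeo_inf (hP : finrank ℝ P = n) (h : IsSphereMCF P F (Ici 0)) {V : Submodule ℝ Q}
    (hV : finrank ℝ V = n + 1) {Φ : M → Q} (h0 : TendstoUniformly F Φ atTop) (hΦ : ∀ x, Φ x ∈ V)
    (h1 : ∀ᶠ t in atTop, ∀ x u,
      ‖dF P (F t) x u - V.starProjection (dF P (F t) x u)‖ ≤ 1 / 10 * ‖dF P (F t) x u‖)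
    (h2 : ∀ᶠ t in atTop, SubBij V 0 (F t)) :
    Nonempty (Diffeomorph 𝓘(ℝ, P) (𝓡 n) M (sphere (0 : EuclideanSpace ℝ (Fin (n + 1))) 1) ∞) := by
  obtain ⟨t, k1, k2, k3, ht⟩ := (h1.and (h2.and
    ((Metric.tendstoUniformly_iff.1 h0 (1 / 10) (by norm_num)).and (Ici_mem_atTop 0)))).exists
  refine diffeo_sphere hP hV (simm h ht).smooth (fun x ξ ρ e => ?_) k2
  rw [sub_zero] at e
  refine (injective_iff_map_eq_zero _).1 (h.immersion t ht x) ξ
    (transv one_pos (by rw [h.sphere t ht x]; norm_num) ?_ (k1 x ξ) ?_ e)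
  · have k4 : F t x - V.starProjection (F t x) = Vᗮ.starProjection (F t x - Φ x) := by
      rw [Submodule.starProjection_orthogonal_val, map_sub,
        Submodule.starProjection_eq_self_iff.2 (hΦ x)]
      abel
    rw [k4]
    refine (Submodule.norm_starProjection_apply_le _ _).trans ?_
    rw [← dist_eq_norm, dist_comm, mul_one]
    exact (k3 x).le
  · have k5 := ((simm h ht).nice x (mem_chart_target P x)).perp
    rw [loc, Function.comp_apply, (chartAt P x).left_inv (mem_chart_source P x)] at k5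
    rw [← ContinuousLinearMap.adjoint_inner_left]
    erw [k5]
    rw [inner_zero_left, abs_zero]
    positivity

theorem perp_proj {e : Q} (he : ‖e‖ = 1) (y : Q) :
    (ℝ ∙ e)ᗮ.starProjection y = y - ⟪e, y⟫ • e := by
  rw [Submodule.starProjection_orthogonal_val, Submodule.starProjection_unit_singleton ℝ he]

theorem perp_norm {e : Q} (he : ‖e‖ = 1) (y : Q) :
    ‖y - (ℝ ∙ e)ᗮ.starProjection y‖ = |⟪e, y⟫| := by
  rw [perp_proj he, sub_sub_cancel, norm_smul, he, mul_one, Real.norm_eq_abs]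

theorem sub_of_rad {e p : Q} (he : ‖e‖ = 1) (hp : p - ⟪e, p⟫ • e = 0) {G : M → Q}
    (h : RadialBij e G) : SubBij (ℝ ∙ e)ᗮ p G := by
  have e1 : ∀ y, sproj (ℝ ∙ e)ᗮ p y = rproj e y := fun y => by
    rw [sproj, map_sub, perp_proj he, perp_proj he, hp, sub_zero, rproj]
  have e2 : {w | w ∈ (ℝ ∙ e)ᗮ ∧ ‖w‖ = 1} = {w | ‖w‖ = 1 ∧ ⟪e, w⟫ = 0} := by
    ext w
    simp only [mem_ofPred_eq, Submodule.mem_orthogonal_singleton_iff_inner_right, and_comm]
  simp only [SubBij, e1, e2]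
  exact h

theorem perp_rank (hQ : finrank ℝ Q = n + 2) {e : Q} (he : ‖e‖ = 1) :
    finrank ℝ (ℝ ∙ e)ᗮ = n + 1 :=
  have : Fact (finrank ℝ Q = n + 1 + 1) := ⟨hQ⟩
  Submodule.finrank_orthogonal_span_singleton fun h => by simp [h] at he

theorem diffeo_fin' (hn : 2 ≤ n) (hP : finrank ℝ P = n) (hQ : finrank ℝ Q = n + 2) {S : ℝ}
    (hS : 0 < S) (h : IsSphereMCF P F (Ico 0 S)) {p : Q} (hp : ‖p‖ = 1)
    (h1 : ∀ ε : ℝ, 0 < ε → ∀ᶠ t in 𝓝[<] S, ∀ x,
      |‖F t x - p‖ / √(2 * n * (S - t)) - 1| ≤ ε ∧ ∀ u v,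
        ‖√(2 * n * (S - t)) • sff P (F t) x u v +
            (⟪dF P (F t) x u, dF P (F t) x v⟫ / √(2 * n * (S - t))) • (F t x - p)‖ ≤
          ε * ‖dF P (F t) x u‖ * ‖dF P (F t) x v‖)
    (h2 : ∀ᶠ t in 𝓝[<] S, RadialBij p (F t)) :
    Nonempty (Diffeomorph 𝓘(ℝ, P) (𝓡 n) M (sphere (0 : EuclideanSpace ℝ (Fin (n + 1))) 1) ∞) := by
  have h3 : ∀ᶠ t in 𝓝[<] S, √(2 * n * (S - t)) < 1 / 10 :=
    (tendsto_nhdsWithin_of_tendsto_nhds (Continuous.tendsto' (f := fun t : ℝ => √(2 * n * (S - t)))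
      (by fun_prop) S 0 (by simp))).eventually (gt_mem_nhds (by norm_num))
  obtain ⟨t, k1, k2, k3, k4⟩ :=
    ((h1 (1 / 10) (by norm_num)).and (h2.and (Eventually.and (Ioo_mem_nhdsLT hS) h3))).exists
  have ht : t ∈ Ico 0 S := Ioo_subset_Ico_self k3
  have hn' : (0 : ℝ) < n := by exact_mod_cast (by omega : 0 < n)
  have hr : 0 < √(2 * n * (S - t)) := Real.sqrt_pos.2 (by have := sub_pos.2 k3.2; positivity)
  refine diffeo_sphere hP (perp_rank hQ hp) (simm h ht).smooth (p := p) (fun x ξ ρ e => ?_)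
    (sub_of_rad hp (by rw [real_inner_self_eq_norm_sq, hp, one_pow, one_smul, sub_self]) k2)
  obtain ⟨a1, a4⟩ := k1 x
  have b1 := (le_div_iff₀ hr).1 (show 9 / 10 ≤ ‖F t x - p‖ / √(2 * n * (S - t)) by
    linarith [(abs_le.1 a1).1])
  have b2 := (div_le_iff₀ hr).1 (show ‖F t x - p‖ / √(2 * n * (S - t)) ≤ 11 / 10 by
    linarith [(abs_le.1 a1).2])
  have b3 := tang_small hr ξ (a4 ξ ξ)
  generalize √(2 * n * (S - t)) = r at *
  refine (injective_iff_map_eq_zero _).1 (h.immersion t ht x) ξ (transv hr b1 ?_ ?_ b3 e)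
  · have c1 : ⟪p, F t x - p⟫ = -(‖F t x - p‖ ^ 2 / 2) := by
      rw [norm_sub_sq_real, h.sphere t ht x, hp, inner_sub_right, real_inner_self_eq_norm_sq, hp,
        real_inner_comm]
      ring
    rw [perp_norm hp, c1, abs_neg, abs_of_nonneg (by positivity)]
    nlinarith [norm_nonneg (F t x - p)]
  · have k5 := ((simm h ht).nice x (mem_chart_target P x)).perp
    rw [loc, Function.comp_apply, (chartAt P x).left_inv (mem_chart_source P x)] at k5
    have k6 : ⟪F t x, dF P (F t) x ξ⟫ = 0 := by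
      rw [← ContinuousLinearMap.adjoint_inner_left]
      erw [k5]
      rw [inner_zero_left]
    rw [inner_sub_left, k6, zero_sub, abs_neg] at b3
    rw [perp_norm hp]
    nlinarith [norm_nonneg (dF P (F t) x ξ)]

theorem diffeo_inf' (hP : finrank ℝ P = n) (hQ : finrank ℝ Q = n + 2)
    (h : IsSphereMCF P F (Ici 0)) {e : Q} (he : ‖e‖ = 1) {Φ : M → Q}
    (h0 : TendstoUniformly F Φ atTop) (hΦ : ∀ x, ⟪e, Φ x⟫ = 0)
    (h1 : ∀ᶠ t in atTop, ∀ x, ∀ w ∈ normal P (F t) x, ‖w - ⟪e, w⟫ • e‖ ≤ 1 / 10 * ‖w‖)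
    (h2 : ∀ᶠ t in atTop, RadialBij e (F t)) :
    Nonempty (Diffeomorph 𝓘(ℝ, P) (𝓡 n) M (sphere (0 : EuclideanSpace ℝ (Fin (n + 1))) 1) ∞) := by
  refine diffeo_inf hP h (perp_rank hQ he) h0
    (fun x => Submodule.mem_orthogonal_singleton_iff_inner_right.2 (hΦ x)) ?_
    (h2.mono fun t k => sub_of_rad he (by rw [inner_zero_right, zero_smul, sub_zero]) k)
  filter_upwards [h1] with t k x u
  obtain ⟨w, hw, h3⟩ : ∃ w ∈ normal P (F t) x, w ≠ 0 := by
    refine Submodule.exists_mem_ne_zero_of_ne_bot fun e => ?_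
    have k1 := Submodule.finrank_add_le_finrank_add_finrank
      (LinearMap.range (dF P (F t) x).toLinearMap) (Submodule.span ℝ {F t x})
    have k2 := LinearMap.finrank_range_le (dF P (F t) x).toLinearMap
    have k3 := finrank_span_le_card (R := ℝ) ({F t x} : Set Q)
    rw [Submodule.orthogonal_eq_bot_iff.1 e, finrank_top] at k1
    simp only [toFinset_singleton, Finset.card_singleton] at k3
    omega
  have k4 := (Conv.mem_normal_iff.1 hw).1 u
  have k5 := k x w hw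
  have hw' := norm_pos_iff.2 h3
  have k6 : ⟪‖w‖ ^ 2 • e - ⟪e, w⟫ • w, dF P (F t) x u⟫ = ‖w‖ ^ 2 * ⟪e, dF P (F t) x u⟫ := by
    rw [inner_sub_left, real_inner_smul_left, real_inner_smul_left, real_inner_comm _ w, k4,
      mul_zero, sub_zero]
  have k7 : ‖‖w‖ ^ 2 • e - ⟪e, w⟫ • w‖ ^ 2 = (‖w‖ * ‖w - ⟪e, w⟫ • e‖) ^ 2 := by
    rw [mul_pow, norm_sub_sq_real, norm_sub_sq_real]
    simp only [norm_smul, real_inner_smul_left, real_inner_smul_right, he, Real.norm_eq_abs, mul_pow,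
      sq_abs, real_inner_comm e w]
    ring
  have k8 := abs_real_inner_le_norm (‖w‖ ^ 2 • e - ⟪e, w⟫ • w) (dF P (F t) x u)
  rw [k6, (pow_left_inj₀ (norm_nonneg _) (by positivity) two_ne_zero).1 k7, abs_mul,
    abs_of_nonneg (by positivity)] at k8
  rw [perp_norm he]
  refine le_of_mul_le_mul_left (k8.trans ?_) (pow_pos hw' 2)
  nlinarith [mul_le_mul_of_nonneg_left k5 (mul_nonneg hw'.le (norm_nonneg (dF P (F t) x u)))]

end Pool.Agent.Lib.MP_de485e_gt.Ex
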