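import Pool.Agent.Lib.MP_de485e_gt.Ex.Boot2
import Pool.Agent.Lib.MP_de485e_gt.Ex.Boot3

/-! The smooth flow of a time dependent vector field. -/

open Set Filter Topology
open scoped ContDiff

namespace Pool.Agent.Lib.MP_de485e_gt.Ex

/-- Pointwise evaluation of a field of linear maps on a field of vectors. -/
noncomputable def fl1_ev (K E F : Type) [TopologicalSpace K] [CompactSpace K]
    [NormedAddCommGroup E] [NormedSpace ℝ E] [NormedAddCommGroup F] [NormedSpace ℝ F] :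
    C(K, E →L[ℝ] F) →L[ℝ] C(K, E) →L[ℝ] C(K, F) :=
  LinearMap.mkContinuous₂
    (LinearMap.mk₂ ℝ (fun (A : C(K, E →L[ℝ] F)) (h : C(K, E)) =>
        (⟨fun t => A t (h t), A.continuous.clm_apply h.continuous⟩ : C(K, F)))
      (fun _ _ _ => by ext t; simp) (fun _ _ _ => by ext t; simp)
      (fun _ _ _ => by ext t; simp) (fun _ _ _ => by ext t; simp)) 1
    fun A h => by
      rw [one_mul]
      refine (ContinuousMap.norm_le _ (by positivity)).2 fun t => ?_
      exact ((A t).le_opNorm (h t)).trans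
        (mul_le_mul (A.norm_coe_le_norm t) (h.norm_coe_le_norm t) (norm_nonneg _)
          ((norm_nonneg _).trans (A.norm_coe_le_norm t)))

theorem fl1_ev_comp {K E F : Type} [TopologicalSpace K] [CompactSpace K]
    [NormedAddCommGroup E] [NormedSpace ℝ E] [FiniteDimensional ℝ E] [NormedAddCommGroup F]
    [NormedSpace ℝ F] {n : WithTop ℕ∞} {A : C(K, E) → C(K, E →L[ℝ] F)} (hA : ContDiff ℝ n A) :
    ContDiff ℝ n fun γ => fl1_ev K E F (A γ) := by
  have h : ContDiff ℝ n (fl1_ev K E F) := ContinuousLinearMap.contDiff (𝕜 := ℝ)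
    (E := C(K, E →L[ℝ] F)) (F := C(K, E) →L[ℝ] C(K, F)) (fl1_ev K E F)
  exact h.comp hA

/-- The composition operator with a parameter. -/
def fl1_nem {K E F : Type} [TopologicalSpace K] [TopologicalSpace E] [TopologicalSpace F]
    (f : C(K × E, F)) (γ : C(K, E)) : C(K, F) :=
  ⟨fun s => f (s, γ s), f.continuous.comp (continuous_id.prodMk γ.continuous)⟩

theorem fl1_nem_cont {K E F : Type} [TopologicalSpace K] [LocallyCompactSpace K]
    [TopologicalSpace E] [TopologicalSpace F] (f : C(K × E, F)) : Continuous (fl1_nem f) :=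
  ContinuousMap.continuous_of_continuous_uncurry _
    (f.continuous.comp (continuous_snd.prodMk continuous_eval))

theorem fl1_hasFDerivAt {K E F : Type} [TopologicalSpace K] [CompactSpace K]
    [LocallyCompactSpace K] [NormedAddCommGroup E] [NormedSpace ℝ E] [NormedAddCommGroup F]
    [NormedSpace ℝ F] (f : C(K × E, F)) (g : C(K × E, E →L[ℝ] F))
    (hf : ∀ s x, HasFDerivAt (fun y => f (s, y)) (g (s, x)) x) (γ : C(K, E)) :
    HasFDerivAt (fl1_nem f) (fl1_ev K E F (fl1_nem g γ)) γ := by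
  rw [hasFDerivAt_iff_isLittleO_nhds_zero, Asymptotics.isLittleO_iff]
  intro ε hε
  have hc : ContinuousAt (fl1_nem g) γ := (fl1_nem_cont g).continuousAt
  obtain ⟨δ, hδ, H⟩ := (Metric.continuousAt_iff (α := C(K, E)) (β := C(K, E →L[ℝ] F))
    (f := fl1_nem g) (a := γ)).1 hc ε hε
  filter_upwards [Metric.ball_mem_nhds (0 : C(K, E)) hδ] with h hh
  rw [mem_ball_zero_iff] at hh
  refine (ContinuousMap.norm_le _ (by positivity)).2 fun t => ?_
  have key := Convex.norm_image_sub_le_of_norm_hasFDerivWithin_le'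
    (f := fun y => f (t, y)) (f' := fun x => g (t, x)) (φ := g (t, γ t)) (C := ε)
    (fun x _ => (hf t x).hasFDerivWithinAt) (fun x hx => ?_) (convex_segment (γ t) (γ t + h t))
    (left_mem_segment _ _ _) (right_mem_segment _ _ _)
  · rw [add_sub_cancel_left] at key
    exact key.trans (mul_le_mul_of_nonneg_left (h.norm_coe_le_norm t) hε.le)
  · rw [segment_eq_image'] at hx
    obtain ⟨θ, hθ, rfl⟩ := hx
    have h1 : dist (γ + θ • h) γ < δ := by
      rw [dist_eq_norm, add_sub_cancel_left, norm_smul, Real.norm_eq_abs, abs_of_nonneg hθ.1]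
      exact (mul_le_of_le_one_left (norm_nonneg _) hθ.2).trans_lt hh
    have h2 := (ContinuousMap.dist_apply_le_dist t).trans (H h1).le
    rw [dist_eq_norm] at h2
    simpa [fl1_nem] using h2

theorem fl1_contDiff {E F : Type} [NormedAddCommGroup E] [NormedSpace ℝ E] [FiniteDimensional ℝ E]
    [NormedAddCommGroup F] [NormedSpace ℝ F] {δ : ℝ} (hδ : 0 < δ) (n : ℕ) {f₀ : ℝ × E → F}
    (h₀ : ContDiffOn ℝ n f₀ (Icc 0 δ ×ˢ univ)) (f : C(Icc (0 : ℝ) δ × E, F))
    (hf : ∀ s y, f (s, y) = f₀ (s.1, y)) : ContDiff ℝ n (fl1_nem f) := by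
  induction n generalizing F with
  | zero =>
    rw [Nat.cast_zero, contDiff_zero]
    exact fl1_nem_cont f
  | succ n ih =>
    rw [Nat.cast_succ] at h₀ ⊢
    have hg := param' (uniqueDiffOn_Icc hδ) isOpen_univ le_rfl h₀
    let g : C(Icc (0 : ℝ) δ × E, E →L[ℝ] F) :=
      ⟨fun p => fderiv ℝ (fun y => f₀ (p.1.1, y)) p.2,
        hg.continuousOn.comp_continuous (f := fun p : Icc (0 : ℝ) δ × E => (p.1.1, p.2))
          (by fun_prop) fun p => mk_mem_prod p.1.2 (mem_univ _)⟩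
    have hd : ∀ s x, HasFDerivAt (fun y => f (s, y)) (g (s, x)) x := by
      intro s x
      have e : (fun y => f (s, y)) = fun y => f₀ (s.1, y) := funext (hf s)
      rw [e]
      have h1 : DifferentiableOn ℝ (fun y => f₀ (s.1, y)) univ :=
        (h₀.differentiableOn (by simp)).comp (by fun_prop) fun y hy => mk_mem_prod s.2 hy
      exact ((differentiableOn_univ.1 h1) x).hasFDerivAt
    refine contDiff_succ_iff_hasFDerivAt.2
      ⟨fun γ => fl1_ev (Icc (0 : ℝ) δ) E F (fl1_nem g γ), ?_, fun γ => fl1_hasFDerivAt f g hd γ⟩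
    exact fl1_ev_comp (ih hg g fun _ _ => rfl)

/-- The primitive vanishing at `0` as a bounded operator. -/
theorem fl1_prim {E : Type} [NormedAddCommGroup E] [NormedSpace ℝ E] [CompleteSpace E] {δ : ℝ}
    (hδ : 0 ≤ δ) : ∃ P : C(Icc (0 : ℝ) δ, E) →L[ℝ] C(Icc (0 : ℝ) δ, E),
      (∀ g, ‖P g‖ ≤ δ * ‖g‖) ∧ ∀ g t, P g t = ∫ τ in (0 : ℝ)..t, g (projIcc 0 δ hδ τ) := by
  have hc : ∀ g : C(Icc (0 : ℝ) δ, E), Continuous fun τ => g (projIcc 0 δ hδ τ) :=
    fun g => g.continuous.comp continuous_projIcc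
  let L : C(Icc (0 : ℝ) δ, E) →ₗ[ℝ] C(Icc (0 : ℝ) δ, E) :=
    { toFun := fun g => ⟨fun t => ∫ τ in (0 : ℝ)..t, g (projIcc 0 δ hδ τ),
        (intervalIntegral.continuous_primitive
          (fun a b => (hc g).intervalIntegrable a b) 0).comp continuous_subtype_val⟩
      map_add' := fun g h => by
        ext t
        exact intervalIntegral.integral_add ((hc g).intervalIntegrable _ _)
          ((hc h).intervalIntegrable _ _)
      map_smul' := fun c g => by
        ext t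
        exact intervalIntegral.integral_smul c fun τ => g (projIcc 0 δ hδ τ) }
  have hL : ∀ g, ‖L g‖ ≤ δ * ‖g‖ := by
    intro g
    rw [ContinuousMap.norm_le _ (by positivity)]
    intro t
    have h1 : ‖∫ τ in (0 : ℝ)..t, g (projIcc 0 δ hδ τ)‖ ≤ ‖g‖ * |(t : ℝ) - 0| :=
      intervalIntegral.norm_integral_le_of_norm_le_const fun x _ => g.norm_coe_le_norm _
    have h2 : |(t : ℝ) - 0| ≤ δ := by
      rw [sub_zero, abs_of_nonneg t.2.1]; exact t.2.2
    calc ‖L g t‖ ≤ ‖g‖ * |(t : ℝ) - 0| := h1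
      _ ≤ ‖g‖ * δ := by gcongr
      _ = δ * ‖g‖ := mul_comm _ _
  exact ⟨L.mkContinuous δ hL, hL, fun g t => rfl⟩

/-- The identity minus a smooth contraction has a smooth inverse. -/
theorem fl1_inv {X : Type} [NormedAddCommGroup X] [NormedSpace ℝ X] [CompleteSpace X]
    {A : X → X} (hA : ContDiff ℝ ∞ A) (hl : LipschitzWith (1 / 2) A) :
    ∃ Γ : X → X, ContDiff ℝ ∞ Γ ∧ ∀ x, Γ x = x + A (Γ x) := by
  have hap : ApproximatesLinearOn (fun x => x - A x)
      (ContinuousLinearEquiv.refl ℝ X : X →L[ℝ] X) univ (1 / 2) := by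
    intro x _ y _
    have e : x - A x - (y - A y) - (ContinuousLinearEquiv.refl ℝ X : X →L[ℝ] X) (x - y) =
        -(A x - A y) := by simp; abel
    rw [e, norm_neg, ← dist_eq_norm, ← dist_eq_norm]
    exact hl.dist_le_mul x y
  have hc : Subsingleton X ∨
      (1 / 2 : NNReal) < ‖((ContinuousLinearEquiv.refl ℝ X).symm : X →L[ℝ] X)‖₊⁻¹ := by
    rcases subsingleton_or_nontrivial X with h | h
    · exact Or.inl h
    · right
      simp
      exact inv_lt_one_of_one_lt₀ one_lt_two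
  have hn : ∀ x, ‖fderiv ℝ A x‖ < 1 := fun x =>
    (norm_fderiv_le_of_lipschitz ℝ hl).trans_lt (by norm_num)
  let Θ := hap.toHomeomorph _ hc
  have hΘ : ∀ x, Θ x = x - A x := fun _ => rfl
  have hs : ContDiff ℝ ∞ Θ.symm := by
    refine Θ.contDiff_symm
      (f₀' := fun x => ContinuousLinearEquiv.ofUnit (Units.oneSub (fderiv ℝ A x) (hn x)))
      (fun x => ?_) (contDiff_id.sub hA)
    exact (hasFDerivAt_id x).sub ((hA.differentiable (by simp)) x).hasFDerivAt
  refine ⟨Θ.symm, hs, fun x => ?_⟩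
  have := Θ.apply_symm_apply x
  rw [hΘ] at this
  exact sub_eq_iff_eq_add.1 this

theorem flow_exists {E : Type} [NormedAddCommGroup E] [NormedSpace ℝ E] [FiniteDimensional ℝ E]
    {T : ℝ} (hT : 0 < T) {W : ℝ × E → E} (hW : ContDiffOn ℝ ∞ W (Icc 0 T ×ˢ univ)) {L : NNReal}
    (hL : ∀ t ∈ Icc 0 T, LipschitzWith L fun y => W (t, y)) :
    ∃ δ, 0 < δ ∧ δ ≤ T ∧ ∃ Φ : ℝ × E → E, ContDiffOn ℝ ∞ Φ (Icc 0 δ ×ˢ univ) ∧
      (∀ y, Φ (0, y) = y) ∧ ∀ t ∈ Icc 0 δ, ∀ y,
        HasDerivWithinAt (fun s => Φ (s, y)) (W (t, Φ (t, y))) (Icc 0 δ) t := by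
  have : CompleteSpace E := FiniteDimensional.complete ℝ E
  obtain ⟨δ, hδ, hδT, hδL⟩ : ∃ δ : ℝ, 0 < δ ∧ δ ≤ T ∧ δ * L ≤ 1 / 2 := by
    refine ⟨min T (1 / (2 * (L + 1))), lt_min hT (by positivity), min_le_left _ _, ?_⟩
    calc min T (1 / (2 * (L + 1))) * L ≤ 1 / (2 * (L + 1)) * (L + 1) :=
          mul_le_mul (min_le_right _ _) (by linarith) L.2 (by positivity)
      _ = 1 / 2 := by field_simp
  have hsub : Icc (0 : ℝ) δ ⊆ Icc 0 T := Icc_subset_Icc_right hδT
  have hW' : ContDiffOn ℝ ∞ W (Icc 0 δ ×ˢ univ) := hW.mono (prod_mono hsub Subset.rfl)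
  let f : C(Icc (0 : ℝ) δ × E, E) := ⟨fun p => W (p.1.1, p.2),
    hW'.continuousOn.comp_continuous (f := fun p : Icc (0 : ℝ) δ × E => (p.1.1, p.2))
      (by fun_prop) fun p => mk_mem_prod p.1.2 (mem_univ _)⟩
  have hN : ContDiff ℝ ∞ (fl1_nem f) := contDiff_infty.2 fun n =>
    fl1_contDiff hδ n (contDiffOn_infty.1 hW' n) f fun _ _ => rfl
  obtain ⟨P, hP, hP'⟩ := fl1_prim (E := E) hδ.le
  have hl : LipschitzWith (1 / 2) fun γ => P (fl1_nem f γ) := by
    refine LipschitzWith.of_dist_le_mul fun γ γ' => ?_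
    have h1 : ‖fl1_nem f γ - fl1_nem f γ'‖ ≤ L * ‖γ - γ'‖ := by
      rw [ContinuousMap.norm_le _ (by positivity)]
      intro s
      have h2 := (hL s.1 (hsub s.2)).dist_le_mul (γ s) (γ' s)
      rw [dist_eq_norm, dist_eq_norm] at h2
      exact h2.trans (mul_le_mul_of_nonneg_left ((γ - γ').norm_coe_le_norm s) L.2)
    rw [dist_eq_norm, dist_eq_norm, ← map_sub]
    calc ‖P (fl1_nem f γ - fl1_nem f γ')‖ ≤ δ * (L * ‖γ - γ'‖) :=
          (hP _).trans (mul_le_mul_of_nonneg_left h1 hδ.le)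
      _ = δ * L * ‖γ - γ'‖ := by ring
      _ ≤ 1 / 2 * ‖γ - γ'‖ := mul_le_mul_of_nonneg_right hδL (norm_nonneg _)
      _ = _ := by norm_num
  obtain ⟨Θ, hΘ, hΘ'⟩ := fl1_inv (P.contDiff.comp hN) hl
  let c : E →L[ℝ] C(Icc (0 : ℝ) δ, E) := ContinuousLinearMap.const ℝ _
  let Γ : E → C(Icc (0 : ℝ) δ, E) := fun y => Θ (c y)
  have hΓ : ContDiff ℝ ∞ Γ := hΘ.comp c.contDiff
  let u : ℝ → E → E := fun t y => Γ y (projIcc 0 δ hδ.le t)
  have hint : ∀ t ∈ Icc (0 : ℝ) δ, ∀ y,
      u t y = y + ∫ τ in (0 : ℝ)..t, fl1_nem f (Γ y) (projIcc 0 δ hδ.le τ) := by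
    intro t ht y
    have h1 := congrArg (fun g : C(Icc (0 : ℝ) δ, E) => g ⟨t, ht⟩) (hΘ' (c y))
    simp only [ContinuousMap.add_apply, Function.comp_apply, hP'] at h1
    simp only [u, projIcc_of_mem hδ.le ht]
    exact h1
  have hode : ∀ t ∈ Icc (0 : ℝ) δ, ∀ y,
      HasDerivWithinAt (fun s => u s y) (W (t, u t y)) (Icc 0 δ) t := by
    intro t ht y
    have hc : Continuous fun τ => fl1_nem f (Γ y) (projIcc 0 δ hδ.le τ) :=
      (fl1_nem f (Γ y)).continuous.comp continuous_projIcc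
    have a := ((hc.integral_hasStrictDerivAt 0 t).hasDerivAt.const_add y).hasDerivWithinAt
      (s := Icc 0 δ)
    have e : fl1_nem f (Γ y) (projIcc 0 δ hδ.le t) = W (t, u t y) := by
      simp only [u, projIcc_of_mem hδ.le ht]
      rfl
    rw [e] at a
    exact a.congr (fun s hs => hint s hs y) (hint t ht y)
  refine ⟨δ, hδ, hδT, fun p => u p.1 p.2, ?_, fun y => ?_, hode⟩
  · let b := Module.finBasis ℝ E
    refine boot b (convex_Icc 0 δ) (uniqueDiffOn_Icc hδ) isOpen_univ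
      (G := fun t y => W (t, u t y)) (cm_of_cont b isOpen_univ (fun t _ => ?_) fun w => ?_)
      (fun m hm => Cm.comp (uniqueDiffOn_Icc hδ) isOpen_univ isOpen_univ hW' hm
        fun _ _ _ _ => mem_univ _) fun t ht y _ => hode t ht y
    · exact ((ContinuousMap.evalCLM ℝ (projIcc 0 δ hδ.le t)).contDiff.comp hΓ).contDiffOn
    · have h1 : Continuous (sw b w Γ) :=
        continuousOn_univ.1 (sw_contDiffOn isOpen_univ hΓ.contDiffOn w).continuousOn
      have h2 : Continuous fun p : ℝ × E => sw b w Γ p.2 (projIcc 0 δ hδ.le p.1) :=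
        continuous_eval.comp ((h1.comp continuous_snd).prodMk
          ((continuous_projIcc (h := hδ.le)).comp continuous_fst))
      refine h2.continuousOn.congr fun p _ => ?_
      exact sw_clm isOpen_univ hΓ.contDiffOn (ContinuousMap.evalCLM ℝ (projIcc 0 δ hδ.le p.1)) w
        (mem_univ p.2)
  · show u 0 y = y
    rw [hint 0 (left_mem_Icc.2 hδ.le) y, intervalIntegral.integral_same, add_zero]

end Pool.Agent.Lib.MP_de485e_gt.Ex
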