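import Pool.Agent.Lib.MP_de485e_gt.Ex.Geo1

/-! A tangent field keeps the image of the manifold. -/

open Set Filter Topology Module Metric
open scoped RealInnerProductSpace InnerProduct Manifold ContDiff

namespace Pool.Agent.Lib.MP_de485e_gt.Ex

open Conv

variable {P Q : Type} [NormedAddCommGroup P] [InnerProductSpace ℝ P] [CompleteSpace P]
  [FiniteDimensional ℝ P] [NormedAddCommGroup Q] [InnerProductSpace ℝ Q] [CompleteSpace Q]
  [FiniteDimensional ℝ Q]

variable {M : Type} [TopologicalSpace M] [ChartedSpace P M] [IsManifold 𝓘(ℝ, P) ∞ M]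

theorem stay [CompactSpace M] {E : Type} [NormedAddCommGroup E] [NormedSpace ℝ E] {e : M → E}
    (he : ContMDiff 𝓘(ℝ, P) 𝓘(ℝ, E) ∞ e) {W : ℝ × E → E} {L : NNReal} {δ : ℝ}
    (hL : ∀ t ∈ Icc 0 δ, LipschitzWith L fun y => W (t, y))
    (ht : ∀ t ∈ Icc 0 δ, ∀ x, ∃ ζ : P, W (t, e x) = fderiv ℝ (loc P e x) (chartAt P x x) ζ)
    {γ : ℝ → E} (hγ : ∀ t ∈ Icc 0 δ, HasDerivWithinAt γ (W (t, γ t)) (Icc 0 δ) t)
    (h0 : γ 0 ∈ range e) : ∀ t ∈ Icc 0 δ, γ t ∈ range e := by
  intro t htt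
  have hc : IsCompact (range e) := isCompact_range he.continuous
  have key := le_gronwallBound_of_liminf_deriv_right_le (f := fun s => infDist (γ s) (range e))
    (f' := fun s => L * infDist (γ s) (range e)) (δ := 0) (K := L) (ε := 0) (a := 0) (b := δ)
    ((continuous_infDist_pt _).comp_continuousOn fun s hs => (hγ s hs).continuousWithinAt)
    (fun s hs r hr => ?_) (infDist_zero_of_mem h0).le (fun s _ => by simp) t htt
  · rw [gronwallBound_ε0_δ0] at key
    exact (hc.isClosed.mem_iff_infDist_zero ⟨_, h0⟩).2 (le_antisymm key infDist_nonneg)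
  · have hs' := Ico_subset_Icc_self hs
    obtain ⟨_, ⟨m, rfl⟩, hm⟩ := hc.exists_infDist_eq_dist ⟨_, h0⟩ (γ s)
    obtain ⟨ζ, hζ⟩ := ht s hs' m
    have h1 : DifferentiableAt ℝ (loc P e m) (chartAt P m m) :=
      ((loc_smooth he m).contDiffAt ((chartAt P m).open_target.mem_nhds
        (mem_chart_target P m))).differentiableAt (by simp)
    have h2 : HasDerivAt (fun u : ℝ => chartAt P m m + (u - s) • ζ) ζ s := by
      simpa using (((hasDerivAt_id s).sub_const s).smul_const ζ).const_add (chartAt P m m)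
    have h3 : HasDerivAt (fun u : ℝ => loc P e m (chartAt P m m + (u - s) • ζ)) (W (s, e m)) s :=
      hζ ▸ h1.hasFDerivAt.comp_hasDerivAt_of_eq s h2 (by simp)
    have h4 := (((hγ s hs').mono_of_mem_nhdsWithin (Icc_mem_nhdsGE_of_mem hs)).sub
      h3.hasDerivWithinAt).liminf_right_slope_norm_le (r := r) (by
        rw [← dist_eq_norm]
        exact ((hL s hs').dist_le_mul _ _).trans_lt (hm ▸ hr))
    refine (h4.and_eventually self_mem_nhdsWithin).mono fun u hu => lt_of_le_of_lt ?_ hu.1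
    refine mul_le_mul_of_nonneg_left (sub_le_sub ?_ ?_) (inv_nonneg.2 (sub_pos.2 hu.2).le)
    · rw [Pi.sub_apply, ← dist_eq_norm]
      exact infDist_le_dist_of_mem ⟨_, rfl⟩
    · simp [hm, loc, dist_eq_norm]

end Pool.Agent.Lib.MP_de485e_gt.Ex
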