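import Pool.Agent.Lib.MP_de485e_gt.Conv.Mod2a

/-! The mean curvature vector as a function of jets. -/

open Set Filter Topology Module Metric
open scoped RealInnerProductSpace InnerProduct Manifold ContDiff

namespace Pool.Agent.Lib.MP_de485e_gt.Ex

open Conv

variable {P Q : Type} [NormedAddCommGroup P] [InnerProductSpace ℝ P] [CompleteSpace P]
  [FiniteDimensional ℝ P] [NormedAddCommGroup Q] [InnerProductSpace ℝ Q] [CompleteSpace Q]
  [FiniteDimensional ℝ Q]

/-- Trace of `B` for the metric induced by `L`. -/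
noncomputable def trB {W : Type} [NormedAddCommGroup W] [NormedSpace ℝ W] (L : P →L[ℝ] Q)
    (B : P →L[ℝ] P →L[ℝ] W) : W :=
  ∑ j, B (stdOrthonormalBasis ℝ P j) (gi L (stdOrthonormalBasis ℝ P j))

/-- Mean curvature vector in the unit sphere from position, differential and Hessian. -/
noncomputable def Hj (f : Q) (L : P →L[ℝ] Q) (B : P →L[ℝ] P →L[ℝ] Q) : Q :=
  trB L B - L (pinv L (trB L B)) + (finrank ℝ P : ℝ) • f

/-- The same for a map in a chart. -/
noncomputable def Hc (f : P → Q) (y : P) : Q :=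
  Hj (f y) (fderiv ℝ f y) (fderiv ℝ (fderiv ℝ f) y)

variable {M : Type} [TopologicalSpace M] [ChartedSpace P M]

variable (P) in
/-- The same on the manifold. -/
noncomputable def mH (F : M → Q) (x : M) : Q := Hc (loc P F x) (chartAt P x x)

variable (P) in
/-- A smooth immersion into the unit sphere. -/
structure SImm (F : M → Q) : Prop where
  smooth : ContMDiff 𝓘(ℝ, P) 𝓘(ℝ, Q) ∞ F
  sphere : ∀ x, ‖F x‖ = 1
  imm : ∀ x, Function.Injective (dF P F x)

variable (P) in
/-- Joint smoothness of a family. -/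
def JSm (F : ℝ → M → Q) (I : Set ℝ) : Prop :=
  ContMDiffOn (𝓘(ℝ, ℝ).prod 𝓘(ℝ, P)) 𝓘(ℝ, Q) ∞ (fun p : ℝ × M => F p.1 p.2) (I ×ˢ univ)

variable (P) in
/-- The standard basis. -/
noncomputable abbrev sb : Basis (Fin (finrank ℝ P)) ℝ P := (stdOrthonormalBasis ℝ P).toBasis

end Pool.Agent.Lib.MP_de485e_gt.Ex
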