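import Pool.Agent.Lib.MP_de485e_gt.Ex.GDef

/-! Second order condition at a largest distance. -/

open Set Filter Topology Module Metric
open scoped RealInnerProductSpace InnerProduct Manifold ContDiff

namespace Pool.Agent.Lib.MP_de485e_gt.Ex

open Conv

variable {P Q : Type} [NormedAddCommGroup P] [InnerProductSpace ℝ P] [CompleteSpace P]
  [FiniteDimensional ℝ P] [NormedAddCommGroup Q] [InnerProductSpace ℝ Q] [CompleteSpace Q]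
  [FiniteDimensional ℝ Q]

omit [CompleteSpace P] [FiniteDimensional ℝ P] [FiniteDimensional ℝ Q] [CompleteSpace Q] in
theorem U2_peano {f : P → Q} {x : P} (hf : ContDiffAt ℝ 2 f x) {η : ℝ} (hη : 0 < η) :
    ∀ᶠ y in 𝓝 x, ‖f y - f x - fderiv ℝ f x (y - x) -
      (1 / 2 : ℝ) • fderiv ℝ (fderiv ℝ f) x (y - x) (y - x)‖ ≤ η * ‖y - x‖ ^ 2 := by
  set L := fderiv ℝ f x with hL
  set B := fderiv ℝ (fderiv ℝ f) x with hB
  have hsym : ∀ a b, B a b = B b a := fun a b =>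
    (hf.isSymmSndFDerivAt (by simp)).eq a b
  have hev : ∀ᶠ y in 𝓝 x, ContDiffAt ℝ 2 f y := hf.eventually (by simp)
  obtain ⟨r, hr, hball⟩ := Metric.eventually_nhds_iff_ball.1 hev
  have hd2 : HasFDerivAt (fderiv ℝ f) B x := by
    have : ContDiffAt ℝ 1 (fderiv ℝ f) x := hf.fderiv_right (by norm_num)
    exact (this.differentiableAt (by simp)).hasFDerivAt
  have hder : ∀ y ∈ ball x r, HasFDerivWithinAt
      (fun y => f y - L (y - x) - (1 / 2 : ℝ) • B (y - x) (y - x))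
      (fderiv ℝ f y - L - B (y - x)) (ball x r) y := by
    intro y hy
    have h1 : HasFDerivAt f (fderiv ℝ f y) y :=
      ((hball y hy).differentiableAt (by simp)).hasFDerivAt
    have h0 : HasFDerivAt (fun y : P => y - x) (ContinuousLinearMap.id ℝ P) y :=
      (hasFDerivAt_id y).sub_const x
    have h2 := L.hasFDerivAt.comp y h0
    have h3 := (B.hasFDerivAt.comp y h0).clm_apply h0
    have h4 := (h1.sub h2).sub (h3.const_smul (1 / 2 : ℝ))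
    refine HasFDerivAt.hasFDerivWithinAt (h4.congr_fderiv ?_)
    ext k
    simp only [sub_apply, ContinuousLinearMap.comp_apply,
      ContinuousLinearMap.id_apply, smul_apply, add_apply,
      ContinuousLinearMap.flip_apply, Function.comp]
    rw [hsym k (y - x), ← two_smul ℝ, smul_smul]
    norm_num
  have hlo : (fun y => fderiv ℝ f y - L - B (y - x)) =o[𝓝[ball x r] x] fun y => ‖y - x‖ ^ 1 := by
    have := hd2.isLittleO
    simp only [pow_one]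
    exact (this.norm_right).mono nhdsWithin_le_nhds
  have key := (convex_ball x r).isLittleO_pow_succ (mem_ball_self hr) hder hlo
  rw [nhdsWithin_eq_nhds.2 (ball_mem_nhds x hr)] at key
  filter_upwards [key.def hη] with y hy
  simp only [sub_self, map_zero, sub_zero, smul_zero, norm_pow, norm_norm] at hy
  convert hy using 2
  abel

omit [CompleteSpace P] [FiniteDimensional ℝ P] [FiniteDimensional ℝ Q] [CompleteSpace Q]
  [InnerProductSpace ℝ P] in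
theorem U2_step {a a' b b' : Q} {μ Λ ρ : ℝ}
    (hg : ‖a - b‖ ^ 2 + μ * ρ ^ 2 ≤ ‖a - b'‖ ^ 2) (hl : ‖b' - b‖ ≤ Λ * ρ)
    (hm : ‖a' - b'‖ ≤ ‖a - b‖) :
    μ * ρ ^ 2 + 2 * ⟪a' - a, a - b⟫ ≤ 2 * (‖a' - a‖ * (Λ * ρ)) := by
  have e1 : a' - b' = (a' - a) + (a - b') := by abel
  have h1 : ‖a' - b'‖ ^ 2 ≤ ‖a - b‖ ^ 2 := pow_le_pow_left₀ (norm_nonneg _) hm 2
  rw [e1, norm_add_sq_real] at h1
  have e2 : a - b' = (a - b) - (b' - b) := by abel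
  have h2 : ⟪a' - a, a - b'⟫ = ⟪a' - a, a - b⟫ - ⟪a' - a, b' - b⟫ := by
    rw [e2, inner_sub_right]
  have h3 : ⟪a' - a, b' - b⟫ ≤ ‖a' - a‖ * (Λ * ρ) :=
    (real_inner_le_norm _ _).trans (mul_le_mul_of_nonneg_left hl (norm_nonneg _))
  nlinarith [sq_nonneg ‖a' - a‖]

theorem U2_num {μ Λ c W s ρ : ℝ} (hμ : 0 < μ) (hc : 0 ≤ c) (hW : 0 ≤ W) (hs : 0 < s)
    (h : μ * ρ ^ 2 ≤ 2 * (s * c * (|Λ| * ρ)) + 2 * (s ^ 2 * c * W)) :
    ρ ≤ (4 * Λ ^ 2 * c ^ 2 / μ ^ 2 + 4 * c * W / μ + 1) * s := by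
  set K := 4 * Λ ^ 2 * c ^ 2 / μ ^ 2 + 4 * c * W / μ with hK
  have hK0 : 0 ≤ K := by positivity
  have e : μ ^ 2 * K = 4 * Λ ^ 2 * c ^ 2 + 4 * c * W * μ := by
    rw [hK]; field_simp
  have h1 : μ ^ 2 * ρ ^ 2 ≤ μ ^ 2 * (K * s ^ 2) := by
    have h2 := mul_le_mul_of_nonneg_left h hμ.le
    have h3 := sq_nonneg (μ * ρ - 2 * s * c * |Λ|)
    have h4 : |Λ| ^ 2 = Λ ^ 2 := sq_abs Λ
    have e2 : μ ^ 2 * (K * s ^ 2) = (4 * Λ ^ 2 * c ^ 2 + 4 * c * W * μ) * s ^ 2 := by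
      rw [← e]; ring
    rw [e2, ← h4]
    nlinarith
  have h5 : ρ ^ 2 ≤ K * s ^ 2 := le_of_mul_le_mul_left h1 (by positivity)
  have h6 : ρ ^ 2 ≤ ((K + 1) * s) ^ 2 := by
    have : K * s ^ 2 ≤ (K + 1) ^ 2 * s ^ 2 := by
      apply mul_le_mul_of_nonneg_right _ (sq_nonneg s); nlinarith
    calc ρ ^ 2 ≤ (K + 1) ^ 2 * s ^ 2 := h5.trans this
      _ = ((K + 1) * s) ^ 2 := by ring
  exact (abs_le_of_sq_le_sq' h6 (by positivity)).2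

omit [CompleteSpace P] [FiniteDimensional ℝ P] [FiniteDimensional ℝ Q] [CompleteSpace Q]
  [InnerProductSpace ℝ P] in
theorem U2_fin {w A q r : Q} {s c2 c3 e : ℝ} (hs : 0 < s) (hA : ⟪w, A⟫ = 0)
    (hm : ‖w + (s • A + ((s ^ 2 / 2) • q + r))‖ ≤ ‖w‖) (hA3 : ‖A‖ ≤ c3)
    (hv : ‖(s ^ 2 / 2) • q + r‖ ≤ s ^ 2 * c2) (hr : ‖r‖ ≤ s ^ 2 * e) :
    ‖A‖ ^ 2 + ⟪w, q⟫ ≤ 2 * ‖w‖ * e + 2 * s * (c3 * c2) := by
  have h1 := pow_le_pow_left₀ (norm_nonneg _) hm 2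
  set v := (s ^ 2 / 2) • q + r with hvdef
  rw [norm_add_sq_real, norm_add_sq_real, inner_add_right, real_inner_smul_right, hA,
    real_inner_smul_left, norm_smul, Real.norm_of_nonneg hs.le] at h1
  have h2 : ⟪w, v⟫ = s ^ 2 / 2 * ⟪w, q⟫ + ⟪w, r⟫ := by
    rw [hvdef, inner_add_right, real_inner_smul_right]
  have h3 : -(‖w‖ * (s ^ 2 * e)) ≤ ⟪w, r⟫ := by
    have := abs_real_inner_le_norm w r
    have h' := mul_le_mul_of_nonneg_left hr (norm_nonneg w)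
    linarith [neg_abs_le ⟪w, r⟫]
  have h4 : -(c3 * (s ^ 2 * c2)) ≤ ⟪A, v⟫ := by
    have := abs_real_inner_le_norm A v
    have h' : ‖A‖ * ‖v‖ ≤ c3 * (s ^ 2 * c2) :=
      mul_le_mul hA3 hv (norm_nonneg _) ((norm_nonneg _).trans hA3)
    linarith [neg_abs_le ⟪A, v⟫]
  have h5 := mul_le_mul_of_nonneg_left h4 hs.le
  have h6 : s ^ 2 * (‖A‖ ^ 2 + ⟪w, q⟫) ≤ s ^ 2 * (2 * ‖w‖ * e + 2 * s * (c3 * c2)) := by
    nlinarith [sq_nonneg ‖v‖]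
  exact le_of_mul_le_mul_left h6 (by positivity)

theorem second_order {f f' : P → Q} {x y : P} (hf : ContDiffAt ℝ 2 f x) (hf' : ContDiffAt ℝ 2 f' y)
    {V : Set P} (hV : V ∈ 𝓝 y) {μ Λ : ℝ} (hμ : 0 < μ)
    (hg : ∀ y' ∈ V, ‖f x - f' y‖ ^ 2 + μ * ‖y' - y‖ ^ 2 ≤ ‖f x - f' y'‖ ^ 2)
    (hl : ∀ y' ∈ V, ‖f' y' - f' y‖ ≤ Λ * ‖y' - y‖)
    (hm : ∀ᶠ x' in 𝓝 x, ∃ y' ∈ V, ‖f x' - f' y'‖ ≤ ‖f x - f' y‖) :
    ((fderiv ℝ f x)†) (f x - f' y) = 0 ∧ ((fderiv ℝ f' y)†) (f x - f' y) = 0 ∧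
      ∀ ξ ε, 0 < ε → ∃ ζ, ‖fderiv ℝ f x ξ - fderiv ℝ f' y ζ‖ ^ 2 +
        ⟪f x - f' y, fderiv ℝ (fderiv ℝ f) x ξ ξ - fderiv ℝ (fderiv ℝ f') y ζ ζ⟫ ≤ ε := by
  have hd : HasFDerivAt f (fderiv ℝ f x) x := (hf.differentiableAt (by simp)).hasFDerivAt
  have hd' : HasFDerivAt f' (fderiv ℝ f' y) y := (hf'.differentiableAt (by simp)).hasFDerivAt
  have pe := fun η (hη : 0 < η) => U2_peano hf hη
  have pe' := fun η (hη : 0 < η) => U2_peano hf' hη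
  generalize fderiv ℝ (fderiv ℝ f) x = B at pe ⊢
  generalize fderiv ℝ (fderiv ℝ f') y = B' at pe' ⊢
  generalize fderiv ℝ f x = L at hd pe ⊢
  generalize fderiv ℝ f' y = L' at hd' pe' ⊢
  clear hf hf'
  set w := f x - f' y with hw
  have hA : ∀ h, ⟪w, L' h⟫ = 0 := by
    have hmin : IsLocalMin (fun y' => ‖f x - f' y'‖ ^ 2) y := by
      filter_upwards [hV] with y' hy'
      have := hg y' hy'
      have h0 : 0 ≤ μ * ‖y' - y‖ ^ 2 := by positivity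
      show ‖f x - f' y‖ ^ 2 ≤ _
      linarith
    have h1 := (hd'.const_sub (f x)).norm_sq
    have h2 := hmin.hasFDerivAt_eq_zero h1
    intro h
    have h3 := congrArg (fun T : P →L[ℝ] ℝ => T h) h2
    simpa [← hw] using h3
  have hBq : ∀ h, ⟪w, L h⟫ = 0 := by
    have hmax : IsLocalMax (fun x' => 2 * ⟪w, f x' - f x⟫ - Λ ^ 2 / μ * ‖f x' - f x‖ ^ 2) x := by
      filter_upwards [hm] with x' ⟨y', hy', hle⟩
      have h1 := U2_step (hg y' hy') (hl y' hy') hle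
      rw [real_inner_comm] at h1
      have h2 : 2 * (‖f x' - f x‖ * (Λ * ‖y' - y‖)) ≤
          μ * ‖y' - y‖ ^ 2 + Λ ^ 2 / μ * ‖f x' - f x‖ ^ 2 := by
        have h3 := sq_nonneg (μ * ‖y' - y‖ - Λ * ‖f x' - f x‖)
        have e : μ * (μ * ‖y' - y‖ ^ 2 + Λ ^ 2 / μ * ‖f x' - f x‖ ^ 2) =
            μ ^ 2 * ‖y' - y‖ ^ 2 + Λ ^ 2 * ‖f x' - f x‖ ^ 2 := by field_simp
        apply le_of_mul_le_mul_left _ hμ
        rw [e]; nlinarith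
      simp only [sub_self, inner_zero_right, norm_zero]
      linarith
    have h0 := hd.sub_const (f x)
    have h1 := (((innerSL ℝ w).hasFDerivAt.comp x h0).const_mul 2).sub
      (h0.norm_sq.const_mul (Λ ^ 2 / μ))
    have h2 := hmax.hasFDerivAt_eq_zero h1
    intro h
    have h3 := congrArg (fun T : P →L[ℝ] ℝ => T h) h2
    simpa using h3
  have adj : ∀ T : P →L[ℝ] Q, (∀ h, ⟪w, T h⟫ = 0) → (T†) w = 0 := fun T hT => by
    apply ext_inner_right ℝ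
    intro h
    rw [ContinuousLinearMap.adjoint_inner_left, hT, inner_zero_left]
  refine ⟨adj L hBq, adj L' hA, fun ξ ε hε => ?_⟩
  obtain ⟨c1, hc1⟩ : ∃ c1, c1 = ‖L ξ‖ + ‖B ξ ξ‖ + ‖ξ‖ ^ 2 := ⟨_, rfl⟩
  have hc10 : 0 ≤ c1 := by rw [hc1]; positivity
  obtain ⟨C, hC⟩ : ∃ C, C = 4 * Λ ^ 2 * c1 ^ 2 / μ ^ 2 + 4 * c1 * ‖w‖ / μ + 1 := ⟨_, rfl⟩
  have hC0 : 0 < C := by rw [hC]; positivity
  obtain ⟨c2, hc2⟩ : ∃ c2, c2 = ‖B ξ ξ‖ + ‖B'‖ * C * C + (‖ξ‖ ^ 2 + C ^ 2) := ⟨_, rfl⟩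
  obtain ⟨c3, hc3⟩ : ∃ c3, c3 = ‖L ξ‖ + ‖L'‖ * C := ⟨_, rfl⟩
  obtain ⟨η, hη0, hη1, hη⟩ : ∃ η : ℝ, 0 < η ∧ η ≤ 1 ∧
      2 * ‖w‖ * (η * (‖ξ‖ ^ 2 + C ^ 2)) ≤ ε / 2 := by
    have ht : Tendsto (fun η : ℝ => 2 * ‖w‖ * (η * (‖ξ‖ ^ 2 + C ^ 2))) (𝓝[>] 0) (𝓝 0) := by
      have : Continuous (fun η : ℝ => 2 * ‖w‖ * (η * (‖ξ‖ ^ 2 + C ^ 2))) := by fun_prop
      simpa using (this.tendsto 0).mono_left nhdsWithin_le_nhds
    have h1 := ht.eventually (ge_mem_nhds (half_pos hε))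
    obtain ⟨η, h2, h3⟩ := (h1.and (Ioc_mem_nhdsGT (zero_lt_one' ℝ))).exists
    exact ⟨η, h3.1, h3.2, h2⟩
  obtain ⟨δ, hδ, hball⟩ := Metric.eventually_nhds_iff.1 (pe' η hη0)
  have htx : Tendsto (fun s : ℝ => x + s • ξ) (𝓝[>] 0) (𝓝 x) := by
    have : Continuous (fun s : ℝ => x + s • ξ) := by fun_prop
    simpa using (this.tendsto 0).mono_left nhdsWithin_le_nhds
  have ht2 : Tendsto (fun s : ℝ => 2 * s * (c3 * c2)) (𝓝[>] 0) (𝓝 0) := by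
    have : Continuous (fun s : ℝ => 2 * s * (c3 * c2)) := by fun_prop
    simpa using (this.tendsto 0).mono_left nhdsWithin_le_nhds
  have ht3 : Tendsto (fun s : ℝ => C * s) (𝓝[>] 0) (𝓝 0) := by
    have : Continuous (fun s : ℝ => C * s) := by fun_prop
    simpa using (this.tendsto 0).mono_left nhdsWithin_le_nhds
  obtain ⟨s, ⟨⟨⟨⟨y', hy', hle⟩, hp⟩, hs2⟩, hs3⟩, hs0, hs1⟩ :=
    (((((htx.eventually hm).and (htx.eventually (pe η hη0))).and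
      (ht2.eventually (ge_mem_nhds (half_pos hε)))).and
      (ht3.eventually (gt_mem_nhds hδ))).and (Ioc_mem_nhdsGT (zero_lt_one' ℝ))).exists
  simp only [add_sub_cancel_left, map_smul, smul_apply, norm_smul,
    Real.norm_of_nonneg hs0.le, smul_smul] at hp
  obtain ⟨r1, hr1⟩ : ∃ r1, r1 = f (x + s • ξ) - f x - s • L ξ - (1 / 2 * (s * s)) • B ξ ξ :=
    ⟨_, rfl⟩
  rw [← hr1] at hp
  have hd1 : f (x + s • ξ) - f x = s • L ξ + ((s ^ 2 / 2) • B ξ ξ + r1) := by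
    rw [hr1, show s ^ 2 / 2 = 1 / 2 * (s * s) by ring]; abel
  have hs22 : s ^ 2 ≤ s := by nlinarith
  have hp1 : ‖r1‖ ≤ s ^ 2 * (η * ‖ξ‖ ^ 2) := by rw [mul_pow] at hp; linarith
  have hp2 : ‖r1‖ ≤ s ^ 2 * ‖ξ‖ ^ 2 := hp1.trans
    (mul_le_mul_of_nonneg_left (mul_le_of_le_one_left (sq_nonneg _) hη1) (sq_nonneg _))
  have hv1 : ‖(s ^ 2 / 2) • B ξ ξ + r1‖ ≤ s ^ 2 * (‖B ξ ξ‖ + ‖ξ‖ ^ 2) := by
    refine (norm_add_le _ _).trans ?_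
    rw [norm_smul, Real.norm_of_nonneg (by positivity)]
    nlinarith [mul_nonneg (sq_nonneg s) (norm_nonneg (B ξ ξ))]
  have hdn : ‖f (x + s • ξ) - f x‖ ≤ s * c1 := by
    rw [hd1]
    refine (norm_add_le _ _).trans ?_
    rw [norm_smul, Real.norm_of_nonneg hs0.le, hc1]
    have := mul_le_mul_of_nonneg_right hs22 (show 0 ≤ ‖B ξ ξ‖ + ‖ξ‖ ^ 2 by positivity)
    linarith
  have hdi : -(s ^ 2 * c1 * ‖w‖) ≤ ⟪f (x + s • ξ) - f x, w⟫ := by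
    rw [hd1, inner_add_left, real_inner_smul_left, real_inner_comm, hBq ξ]
    have h1 := abs_real_inner_le_norm ((s ^ 2 / 2) • B ξ ξ + r1) w
    have h2 : ‖(s ^ 2 / 2) • B ξ ξ + r1‖ ≤ s ^ 2 * c1 := hv1.trans
      (mul_le_mul_of_nonneg_left (by rw [hc1]; linarith [norm_nonneg (L ξ)]) (sq_nonneg _))
    have h3 := mul_le_mul_of_nonneg_right h2 (norm_nonneg w)
    linarith [neg_abs_le ⟪(s ^ 2 / 2) • B ξ ξ + r1, w⟫]
  have hρ : ‖y' - y‖ ≤ C * s := by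
    rw [hC]
    apply U2_num hμ hc10 (norm_nonneg w) hs0
    have h1 := U2_step (hg y' hy') ((hl y' hy').trans
      (mul_le_mul_of_nonneg_right (le_abs_self Λ) (norm_nonneg _))) hle
    have h2 := mul_le_mul_of_nonneg_right hdn
      (show 0 ≤ |Λ| * ‖y' - y‖ by positivity)
    linarith
  have hp' := hball (y := y') (by rw [dist_eq_norm]; exact hρ.trans_lt hs3)
  obtain ⟨ζ, hζ⟩ : ∃ ζ : P, y' - y = s • ζ :=
    ⟨s⁻¹ • (y' - y), by rw [smul_smul, mul_inv_cancel₀ hs0.ne', one_smul]⟩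
  rw [hζ, norm_smul, Real.norm_of_nonneg hs0.le] at hρ
  have hζC : ‖ζ‖ ≤ C := le_of_mul_le_mul_left (by linarith) hs0
  rw [hζ] at hp'
  simp only [map_smul, smul_apply, norm_smul,
    Real.norm_of_nonneg hs0.le, smul_smul] at hp'
  obtain ⟨r2, hr2⟩ : ∃ r2, r2 = f' y' - f' y - s • L' ζ - (1 / 2 * (s * s)) • B' ζ ζ :=
    ⟨_, rfl⟩
  rw [← hr2] at hp'
  have hd2 : f' y' - f' y = s • L' ζ + ((s ^ 2 / 2) • B' ζ ζ + r2) := by
    rw [hr2, show s ^ 2 / 2 = 1 / 2 * (s * s) by ring]; abel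
  have hq1 : ‖r2‖ ≤ s ^ 2 * (η * C ^ 2) := by
    rw [mul_pow] at hp'
    have h1 : ‖ζ‖ ^ 2 ≤ C ^ 2 := pow_le_pow_left₀ (norm_nonneg _) hζC 2
    have h2 := mul_le_mul_of_nonneg_left h1 (show 0 ≤ η * s ^ 2 by positivity)
    linarith
  have hr : ‖r1 - r2‖ ≤ s ^ 2 * (η * (‖ξ‖ ^ 2 + C ^ 2)) := by
    refine (norm_sub_le _ _).trans ?_
    linarith
  have hBz : ‖B' ζ ζ‖ ≤ ‖B'‖ * C * C :=
    (B'.le_opNorm₂ ζ ζ).trans (by gcongr)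
  have hv : ‖(s ^ 2 / 2) • (B ξ ξ - B' ζ ζ) + (r1 - r2)‖ ≤ s ^ 2 * c2 := by
    refine (norm_add_le _ _).trans ?_
    rw [norm_smul, Real.norm_of_nonneg (by positivity), hc2]
    have h1 : ‖B ξ ξ - B' ζ ζ‖ ≤ ‖B ξ ξ‖ + ‖B'‖ * C * C := (norm_sub_le _ _).trans (by linarith)
    have h2 := mul_le_mul_of_nonneg_left h1 (sq_nonneg s)
    have h3 := mul_nonneg (sq_nonneg s) (norm_nonneg (B ξ ξ - B' ζ ζ))
    have h4 : s ^ 2 * (η * (‖ξ‖ ^ 2 + C ^ 2)) ≤ s ^ 2 * (‖ξ‖ ^ 2 + C ^ 2) :=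
      mul_le_mul_of_nonneg_left (mul_le_of_le_one_left (by positivity) hη1) (sq_nonneg _)
    linarith
  have hA3 : ‖L ξ - L' ζ‖ ≤ c3 := by
    rw [hc3]
    refine (norm_sub_le _ _).trans ?_
    have := (L'.le_opNorm ζ).trans (mul_le_mul_of_nonneg_left hζC (norm_nonneg _))
    linarith
  have hdec : f (x + s • ξ) - f' y' =
      w + (s • (L ξ - L' ζ) + ((s ^ 2 / 2) • (B ξ ξ - B' ζ ζ) + (r1 - r2))) := by
    have : f (x + s • ξ) - f' y' = w + ((f (x + s • ξ) - f x) - (f' y' - f' y)) := by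
      rw [hw]; abel
    rw [this, hd1, hd2, smul_sub, smul_sub]; abel
  rw [hdec] at hle
  have := U2_fin hs0 (by rw [inner_sub_right, hBq, hA, sub_zero]) hle hA3 hv hr
  exact ⟨ζ, by linarith⟩

end Pool.Agent.Lib.MP_de485e_gt.Ex
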