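import Pool.Agent.Lib.MP_de485e_gt.Ex.Geo1

/-! Strict convexity of the distance near the diagonal. -/

open Set Filter Topology Module Metric
open scoped RealInnerProductSpace InnerProduct Manifold ContDiff

namespace Pool.Agent.Lib.MP_de485e_gt.Ex

open Conv

variable {P Q : Type} [NormedAddCommGroup P] [InnerProductSpace ℝ P] [CompleteSpace P]
  [FiniteDimensional ℝ P] [NormedAddCommGroup Q] [InnerProductSpace ℝ Q] [CompleteSpace Q]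
  [FiniteDimensional ℝ Q]

/-- Local bounds for the distance from `f x` to the image of `f'`. -/
structure Near (f f' : P → Q) (V : Set P) (μ κ Λ : ℝ) : Prop where
  curv : ∀ y ∈ V, ∀ ζ η,
    ‖fderiv ℝ (fderiv ℝ f') y ζ η‖ ≤ κ * ‖fderiv ℝ f' y ζ‖ * ‖fderiv ℝ f' y η‖
  small : ∀ x ∈ V, ∀ y ∈ V, 2 * ((finrank ℝ P : ℝ) + 1) * κ * ‖f x - f' y‖ ≤ 1
  lip : ∀ y ∈ V, ∀ y' ∈ V, ‖f' y' - f' y‖ ≤ Λ * ‖y' - y‖
  grow : ∀ x ∈ V, ∀ y ∈ V, IsLocalMin (fun y' => ‖f x - f' y'‖ ^ 2) y →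
    ∀ y' ∈ V, ‖f x - f' y‖ ^ 2 + μ * ‖y' - y‖ ^ 2 ≤ ‖f x - f' y'‖ ^ 2

theorem U3_mono {θ ψ : ℝ → ℝ} (h : ∀ s ∈ Icc (0 : ℝ) 1, HasDerivAt θ (ψ s) s)
    (h0 : ∀ s ∈ Icc (0 : ℝ) 1, 0 ≤ ψ s) {s : ℝ} (hs : s ∈ Icc (0 : ℝ) 1) : θ 0 ≤ θ s :=
  monotoneOn_of_hasDerivWithinAt_nonneg (convex_Icc 0 1)
    (fun s hs => (h s hs).continuousAt.continuousWithinAt)
    (fun s hs => (h s (interior_subset hs)).hasDerivWithinAt)
    (fun s hs => h0 s (interior_subset hs)) (left_mem_Icc.2 zero_le_one) hs hs.1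

omit [CompleteSpace P] [FiniteDimensional ℝ P] [CompleteSpace Q] [FiniteDimensional ℝ Q] in
theorem U3_grow {f' : P → Q} {V : Set P} (hV : Convex ℝ V) {lam κ : ℝ} (hlam : 0 ≤ lam)
    (h1 : ∀ y ∈ V, DifferentiableAt ℝ f' y) (h2 : ∀ y ∈ V, DifferentiableAt ℝ (fderiv ℝ f') y)
    (hl : ∀ y ∈ V, ∀ ξ, lam * ‖ξ‖ ≤ ‖fderiv ℝ f' y ξ‖)
    (hc : ∀ y ∈ V, ∀ ζ, ‖fderiv ℝ (fderiv ℝ f') y ζ ζ‖ ≤ κ * ‖fderiv ℝ f' y ζ‖ * ‖fderiv ℝ f' y ζ‖)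
    {z : Q} (hz : ∀ y ∈ V, 2 * κ * ‖z - f' y‖ ≤ 1) {y : P} (hy : y ∈ V)
    (hm : IsLocalMin (fun y' => ‖z - f' y'‖ ^ 2) y) {y' : P} (hy' : y' ∈ V) :
    ‖z - f' y‖ ^ 2 + lam ^ 2 / 2 * ‖y' - y‖ ^ 2 ≤ ‖z - f' y'‖ ^ 2 := by
  set h := y' - y with hh
  have hγ : ∀ s : ℝ, HasDerivAt (fun s : ℝ => y + s • h) h s := fun s => by
    simpa using ((hasDerivAt_id s).smul_const h).const_add y
  have hmem : ∀ s ∈ Icc (0 : ℝ) 1, y + s • h ∈ V := fun s hs => hV.add_smul_sub_mem hy hy' hs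
  have hw : ∀ s ∈ Icc (0 : ℝ) 1, HasDerivAt (fun s : ℝ => z - f' (y + s • h))
      (-fderiv ℝ f' (y + s • h) h) s := fun s hs =>
    ((h1 _ (hmem s hs)).hasFDerivAt.comp_hasDerivAt s (hγ s)).const_sub z
  have hL : ∀ s ∈ Icc (0 : ℝ) 1, HasDerivAt (fun s : ℝ => -fderiv ℝ f' (y + s • h) h)
      (-fderiv ℝ (fderiv ℝ f') (y + s • h) h h) s := fun s hs => by
    have a : HasDerivAt (fun s : ℝ => fderiv ℝ f' (y + s • h))
        (fderiv ℝ (fderiv ℝ f') (y + s • h) h) s :=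
      HasFDerivAt.comp_hasDerivAt (l := fderiv ℝ f') s (h2 _ (hmem s hs)).hasFDerivAt (hγ s)
    exact ((a.clm_apply (hasDerivAt_const s h)).congr_deriv (by simp)).fun_neg
  have hD : ∀ s ∈ Icc (0 : ℝ) 1, HasDerivAt (fun s : ℝ => ‖z - f' (y + s • h)‖ ^ 2)
      (2 * ⟪z - f' (y + s • h), -fderiv ℝ f' (y + s • h) h⟫) s := fun s hs => (hw s hs).norm_sq
  have hz0 : 2 * ⟪z - f' (y + (0 : ℝ) • h), -fderiv ℝ f' (y + (0 : ℝ) • h) h⟫ = 0 := by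
    refine IsLocalMin.hasDerivAt_eq_zero ?_ (hD 0 (left_mem_Icc.2 zero_le_one))
    have e : y = y + (0 : ℝ) • h := by simp
    rw [e] at hm
    exact IsLocalMin.comp_continuous (g := fun s : ℝ => y + s • h) hm (hγ 0).continuousAt
  have hq : ∀ s : ℝ, HasDerivAt (fun s : ℝ => lam ^ 2 / 2 * ‖h‖ ^ 2 * s ^ 2)
      (lam ^ 2 * ‖h‖ ^ 2 * s) s := fun s =>
    ((hasDerivAt_pow 2 s).const_mul _).congr_deriv (by push_cast; ring)
  have hq' : ∀ s : ℝ, HasDerivAt (fun s : ℝ => lam ^ 2 * ‖h‖ ^ 2 * s) (lam ^ 2 * ‖h‖ ^ 2) s :=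
    fun s => by simpa using (hasDerivAt_id s).const_mul (lam ^ 2 * ‖h‖ ^ 2)
  have hψ : ∀ s ∈ Icc (0 : ℝ) 1, 0 ≤
      2 * ⟪z - f' (y + s • h), -fderiv ℝ f' (y + s • h) h⟫ - lam ^ 2 * ‖h‖ ^ 2 * s := by
    intro s hs
    have := U3_mono (fun s hs => ((((hw s hs).inner ℝ (hL s hs)).const_mul 2).sub (hq' s))) ?_ hs
    · simp only [Pi.sub_apply] at this
      rw [hz0] at this
      simpa using this
    intro s hs
    have a1 := hl _ (hmem s hs) h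
    have a2 := hc _ (hmem s hs) h
    have a3 := hz _ (hmem s hs)
    have a4 := real_inner_le_norm (z - f' (y + s • h)) (fderiv ℝ (fderiv ℝ f') (y + s • h) h h)
    rw [inner_neg_neg, real_inner_self_eq_norm_sq, inner_neg_right]
    have a5 : (lam * ‖h‖) ^ 2 ≤ ‖fderiv ℝ f' (y + s • h) h‖ ^ 2 :=
      pow_le_pow_left₀ (by positivity) a1 2
    have a6 := mul_le_mul_of_nonneg_left a2 (norm_nonneg (z - f' (y + s • h)))
    have a7 := mul_le_mul_of_nonneg_right a3 (sq_nonneg ‖fderiv ℝ f' (y + s • h) h‖)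
    nlinarith
  have := U3_mono (fun s hs => (hD s hs).sub (hq s)) hψ (right_mem_Icc.2 zero_le_one)
  simp only [Pi.sub_apply, zero_smul, add_zero, one_smul, hh, add_sub_cancel] at this
  rw [hh]
  nlinarith

omit [CompleteSpace P] [FiniteDimensional ℝ P] [CompleteSpace Q] [FiniteDimensional ℝ Q] in
theorem U3_near {f f' : P → Q} {V : Set P} (hV : Convex ℝ V) {lam C Λ : ℝ} (hlam : 0 < lam)
    (hC : 0 ≤ C)
    (h1 : ∀ y ∈ V, DifferentiableAt ℝ f' y) (h2 : ∀ y ∈ V, DifferentiableAt ℝ (fderiv ℝ f') y)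
    (hl : ∀ y ∈ V, ∀ ξ, lam * ‖ξ‖ ≤ ‖fderiv ℝ f' y ξ‖)
    (hΛ : ∀ y ∈ V, ‖fderiv ℝ f' y‖ ≤ Λ) (hB : ∀ y ∈ V, ‖fderiv ℝ (fderiv ℝ f') y‖ ≤ C)
    (hs : ∀ x ∈ V, ∀ y ∈ V, 2 * ((finrank ℝ P : ℝ) + 1) * (C / lam ^ 2) * ‖f x - f' y‖ ≤ 1) :
    Near f f' V (lam ^ 2 / 2) (C / lam ^ 2) Λ := by
  have hc : ∀ y ∈ V, ∀ ζ η, ‖fderiv ℝ (fderiv ℝ f') y ζ η‖ ≤
      C / lam ^ 2 * ‖fderiv ℝ f' y ζ‖ * ‖fderiv ℝ f' y η‖ := fun y hy ζ η =>
    calc _ ≤ C * ‖ζ‖ * ‖η‖ := ((fderiv ℝ (fderiv ℝ f') y).le_opNorm₂ ζ η).trans (by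
          gcongr; exact hB y hy)
      _ = C / lam ^ 2 * (lam * ‖ζ‖) * (lam * ‖η‖) := by field_simp
      _ ≤ _ := by gcongr <;> exact hl y hy _
  refine ⟨hc, hs, fun y hy y' hy' => hV.norm_image_sub_le_of_norm_fderiv_le h1 hΛ hy hy',
    fun x hx y hy hm y' hy' => U3_grow hV hlam.le h1 h2 hl (fun y hy ζ => hc y hy ζ ζ)
      (fun y hy => le_trans ?_ (hs x hx y hy)) hy hm hy'⟩
  have : 0 ≤ (finrank ℝ P : ℝ) * (C / lam ^ 2 * ‖f x - f' y‖) := by positivity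
  nlinarith

theorem exists_near {g g' : ℝ × P → Q} {I : Set ℝ} {U : Set P} (hI : UniqueDiffOn ℝ I)
    (hU : IsOpen U) (hg : ContinuousOn g (I ×ˢ U)) (hg' : ContDiffOn ℝ ∞ g' (I ×ˢ U)) {a : ℝ}
    (ha : a ∈ I) {p : P} (hp : p ∈ U) (h0 : g (a, p) = g' (a, p))
    (hi : Function.Injective (fderiv ℝ (fun y => g' (a, y)) p)) :
    ∃ r μ κ Λ : ℝ, 0 < r ∧ 0 < μ ∧ 0 ≤ κ ∧ closedBall p r ⊆ U ∧
      ∀ᶠ t in 𝓝[I] a, Near (fun y => g (t, y)) (fun y => g' (t, y)) (ball p r) μ κ Λ := by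
  have hL := param hI hU (m := ∞) (by simp) hg'
  have hB := param hI hU (m := ∞) (by simp) hL
  set L := fun q : ℝ × P => fderiv ℝ (fun y => g' (q.1, y)) q.2 with hLd
  set B := fun q : ℝ × P => fderiv ℝ (fun y => L (q.1, y)) q.2 with hBd
  obtain ⟨K, hK, hA⟩ := LinearMap.exists_antilipschitzWith (L (a, p)).toLinearMap
    (LinearMap.ker_eq_bot.2 hi)
  have hK' : (0 : ℝ) < K := hK
  have hA' : ∀ ξ, ‖ξ‖ ≤ K * ‖L (a, p) ξ‖ := fun ξ => by simpa using hA.le_mul_dist ξ 0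
  set lam : ℝ := 1 / (2 * K) with hlam
  have hlam0 : 0 < lam := by positivity
  set C := ‖B (a, p)‖ + 1 with hC
  have hC0 : 0 < C := by positivity
  set k := 2 * ((finrank ℝ P : ℝ) + 1) * (C / lam ^ 2) with hk
  have hk0 : 0 < k := by positivity
  have hap : (a, p) ∈ I ×ˢ U := ⟨ha, hp⟩
  have e1 := (hL.continuousOn _ hap).eventually (ball_mem_nhds _ hlam0)
  have e2 := (hB.continuousOn _ hap).eventually (ball_mem_nhds _ one_pos)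
  have e3 := (hg _ hap).eventually (ball_mem_nhds _ (show 0 < 1 / (2 * k) by positivity))
  have e4 := (hg'.continuousOn _ hap).eventually
    (ball_mem_nhds _ (show 0 < 1 / (2 * k) by positivity))
  have e := (e1.and e2).and (e3.and e4)
  rw [nhdsWithin_prod_eq, hU.nhdsWithin_eq hp, eventually_prod_iff] at e
  obtain ⟨pa, hpa, pb, hpb, e⟩ := e
  obtain ⟨r, hr, hrs⟩ := nhds_basis_closedBall.mem_iff.1 (inter_mem hpb (hU.mem_nhds hp))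
  refine ⟨r, lam ^ 2 / 2, C / lam ^ 2, ‖L (a, p)‖ + lam, hr, by positivity, by positivity,
    fun y hy => (hrs hy).2, ?_⟩
  filter_upwards [hpa, self_mem_nhdsWithin] with t ht htI
  have hb : ∀ y ∈ ball p r, y ∈ U ∧ pb y := fun y hy =>
    ⟨(hrs (ball_subset_closedBall hy)).2, (hrs (ball_subset_closedBall hy)).1⟩
  have sl : ∀ {W : Type} [NormedAddCommGroup W] [NormedSpace ℝ W] {G : ℝ × P → W},
      ContDiffOn ℝ ∞ G (I ×ˢ U) → ∀ y ∈ ball p r, DifferentiableAt ℝ (fun y => G (t, y)) y := by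
    intro W _ _ G hG y hy
    exact ((hG.comp (contDiff_prodMk_right t).contDiffOn fun y hy => ⟨htI, hy⟩).contDiffAt
      (hU.mem_nhds (hb y hy).1)).differentiableAt (by simp)
  refine U3_near (convex_ball p r) hlam0 hC0.le (sl hg') (sl hL) (fun y hy ξ => ?_)
    (fun y hy => ?_) (fun y hy => ?_) fun x hx y hy => ?_
  · have b1 : ‖L (t, y) - L (a, p)‖ < lam := mem_ball_iff_norm.1 (e ht (hb y hy).2).1.1
    have b2 := (L (t, y) - L (a, p)).le_opNorm ξ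
    have b3 : ‖L (a, p) ξ‖ ≤ ‖L (t, y) ξ‖ + ‖(L (t, y) - L (a, p)) ξ‖ := by
      simpa using norm_sub_le (L (t, y) ξ) ((L (t, y) - L (a, p)) ξ)
    have b4 : 2 * (lam * ‖ξ‖) ≤ ‖L (a, p) ξ‖ := by
      rw [hlam, show 2 * (1 / (2 * (K : ℝ)) * ‖ξ‖) = ‖ξ‖ / K by field_simp, div_le_iff₀' hK']
      exact hA' ξ
    have b5 := mul_le_mul_of_nonneg_right b1.le (norm_nonneg ξ)
    change _ ≤ ‖L (t, y) ξ‖
    linarith
  · have b1 : ‖L (t, y) - L (a, p)‖ < lam := mem_ball_iff_norm.1 (e ht (hb y hy).2).1.1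
    have := norm_sub_norm_le (L (t, y)) (L (a, p))
    change ‖L (t, y)‖ ≤ _
    linarith
  · have b1 : ‖B (t, y) - B (a, p)‖ < 1 := mem_ball_iff_norm.1 (e ht (hb y hy).2).1.2
    have := norm_sub_norm_le (B (t, y)) (B (a, p))
    change ‖B (t, y)‖ ≤ _
    linarith
  · have b1 : dist (g (t, x)) (g (a, p)) < 1 / (2 * k) := (e ht (hb x hx).2).2.1
    have b2 : dist (g' (t, y)) (g' (a, p)) < 1 / (2 * k) := (e ht (hb y hy).2).2.2
    have b3 := dist_triangle_right (g (t, x)) (g' (t, y)) (g (a, p))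
    rw [← h0] at b2
    have b4 : k * (1 / (2 * k) + 1 / (2 * k)) = 1 := by field_simp; norm_num
    rw [← dist_eq_norm, ← hk, ← b4]
    gcongr
    linarith

end Pool.Agent.Lib.MP_de485e_gt.Ex
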