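import Pool.Agent.Lib.MP_de485e_gt.Ex.GDef

/-! Two lemmas on time derivatives, and the distance function. -/

open Set Filter Topology Module Metric
open scoped RealInnerProductSpace InnerProduct Manifold ContDiff

namespace Pool.Agent.Lib.MP_de485e_gt.Ex

open Conv

variable {P Q : Type} [NormedAddCommGroup P] [InnerProductSpace ℝ P] [CompleteSpace P]
  [FiniteDimensional ℝ P] [NormedAddCommGroup Q] [InnerProductSpace ℝ Q] [CompleteSpace Q]
  [FiniteDimensional ℝ Q]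

theorem time_ineq {ψ : ℝ × P → ℝ} {a b t K ψ' : ℝ} {U : Set P} (hU : IsOpen U)
    (hψ : ContDiffOn ℝ 1 ψ (Icc a b ×ˢ U)) (ht : t ∈ Ioc a b) {y₀ : P} (hy : y₀ ∈ U) {y : ℝ → P}
    (hl : Tendsto y (𝓝[<] t) (𝓝 y₀))
    (h : ∀ᶠ s in 𝓝[<] t, ψ (t, y₀) ≤ ψ (t, y s) ∧ ψ (s, y s) ≤ ψ (t, y₀) * Real.exp (K * (s - t)))
    (hd : HasDerivWithinAt (fun s => ψ (s, y₀)) ψ' (Icc a b) t) : K * ψ (t, y₀) ≤ ψ' := by
  obtain ⟨r, r0, hr⟩ := Metric.isOpen_iff.1 hU y₀ hy
  have hab : a < b := ht.1.trans_le ht.2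
  have htI : t ∈ Icc a b := ⟨ht.1.le, ht.2⟩
  set S : Set (ℝ × P) := Icc a b ×ˢ ball y₀ r with hS
  have hS1 : ContDiffOn ℝ 1 ψ S := hψ.mono (prod_mono subset_rfl hr)
  have hu : UniqueDiffOn ℝ S := (uniqueDiffOn_Icc hab).prod isOpen_ball.uniqueDiffOn
  have hp : (t, y₀) ∈ S := ⟨htI, mem_ball_self r0⟩
  have hD : ∀ p ∈ S, HasFDerivWithinAt ψ (fderivWithin ℝ ψ S p) S p := fun p hp =>
    (hS1.differentiableOn one_ne_zero p hp).hasFDerivWithinAt
  have hc := hS1.continuousOn_fderivWithin hu le_rfl (t, y₀) hp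
  set D := fderivWithin ℝ ψ S (t, y₀) with hDd
  have e : ψ' = D (1, 0) := by
    refine (uniqueDiffOn_Icc hab t htI).eq_deriv _ hd ?_
    exact (hD _ hp).comp_hasDerivWithinAt t (f := fun s => (s, y₀))
      ((hasDerivWithinAt_id t _).prodMk (hasDerivWithinAt_const t _ y₀))
      fun s hs => ⟨hs, mem_ball_self r0⟩
  have hE : HasDerivAt (fun s => ψ (t, y₀) * Real.exp (K * (s - t))) (K * ψ (t, y₀)) t := by
    have := ((((hasDerivAt_id t).sub_const t).const_mul K).exp).const_mul (ψ (t, y₀))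
    exact this.congr_deriv (by simp [mul_comm])
  have hT := (hasDerivAt_iff_tendsto_slope_left_right.1 hE).1
  refine le_of_forall_pos_le_add fun ε ε0 => le_of_tendsto hT ?_
  obtain ⟨T, hT1, hT2⟩ := Convex.exists_nhdsWithin_lipschitzOnWith_of_hasFDerivWithinAt_of_nnnorm_lt
    (𝕜 := ℝ) (f' := fun p => fderivWithin ℝ ψ S p - D) (x := (t, y₀))
    ((convex_Icc a b).prod (convex_ball y₀ r)) (f := fun p => ψ p - D p)
    (eventually_mem_nhdsWithin.mono fun p hp => (hD p hp).sub D.hasFDerivWithinAt)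
    (hc.sub continuousWithinAt_const) ⟨ε, ε0.le⟩ (by
      rw [← hDd, sub_self, nnnorm_zero]
      exact ε0)
  have hb : ∀ᶠ s in 𝓝[<] t, y s ∈ ball y₀ r := hl (ball_mem_nhds _ r0)
  have hI : ∀ᶠ s in 𝓝[<] t, s ∈ Ioo a t := Ioo_mem_nhdsLT ht.1
  have t1 : Tendsto (fun s => (s, y s)) (𝓝[<] t) (𝓝[S] (t, y₀)) :=
    tendsto_nhdsWithin_iff.2 ⟨(tendsto_id.mono_left nhdsWithin_le_nhds).prodMk_nhds hl,
      (hb.and hI).mono fun s hs => ⟨⟨hs.2.1.le, hs.2.2.le.trans ht.2⟩, hs.1⟩⟩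
  have t2 : Tendsto (fun s => (t, y s)) (𝓝[<] t) (𝓝[S] (t, y₀)) :=
    tendsto_nhdsWithin_iff.2 ⟨tendsto_const_nhds.prodMk_nhds hl, hb.mono fun s hs => ⟨htI, hs⟩⟩
  filter_upwards [h, hI, t1 hT1, t2 hT1] with s h1 h2 h3 h4
  have h5 := hT2.dist_le_mul _ h4 _ h3
  have h6 : D (t, y s) - D (s, y s) = (t - s) * ψ' := by
    rw [← map_sub, e, ← smul_eq_mul, ← map_smul]
    simp
  have h7 : 0 < t - s := sub_pos.2 h2.2
  rw [Real.dist_eq, Prod.dist_eq, dist_self, Real.dist_eq, abs_of_pos h7,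
    max_eq_left h7.le] at h5
  have h8 : ψ (t, y s) - D (t, y s) - (ψ (s, y s) - D (s, y s)) ≤ ε * (t - s) := (abs_le.1 h5).2
  rw [slope_def_field, sub_self, mul_zero, Real.exp_zero, mul_one,
    div_le_iff_of_neg (sub_neg.2 h2.2)]
  linarith [h1.1, h1.2]

theorem deriv_zero {g : ℝ × P → Q} {I : Set ℝ} {U : Set P} (hU : IsOpen U) {t : ℝ} (ht : t ∈ I)
    (hI : UniqueDiffWithinAt ℝ I t) {y : ℝ → P} (hy : ∀ s ∈ I, y s ∈ U)
    (hc : ContinuousWithinAt y I t) (hd : DifferentiableWithinAt ℝ g (I ×ˢ U) (t, y t))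
    {h h' : Q} (h1 : HasDerivWithinAt (fun s => g (s, y s)) h I t)
    (h2 : HasDerivWithinAt (fun s => g (s, y t)) h' I t)
    (hi : Function.Injective (fderiv ℝ (fun z => g (t, z)) (y t)))
    (hp : ((fderiv ℝ (fun z => g (t, z)) (y t))†) (h - h') = 0) : HasDerivWithinAt y 0 I t := by
  have hD := hd.hasFDerivWithinAt
  set D := fderivWithin ℝ g (I ×ˢ U) (t, y t)
  set L := fderiv ℝ (fun z => g (t, z)) (y t) with hL
  have e1 : ∀ v, L v = D (0, v) := fun v => by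
    have := (hD.comp (y t) (f := fun z => (t, z)) (hasFDerivAt_prodMk_right t (y t)).hasFDerivWithinAt
      (s := U) fun z hz => ⟨ht, hz⟩).hasFDerivAt (hU.mem_nhds (hy t ht))
    rw [hL, show (fun z => g (t, z)) = g ∘ fun z => (t, z) from rfl, this.fderiv]
    simp
  have e2 : h' = D (1, 0) := by
    refine hI.eq_deriv _ h2 ?_
    exact hD.comp_hasDerivWithinAt t (f := fun s => (s, y t))
      ((hasDerivWithinAt_id t _).prodMk (hasDerivWithinAt_const t _ _))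
      fun s hs => ⟨hs, hy t ht⟩
  have t1 : Tendsto (fun s => (s, y s)) (𝓝[I] t) (𝓝[I ×ˢ U] (t, y t)) :=
    tendsto_nhdsWithin_iff.2 ⟨(tendsto_id.mono_left nhdsWithin_le_nhds).prodMk_nhds hc,
      eventually_mem_nhdsWithin.mono fun s hs => ⟨hs, hy s hs⟩⟩
  have o1 := hD.isLittleO.comp_tendsto t1
  have o2 : (fun s => g (s, y s) - g (t, y t) - (s - t) • h) =o[𝓝[I] t]
      fun s => ((s, y s) - (t, y t) : ℝ × P) :=
    h1.isLittleO.trans_isBigO (.of_bound' (.of_forall fun s =>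
      norm_fst_le ((s, y s) - (t, y t) : ℝ × P)))
  obtain ⟨C, -, hC⟩ := (L : P →ₗ[ℝ] Q).exists_antilipschitzWith (LinearMap.ker_eq_bot.2 hi)
  have o3 : (fun s => y s - y t) =O[𝓝[I] t] fun s => L (y s - y t) - (s - t) • (h - h') := by
    refine .of_bound C (.of_forall fun s => (hC.le_mul_norm (map_zero _) _).trans ?_)
    refine mul_le_mul_of_nonneg_left ?_ C.2
    have h3 : ⟪L (y s - y t), (s - t) • (h - h')⟫ = 0 := by
      rw [inner_smul_right, ← ContinuousLinearMap.adjoint_inner_right, hp, inner_zero_right,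
        mul_zero]
    have h4 := norm_sub_sq_real (L (y s - y t)) ((s - t) • (h - h'))
    refine abs_le_of_sq_le_sq' ?_ (norm_nonneg _) |>.2
    rw [h4, h3]
    simp
  have o4 : (fun s => y s - y t) =o[𝓝[I] t] fun s => ((s, y s) - (t, y t) : ℝ × P) := by
    refine o3.trans_isLittleO ((o2.sub o1).congr_left fun s => ?_)
    have : D ((s, y s) - (t, y t)) = L (y s - y t) + (s - t) • h' := by
      rw [e1, e2, ← map_smul, ← map_add]
      simp
    simp only [Function.comp_apply, this, smul_sub]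
    abel
  rw [hasDerivWithinAt_iff_isLittleO, Asymptotics.isLittleO_iff]
  intro ε ε0
  filter_upwards [o4.bound (lt_min ε0 one_half_pos)] with s hs
  rw [Prod.mk_sub_mk, Prod.norm_mk] at hs
  rw [smul_zero, sub_zero]
  have n0 := norm_nonneg (y s - y t)
  have n1 := norm_nonneg (s - t)
  rcases le_total ‖s - t‖ ‖y s - y t‖ with h5 | h5
  · rw [max_eq_right h5] at hs
    have := mul_le_mul_of_nonneg_right (min_le_right ε (1 / 2)) n0
    have := mul_nonneg ε0.le n1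
    linarith
  · rw [max_eq_left h5] at hs
    exact hs.trans (mul_le_mul_of_nonneg_right (min_le_left _ _) n1)

theorem exists_dist {M : Type} [TopologicalSpace M] [T2Space M] [CompactSpace M]
    {G G' : ℝ → M → Q} {a b : ℝ} (hab : a < b)
    (hG : ContinuousOn (fun p : ℝ × M => G p.1 p.2) (Icc a b ×ˢ univ))
    (hG' : ContinuousOn (fun p : ℝ × M => G' p.1 p.2) (Icc a b ×ˢ univ)) (h0 : G a = G' a)
    {N : Set (M × M)} (hN : IsOpen N) (hd : ∀ x, (x, x) ∈ N)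
    (hi : ∀ x y, (x, y) ∈ N → G a x = G a y → x = y) :
    ∃ c ∈ Ioc a b, ∃ (D : ℝ × M → ℝ) (Z : Set (M × M)), ContinuousOn D (Icc a c ×ˢ univ) ∧
      IsOpen Z ∧ Z ⊆ N ∧ (∀ x, (x, x) ∈ Z) ∧ ∀ t ∈ Icc a c, ∀ x,
        (∃ y, (x, y) ∈ Z ∧ D (t, x) = ‖G t x - G' t y‖ ^ 2) ∧
        ∀ y, (x, y) ∈ Z → D (t, x) ≤ ‖G t x - G' t y‖ ^ 2 := by
  obtain ⟨Z, hZ, hZ1, hZ2⟩ := normal_exists_closure_subset (isClosed_diagonal (X := M)) hN
    (by rintro ⟨x, y⟩ (rfl : x = y); exact hd x)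
  have hZd : ∀ x, (x, x) ∈ Z := fun x => hZ1 (mem_diagonal x)
  obtain ⟨χ, c0, c1, c2⟩ := exists_continuous_zero_one_of_isClosed isClosed_closure
    hN.isClosed_compl (disjoint_compl_right_iff_subset.2 hZ2)
  have c0' : ∀ p ∈ Z, χ p = 0 := fun p hp => c0 (subset_closure hp)
  let τ : ℝ → ℝ := fun t => projIcc a b hab.le t
  have hτ : Continuous τ := continuous_subtype_val.comp continuous_projIcc
  have τ1 : ∀ t ∈ Icc a b, τ t = t := fun t ht => by simp [τ, projIcc_of_mem hab.le ht]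
  have k : Continuous fun p : ℝ × M => (τ p.1, p.2) := by fun_prop
  have g1 : Continuous fun p : ℝ × M => G (τ p.1) p.2 :=
    hG.comp_continuous k fun p => ⟨(projIcc a b hab.le p.1).2, mem_univ _⟩
  have g2 : Continuous fun p : ℝ × M => G' (τ p.1) p.2 :=
    hG'.comp_continuous k fun p => ⟨(projIcc a b hab.le p.1).2, mem_univ _⟩
  let Φ : ℝ × M → M → ℝ := fun p y => ‖G (τ p.1) p.2 - G' (τ p.1) y‖ ^ 2 + χ (p.2, y)
  have hΦ : Continuous ↿Φ :=
    (((g1.comp continuous_fst).sub (g2.comp (continuous_fst.fst.prodMk continuous_snd))).norm.pow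
      2).add (χ.continuous.comp (continuous_fst.snd.prodMk continuous_snd))
  have ev : ∀ᶠ t in 𝓝 a, ∀ p ∈ Zᶜ, Φ (t, p.1) p.1 < Φ (t, p.1) p.2 := by
    refine hZ.isClosed_compl.isCompact.eventually_forall_of_forall_eventually fun p hp => ?_
    refine ContinuousAt.eventually_lt (f := fun z : ℝ × M × M => Φ (z.1, z.2.1) z.2.1)
      (g := fun z : ℝ × M × M => Φ (z.1, z.2.1) z.2.2)
      (hΦ.comp (f := fun z : ℝ × M × M => ((z.1, z.2.1), z.2.1)) (by fun_prop)).continuousAt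
      (hΦ.comp (f := fun z : ℝ × M × M => ((z.1, z.2.1), z.2.2)) (by fun_prop)).continuousAt ?_
    simp only [Φ, τ1 a (left_mem_Icc.2 hab.le), ← h0, sub_self, norm_zero, c0' _ (hZd _)]
    by_contra hn
    have h1 := (c2 (p.1, p.2)).1
    have h2 := sq_nonneg ‖G a p.1 - G a p.2‖
    have h3 : p ∈ N := by
      by_contra h3
      have : χ (p.1, p.2) = 1 := c1 h3
      exact hn (by nlinarith)
    have h4 : ‖G a p.1 - G a p.2‖ ^ 2 = 0 := by nlinarith [not_lt.1 hn]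
    have h5 := hi p.1 p.2 h3 (sub_eq_zero.1 (norm_eq_zero.1 (pow_eq_zero_iff two_ne_zero |>.1 h4)))
    exact hp (by rw [show p = (p.1, p.1) from Prod.ext rfl h5.symm]; exact hZd _)
  obtain ⟨δ, δ0, hδ⟩ := Metric.eventually_nhds_iff.1 ev
  refine ⟨min b (a + δ / 2), ⟨lt_min hab (by linarith), min_le_left _ _⟩,
    fun p => sInf (Φ p '' univ), Z, (isCompact_univ.continuous_sInf hΦ).continuousOn, hZ,
    subset_closure.trans hZ2, hZd, fun t ht x => ?_⟩
  have t1 := τ1 t ⟨ht.1, ht.2.trans (min_le_left _ _)⟩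
  have t2 := hδ (y := t) (by
    rw [Real.dist_eq, abs_of_nonneg (sub_nonneg.2 ht.1)]
    linarith [ht.2.trans (min_le_right _ _)])
  obtain ⟨y, -, y1, y2⟩ := isCompact_univ.exists_sInf_image_eq_and_le ⟨x, mem_univ x⟩
    (f := Φ (t, x)) (hΦ.comp (f := fun y => ((t, x), y)) (by fun_prop)).continuousOn
  have y3 : (x, y) ∈ Z := by
    by_contra h
    exact absurd (t2 (x, y) h) (not_lt.2 (y2 x (mem_univ x)))
  have k2 : ∀ z, (x, z) ∈ Z → Φ (t, x) z = ‖G t x - G' t z‖ ^ 2 := fun z hz => by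
    simp only [Φ, t1, c0' _ hz, add_zero]
  exact ⟨⟨y, y3, y1.trans (k2 y y3)⟩, fun z hz => y1.trans_le ((y2 z (mem_univ z)).trans_eq (k2 z hz))⟩

end Pool.Agent.Lib.MP_de485e_gt.Ex
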