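import Pool.Agent.Lib.MP_de485e_gt.Ex.U1
import Pool.Agent.Lib.MP_de485e_gt.Ex.U2
import Pool.Agent.Lib.MP_de485e_gt.Ex.U3
import Pool.Agent.Lib.MP_de485e_gt.Ex.U4

/-! Uniqueness. -/

set_option linter.unusedSectionVars false

open Set Filter Topology Module Metric
open scoped RealInnerProductSpace InnerProduct Manifold ContDiff

namespace Pool.Agent.Lib.MP_de485e_gt.Ex

open Conv

variable {P Q : Type} [NormedAddCommGroup P] [InnerProductSpace ℝ P] [CompleteSpace P]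
  [FiniteDimensional ℝ P] [NormedAddCommGroup Q] [InnerProductSpace ℝ Q] [CompleteSpace Q]
  [FiniteDimensional ℝ Q]

variable {M : Type} [TopologicalSpace M] [ChartedSpace P M] [IsManifold 𝓘(ℝ, P) ∞ M]
  [T2Space M] [CompactSpace M] {F F' : ℝ → M → Q} {a b : ℝ}

variable (P) in
/-- Points that the chart at `p` sends to a ball. -/
def U5In (p : M) (r : ℝ) (x : M) : Prop :=
  x ∈ (chartAt P p).source ∧ chartAt P p x ∈ ball (chartAt P p p) r

variable (P) in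
/-- The data near a point. -/
structure U5D (F F' : ℝ → M → Q) (a c : ℝ) (D : ℝ × M → ℝ) (Z : Set (M × M)) (p : M)
    (r μ κ Λ : ℝ) : Prop where
  h : IsSphereMCF P F (Icc a c)
  h' : IsSphereMCF P F' (Icc a c)
  hac : a < c
  cont : ContinuousOn D (Icc a c ×ˢ univ)
  hZ : IsOpen Z
  ex : ∀ t ∈ Icc a c, ∀ x, ∃ y, (x, y) ∈ Z ∧ D (t, x) = ‖F t x - F' t y‖ ^ 2
  le : ∀ t ∈ Icc a c, ∀ x y, (x, y) ∈ Z → D (t, x) ≤ ‖F t x - F' t y‖ ^ 2
  hμ : 0 < μ
  hκ : 0 ≤ κ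
  sub : ball (chartAt P p p) r ⊆ (chartAt P p).target
  near : ∀ t ∈ Icc a c, Near (fun y => gc P F p (t, y)) (fun y => gc P F' p (t, y))
    (ball (chartAt P p p) r) μ κ Λ

theorem U5_gc {p x : M} (hx : x ∈ (chartAt P p).source) (t : ℝ) :
    gc P F p (t, chartAt P p x) = F t x := by
  simp only [gc, (chartAt P p).left_inv hx]

namespace U5D

variable {c : ℝ} {D : ℝ × M → ℝ} {Z : Set (M × M)} {p : M} {r μ κ Λ : ℝ}
  (H : U5D P F F' a c D Z p r μ κ Λ)
include H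

theorem grow {t : ℝ} (ht : t ∈ Icc a c) {x y : M} (hx : U5In P p r x) (hy : U5In P p r y)
    (hZ : (x, y) ∈ Z) (e : D (t, x) = ‖F t x - F' t y‖ ^ 2) :
    ∀ y' ∈ ball (chartAt P p p) r, ‖F t x - F' t y‖ ^ 2 + μ * ‖y' - chartAt P p y‖ ^ 2 ≤
      ‖F t x - gc P F' p (t, y')‖ ^ 2 := by
  have k := (H.near t ht).grow _ hx.2 _ hy.2 ?_
  · simpa only [U5_gc hx.1, U5_gc hy.1] using k
  have T : Tendsto (fun y' => (x, (chartAt P p).symm y')) (𝓝 (chartAt P p y)) (𝓝 (x, y)) :=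
    tendsto_const_nhds.prodMk_nhds ((chartAt P p).tendsto_symm hy.1)
  filter_upwards [T.eventually (H.hZ.mem_nhds hZ)] with y' h1
  simp only [U5_gc hx.1, U5_gc hy.1, ← e]
  exact H.le t ht x _ h1

theorem second {t : ℝ} (ht : t ∈ Icc a c) {x y : M}
    (hx : ∀ᶠ x' in 𝓝 x, U5In P p r x' ∧ ∀ y, (x', y) ∈ Z → U5In P p r y)
    (hZ : (x, y) ∈ Z) (e : D (t, x) = ‖F t x - F' t y‖ ^ 2)
    (hm : ∀ x', D (t, x') ≤ D (t, x)) :
    ((fderiv ℝ (loc P (F t) p) (chartAt P p x))†) (F t x - F' t y) = 0 ∧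
    ((fderiv ℝ (loc P (F' t) p) (chartAt P p y))†) (F t x - F' t y) = 0 ∧
      ∀ ξ ε, 0 < ε → ∃ ζ, ‖fderiv ℝ (loc P (F t) p) (chartAt P p x) ξ -
          fderiv ℝ (loc P (F' t) p) (chartAt P p y) ζ‖ ^ 2 +
        ⟪F t x - F' t y, fderiv ℝ (fderiv ℝ (loc P (F t) p)) (chartAt P p x) ξ ξ -
          fderiv ℝ (fderiv ℝ (loc P (F' t) p)) (chartAt P p y) ζ ζ⟫ ≤ ε := by
  have hx0 := hx.self_of_nhds.1
  have hy := hx.self_of_nhds.2 y hZ
  have k := second_order (f := fun y => gc P F p (t, y)) (f' := fun y => gc P F' p (t, y))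
    (H.h.sm2 p ht ((chartAt P p).map_source hx0.1))
    (H.h'.sm2 p ht ((chartAt P p).map_source hy.1)) (isOpen_ball.mem_nhds hy.2) H.hμ
    (by simpa only [U5_gc hx0.1, U5_gc hy.1] using H.grow ht hx0 hy hZ e)
    ((H.near t ht).lip _ hy.2) ?_
  · simp only [U5_gc hx0.1, U5_gc hy.1] at k
    exact k
  filter_upwards [((chartAt P p).tendsto_symm hx0.1).eventually hx] with x' h1
  obtain ⟨y₁, h2, h3⟩ := H.ex t ht ((chartAt P p).symm x')
  refine ⟨_, (h1.2 y₁ h2).2, ?_⟩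
  rw [U5_gc hx0.1, U5_gc hy.1, U5_gc (h1.2 y₁ h2).1]
  exact (pow_le_pow_iff_left₀ (norm_nonneg _) (norm_nonneg _) two_ne_zero).1
    (h3.symm.trans_le ((hm _).trans_eq e))

theorem conv {x : M} (hx : U5In P p r x) {y : ℝ → M} (hy : ∀ s ∈ Icc a c, U5In P p r (y s))
    (hZ : ∀ s ∈ Icc a c, (x, y s) ∈ Z) (e : ∀ s ∈ Icc a c, D (s, x) = ‖F s x - F' s (y s)‖ ^ 2)
    {t : ℝ} (ht : t ∈ Icc a c) : ContinuousWithinAt (fun s => chartAt P p (y s)) (Icc a c) t := by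
  have c1 := (mcf_deriv H.h ht x).continuousWithinAt
  have c2 := (mcf_deriv H.h' ht (y t)).continuousWithinAt
  have c3 : ContinuousWithinAt (fun s => D (s, x)) (Icc a c) t :=
    (H.cont (t, x) ⟨ht, mem_univ _⟩).comp (f := fun s : ℝ => (s, x))
      (Continuous.continuousWithinAt (by fun_prop)) fun s hs => ⟨hs, mem_univ _⟩
  have c4 : Tendsto (fun s => √((‖F s x - F' s (y t)‖ ^ 2 - D (s, x)) / μ)) (𝓝[Icc a c] t)
      (𝓝 √((‖F t x - F' t (y t)‖ ^ 2 - D (t, x)) / μ)) :=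
    ((((c1.sub c2).norm.pow 2).sub c3).div_const μ).sqrt
  rw [e t ht, sub_self, zero_div, Real.sqrt_zero] at c4
  rw [ContinuousWithinAt, tendsto_iff_norm_sub_tendsto_zero]
  refine squeeze_zero' (Eventually.of_forall fun _ => norm_nonneg _) ?_ c4
  filter_upwards [self_mem_nhdsWithin] with s hs
  have k := H.grow hs hx (hy s hs) (hZ s hs) (e s hs) _ (hy t ht).2
  rw [U5_gc (hy t ht).1, ← e s hs] at k
  rw [norm_sub_rev]
  refine Real.le_sqrt_of_sq_le ((le_div_iff₀ H.hμ).2 ?_)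
  linarith

theorem no_max {t K : ℝ} (ht : t ∈ Ioc a c) {x : M}
    (hx : ∀ᶠ x' in 𝓝 x, U5In P p r x' ∧ ∀ y, (x', y) ∈ Z → U5In P p r y)
    (hm : ∀ s ∈ Icc a c, ∀ x', D (s, x') * Real.exp (-(K * s)) ≤ D (t, x) * Real.exp (-(K * t))) :
    K * D (t, x) ≤ 2 * ((finrank ℝ P : ℝ) * (1 + 2 * κ ^ 2)) * D (t, x) := by
  have ht' : t ∈ Icc a c := Ioc_subset_Icc_self ht
  have : Nonempty M := ⟨x⟩
  choose! y hZ e using fun s hs => H.ex s hs x
  have hx0 := hx.self_of_nhds.1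
  have hy : ∀ s ∈ Icc a c, U5In P p r (y s) := fun s hs => hx.self_of_nhds.2 _ (hZ s hs)
  have hyt := hy t ht'
  obtain ⟨k1, k2, k3⟩ := H.second ht' hx (hZ t ht') (e t ht') fun x' =>
    le_of_mul_le_mul_right (hm t ht' x') (Real.exp_pos _)
  have n1 := (simm H.h ht').nice p ((chartAt P p).map_source hx0.1)
  have n2 := (simm H.h' ht').nice p ((chartAt P p).map_source hyt.1)
  have k4 := two_point n1.inj n2.inj H.hκ k1 k2 ((H.near t ht').curv _ hyt.2)
    (by simpa only [U5_gc hx0.1, U5_gc hyt.1] using (H.near t ht').small _ hx0.2 _ hyt.2) k3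
  have hl : Icc a c ∈ 𝓝[<] t := mem_of_superset (Ioo_mem_nhdsLT ht.1) fun s hs =>
    ⟨hs.1.le, hs.2.le.trans ht.2⟩
  have k5 := time_ineq (ψ := fun q : ℝ × P => ‖F q.1 x - gc P F' p q‖ ^ 2) (K := K)
    (ψ' := 2 * ⟪F t x - F' t (y t), mH P (F t) x - mH P (F' t) (y t)⟫) isOpen_ball ?_ ht hyt.2
    (y := fun s => chartAt P p (y s))
    ((H.conv hx0 hy hZ e ht').tendsto.mono_left (nhdsWithin_le_of_mem hl)) ?_ ?_
  · rw [(simm H.h ht').mH_chart hx0.1, (simm H.h' ht').mH_chart hyt.1, Hc, Hc] at k5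
    simp only [U5_gc hyt.1, loc, Function.comp_apply, (chartAt P p).left_inv hx0.1,
      (chartAt P p).left_inv hyt.1] at k4 k5
    rw [e t ht', mul_assoc]
    exact k5.trans (mul_le_mul_of_nonneg_left k4 zero_le_two)
  · have s1 : ContDiffOn ℝ ∞ (fun q : ℝ × P => gc P F p (q.1, chartAt P p x))
        (Icc a c ×ˢ ball (chartAt P p p) r) :=
      (H.h.sm p).comp (ContDiff.contDiffOn (by fun_prop)) fun q hq => ⟨hq.1, H.sub hx0.2⟩
    simp only [U5_gc hx0.1] at s1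
    exact ((s1.sub ((H.h'.sm p).mono (prod_mono_right H.sub))).norm_sq ℝ).of_le (by norm_cast)
  · filter_upwards [hl] with s hs
    simp only [U5_gc hyt.1, U5_gc (hy s hs).1]
    refine ⟨(e t ht').symm.trans_le (H.le t ht' x _ (hZ s hs)), ?_⟩
    rw [← e s hs, ← e t ht']
    have h1 := mul_le_mul_of_nonneg_right (hm s hs x) (Real.exp_pos (K * s)).le
    rw [mul_assoc, mul_assoc, ← Real.exp_add, ← Real.exp_add, neg_add_cancel, Real.exp_zero,
      mul_one] at h1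
    exact h1.trans_eq (by congr 2; ring)
  · simp only [U5_gc hyt.1]
    exact ((mcf_deriv H.h ht' x).sub (mcf_deriv H.h' ht' (y t))).norm_sq

theorem fix {x : M} (hx : ∀ᶠ x' in 𝓝 x, U5In P p r x' ∧ ∀ y, (x', y) ∈ Z → U5In P p r y)
    (h0 : F a = F' a) (hD : ∀ t ∈ Icc a c, ∀ x, D (t, x) = 0) :
    ∀ t ∈ Icc a c, F t x = F' t x := by
  have : Nonempty M := ⟨x⟩
  choose! y hZ e using fun s hs => H.ex s hs x
  have hx0 := hx.self_of_nhds.1
  have hy : ∀ s ∈ Icc a c, U5In P p r (y s) := fun s hs => hx.self_of_nhds.2 _ (hZ s hs)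
  have e' : ∀ s ∈ Icc a c, F s x = F' s (y s) := fun s hs =>
    sub_eq_zero.1 (norm_eq_zero.1 (pow_eq_zero_iff two_ne_zero |>.1 ((e s hs).symm.trans (hD s hs x))))
  have hz : ∀ t ∈ Icc a c, HasDerivWithinAt (fun s => chartAt P p (y s)) 0 (Icc a c) t := by
    intro t ht
    have hyt := hy t ht
    obtain ⟨-, -, k3⟩ := H.second ht hx (hZ t ht) (e t ht) fun x' => by rw [hD t ht, hD t ht]
    have n1 := (simm H.h ht).nice p ((chartAt P p).map_source hx0.1)
    have n2 := (simm H.h' ht).nice p ((chartAt P p).map_source hyt.1)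
    simp only [e' t ht, sub_self, inner_zero_left, add_zero] at k3
    refine deriv_zero (g := gc P F' p) (chartAt P p).open_target ht
      (uniqueDiffOn_Icc H.hac t ht) (fun s hs => (chartAt P p).map_source (hy s hs).1)
      (H.conv hx0 hy hZ e ht) (((H.h'.sm p).differentiableOn (by simp)) _
        ⟨ht, (chartAt P p).map_source hyt.1⟩) (h := mH P (F t) x) (h' := mH P (F' t) (y t))
      ((mcf_deriv H.h ht x).congr (fun s hs => by rw [U5_gc (hy s hs).1, e' s hs])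
        (by rw [U5_gc hyt.1, e' t ht]))
      (by simpa only [U5_gc hyt.1] using mcf_deriv H.h' ht (y t)) n2.inj ?_
    rw [map_sub, (simm H.h ht).mH_chart hx0.1, (simm H.h' ht).mH_chart hyt.1]
    exact sub_eq_zero.2 ((adj_zero n1.inj n2.inj k3 (adj_Hj n1.inj n1.perp _)).trans
      (adj_Hj n2.inj n2.perp _).symm)
  have ha : a ∈ Icc a c := left_mem_Icc.2 H.hac.le
  have h1 : chartAt P p (y a) = chartAt P p x := by
    have k := H.grow ha hx0 (hy a ha) (hZ a ha) (e a ha) _ hx0.2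
    rw [U5_gc hx0.1, ← e a ha, hD a ha, h0, sub_self, norm_zero] at k
    have : ‖chartAt P p x - chartAt P p (y a)‖ ^ 2 ≤ 0 := by nlinarith [H.hμ]
    exact (sub_eq_zero.1 (norm_eq_zero.1 (pow_eq_zero_iff two_ne_zero |>.1
      (le_antisymm this (sq_nonneg _))))).symm
  intro t ht
  have h2 := constant_of_has_deriv_right_zero (f := fun s => chartAt P p (y s))
    (fun s hs => (hz s hs).continuousWithinAt)
    (fun s hs => (hz s (Ico_subset_Icc_self hs)).mono_of_mem_nhdsWithin (Icc_mem_nhdsGE_of_mem hs))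
    t ht
  rw [e' t ht, (chartAt P p).injOn (hy t ht).1 hx0.1 (h2.trans h1)]

end U5D

theorem unique_local (hab : a < b) (h : IsSphereMCF P F (Icc a b))
    (h' : IsSphereMCF P F' (Icc a b)) (h0 : F a = F' a) :
    ∃ c ∈ Ioc a b, ∀ t ∈ Icc a c, F t = F' t := by
  have ha : a ∈ Icc a b := left_mem_Icc.2 hab.le
  choose r μ κ Λ hr hμ hκ hsub hnear using fun p : M =>
    exists_near (uniqueDiffOn_Icc hab) (chartAt P p).open_target (h.sm p).continuousOn (h'.sm p) ha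
      (mem_chart_target P p) (by simp only [gc, h0]) (h'.immersion a ha p)
  have hop : ∀ (p : M) ρ, IsOpen {x | U5In P p ρ x} := fun p ρ =>
    (chartAt P p).continuousOn.isOpen_inter_preimage (chartAt P p).open_source isOpen_ball
  obtain ⟨s, hs⟩ := isCompact_univ.elim_finite_subcover (fun p => {x | U5In P p (r p / 2) x})
    (fun p => hop p _) fun x _ => mem_iUnion.2 ⟨x, mem_chart_source P x,
      mem_ball_self (half_pos (hr x))⟩
  have hs' : ∀ x, ∃ p ∈ s, U5In P p (r p / 2) x := fun x => by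
    simpa only [mem_iUnion, exists_prop, mem_ofPred_eq] using hs (mem_univ x)
  let C : M → Set M := fun p => (chartAt P p).symm '' closedBall (chartAt P p p) (r p / 2)
  have hb : ∀ p, closedBall (chartAt P p p) (r p / 2) ⊆ ball (chartAt P p p) (r p) := fun p =>
    closedBall_subset_ball (half_lt_self (hr p))
  have hC : ∀ p, IsClosed (C p) := fun p => ((isCompact_closedBall _ _).image_of_continuousOn
    ((chartAt P p).continuousOn_symm.mono
      ((hb p).trans (ball_subset_closedBall.trans (hsub p))))).isClosed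
  have hC1 : ∀ p x, U5In P p (r p / 2) x → x ∈ C p := fun p x hx =>
    ⟨_, ball_subset_closedBall hx.2, (chartAt P p).left_inv hx.1⟩
  have hC2 : ∀ p, ∀ x ∈ C p, U5In P p (r p) x := by
    rintro p _ ⟨y, hy, rfl⟩
    have hy' := hsub p (ball_subset_closedBall (hb p hy))
    exact ⟨(chartAt P p).map_target hy', by rw [(chartAt P p).right_inv hy']; exact hb p hy⟩
  let N : Set (M × M) := ⋂ p ∈ s, {z | z.1 ∉ C p ∨ U5In P p (r p) z.2}
  have hN : ∀ z ∈ N, ∀ p ∈ s, U5In P p (r p / 2) z.1 → U5In P p (r p) z.2 := fun z hz p hp h1 =>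
    (mem_iInter₂.1 hz p hp).resolve_left (not_not.2 (hC1 p _ h1))
  obtain ⟨c₀, hc₀, D, Z, hD, hZ, hZN, hdiag, hmin⟩ := exists_dist hab h.smooth.continuousOn
    h'.smooth.continuousOn h0 (N := N)
    (isOpen_biInter_finset fun p _ => ((hC p).isOpen_compl.preimage continuous_fst).union
      ((hop p _).preimage continuous_snd))
    (fun x => mem_iInter₂.2 fun p _ => (em (x ∈ C p)).elim (fun hx => Or.inr (hC2 p x hx)) Or.inl)
    (fun x y hxy e => by
      obtain ⟨p, hp, hx⟩ := hs' x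
      have hx' := hC2 p x (hC1 p x hx)
      have hy := hN _ hxy p hp hx
      have k := ((hnear p).self_of_nhdsWithin ha).grow _ hx'.2 _ hx'.2
        (Eventually.of_forall fun y' => by
          simp only [U5_gc hx'.1, h0, sub_self, norm_zero]
          nlinarith [norm_nonneg (F' a x - gc P F' p (a, y'))]) _ hy.2
      simp only [U5_gc hx'.1, U5_gc hy.1, ← h0, e, sub_self, norm_zero] at k
      have : ‖chartAt P p y - chartAt P p x‖ ^ 2 ≤ 0 := by nlinarith [hμ p]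
      exact ((chartAt P p).injOn hy.1 hx'.1 (sub_eq_zero.1 (norm_eq_zero.1
        (pow_eq_zero_iff two_ne_zero |>.1 (le_antisymm this (sq_nonneg _)))))).symm)
  have hev := (s.eventually_all (l := 𝓝[Icc a b] a)).2 fun p _ => hnear p
  rw [nhdsWithin_Icc_eq_nhdsGE hab] at hev
  obtain ⟨c₁, hc₁, hc₁'⟩ := mem_nhdsGE_iff_exists_Icc_subset.1 hev
  have hac : a < min c₀ c₁ := lt_min hc₀.1 hc₁
  have s0 : Icc a (min c₀ c₁) ⊆ Icc a c₀ := Icc_subset_Icc_right (min_le_left _ _)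
  have s1 : Icc a (min c₀ c₁) ⊆ Icc a b := s0.trans (Icc_subset_Icc_right hc₀.2)
  refine ⟨min c₀ c₁, ⟨hac, (min_le_left _ _).trans hc₀.2⟩, ?_⟩
  have s2 : Icc a (min c₀ c₁) ⊆ Icc a c₁ := Icc_subset_Icc_right (min_le_right _ _)
  generalize min c₀ c₁ = c at hac s0 s1 s2 ⊢
  have H : ∀ p ∈ s, U5D P F F' a c D Z p (r p) (μ p) (κ p) (Λ p) := fun p hp =>
    ⟨mcf_mono h s1, mcf_mono h' s1, hac, hD.mono (prod_mono_left s0), hZ,
      fun t ht x => (hmin t (s0 ht) x).1, fun t ht x => (hmin t (s0 ht) x).2, hμ p, hκ p,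
      ball_subset_closedBall.trans (hsub p), fun t ht => hc₁' (s2 ht) p hp⟩
  have hx : ∀ x, ∃ p ∈ s, ∀ᶠ x' in 𝓝 x, U5In P p (r p) x' ∧
      ∀ y, (x', y) ∈ Z → U5In P p (r p) y := fun x => by
    obtain ⟨p, hp, h1⟩ := hs' x
    refine ⟨p, hp, ?_⟩
    filter_upwards [(hop p _).mem_nhds h1] with x' h2
    exact ⟨hC2 p x' (hC1 p x' h2), fun y hy => hN _ (hZN hy) p hp h2⟩
  have hD0 : ∀ t ∈ Icc a c, ∀ x, 0 ≤ D (t, x) := fun t ht x => by
    obtain ⟨y, -, e⟩ := (hmin t (s0 ht) x).1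
    rw [e]
    positivity
  have hD1 : ∀ t ∈ Icc a c, ∀ x, D (t, x) = 0 := by
    intro t₁ ht₁ x₁
    obtain ⟨K, hK⟩ := (s.finite_toSet.image fun p =>
      2 * ((finrank ℝ P : ℝ) * (1 + 2 * κ p ^ 2))).bddAbove
    obtain ⟨⟨t, x⟩, hz, hm⟩ := (isCompact_Icc.prod isCompact_univ).exists_isMaxOn
      ⟨(t₁, x₁), ht₁, mem_univ _⟩
      (f := fun z : ℝ × M => D z * Real.exp (-((K + 1) * z.1)))
      ((hD.mono (prod_mono_left s0)).mul (Continuous.continuousOn (by fun_prop)))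
    have h1 : D (t, x) ≤ 0 := by
      rcases hz.1.1.eq_or_lt with e | hlt
      · have k := (hmin a (s0 (left_mem_Icc.2 hac.le)) x).2 x (hdiag x)
        rw [h0, sub_self, norm_zero, zero_pow two_ne_zero] at k
        exact (show a = t from e) ▸ k
      obtain ⟨p, hp, h2⟩ := hx x
      have k := (H p hp).no_max (K := K + 1) ⟨hlt, hz.1.2⟩ h2 fun s' hs' x' =>
        hm (show (s', x') ∈ Icc a c ×ˢ univ from ⟨hs', mem_univ _⟩)
      nlinarith [hK ⟨p, hp, rfl⟩, hD0 t hz.1 x]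
    have h2 : D (t₁, x₁) * Real.exp (-((K + 1) * t₁)) ≤ D (t, x) * Real.exp (-((K + 1) * t)) :=
      hm (show (t₁, x₁) ∈ Icc a c ×ˢ univ from ⟨ht₁, mem_univ _⟩)
    refine le_antisymm (nonpos_of_mul_nonpos_left (h2.trans
      (mul_nonpos_of_nonpos_of_nonneg h1 (Real.exp_pos _).le)) (Real.exp_pos _)) (hD0 t₁ ht₁ x₁)
  intro t ht
  funext x
  obtain ⟨p, hp, h2⟩ := hx x
  exact (H p hp).fix h2 h0 hD1 t ht

theorem mcf_unique (h : IsSphereMCF P F (Icc a b)) (h' : IsSphereMCF P F' (Icc a b))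
    (h0 : F a = F' a) : ∀ t ∈ Icc a b, F t = F' t := by
  by_contra hc
  push Not at hc
  have hab : a ≤ b := hc.elim fun t ht => ht.1.1.trans ht.1.2
  let B : Set ℝ := {t | t ∈ Icc a b ∧ F t ≠ F' t}
  have hB : BddBelow B := ⟨a, fun t ht => ht.1.1⟩
  have h1 : sInf B ∈ Icc a b := hc.elim fun t ht =>
    ⟨le_csInf hc fun s hs => hs.1.1, (csInf_le hB ht).trans ht.1.2⟩
  have h2 : ∀ t ∈ Ico a (sInf B), F t = F' t := fun t ht => by
    by_contra k
    exact ht.2.not_ge (csInf_le hB ⟨⟨ht.1, ht.2.le.trans h1.2⟩, k⟩)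
  have h3 : F (sInf B) = F' (sInf B) := by
    rcases h1.1.eq_or_lt with e | hlt
    · exact e ▸ h0
    funext x
    have hl : Icc a b ∈ 𝓝[<] sInf B := mem_of_superset (Ioo_mem_nhdsLT hlt) fun s hs =>
      ⟨hs.1.le, hs.2.le.trans h1.2⟩
    refine tendsto_nhds_unique_of_eventuallyEq (l := 𝓝[<] sInf B)
      ((mcf_deriv h h1 x).continuousWithinAt.tendsto.mono_left (nhdsWithin_le_of_mem hl))
      ((mcf_deriv h' h1 x).continuousWithinAt.tendsto.mono_left (nhdsWithin_le_of_mem hl)) ?_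
    filter_upwards [Ioo_mem_nhdsLT hlt] with s hs
    rw [h2 s (Ioo_subset_Ico_self hs)]
  rcases h1.2.eq_or_lt with e | hlt
  · obtain ⟨t, ht, k⟩ := hc
    exact k ((le_antisymm (ht.2.trans e.ge) (csInf_le hB ⟨ht, k⟩)) ▸ h3)
  have sub : Icc (sInf B) b ⊆ Icc a b := Icc_subset_Icc_left h1.1
  obtain ⟨c, hc', k⟩ := unique_local hlt (mcf_mono h sub) (mcf_mono h' sub) h3
  refine hc'.1.not_ge (le_csInf hc fun t ht => not_lt.1 fun h4 => ht.2 ?_)
  exact k t ⟨csInf_le hB ht, h4.le⟩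

end Pool.Agent.Lib.MP_de485e_gt.Ex
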