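import Pool.Agent.Lib.MP_de485e_gt.Ex.Short
import Pool.Agent.Lib.MP_de485e_gt.Ex.U5
import Pool.Agent.Lib.MP_de485e_gt.Ex.Bl6

/-! The maximal solution. -/

open Set Filter Topology Module Metric
open scoped RealInnerProductSpace InnerProduct Manifold ContDiff

namespace Pool.Agent.Lib.MP_de485e_gt.Ex

open Conv

variable {P Q : Type} [NormedAddCommGroup P] [InnerProductSpace ℝ P] [CompleteSpace P]
  [FiniteDimensional ℝ P] [NormedAddCommGroup Q] [InnerProductSpace ℝ Q] [CompleteSpace Q]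
  [FiniteDimensional ℝ Q]

variable {M : Type} [TopologicalSpace M] [ChartedSpace P M] [IsManifold 𝓘(ℝ, P) ∞ M]

theorem agree [T2Space M] [CompactSpace M] {S S' : EReal} {G G' : ℝ → M → Q}
    (h : IsSphereMCF P G {t | 0 ≤ t ∧ (t : EReal) < S})
    (h' : IsSphereMCF P G' {t | 0 ≤ t ∧ (t : EReal) < S'}) (e : G 0 = G' 0) {t : ℝ} (h0 : 0 ≤ t)
    (h1 : (t : EReal) < S) (h2 : (t : EReal) < S') : G t = G' t :=
  mcf_unique (a := 0) (b := t)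
    (mcf_mono h fun _ hs => ⟨hs.1, (EReal.coe_le_coe_iff.2 hs.2).trans_lt h1⟩)
    (mcf_mono h' fun _ hs => ⟨hs.1, (EReal.coe_le_coe_iff.2 hs.2).trans_lt h2⟩) e t ⟨h0, le_rfl⟩

theorem prolong [T2Space M] [CompactSpace M] (hn : 2 ≤ finrank ℝ P) {F : ℝ → M → Q} {S C : ℝ}
    (hS : 0 < S) (h : IsSphereMCF P F (Ico 0 S))
    (hC : ∀ᶠ t in 𝓝[<] S, ∀ x u, ‖sff P (F t) x u u‖ ≤ C * ‖dF P (F t) x u‖ ^ 2) :
    ∃ S', S < S' ∧ ∃ G, IsSphereMCF P G (Icc 0 S') ∧ G 0 = F 0 := by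
  obtain ⟨l, hl, hl'⟩ := mem_nhdsLT_iff_exists_Ioo_subset.1 hC
  have hm : max l 0 < S := max_lt hl hS
  have ha : (max l 0 + S) / 2 ∈ Ioo 0 S := ⟨by linarith [le_max_right l 0], by linarith⟩
  obtain ⟨G, hG, e⟩ := extend h ha (exists_ctl hn h ha (C := C) fun t ht =>
    hl' ⟨by linarith [le_max_left l 0, ht.1], ht.2⟩)
  obtain ⟨δ, hδ, F', hF', e'⟩ := short_time (simm hG (right_mem_Icc.2 hS.le))
  have k := mcf_mono (mcf_shift hF' S) (J := Icc S (S + δ)) fun t ht =>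
    ⟨by linarith [ht.1], by linarith [ht.2]⟩
  refine ⟨S + δ, by linarith, _, mcf_glue hS (by linarith) hG k (by rw [sub_self, e']), ?_⟩
  rw [if_pos hS.le, e 0 hS]

theorem exists_max [T2Space M] [CompactSpace M] (hn : 2 ≤ finrank ℝ P) {F₀ : M → Q}
    (hs : ContMDiff 𝓘(ℝ, P) 𝓘(ℝ, Q) ∞ F₀) (h1 : ∀ x, ‖F₀ x‖ = 1)
    (hi : ∀ x, Function.Injective (dF P F₀ x)) :
    ∃ (T : EReal) (F : ℝ → M → Q), 0 < T ∧ IsSphereMCF P F {t | 0 ≤ t ∧ (t : EReal) < T} ∧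
      F 0 = F₀ ∧
      (∀ (S : EReal) (G : ℝ → M → Q), IsSphereMCF P G {t | 0 ≤ t ∧ (t : EReal) < S} → G 0 = F₀ →
        S ≤ T ∧ ∀ t : ℝ, 0 ≤ t → (t : EReal) < S → G t = F t) ∧
      ∀ S : ℝ, T = S → ∀ C : ℝ, ∃ᶠ t in 𝓝[<] S, ∃ x u,
        C * ‖dF P (F t) x u‖ ^ 2 < ‖sff P (F t) x u u‖ := by
  classical
  let A : Set EReal := {S | ∃ G, IsSphereMCF P G {t | 0 ≤ t ∧ (t : EReal) < S} ∧ G 0 = F₀}
  have hA : ∀ {S : ℝ} {G : ℝ → M → Q}, IsSphereMCF P G (Icc 0 S) → G 0 = F₀ → (S : EReal) ∈ A :=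
    fun h e => ⟨_, mcf_mono h fun _ ht => ⟨ht.1, (EReal.coe_lt_coe_iff.1 ht.2).le⟩, e⟩
  choose g hg hg0 using fun S : A => S.2
  let F : ℝ → M → Q := fun t => if h : ∃ S : A, (t : EReal) < S then g h.choose t else F₀
  have key : ∀ (S : EReal) (G : ℝ → M → Q), IsSphereMCF P G {t | 0 ≤ t ∧ (t : EReal) < S} →
      G 0 = F₀ → ∀ t : ℝ, 0 ≤ t → (t : EReal) < S → G t = F t := by
    intro S G h e t h0 h1
    have hx : ∃ S : A, (t : EReal) < S := ⟨⟨S, G, h, e⟩, h1⟩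
    simp only [F, dif_pos hx]
    exact agree h (hg _) (e.trans (hg0 _).symm) h0 h1 hx.choose_spec
  obtain ⟨δ, hδ, G, hG, e⟩ := short_time (P := P) ⟨hs, h1, hi⟩
  have hδ' : (0 : EReal) < δ := EReal.coe_pos.2 hδ
  have hF : IsSphereMCF P F {t | 0 ≤ t ∧ (t : EReal) < sSup A} := by
    refine mcf_local fun t ht => ?_
    obtain ⟨S, hS, hlt⟩ := lt_sSup_iff.1 ht.2
    refine ⟨{t | 0 ≤ t ∧ (t : EReal) < S}, ?_, ⟨ht.1, hlt⟩,
      mcf_congr (hg ⟨S, hS⟩) fun s hs => (key S _ (hg ⟨S, hS⟩) (hg0 _) s hs.1 hs.2).symm⟩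
    filter_upwards [self_mem_nhdsWithin, mem_nhdsWithin_of_mem_nhds
      ((isOpen_Iio.preimage continuous_coe_real_ereal).mem_nhds (show (t : EReal) ∈ Iio S from hlt))]
      with s h1 h2 using ⟨h1.1, h2⟩
  have hF0 : F 0 = F₀ := by
    obtain ⟨G', h', e'⟩ := hA hG e
    exact (key _ G' h' e' 0 le_rfl hδ').symm.trans e'
  have hT : 0 < sSup A := hδ'.trans_le (le_sSup (hA hG e))
  refine ⟨sSup A, F, hT, hF, hF0, fun S G h e => ⟨le_sSup ⟨G, h, e⟩, key S G h e⟩,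
    fun S hS C => ?_⟩
  by_contra hc
  rw [hS] at hT hF
  obtain ⟨S', hS', G', h', e'⟩ := prolong hn (EReal.coe_pos.1 hT) (C := C)
    (mcf_mono hF fun _ ht => ⟨ht.1, EReal.coe_lt_coe_iff.2 ht.2⟩)
    ((not_frequently.1 hc).mono fun t ht x u => not_lt.1 fun h => ht ⟨x, u, h⟩)
  exact (EReal.coe_lt_coe_iff.2 hS').not_ge (hS ▸ le_sSup (hA h' (e'.trans hF0)))

end Pool.Agent.Lib.MP_de485e_gt.Ex
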