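import Pool.Agent.Lib.MP_de485e_gt.Ex.DT4
import Pool.Agent.Lib.MP_de485e_gt.Ex.Fl1
import Pool.Agent.Lib.MP_de485e_gt.Ex.Fl2

/-! Short time existence. -/

open Set Filter Topology Module Metric
open scoped RealInnerProductSpace InnerProduct Manifold ContDiff

namespace Pool.Agent.Lib.MP_de485e_gt.Ex

open Conv

variable {P Q : Type} [NormedAddCommGroup P] [InnerProductSpace ℝ P] [CompleteSpace P]
  [FiniteDimensional ℝ P] [NormedAddCommGroup Q] [InnerProductSpace ℝ Q] [CompleteSpace Q]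
  [FiniteDimensional ℝ Q]

variable {M : Type} [TopologicalSpace M] [ChartedSpace P M] [IsManifold 𝓘(ℝ, P) ∞ M]

theorem short_mH [CompactSpace M] {N : ℕ} {e : M → Fin N → ℝ} (he : Emb P e) {G F : M → Q}
    (hG : SImm P G) {Φ : (Fin N → ℝ) → Fin N → ℝ} (hΦ : ContDiff ℝ ∞ Φ) {φ : M → M}
    (hφ : ∀ x, e (φ x) = Φ (e x)) (hF : ∀ x, F x = G (φ x)) {x : M}
    (hi : Function.Injective (dF P F x)) : mH P F x = mH P G (φ x) := by
  have hc : Continuous φ := (he.smooth.continuous.isClosedEmbedding he.inj).isEmbedding.continuous_iff.2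
    ((hΦ.continuous.comp he.smooth.continuous).congr fun x => (hφ x).symm)
  obtain ⟨r, hr, hl⟩ := he.left (φ x)
  have hx := mem_chart_source P x
  have h0 : r (Φ (loc P e x (chartAt P x x))) = chartAt P (φ x) (φ x) := by
    simp only [loc, Function.comp_apply, (chartAt P x).left_inv hx, ← hφ]
    exact hl.self_of_nhds
  have h1 : Tendsto (fun y => φ ((chartAt P x).symm y)) (𝓝 (chartAt P x x)) (𝓝 (φ x)) :=
    (hc.tendsto x).comp ((chartAt P x).tendsto_symm hx)
  unfold mH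
  rw [← h0]
  refine Hc_reparam (ψ := fun y => r (Φ (loc P e x y))) ?_ ?_ ?_ hi
  · rw [h0]
    exact hG.nice _ (mem_chart_target P _)
  · exact (hr.contDiffAt.comp _ (hΦ.contDiffAt.comp _ ((loc_smooth he.smooth x).contDiffAt
      ((chartAt P x).open_target.mem_nhds (mem_chart_target P x))))).of_le (by norm_cast)
  · filter_upwards [h1.eventually hl, h1.eventually (chart_source_mem_nhds P (φ x))] with y a1 a2
    simp only [loc, Function.comp_apply, ← hφ, a1, (chartAt P (φ x)).left_inv a2, hF]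

theorem short_time [T2Space M] [CompactSpace M] {F₀ : M → Q} (hF : SImm P F₀) :
    ∃ δ, 0 < δ ∧ ∃ F, IsSphereMCF P F (Icc 0 δ) ∧ F 0 = F₀ := by
  obtain ⟨N, e, T, u, W, L, he, hT, hu, hW, hL, h0, hS, hD⟩ := deturck hF
  obtain ⟨δ, hδ, hδT, Φ, hΦ, hΦ0, hΦd⟩ := flow_exists hT hW hL
  have hI : Icc 0 δ ⊆ Icc 0 T := Icc_subset_Icc_right hδT
  have hst : ∀ t x, ∃ z, t ∈ Icc 0 δ → e z = Φ (t, e x) := fun t x => by
    by_cases ht : t ∈ Icc 0 δ
    · obtain ⟨z, hz⟩ := stay (γ := fun s => Φ (s, e x)) he.smooth (fun s hs => hL s (hI hs))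
        (fun s hs y => (hD s (hI hs) y).imp fun _ h => h.1) (fun s hs => hΦd s hs _)
        ⟨x, (hΦ0 _).symm⟩ t ht
      exact ⟨z, fun _ => hz⟩
    · exact ⟨x, fun h => absurd h ht⟩
  choose φ hφ using hst
  let F : ℝ → M → Q := fun t x => u (t, Φ (t, e x))
  have hF0 : F 0 = F₀ := funext fun x => by simp only [F, hΦ0, h0]
  have hJ : JSm P F (Icc 0 δ) := by
    have a1 : ContDiffOn ℝ ∞ (fun p : ℝ × (Fin N → ℝ) => u (p.1, Φ p)) (Icc 0 δ ×ˢ univ) :=
      hu.comp (contDiffOn_fst.prodMk hΦ) fun p hp => ⟨hI hp.1, trivial⟩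
    exact a1.contMDiffOn.comp (f := fun p : ℝ × M => (p.1, e p.2))
      (contMDiff_fst.prodMk_space (he.smooth.comp contMDiff_snd)).contMDiffOn
      fun p hp => ⟨hp.1, trivial⟩
  have hev := (imm_open (uniqueDiffOn_Icc hδ) hJ (left_mem_Icc.2 hδ.le) (hF0 ▸ hF.imm)).and
    self_mem_nhdsWithin
  rw [nhdsWithin_Icc_eq_nhdsGE hδ] at hev
  obtain ⟨η, hη, hsub⟩ := mem_nhdsGE_iff_exists_Icc_subset.1 hev
  have hK : Icc 0 η ⊆ Icc 0 δ := fun t ht => (hsub ht).2
  refine ⟨η, hη, F, mcf_of (hJ.mono (prod_mono hK subset_rfl)) (fun t ht => ⟨hJ.slice (hK ht),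
    fun x => ?_, (hsub ht).1⟩) fun t ht x => ?_, hF0⟩
  · simp only [F, ← hφ t x (hK ht)]
    exact (hS t (hI (hK ht))).sphere _
  have ht1 := hK ht
  have ht2 := hI ht1
  have hs : ContDiff ℝ ∞ fun y => Φ (t, y) := contDiffOn_univ.1
    (hΦ.comp (contDiffOn_const.prodMk contDiffOn_id) fun y _ => ⟨ht1, trivial⟩)
  rw [short_mH he (hS t ht2) hs (fun x => hφ t x ht1)
    (fun x => by simp only [F, hφ t x ht1]) ((hsub ht).1 x)]
  obtain ⟨ζ, b1, b2⟩ := hD t ht2 (φ t x)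
  have d0 := (hu.differentiableOn (by simp) (t, e (φ t x)) ⟨ht2, trivial⟩).hasFDerivWithinAt
  set D := fderivWithin ℝ u (Icc 0 T ×ˢ univ) (t, e (φ t x))
  have d1 : D (1, 0) = mH P (fun x => u (t, e x)) (φ t x) - dF P (fun x => u (t, e x)) (φ t x) ζ :=
    (uniqueDiffOn_Icc hT t ht2).eq_deriv _ (d0.comp_hasDerivWithinAt (f := fun s => (s, e (φ t x))) t
      ((hasDerivWithinAt_id t _).prodMk (hasDerivWithinAt_const t (Icc 0 T) _))
      fun s hs => mk_mem_prod hs (mem_univ _)) b2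
  have d2 : dF P (fun x => u (t, e x)) (φ t x) ζ = D (0, W (t, e (φ t x))) := by
    have c1 := (((loc_smooth he.smooth (φ t x)).contDiffAt ((chartAt P _).open_target.mem_nhds
      (mem_chart_target P _))).differentiableAt (by simp)).hasFDerivAt
    have c0 : e (φ t x) = loc P e (φ t x) (chartAt P (φ t x) (φ t x)) := by
      simp only [loc, Function.comp_apply, (chartAt P _).left_inv (mem_chart_source P _)]
    have c2 := hasFDerivWithinAt_univ.1 (HasFDerivWithinAt.comp (f := fun y => (t, loc P e (φ t x) y))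
      (chartAt P (φ t x) (φ t x)) (c0 ▸ d0) ((hasFDerivAt_const t _).prodMk c1).hasFDerivWithinAt
      (s := univ) fun y _ => mk_mem_prod ht2 (mem_univ _))
    rw [b1]
    exact congrArg (· ζ) c2.fderiv
  have d3 := d0.comp_hasDerivWithinAt_of_eq t ((hasDerivWithinAt_id t _).prodMk (hΦd t ht1 (e x)))
    (fun s hs => ⟨hI hs, trivial⟩) (by rw [hφ t x ht1]; rfl)
  rw [← hφ t x ht1, show ((1 : ℝ), W (t, e (φ t x))) = (1, 0) + (0, W (t, e (φ t x))) by simp,
    map_add, d1, d2, sub_add_cancel] at d3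
  exact d3.mono hK

end Pool.Agent.Lib.MP_de485e_gt.Ex
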