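import Pool.Agent.Lib.MP_de485e_gt.Ex.TDef

/-! Integration by parts and elementary inequalities on the torus. -/

open Set MeasureTheory
open scoped ContDiff

namespace Pool.Agent.Lib.MP_de485e_gt.Ex

variable {d : Type} [Fintype d] [DecidableEq d] {ι : Type} [Fintype ι]

theorem Tr.per_int (u : Tr d) (k : d → ℤ) (x : d → ℝ) : u.1 (x + fun i => (k i : ℝ)) = u.1 x := by
  have h : ∀ s : Finset d, ∀ x, u.1 (x + ∑ i ∈ s, k i • Pi.single i 1) = u.1 x := by
    intro s
    induction s using Finset.induction_on with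
    | empty => simp
    | insert i s hi ih =>
      intro x
      rw [Finset.sum_insert hi, add_comm (k i • _), ← add_assoc,
        Function.Periodic.zsmul (f := u.1) (u.per i) (k i), ih]
  rw [← h Finset.univ x]
  refine congrArg u.1 (congrArg (x + ·) (funext fun l => ?_))
  simp [Finset.sum_apply, Pi.single_apply]

theorem Tr.per_fract (u : Tr d) (x : d → ℝ) : u.1 (fun i => Int.fract (x i)) = u.1 x := by
  rw [← u.per_int (fun i => ⌊x i⌋) fun i => Int.fract (x i)]
  refine congrArg u.1 (funext fun i => ?_)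
  simp

theorem Tr.exists_bound (u : Tr d) : ∃ C, ∀ x, |u.1 x| ≤ C := by
  obtain ⟨C, hC⟩ := (isCompact_Icc (a := (0 : d → ℝ)) (b := 1)).exists_bound_of_continuousOn
    u.cont.continuousOn
  refine ⟨C, fun x => ?_⟩
  rw [← u.per_fract]
  exact hC _ ⟨fun i => Int.fract_nonneg _, fun i => (Int.fract_lt_one _).le⟩

theorem pd_comm (i l : d) (u : Tr d) : pd i (pd l u) = pd l (pd i u) := by
  refine Tr.ext' fun x => ?_
  have h : DifferentiableAt ℝ (fderiv ℝ u.1) x :=
    (u.smooth.fderiv_right (m := ∞) (by simp)).differentiable (by simp) x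
  have e : ∀ v w : d → ℝ, fderiv ℝ (fun y => fderiv ℝ u.1 y w) x v =
      fderiv ℝ (fderiv ℝ u.1) x v w := fun v w => by
    rw [fderiv_clm_apply h (differentiableAt_const w)]
    simp
  change fderiv ℝ (fun y => fderiv ℝ u.1 y _) x _ = fderiv ℝ (fun y => fderiv ℝ u.1 y _) x _
  rw [e, e]
  exact (u.smooth.contDiffAt.isSymmSndFDerivAt (by simp; norm_cast)).eq _ _

theorem dw_pd (w : List d) (i : d) (u : Tr d) : dw w (pd i u) = pd i (dw w u) := by
  induction w generalizing u with
  | nil => rfl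
  | cons l w ih => rw [dw_cons, dw_cons, pd_comm, ih]

theorem pd_cmp {σ : Type} [Fintype σ] [DecidableEq σ] (Φ : (σ → ℝ) → ℝ) (hΦ : ContDiff ℝ ∞ Φ)
    (g : σ → Tr d) (i : d) : pd i (cmp Φ hΦ g) = ∑ s, cmp (fun y => fderiv ℝ Φ y (Pi.single s 1))
      ((hΦ.fderiv_right (m := ∞) (by simp)).clm_apply contDiff_const) g * pd i (g s) := by
  refine Tr.ext' fun x => ?_
  have h1 : HasFDerivAt (fun y s => (g s).1 y)
      (ContinuousLinearMap.pi fun s => fderiv ℝ (g s).1 x) x :=
    hasFDerivAt_pi.2 fun s => ((g s).diff x).hasFDerivAt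
  have h2 := ((hΦ.differentiable (by simp) _).hasFDerivAt.comp x h1).fderiv
  have e : (ContinuousLinearMap.pi fun s => fderiv ℝ (g s).1 x) (Pi.single i 1) =
      ∑ s, fderiv ℝ (g s).1 x (Pi.single i 1) • (Pi.single s 1 : σ → ℝ) := by
    funext s
    simp [Finset.sum_apply, Pi.single_apply]
  rw [← evx_apply x (∑ s, _), map_sum]
  change fderiv ℝ (Φ ∘ fun y s => (g s).1 y) x _ = _
  rw [h2, ContinuousLinearMap.comp_apply, e, map_sum]
  refine Finset.sum_congr rfl fun s _ => ?_
  rw [map_smul, smul_eq_mul, mul_comm]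
  rfl

theorem I_pd (i : d) (u : Tr d) : I (pd i u) = 0 := by
  obtain ⟨n, hn⟩ : ∃ n, Fintype.card d = n + 1 :=
    Nat.exists_eq_succ_of_ne_zero (Fintype.card_pos_iff.2 ⟨i⟩).ne'
  let e : d ≃ Fin (n + 1) := Fintype.equivFinOfCardEq hn
  let eL : (d → ℝ) ≃L[ℝ] (Fin (n + 1) → ℝ) := ContinuousLinearEquiv.piCongrLeft ℝ (fun _ => ℝ) e
  have h1 : ∀ x j, eL x j = x (e.symm j) := fun x j => by
    obtain ⟨l, rfl⟩ := e.surjective j
    rw [e.symm_apply_apply]
    exact Equiv.piCongrLeft_apply_apply (fun _ => ℝ) e x l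
  have h2 : ∀ y l, eL.symm y l = y (e l) := fun y l => by
    rw [← eL.apply_symm_apply y, h1, e.symm_apply_apply, eL.apply_symm_apply]
  have key := integral_divergence_of_hasFDerivAt_off_countable_of_equiv eL
    (fun x y => ⟨fun h l => by simpa [h1] using h (e l), fun h j => by simpa [h1] using h _⟩)
    (volume_measurePreserving_piCongrLeft (fun _ => ℝ) e)
    (fun j => if j = e i then u.1 else 0) (fun j x => if j = e i then fderiv ℝ u.1 x else 0) ∅
    countable_empty 0 1 zero_le_one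
    (fun j => by split_ifs; exacts [u.cont.continuousOn, continuousOn_const])
    (fun x _ j => by split_ifs; exacts [(u.diff x).hasFDerivAt, hasFDerivAt_const 0 x])
    (pd i u).1 (fun x => by
      rw [Finset.sum_eq_single (e i) (fun j _ hj => by simp [hj]) (by simp), if_pos rfl, pd_apply]
      congr 1
      funext l
      simp [h2, Pi.single_apply]) (pd i u).integrableOn
  rw [I_apply, key]
  refine Finset.sum_eq_zero fun j _ => ?_
  split_ifs with hj
  · refine sub_eq_zero.2 (integral_congr_ae (Filter.Eventually.of_forall fun x => ?_))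
    refine Eq.trans (congrArg u.1 (funext fun l => ?_)) (u.per i _)
    rw [Pi.add_apply, h2, h2]
    by_cases hl : l = i
    · subst hl
      rw [← hj, Fin.insertNth_apply_same, Fin.insertNth_apply_same, h1, h1]
      simp
    · obtain ⟨m, hm⟩ := Fin.exists_succAbove_eq (x := e l) (y := j)
        fun h => hl (e.injective (h.trans hj))
      rw [← hm, Fin.insertNth_apply_succAbove, Fin.insertNth_apply_succAbove,
        Pi.single_eq_of_ne hl, add_zero]
  · simp

theorem I_parts (i : d) (u v : Tr d) : I (u * pd i v) = -I (pd i u * v) := by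
  have h := I_pd i (u * v)
  rw [Derivation.leibniz, map_add, smul_eq_mul, smul_eq_mul, mul_comm v] at h
  linarith

theorem I_mono {u v : Tr d} (h : ∀ x, u.1 x ≤ v.1 x) : I u ≤ I v := by
  exact setIntegral_mono u.integrableOn v.integrableOn h

theorem I_one : I (1 : Tr d) = 1 := by
  change ∫ _ in Icc (0 : d → ℝ) 1, (1 : ℝ) = 1
  simp [Measure.real, Real.volume_Icc_pi]

theorem I_sq_nonneg (u : Tr d) : 0 ≤ I (u * u) := by
  exact integral_nonneg fun x => mul_self_nonneg _

theorem n0_nonneg (u : Tr d) : 0 ≤ n0 u := Real.sqrt_nonneg _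

theorem n0_sq (u : Tr d) : n0 u ^ 2 = I (u * u) := Real.sq_sqrt (I_sq_nonneg u)

theorem abs_I_mul_le (u v : Tr d) : |I (u * v)| ≤ n0 u * n0 v := by
  have h := discrim_le_zero (a := I (v * v)) (b := 2 * I (u * v)) (c := I (u * u)) fun t => by
    have := I_sq_nonneg (u + t • v)
    simp only [add_mul, mul_add, map_add, smul_mul_assoc, mul_smul_comm, map_smul, smul_eq_mul,
      mul_comm v u] at this
    linarith
  refine abs_le_of_sq_le_sq' ?_ (mul_nonneg (n0_nonneg u) (n0_nonneg v)) |> abs_le.2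
  rw [mul_pow, n0_sq, n0_sq]
  unfold discrim at h
  linarith

theorem n0_add_le (u v : Tr d) : n0 (u + v) ≤ n0 u + n0 v := by
  refine (abs_le_of_sq_le_sq' ?_ (add_nonneg (n0_nonneg u) (n0_nonneg v))).2
  have := (le_abs_self _).trans (abs_I_mul_le u v)
  rw [add_sq, n0_sq, n0_sq, n0_sq]
  simp only [add_mul, mul_add, map_add, mul_comm v u]
  linarith

theorem n0_smul (r : ℝ) (u : Tr d) : n0 (r • u) = |r| * n0 u := by
  rw [n0, n0, smul_mul_assoc, mul_smul_comm, map_smul, map_smul, smul_eq_mul, smul_eq_mul,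
    ← mul_assoc, Real.sqrt_mul (mul_self_nonneg r), Real.sqrt_mul_self_eq_abs]

theorem n0_sum_le {α : Type} (s : Finset α) (u : α → Tr d) :
    n0 (∑ a ∈ s, u a) ≤ ∑ a ∈ s, n0 (u a) := by
  classical
  induction s using Finset.induction_on with
  | empty => simp [n0]
  | insert a s ha ih =>
    rw [Finset.sum_insert ha, Finset.sum_insert ha]
    exact (n0_add_le _ _).trans (by linarith)

theorem n0_mul_le {f : Tr d} {C : ℝ} (h : ∀ x, |f.1 x| ≤ C) (g : Tr d) :
    n0 (f * g) ≤ C * n0 g := by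
  have hC : 0 ≤ C := (abs_nonneg _).trans (h 0)
  refine (abs_le_of_sq_le_sq' ?_ (mul_nonneg hC (n0_nonneg g))).2
  rw [mul_pow, n0_sq, n0_sq, ← smul_eq_mul (C ^ 2), ← map_smul]
  refine I_mono fun x => ?_
  change f.1 x * g.1 x * (f.1 x * g.1 x) ≤ C ^ 2 * (g.1 x * g.1 x)
  have := sq_le_sq' (abs_le.1 (h x)).1 (abs_le.1 (h x)).2
  nlinarith [mul_self_nonneg (g.1 x)]

theorem n0_le_of_sup {f : Tr d} {C : ℝ} (h : ∀ x, |f.1 x| ≤ C) : n0 f ≤ C := by
  have := n0_mul_le h 1
  rwa [mul_one, n0, n0, mul_one, I_one, Real.sqrt_one, mul_one] at this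

theorem ip_comm (k : ℕ) (u v : Tr d) : ip k u v = ip k v u := by
  simp only [ip, mul_comm]

theorem ip_add_right (k : ℕ) (u v v' : Tr d) : ip k u (v + v') = ip k u v + ip k u v' := by
  simp only [ip, map_add, mul_add, Finset.sum_add_distrib]

theorem ip_smul_right (k : ℕ) (u v : Tr d) (r : ℝ) : ip k u (r • v) = r * ip k u v := by
  simp only [ip, map_smul, mul_smul_comm, smul_eq_mul, Finset.mul_sum]

theorem ip_sum_right {α : Type} (k : ℕ) (u : Tr d) (s : Finset α) (v : α → Tr d) :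
    ip k u (∑ a ∈ s, v a) = ∑ a ∈ s, ip k u (v a) := by
  simp only [ip, map_sum, Finset.mul_sum]
  exact Finset.sum_comm

theorem ip_nonneg (k : ℕ) (u : Tr d) : 0 ≤ ip k u u := by
  exact Finset.sum_nonneg fun w _ => I_sq_nonneg _

theorem ip_mono {k k' : ℕ} (h : k ≤ k') (u : Tr d) : ip k u u ≤ ip k' u u := by
  exact Finset.sum_le_sum_of_subset_of_nonneg (fun w hw => mem_wd.2 ((mem_wd.1 hw).trans h))
    fun w _ _ => I_sq_nonneg _

theorem n0_dw_le {k : ℕ} {w : List d} (h : w.length ≤ k) (u : Tr d) :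
    n0 (dw w u) ≤ √(ip k u u) := by
  exact Real.sqrt_le_sqrt
    (Finset.single_le_sum (f := fun w => I (dw w u * dw w u)) (fun w _ => I_sq_nonneg _)
      (mem_wd.2 h))

theorem ip_dw_le (m : ℕ) (w : List d) (u : Tr d) :
    ip m (dw w u) (dw w u) ≤ ip (m + w.length) u u := by
  classical
  simp only [ip, ← dw_append]
  rw [← Finset.sum_image (s := wd d m) (g := fun w' => w ++ w') (f := fun w => I (dw w u * dw w u))
    fun a _ b _ h => List.append_cancel_left h]
  refine Finset.sum_le_sum_of_subset_of_nonneg (fun a ha => ?_) fun w _ _ => I_sq_nonneg _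
  obtain ⟨b, hb, rfl⟩ := Finset.mem_image.1 ha
  have := mem_wd.1 hb
  rw [mem_wd, List.length_append]
  omega

theorem ip_le_of_sup {k : ℕ} {u : Tr d} {C : ℝ}
    (h : ∀ w : List d, w.length ≤ k → ∀ x, |(dw w u).1 x| ≤ C) :
    ip k u u ≤ (wd d k).card * C ^ 2 := by
  rw [← nsmul_eq_mul]
  refine Finset.sum_le_card_nsmul _ _ _ fun w hw => ?_
  rw [← n0_sq]
  exact pow_le_pow_left₀ (n0_nonneg _) (n0_le_of_sup (h w (mem_wd.1 hw))) 2

theorem en_nonneg (k : ℕ) (v : ι → Tr d) : 0 ≤ en k v := by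
  exact Finset.sum_nonneg fun c _ => ip_nonneg _ _

theorem en_mono {k k' : ℕ} (h : k ≤ k') (v : ι → Tr d) : en k v ≤ en k' v := by
  exact Finset.sum_le_sum fun c _ => ip_mono h _

theorem ip_le_en (k : ℕ) (v : ι → Tr d) (c : ι) : ip k (v c) (v c) ≤ en k v := by
  exact Finset.single_le_sum (f := fun c => ip k (v c) (v c)) (fun c _ => ip_nonneg _ _)
    (Finset.mem_univ c)

omit [Fintype ι] in
theorem CB.mono {j j' : ℕ} {v : ι → Tr d} {B B' : ℝ} (h : CB j v B) (hj : j' ≤ j) (hB : B ≤ B') :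
    CB j' v B' := fun c w hw x => (h c w (hw.trans hj) x).trans hB

end Pool.Agent.Lib.MP_de485e_gt.Ex
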