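import Pool.Agent.Lib.MP_de485e_gt.Ex.TA1

/-! Fourier projections. -/

open Set MeasureTheory
open scoped ContDiff

namespace Pool.Agent.Lib.MP_de485e_gt.Ex

section TA2

variable {d : Type} [Fintype d] [DecidableEq d]

/-- The phase. -/
noncomputable def ta2Ph (k : d → ℤ) : (d → ℝ) →L[ℝ] ℝ :=
  ∑ i, ((k i : ℝ) * (2 * Real.pi)) • ContinuousLinearMap.proj (R := ℝ) (φ := fun _ : d => ℝ) i

omit [DecidableEq d] in
theorem ta2Ph_apply (k : d → ℤ) (x : d → ℝ) :
    ta2Ph k x = ∑ i, (k i : ℝ) * (2 * Real.pi) * x i := by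
  simp [ta2Ph]

theorem ta2Ph_single (k : d → ℤ) (l : d) :
    ta2Ph k (Pi.single l 1) = (k l : ℝ) * (2 * Real.pi) := by
  rw [ta2Ph_apply, Finset.sum_eq_single l] <;> simp +contextual

omit [DecidableEq d] in
theorem ta2Ph_add (k j : d → ℤ) (x : d → ℝ) : ta2Ph (k + j) x = ta2Ph k x + ta2Ph j x := by
  simp only [ta2Ph_apply, ← Finset.sum_add_distrib, Pi.add_apply, Int.cast_add, add_mul]

omit [DecidableEq d] in
theorem ta2Ph_neg (k : d → ℤ) (x : d → ℝ) : ta2Ph (-k) x = -ta2Ph k x := by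
  simp only [ta2Ph_apply, ← Finset.sum_neg_distrib, Pi.neg_apply, Int.cast_neg, neg_mul]

omit [DecidableEq d] in
theorem ta2Ph_zero (x : d → ℝ) : ta2Ph (0 : d → ℤ) x = 0 := by
  simp [ta2Ph_apply]

/-- The cosine wave. -/
noncomputable def ta2C (k : d → ℤ) : Tr d :=
  ⟨fun x => Real.cos (ta2Ph k x), Real.contDiff_cos.comp (ta2Ph k).contDiff, fun i x => by
    simp only [map_add, ta2Ph_single, Real.cos_add_int_mul_two_pi]⟩

/-- The sine wave. -/
noncomputable def ta2S (k : d → ℤ) : Tr d :=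
  ⟨fun x => Real.sin (ta2Ph k x), Real.contDiff_sin.comp (ta2Ph k).contDiff, fun i x => by
    simp only [map_add, ta2Ph_single, Real.sin_add_int_mul_two_pi]⟩

theorem ta2_pd_C (k : d → ℤ) (l : d) :
    pd l (ta2C k) = (-((k l : ℝ) * (2 * Real.pi))) • ta2S k := Tr.ext' fun x => by
  have h : HasFDerivAt (ta2C k).1 _ x := (ta2Ph k).hasFDerivAt.cos
  rw [pd_apply, h.fderiv]
  change -Real.sin (ta2Ph k x) * ta2Ph k (Pi.single l 1) = _ * Real.sin (ta2Ph k x)
  rw [ta2Ph_single]; ring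

theorem ta2_pd_S (k : d → ℤ) (l : d) :
    pd l (ta2S k) = ((k l : ℝ) * (2 * Real.pi)) • ta2C k := Tr.ext' fun x => by
  have h : HasFDerivAt (ta2S k).1 _ x := (ta2Ph k).hasFDerivAt.sin
  rw [pd_apply, h.fderiv]
  change Real.cos (ta2Ph k x) * ta2Ph k (Pi.single l 1) = _ * Real.cos (ta2Ph k x)
  rw [ta2Ph_single]; ring

theorem ta2C_neg (k : d → ℤ) : ta2C (-k) = ta2C k := Tr.ext' fun x => by
  change Real.cos (ta2Ph (-k) x) = Real.cos (ta2Ph k x)
  rw [ta2Ph_neg, Real.cos_neg]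

theorem ta2S_neg (k : d → ℤ) : ta2S (-k) = -ta2S k := Tr.ext' fun x => by
  change Real.sin (ta2Ph (-k) x) = -Real.sin (ta2Ph k x)
  rw [ta2Ph_neg, Real.sin_neg]

theorem ta2_ne {j : ℤ} (h : j ≠ 0) : (j : ℝ) * (2 * Real.pi) ≠ 0 :=
  mul_ne_zero (by exact_mod_cast h) (by positivity)

theorem ta2_I_C (k : d → ℤ) : I (ta2C k) = if k = 0 then 1 else 0 := by
  split_ifs with h
  · rw [← I_one (d := d)]
    congr 1
    refine Tr.ext' fun x => ?_
    change Real.cos (ta2Ph k x) = 1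
    rw [h, ta2Ph_zero, Real.cos_zero]
  · obtain ⟨l, hl⟩ := Function.ne_iff.1 h
    have := I_pd l (ta2S k)
    rw [ta2_pd_S, map_smul, smul_eq_mul] at this
    exact (mul_eq_zero.1 this).resolve_left (ta2_ne hl)

theorem ta2_I_S (k : d → ℤ) : I (ta2S k) = 0 := by
  by_cases h : k = 0
  · rw [← map_zero (I (d := d))]
    congr 1
    refine Tr.ext' fun x => ?_
    change Real.sin (ta2Ph k x) = 0
    rw [h, ta2Ph_zero, Real.sin_zero]
  · obtain ⟨l, hl⟩ := Function.ne_iff.1 h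
    have := I_pd l (ta2C k)
    rw [ta2_pd_C, map_smul, smul_eq_mul] at this
    exact (mul_eq_zero.1 this).resolve_left (neg_ne_zero.2 (ta2_ne hl))

/-- The Hartley basis. -/
noncomputable def ta2H (k : d → ℤ) : Tr d := ta2C k + ta2S k

theorem ta2_I_HH (k j : d → ℤ) : I (ta2H k * ta2H j) = if k = j then 1 else 0 := by
  have e : ta2H k * ta2H j = ta2C (k + -j) + ta2S (k + j) := Tr.ext' fun x => by
    change (Real.cos (ta2Ph k x) + Real.sin (ta2Ph k x)) *
      (Real.cos (ta2Ph j x) + Real.sin (ta2Ph j x)) =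
        Real.cos (ta2Ph (k + -j) x) + Real.sin (ta2Ph (k + j) x)
    rw [ta2Ph_add, ta2Ph_add, ta2Ph_neg, Real.cos_add, Real.sin_add, Real.cos_neg, Real.sin_neg]
    ring
  rw [e, map_add, ta2_I_S, ta2_I_C, add_zero]
  simp only [add_neg_eq_zero]

theorem ta2_pd_H (k : d → ℤ) (l : d) :
    pd l (ta2H k) = ((k l : ℝ) * (2 * Real.pi)) • ta2H (-k) := by
  rw [ta2H, ta2H, map_add, ta2_pd_C, ta2_pd_S, ta2C_neg, ta2S_neg, smul_add, smul_neg, neg_smul,
    add_comm]

/-- The symmetric box. -/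
noncomputable def ta2Box (d : Type) [Fintype d] [DecidableEq d] (N : ℕ) : Finset (d → ℤ) :=
  Fintype.piFinset fun _ => Finset.Icc (-(N : ℤ)) N

theorem ta2_mem_box {N : ℕ} {k : d → ℤ} : k ∈ ta2Box d N ↔ ∀ i, -(N : ℤ) ≤ k i ∧ k i ≤ N := by
  simp only [ta2Box, Fintype.mem_piFinset, Finset.mem_Icc]

theorem ta2_sum_neg {M : Type} [AddCommMonoid M] (N : ℕ) (f : (d → ℤ) → M) :
    ∑ k ∈ ta2Box d N, f (-k) = ∑ k ∈ ta2Box d N, f k := by
  refine Finset.sum_equiv (Equiv.neg _) (fun k => ?_) fun _ _ => rfl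
  simp only [ta2_mem_box, Equiv.neg_apply, Pi.neg_apply]
  exact forall_congr' fun i => by omega

theorem ta2_box_tendsto : Filter.Tendsto (ta2Box d) Filter.atTop Filter.atTop := by
  refine Filter.tendsto_atTop_finset_of_monotone (fun N M h k hk => ?_) fun k => ?_
  · rw [ta2_mem_box] at hk ⊢
    exact fun i => by have := hk i; omega
  · refine ⟨∑ i, (k i).natAbs, ta2_mem_box.2 fun i => ?_⟩
    have : (k i).natAbs ≤ ∑ i, (k i).natAbs :=
      Finset.single_le_sum (f := fun i => (k i).natAbs) (fun _ _ => Nat.zero_le _)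
        (Finset.mem_univ i)
    omega

/-- The projection. -/
noncomputable def ta2Pr (N : ℕ) : Tr d →ₗ[ℝ] Tr d :=
  ∑ k ∈ ta2Box d N, (I ∘ₗ LinearMap.mulLeft ℝ (ta2H k)).smulRight (ta2H k)

theorem ta2Pr_apply (N : ℕ) (u : Tr d) :
    ta2Pr N u = ∑ k ∈ ta2Box d N, I (ta2H k * u) • ta2H k := by
  simp [ta2Pr]

theorem ta2Pr_H (N : ℕ) {j : d → ℤ} (hj : j ∈ ta2Box d N) : ta2Pr N (ta2H j) = ta2H j := by
  rw [ta2Pr_apply, Finset.sum_eq_single j]
  · rw [ta2_I_HH, if_pos rfl, one_smul]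
  · intro k _ hk
    rw [ta2_I_HH, if_neg hk, zero_smul]
  · exact fun h => absurd hj h

theorem ta2Pr_pd (N : ℕ) (l : d) (u : Tr d) : ta2Pr N (pd l u) = pd l (ta2Pr N u) := by
  rw [ta2Pr_apply, ta2Pr_apply, map_sum, ← ta2_sum_neg]
  refine Finset.sum_congr rfl fun k _ => ?_
  rw [I_parts, ta2_pd_H, neg_neg, Derivation.map_smul, ta2_pd_H, smul_smul, smul_mul_assoc,
    map_smul, smul_eq_mul]
  congr 1
  simp only [Pi.neg_apply, Int.cast_neg]
  ring

/-- The real part of a term of the Fourier series. -/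
noncomputable def ta2T (u : Tr d) (x : d → ℝ) (k : d → ℤ) : ℝ :=
  I (ta2C k * u) * Real.cos (ta2Ph k x) + I (ta2S k * u) * Real.sin (ta2Ph k x)

theorem ta2Pr_val (N : ℕ) (u : Tr d) (x : d → ℝ) :
    (ta2Pr N u).1 x = ∑ k ∈ ta2Box d N, ta2T u x k := by
  set g : (d → ℤ) → ℝ := fun k =>
    I (ta2C k * u) * Real.sin (ta2Ph k x) + I (ta2S k * u) * Real.cos (ta2Ph k x) with hg
  have h0 : ∑ k ∈ ta2Box d N, g k = 0 := by
    have h1 := ta2_sum_neg N g
    have h2 : ∑ k ∈ ta2Box d N, g (-k) = -∑ k ∈ ta2Box d N, g k := by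
      rw [← Finset.sum_neg_distrib]
      refine Finset.sum_congr rfl fun k _ => ?_
      have e : I (-ta2S k * u) = -I (ta2S k * u) := by rw [← map_neg]; congr 1; ring
      simp only [hg, ta2C_neg, ta2S_neg, ta2Ph_neg, Real.sin_neg, Real.cos_neg, e]
      ring
    linarith
  rw [← evx_apply, ta2Pr_apply, map_sum, ← add_zero (∑ k ∈ ta2Box d N, ta2T u x k), ← h0,
    ← Finset.sum_add_distrib]
  refine Finset.sum_congr rfl fun k _ => ?_
  rw [map_smul, smul_eq_mul, ta2H, add_mul, map_add]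
  change _ * (Real.cos (ta2Ph k x) + Real.sin (ta2Ph k x)) = _
  simp only [hg, ta2T]
  ring

/-- The decay weight. -/
noncomputable def ta2a (j : ℤ) : ℝ := 1 / (j : ℝ) ^ 2 + if j = 0 then 1 else 0

theorem ta2a_nonneg (j : ℤ) : 0 ≤ ta2a j := by
  unfold ta2a
  split_ifs <;> positivity

theorem ta2a_summable : Summable ta2a :=
  (Real.summable_one_div_int_pow.2 one_lt_two).add (hasSum_ite_eq (0 : ℤ) (1 : ℝ)).summable

theorem ta2P_summable : Summable fun k : d → ℤ => ∏ i, ta2a (k i) := by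
  refine summable_of_sum_le (c := ∏ _ : d, ∑' j, ta2a j)
    (fun k => Finset.prod_nonneg fun i _ => ta2a_nonneg _) fun s => ?_
  calc ∑ k ∈ s, ∏ i, ta2a (k i)
      ≤ ∑ k ∈ Fintype.piFinset fun i => s.image fun k => k i, ∏ i, ta2a (k i) :=
        Finset.sum_le_sum_of_subset_of_nonneg
          (fun k hk => Fintype.mem_piFinset.2 fun i => Finset.mem_image_of_mem _ hk)
          fun k _ _ => Finset.prod_nonneg fun i _ => ta2a_nonneg _
    _ = ∏ i, ∑ j ∈ s.image fun k => k i, ta2a j :=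
        (Finset.prod_univ_sum _ fun _ j => ta2a j).symm
    _ ≤ _ := Finset.prod_le_prod (fun i _ => Finset.sum_nonneg fun j _ => ta2a_nonneg j)
        fun i _ => ta2a_summable.sum_le_tsum _ fun j _ => ta2a_nonneg j

theorem ta2_decay_aux {f : Tr d} {k : d → ℤ}
    (hf : ∀ l, pd l (pd l f) = (-((k l : ℝ) * (2 * Real.pi)) ^ 2) • f) (u : Tr d) (s : Finset d) :
    ∃ w : List d, w.length ≤ 2 * s.card ∧
      |I (f * u)| ≤ (∏ i ∈ s, ta2a (k i)) * |I (f * dw w u)| := by
  induction s using Finset.induction_on with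
  | empty => exact ⟨[], by simp, by simp [dw_nil]⟩
  | insert l s hl ih =>
    obtain ⟨w, h1, h2⟩ := ih
    have hp : 0 ≤ ∏ i ∈ s, ta2a (k i) := Finset.prod_nonneg fun i _ => ta2a_nonneg _
    rw [Finset.card_insert_of_notMem hl, Finset.prod_insert hl]
    by_cases h : k l = 0
    · refine ⟨w, by omega, ?_⟩
      rw [h, show ta2a 0 = 1 by simp [ta2a], one_mul]
      exact h2
    · refine ⟨w ++ [l, l], by simp; omega, h2.trans ?_⟩
      have e : I (f * dw (w ++ [l, l]) u) =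
          -((k l : ℝ) * (2 * Real.pi)) ^ 2 * I (f * dw w u) := by
        rw [dw_append]
        change I (f * pd l (pd l (dw w u))) = _
        rw [I_parts, I_parts, neg_neg, hf, smul_mul_assoc, map_smul, smul_eq_mul]
      have hk : (0 : ℝ) < (k l : ℝ) ^ 2 := by
        have : (k l : ℝ) ≠ 0 := by exact_mod_cast h
        positivity
      have h3 : (1 : ℝ) ≤ (2 * Real.pi) ^ 2 := by nlinarith [Real.pi_gt_three]
      rw [e, abs_mul, abs_neg, abs_sq, ta2a, if_neg h, add_zero, mul_pow]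
      have e2 : 1 / (k l : ℝ) ^ 2 * (∏ i ∈ s, ta2a (k i)) *
          ((k l : ℝ) ^ 2 * (2 * Real.pi) ^ 2 * |I (f * dw w u)|) =
          (2 * Real.pi) ^ 2 * ((∏ i ∈ s, ta2a (k i)) * |I (f * dw w u)|) := by
        field_simp
      rw [e2]
      exact le_mul_of_one_le_left (mul_nonneg hp (abs_nonneg _)) h3

theorem ta2_decay {f : Tr d} {k : d → ℤ}
    (hf : ∀ l, pd l (pd l f) = (-((k l : ℝ) * (2 * Real.pi)) ^ 2) • f) (h1 : ∀ x, |f.1 x| ≤ 1)
    (u : Tr d) : |I (f * u)| ≤ (∏ i, ta2a (k i)) * √(ip (2 * Fintype.card d) u u) := by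
  obtain ⟨w, h2, h3⟩ := ta2_decay_aux hf u Finset.univ
  refine h3.trans (mul_le_mul_of_nonneg_left ((abs_I_mul_le _ _).trans ?_)
    (Finset.prod_nonneg fun i _ => ta2a_nonneg _))
  exact (mul_le_of_le_one_left (n0_nonneg _) (n0_le_of_sup h1)).trans (n0_dw_le h2 u)

theorem ta2_decay_C (k : d → ℤ) (u : Tr d) :
    |I (ta2C k * u)| ≤ (∏ i, ta2a (k i)) * √(ip (2 * Fintype.card d) u u) :=
  ta2_decay (fun l => by
    rw [ta2_pd_C, Derivation.map_smul, ta2_pd_S, smul_smul]; congr 1; ring)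
    (fun x => Real.abs_cos_le_one _) u

theorem ta2_decay_S (k : d → ℤ) (u : Tr d) :
    |I (ta2S k * u)| ≤ (∏ i, ta2a (k i)) * √(ip (2 * Fintype.card d) u u) :=
  ta2_decay (fun l => by
    rw [ta2_pd_S, Derivation.map_smul, ta2_pd_C, smul_smul]; congr 1; ring)
    (fun x => Real.abs_sin_le_one _) u

theorem ta2_lift (u : Tr d) : ∃ F : C(UnitAddTorus d, ℂ),
    ∀ x : d → ℝ, F (fun i => (x i : UnitAddCircle)) = (u.1 x : ℂ) := by
  let G : UnitAddTorus d → ℂ := fun z => (u.1 (fun i => (AddCircle.equivIco 1 0 (z i) : ℝ)) : ℂ)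
  have hG : ∀ x : d → ℝ, G (fun i => (x i : UnitAddCircle)) = (u.1 x : ℂ) := by
    intro x
    simp only [G]
    rw [← u.per_fract x]
    refine congrArg _ (congrArg u.1 (funext fun i => ?_))
    rw [AddCircle.coe_equivIco_mk_apply]
    simp
  have hq : IsOpenQuotientMap (Pi.map fun (_ : d) (t : ℝ) => (t : UnitAddCircle)) :=
    IsOpenQuotientMap.piMap fun _ => QuotientAddGroup.isOpenQuotientMap_mk
  refine ⟨⟨G, hq.continuous_comp_iff.1 ?_⟩, hG⟩
  have : (G ∘ Pi.map fun (_ : d) (t : ℝ) => (t : UnitAddCircle)) = fun x => (u.1 x : ℂ) :=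
    funext hG
  rw [this]
  exact Complex.continuous_ofReal.comp u.cont

omit [DecidableEq d] in
theorem ta2_mFourier (k : d → ℤ) (x : d → ℝ) :
    UnitAddTorus.mFourier k (fun i => (x i : UnitAddCircle)) =
      (Real.cos (ta2Ph k x) : ℂ) + (Real.sin (ta2Ph k x) : ℂ) * Complex.I := by
  rw [Complex.ofReal_cos, Complex.ofReal_sin, ← Complex.exp_mul_I]
  simp only [UnitAddTorus.mFourier, ContinuousMap.coe_mk, fourier_coe_apply]
  rw [← Complex.exp_sum, ta2Ph_apply]
  congr 1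
  push_cast
  rw [Finset.sum_mul]
  exact Finset.sum_congr rfl fun i _ => by ring

theorem ta2_coeff (u : Tr d) {F : C(UnitAddTorus d, ℂ)}
    (hF : ∀ x : d → ℝ, F (fun i => (x i : UnitAddCircle)) = (u.1 x : ℂ)) (k : d → ℤ) :
    UnitAddTorus.mFourierCoeff F k =
      (I (ta2C k * u) : ℂ) - (I (ta2S k * u) : ℂ) * Complex.I := by
  have hs : {x : d → ℝ | ∀ i, x i ∈ Ioc ((0 : d → ℝ) i) ((0 : d → ℝ) i + 1)} =ᵐ[volume]
      Icc (0 : d → ℝ) 1 := by
    have := Measure.univ_pi_Ioc_ae_eq_Icc (μ := fun _ : d => (volume : Measure ℝ))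
      (f := (0 : d → ℝ)) (g := 1)
    have e : {x : d → ℝ | ∀ i, x i ∈ Ioc ((0 : d → ℝ) i) ((0 : d → ℝ) i + 1)} =
        univ.pi fun i => Ioc ((0 : d → ℝ) i) ((1 : d → ℝ) i) := by
      ext x
      simp
    rw [e]
    exact this
  rw [UnitAddTorus.mFourierCoeff_eq_integral _ _ 0, setIntegral_congr_set hs, I_apply, I_apply,
    ← integral_complex_ofReal, ← integral_complex_ofReal, ← integral_mul_const,
    ← integral_sub (ta2C k * u).integrableOn.ofReal
      ((ta2S k * u).integrableOn.ofReal.mul_const _)]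
  refine integral_congr_ae (Filter.Eventually.of_forall fun x => ?_)
  change _ = ((Real.cos (ta2Ph k x) * u.1 x : ℝ) : ℂ) -
    ((Real.sin (ta2Ph k x) * u.1 x : ℝ) : ℂ) * Complex.I
  simp only [ta2_mFourier, hF, ta2Ph_neg, Real.cos_neg, Real.sin_neg, smul_eq_mul]
  push_cast
  ring

theorem ta2_hasSum (u : Tr d) (x : d → ℝ) : HasSum (ta2T u x) (u.1 x) := by
  obtain ⟨F, hF⟩ := ta2_lift u
  have hs : Summable (UnitAddTorus.mFourierCoeff F) := by
    refine Summable.of_norm_bounded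
      ((ta2P_summable.mul_right (√(ip (2 * Fintype.card d) u u))).mul_left 2) fun k => ?_
    rw [ta2_coeff u hF]
    refine (norm_sub_le _ _).trans ?_
    rw [norm_mul, Complex.norm_I, mul_one, Complex.norm_real, Complex.norm_real, Real.norm_eq_abs,
      Real.norm_eq_abs]
    linarith [ta2_decay_C k u, ta2_decay_S k u]
  have h := Complex.reCLM.hasSum (UnitAddTorus.hasSum_mFourier_series_apply_of_summable hs
    fun i => (x i : UnitAddCircle))
  rw [hF, Complex.reCLM_apply, Complex.ofReal_re] at h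
  convert h using 1
  funext k
  rw [ta2_coeff u hF, ta2_mFourier, Complex.reCLM_apply, smul_eq_mul, ta2T]
  simp only [Complex.mul_re, Complex.sub_re, Complex.add_re, Complex.sub_im, Complex.add_im,
    Complex.mul_im, Complex.ofReal_re, Complex.ofReal_im, Complex.I_re, Complex.I_im]
  ring

theorem ta2_tail (s : Finset (d → ℤ)) (u : Tr d) (x : d → ℝ) :
    |u.1 x - ∑ k ∈ s, ta2T u x k| ≤
      2 * (∑' k : {k : d → ℤ // k ∉ s}, ∏ i, ta2a (k.1 i)) * √(ip (2 * Fintype.card d) u u) := by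
  have h := ta2_hasSum u x
  rw [← h.tsum_eq, ← h.summable.sum_add_tsum_subtype_compl s, add_sub_cancel_left, mul_assoc,
    ← Real.norm_eq_abs]
  refine tsum_of_norm_bounded ((((ta2P_summable (d := d)).subtype fun k => k ∉ s).hasSum.mul_right
    _).mul_left 2) fun k => ?_
  have h1 := ta2_decay_C k.1 u
  have h2 := ta2_decay_S k.1 u
  have h3 : |I (ta2C k.1 * u) * Real.cos (ta2Ph k.1 x)| ≤ |I (ta2C k.1 * u)| := by
    rw [abs_mul]; exact mul_le_of_le_one_right (abs_nonneg _) (Real.abs_cos_le_one _)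
  have h4 : |I (ta2S k.1 * u) * Real.sin (ta2Ph k.1 x)| ≤ |I (ta2S k.1 * u)| := by
    rw [abs_mul]; exact mul_le_of_le_one_right (abs_nonneg _) (Real.abs_sin_le_one _)
  refine (abs_add_le _ _).trans ?_
  change _ ≤ 2 * ((∏ i, ta2a (k.1 i)) * _)
  linarith

end TA2

theorem exists_gal (d : Type) [Fintype d] [DecidableEq d] : Nonempty (Gal d) := by
  refine ⟨{ κ := fun N => ta2Box d N
            fin := fun N => inferInstance
            e := fun N k => ta2H k.1
            pr := ta2Pr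
            pr_eq := fun N u => by
              rw [ta2Pr_apply, ← Finset.sum_coe_sort]
            pr_e := fun N k => ta2Pr_H N k.2
            pr_pd := ta2Pr_pd
            m := 2 * Fintype.card d
            C := 2 * ∑' k : {k : d → ℤ // k ∉ (∅ : Finset (d → ℤ))}, ∏ i, ta2a (k.1 i)
            sob := fun u x => by simpa only [Finset.sum_empty, sub_zero] using ta2_tail ∅ u x
            ε := fun N => 2 * ∑' k : {k : d → ℤ // k ∉ ta2Box d N}, ∏ i, ta2a (k.1 i)
            lim := ?_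
            tail := fun N u x => by rw [ta2Pr_val]; exact ta2_tail _ u x }⟩
  simpa only [mul_zero, Function.comp_apply] using ((tendsto_tsum_compl_atTop_zero
    fun k : d → ℤ => ∏ i, ta2a (k i)).comp ta2_box_tendsto).const_mul 2

end Pool.Agent.Lib.MP_de485e_gt.Ex
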