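import Pool.Agent.Lib.MP_de485e_gt.Ex.TA1

/-! Consequences of the projection axioms. -/

open Set Filter Topology
open scoped ContDiff

namespace Pool.Agent.Lib.MP_de485e_gt.Ex

variable {d : Type} [Fintype d] [DecidableEq d] {ι : Type} [Fintype ι]

namespace Gal

variable (G : Gal d)

theorem pr_dw (N : ℕ) (w : List d) (u : Tr d) : G.pr N (dw w u) = dw w (G.pr N u) := by
  induction w generalizing u with
  | nil => rfl
  | cons i w ih => rw [dw_cons, dw_cons, ih, G.pr_pd]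

theorem I_pr (N : ℕ) (u v : Tr d) : I (G.pr N u * v) = I (u * G.pr N v) := by
  rw [G.pr_eq N u, G.pr_eq N v, Finset.sum_mul, Finset.mul_sum, map_sum, map_sum]
  refine Finset.sum_congr rfl fun i _ => ?_
  rw [smul_mul_assoc, mul_smul_comm, map_smul, map_smul, smul_eq_mul, smul_eq_mul, mul_comm u,
    mul_comm]

theorem pr_pr (N : ℕ) (u : Tr d) : G.pr N (G.pr N u) = G.pr N u := by
  conv_lhs => rw [G.pr_eq N u, map_sum]
  simp only [map_smul, G.pr_e]
  exact (G.pr_eq N u).symm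

theorem ip_pr (N k : ℕ) (u v : Tr d) : ip k (G.pr N u) v = ip k u (G.pr N v) := by
  refine Finset.sum_congr rfl fun w _ => ?_
  rw [← G.pr_dw, ← G.pr_dw, G.I_pr]

theorem ip_pr_le (N k : ℕ) (u : Tr d) : ip k (G.pr N u) (G.pr N u) ≤ ip k u u := by
  refine Finset.sum_le_sum fun w _ => ?_
  rw [← G.pr_dw]
  generalize dw w u = U
  have h := (le_abs_self _).trans (abs_I_mul_le U (G.pr N U))
  have e : I (U * G.pr N U) = n0 (G.pr N U) ^ 2 := by rw [n0_sq, G.I_pr, G.pr_pr]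
  rw [e] at h
  rw [← n0_sq, ← n0_sq]
  nlinarith [sq_nonneg (n0 U - n0 (G.pr N U))]

omit [Fintype ι] in
theorem cb_pr (k : ℕ) (B : ℝ) :
    ∃ B', ∀ N (v : ι → Tr d), CB (k + G.m) v B → CB k (fun c => G.pr N (v c)) B' := by
  refine ⟨|G.C| * √((wd d G.m).card * B ^ 2), fun N v h c w hw x => ?_⟩
  rw [← G.pr_dw]
  refine (G.sob _ x).trans (mul_le_mul (le_abs_self _) (Real.sqrt_le_sqrt
    ((G.ip_pr_le N _ _).trans (ip_le_of_sup fun w' hw' y => ?_))) (Real.sqrt_nonneg _)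
    (abs_nonneg _))
  rw [← dw_append]
  exact h c _ (by rw [List.length_append]; omega) y

theorem cb_of_en (k : ℕ) (E : ℝ) : ∃ B, ∀ v : ι → Tr d, en (k + G.m) v ≤ E → CB k v B := by
  refine ⟨|G.C| * √E, fun v h c w hw x => ?_⟩
  exact (G.sob _ x).trans (mul_le_mul (le_abs_self _) (Real.sqrt_le_sqrt
    ((ip_dw_le _ w _).trans ((ip_mono (by omega) _).trans ((ip_le_en _ v c).trans h))))
    (Real.sqrt_nonneg _) (abs_nonneg _))

omit [Fintype ι] in
theorem tail_cb (B : ℝ) : ∃ ε : ℕ → ℝ, Tendsto ε atTop (𝓝 0) ∧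
    ∀ N (v : ι → Tr d), CB G.m v B → ∀ c x, |(v c).1 x - (G.pr N (v c)).1 x| ≤ ε N := by
  refine ⟨fun N => |G.ε N| * √((wd d G.m).card * B ^ 2), ?_, fun N v h c x => ?_⟩
  · simpa only [abs_zero, zero_mul] using G.lim.abs.mul_const √((wd d G.m).card * B ^ 2)
  · exact (G.tail N _ x).trans (mul_le_mul (le_abs_self _)
      (Real.sqrt_le_sqrt (ip_le_of_sup (h c))) (Real.sqrt_nonneg _) (abs_nonneg _))

theorem tendsto_pr (u : Tr d) (x : d → ℝ) :
    Tendsto (fun N => (G.pr N u).1 x) atTop (𝓝 (u.1 x)) := by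
  rw [tendsto_iff_norm_sub_tendsto_zero]
  refine squeeze_zero (fun _ => norm_nonneg _) (fun N => ?_)
    (by simpa using G.lim.mul_const √(ip G.m u u))
  rw [Real.norm_eq_abs, abs_sub_comm]
  exact G.tail N u x

end Gal

end Pool.Agent.Lib.MP_de485e_gt.Ex
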