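import Pool.Agent.Lib.MP_de485e_gt.Ex.TA1

/-! Classes of nonlinear differential operators with tame estimates. -/

open Set
open scoped ContDiff

namespace Pool.Agent.Lib.MP_de485e_gt.Ex

variable {d : Type} [Fintype d] [DecidableEq d] {ι : Type}

/-- Uniform bound from bounds on `s + 1` derivatives. -/
def Sup (s : ℕ) (f : (ι → Tr d) → Tr d) : Prop :=
  ∀ B, ∃ C, ∀ v, CB (s + 1) v B → ∀ x, |(f v).1 x| ≤ C

/-- Tame `L²` bound. -/
def L2 (N : ℕ → (ι → Tr d) → ℝ) (s r : ℕ) (f : (ι → Tr d) → Tr d) : Prop :=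
  ∀ j B, s ≤ 2 * j + 1 → ∃ C, ∀ v, CB (j + 1) v B → n0 (f v) ≤ C * (1 + N r v)

/-- Both bounds for all derivatives. -/
def Cl (N : ℕ → (ι → Tr d) → ℝ) (s r : ℕ) (f : (ι → Tr d) → Tr d) : Prop :=
  ∀ w : List d, Sup (s + w.length) (fun v => dw w (f v)) ∧
    L2 N (s + w.length) (r + w.length) fun v => dw w (f v)

/-- A scale of sizes. -/
structure Nm (N : ℕ → (ι → Tr d) → ℝ) : Prop where
  nonneg : ∀ r v, 0 ≤ N r v
  mono : ∀ r r', r ≤ r' → ∀ v, N r v ≤ N r' v

variable {N : ℕ → (ι → Tr d) → ℝ} {s s' r r' : ℕ} {f g : (ι → Tr d) → Tr d}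

theorem TB1_sup_mono (h : Sup s f) (hs : s ≤ s') : Sup s' f := fun B =>
  (h B).imp fun _ hC v hv => hC v (hv.mono (by omega) le_rfl)

theorem TB1_le (hN : Nm N) {a C : ℝ} {v : ι → Tr d} (h : a ≤ C * (1 + N r v)) (hr : r ≤ r') :
    a ≤ |C| * (1 + N r' v) := by
  have h1 := hN.nonneg r v
  have h2 := hN.mono r r' hr v
  exact h.trans (mul_le_mul (le_abs_self C) (by linarith) (by linarith) (abs_nonneg C))

theorem TB1_l2_mono (hN : Nm N) (h : L2 N s r f) (hs : s ≤ s') (hr : r ≤ r') : L2 N s' r' f := by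
  intro j B hj
  obtain ⟨C, hC⟩ := h j B (hs.trans hj)
  exact ⟨|C|, fun v hv => TB1_le hN (hC v hv) hr⟩

theorem TB1_sup_add (hf : Sup s f) (hg : Sup s g) : Sup s fun v => f v + g v := by
  intro B
  obtain ⟨C, hC⟩ := hf B
  obtain ⟨C', hC'⟩ := hg B
  exact ⟨C + C', fun v hv x => (abs_add_le _ _).trans (add_le_add (hC v hv x) (hC' v hv x))⟩

theorem TB1_l2_add (hf : L2 N s r f) (hg : L2 N s r g) : L2 N s r fun v => f v + g v := by
  intro j B hj
  obtain ⟨C, hC⟩ := hf j B hj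
  obtain ⟨C', hC'⟩ := hg j B hj
  refine ⟨C + C', fun v hv => (n0_add_le _ _).trans ?_⟩
  rw [add_mul]
  exact add_le_add (hC v hv) (hC' v hv)

theorem TB1_l2_of_sup (hN : Nm N) (h : Sup 0 f) : L2 N s r f := by
  intro j B _
  obtain ⟨C, hC⟩ := h B
  refine ⟨|C|, fun v hv => (n0_le_of_sup (hC v (hv.mono (by omega) le_rfl))).trans ?_⟩
  have h1 := hN.nonneg r v
  have h2 := le_abs_self C
  nlinarith [abs_nonneg C]

theorem TB1_l2_mul (hN : Nm N) {j : ℕ} {B : ℝ} (hf : Sup s f) (hg : L2 N s' r' g) (hs : s ≤ j)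
    (hs' : s' ≤ 2 * j + 1) (hr : r' ≤ r) :
    ∃ C, ∀ v, CB (j + 1) v B → n0 (f v * g v) ≤ C * (1 + N r v) := by
  obtain ⟨C, hC⟩ := hf B
  obtain ⟨C', hC'⟩ := hg j B hs'
  refine ⟨|C| * |C'|, fun v hv => ?_⟩
  have h1 := n0_mul_le (fun x => (hC v (hv.mono (by omega) le_rfl) x).trans (le_abs_self C)) (g v)
  rw [mul_assoc]
  exact h1.trans (mul_le_mul_of_nonneg_left (TB1_le hN (hC' v hv) hr) (abs_nonneg C))

/-- The truncated class. -/
def TB1_Cl (N : ℕ → (ι → Tr d) → ℝ) (n s r : ℕ) (f : (ι → Tr d) → Tr d) : Prop :=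
  ∀ w : List d, w.length ≤ n → Sup (s + w.length) (fun v => dw w (f v)) ∧
    L2 N (s + w.length) (r + w.length) fun v => dw w (f v)

theorem TB1_pd {n : ℕ} (h : TB1_Cl N (n + 1) s r f) (i : d) :
    TB1_Cl N n (s + 1) (r + 1) fun v => pd i (f v) := by
  intro w hw
  have := h (i :: w) (by simpa using hw)
  rwa [List.length_cons, add_comm w.length 1, ← add_assoc, ← add_assoc] at this

theorem TB1_mul (hN : Nm N) (w : List d) : ∀ {s s' r r' : ℕ} {f g : (ι → Tr d) → Tr d},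
    TB1_Cl N w.length s r f → TB1_Cl N w.length s' r' g →
    Sup (s + s' + w.length) (fun v => dw w (f v * g v)) ∧
      L2 N (s + s' + w.length) (max r r' + w.length) fun v => dw w (f v * g v) := by
  induction w with
  | nil =>
    intro s s' r r' f g hf hg
    obtain ⟨f1, f2⟩ := hf [] le_rfl
    obtain ⟨g1, g2⟩ := hg [] le_rfl
    simp only [List.length_nil, add_zero, dw_nil] at f1 f2 g1 g2 ⊢
    refine ⟨fun B => ?_, fun j B hj => ?_⟩
    · obtain ⟨C, hC⟩ := TB1_sup_mono f1 (Nat.le_add_right s s') B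
      obtain ⟨C', hC'⟩ := TB1_sup_mono g1 (Nat.le_add_left s' s) B
      refine ⟨C * C', fun v hv x => ?_⟩
      change |(f v).1 x * (g v).1 x| ≤ _
      rw [abs_mul]
      exact mul_le_mul (hC v hv x) (hC' v hv x) (abs_nonneg _) ((abs_nonneg _).trans (hC v hv x))
    · by_cases h : s ≤ j
      · exact TB1_l2_mul hN f1 g2 h (by omega) (le_max_right _ _)
      · simpa only [mul_comm (g _)] using
          TB1_l2_mul (B := B) hN g1 f2 (show s' ≤ j by omega) (by omega) (le_max_left r r')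
  | cons i w ih =>
    intro s s' r r' f g hf hg
    have e : (fun v => dw (i :: w) (f v * g v)) =
        fun v => dw w (pd i (f v) * g v) + dw w (f v * pd i (g v)) := funext fun v => by
      rw [dw_cons, Derivation.leibniz, smul_eq_mul, smul_eq_mul, map_add, add_comm, mul_comm (g v)]
    obtain ⟨a1, a2⟩ := ih (TB1_pd hf i) fun u hu => hg u (hu.trans (Nat.le_succ _))
    obtain ⟨b1, b2⟩ := ih (fun u hu => hf u (hu.trans (Nat.le_succ _))) (TB1_pd hg i)
    rw [e, List.length_cons]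
    exact ⟨TB1_sup_add (TB1_sup_mono a1 (by omega)) (TB1_sup_mono b1 (by omega)),
      TB1_l2_add (TB1_l2_mono hN a2 (by omega) (by omega))
        (TB1_l2_mono hN b2 (by omega) (by omega))⟩

theorem TB1_sum (hN : Nm N) {α : Type} (A : Finset α) {F : α → (ι → Tr d) → Tr d}
    (h : ∀ a ∈ A, Sup s (F a) ∧ L2 N s r (F a)) :
    Sup s (fun v => ∑ a ∈ A, F a v) ∧ L2 N s r fun v => ∑ a ∈ A, F a v := by
  classical
  induction A using Finset.induction_on with
  | empty =>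
    have h0 : Sup 0 (fun _ : ι → Tr d => (0 : Tr d)) := fun _ => ⟨0, fun _ _ _ => by simp⟩
    simp only [Finset.sum_empty]
    exact ⟨TB1_sup_mono h0 (Nat.zero_le _), TB1_l2_of_sup hN h0⟩
  | insert a A ha ih =>
    obtain ⟨h1, h2⟩ := ih fun b hb => h b (Finset.mem_insert_of_mem hb)
    obtain ⟨h3, h4⟩ := h a (Finset.mem_insert_self a A)
    simp only [Finset.sum_insert ha]
    exact ⟨TB1_sup_add h3 h1, TB1_l2_add h4 h2⟩

theorem TB1_cmp (hN : Nm N) {σ : Type} [Fintype σ] {G : σ → (ι → Tr d) → Tr d}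
    (h : ∀ a, Cl N 0 0 (G a)) (n : ℕ) : ∀ (Φ : (σ → ℝ) → ℝ) (hΦ : ContDiff ℝ ∞ Φ),
    TB1_Cl N n 0 0 fun v => cmp Φ hΦ fun a => G a v := by
  classical
  have base : ∀ (Φ : (σ → ℝ) → ℝ) (hΦ : ContDiff ℝ ∞ Φ),
      Sup 0 fun v => cmp Φ hΦ fun a => G a v := by
    intro Φ hΦ B
    choose C hC using fun a => (h a []).1 B
    obtain ⟨M, hM⟩ := (isCompact_closedBall (0 : σ → ℝ) (∑ a, |C a|)).exists_bound_of_continuousOn
      hΦ.continuous.continuousOn
    refine ⟨M, fun v hv x => hM _ ?_⟩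
    rw [mem_closedBall_zero_iff,
      pi_norm_le_iff_of_nonneg (Finset.sum_nonneg fun a _ => abs_nonneg _)]
    intro a
    exact ((hC a v hv x).trans (le_abs_self _)).trans
      (Finset.single_le_sum (f := fun a => |C a|) (fun a _ => abs_nonneg _) (Finset.mem_univ a))
  induction n with
  | zero =>
    intro Φ hΦ w hw
    obtain rfl : w = [] := List.length_eq_zero_iff.1 (by omega)
    exact ⟨base Φ hΦ, TB1_l2_of_sup hN (base Φ hΦ)⟩
  | succ n ih =>
    intro Φ hΦ w hw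
    rcases w with _ | ⟨i, w⟩
    · exact ⟨base Φ hΦ, TB1_l2_of_sup hN (base Φ hΦ)⟩
    · simp only [dw_cons, pd_cmp, map_sum, List.length_cons] at hw ⊢
      refine TB1_sum hN _ fun a _ => ?_
      obtain ⟨a1, a2⟩ := TB1_mul hN w (fun u hu => ih (fun y => fderiv ℝ Φ y (Pi.single a 1))
        ((hΦ.fderiv_right (m := ∞) (by simp)).clm_apply contDiff_const) u (by omega))
        (TB1_pd (fun u _ => h a u) i)
      exact ⟨TB1_sup_mono a1 (by omega), TB1_l2_mono hN a2 (by omega) (by omega)⟩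

theorem Cl.mono (hN : Nm N) (h : Cl N s r f) (hs : s ≤ s') (hr : r ≤ r') : Cl N s' r' f := by
  intro w
  exact ⟨TB1_sup_mono (h w).1 (by omega), TB1_l2_mono hN (h w).2 (by omega) (by omega)⟩

theorem Cl.const (hN : Nm N) (u : Tr d) : Cl N 0 0 fun _ => u := by
  intro w
  have h0 : Sup 0 (fun _ : ι → Tr d => dw w u) := fun _ =>
    (dw w u).exists_bound.imp fun _ hC _ _ => hC
  exact ⟨TB1_sup_mono h0 (Nat.zero_le _), TB1_l2_of_sup hN h0⟩

theorem Cl.add (hN : Nm N) (hf : Cl N s r f) (hg : Cl N s r g) : Cl N s r fun v => f v + g v := by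
  intro w
  simp only [map_add]
  exact ⟨TB1_sup_add (hf w).1 (hg w).1, TB1_l2_add (hf w).2 (hg w).2⟩

theorem Cl.smul (hN : Nm N) (c : ℝ) (hf : Cl N s r f) : Cl N s r fun v => c • f v := by
  intro w
  simp only [map_smul]
  refine ⟨fun B => ?_, fun j B hj => ?_⟩
  · obtain ⟨C, hC⟩ := (hf w).1 B
    refine ⟨|c| * C, fun v hv x => ?_⟩
    change |c * (dw w (f v)).1 x| ≤ _
    rw [abs_mul]
    exact mul_le_mul_of_nonneg_left (hC v hv x) (abs_nonneg c)
  · obtain ⟨C, hC⟩ := (hf w).2 j B hj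
    refine ⟨|c| * C, fun v hv => ?_⟩
    rw [n0_smul, mul_assoc]
    exact mul_le_mul_of_nonneg_left (hC v hv) (abs_nonneg c)

theorem Cl.sum (hN : Nm N) {α : Type} (A : Finset α) {F : α → (ι → Tr d) → Tr d}
    (h : ∀ a ∈ A, Cl N s r (F a)) : Cl N s r fun v => ∑ a ∈ A, F a v := by
  intro w
  simp only [map_sum]
  exact TB1_sum hN A fun a ha => h a ha w

theorem Cl.pd (h : Cl N s r f) (i : d) : Cl N (s + 1) (r + 1) fun v => pd i (f v) := by
  intro w
  exact TB1_pd (n := w.length) (fun u _ => h u) i w le_rfl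

theorem Cl.mul (hN : Nm N) (hf : Cl N s r f) (hg : Cl N s' r' g) :
    Cl N (s + s') (max r r') fun v => f v * g v := by
  intro w
  exact TB1_mul hN w (fun u _ => hf u) fun u _ => hg u

theorem Cl.cmp (hN : Nm N) {σ : Type} [Fintype σ] {Φ : (σ → ℝ) → ℝ} (hΦ : ContDiff ℝ ∞ Φ)
    {G : σ → (ι → Tr d) → Tr d} (h : ∀ a, Cl N 0 0 (G a)) :
    Cl N 0 0 fun v => cmp Φ hΦ fun a => G a v := by
  intro w
  exact TB1_cmp hN h w.length Φ hΦ w le_rfl

theorem Cl.comm (hN : Nm N) (hf : Cl N 0 0 f) (hg : Cl N s (r + 1) g) (w : List d) :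
    L2 N (s + w.length) (r + w.length) fun v => dw w (f v * g v) - f v * dw w (g v) := by
  induction w generalizing g s r with
  | nil =>
    refine TB1_l2_of_sup hN fun _ => ⟨0, fun _ _ _ => ?_⟩
    simp [dw_nil]
  | cons l w ih =>
    have e : (fun v => dw (l :: w) (f v * g v) - f v * dw (l :: w) (g v)) =
        fun v => dw w (Ex.pd l (f v) * g v) +
          (dw w (f v * Ex.pd l (g v)) - f v * dw w (Ex.pd l (g v))) := funext fun v => by
      rw [dw_cons, dw_cons, Derivation.leibniz, smul_eq_mul, smul_eq_mul, map_add, mul_comm (g v)]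
      ring
    rw [e, List.length_cons]
    exact TB1_l2_add (TB1_l2_mono hN (((hf.pd l).mul hN hg) w).2 (by omega) (by omega))
      (TB1_l2_mono hN (ih (hg.pd l)) (by omega) (by omega))

theorem cl_var (hN : Nm N) (h : ∀ (v : ι → Tr d) c (w : List d), n0 (dw w (v c)) ≤ N w.length v)
    (c : ι) : (Cl N 0 0 fun v => v c) ∧ ∀ i, Cl N 0 1 fun v => pd i (v c) := by
  have key : ∀ (w : List d) (s : ℕ), L2 N s w.length fun v => dw w (v c) := fun w s j B _ =>
    ⟨1, fun v _ => (h v c w).trans (by linarith)⟩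
  refine ⟨fun w => ⟨fun B => ⟨B, fun v hv => hv c w (by omega)⟩, ?_⟩,
    fun i w => ⟨fun B => ⟨B, fun v hv => hv c (i :: w) (by simp)⟩, ?_⟩⟩
  · exact TB1_l2_mono hN (key w _) le_rfl (by omega)
  · exact TB1_l2_mono hN (key (i :: w) _) le_rfl (by simp [add_comm])

end Pool.Agent.Lib.MP_de485e_gt.Ex
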