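import Pool.Agent.Lib.MP_de485e_gt.Ex.TB1

/-! The energy estimate. -/

open Set
open scoped ContDiff

namespace Pool.Agent.Lib.MP_de485e_gt.Ex

variable {d : Type} [Fintype d] [DecidableEq d] {ι : Type} [Fintype ι]

section er

variable {β : Type} {P : β → Prop} {M M' f g : β → ℝ}

/-- Bounded by a multiple of `M` where `P` holds. -/
def TB2Er (P : β → Prop) (M f : β → ℝ) : Prop := ∃ C, 0 ≤ C ∧ ∀ v, P v → f v ≤ C * M v

theorem tb2_of (hM : ∀ v, 0 ≤ M v) (h : ∃ C, ∀ v, P v → f v ≤ C * M v) : TB2Er P M f := by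
  obtain ⟨C, h⟩ := h
  exact ⟨max C 0, le_max_right _ _, fun v hv =>
    (h v hv).trans (mul_le_mul_of_nonneg_right (le_max_left _ _) (hM v))⟩

theorem TB2Er.le (h : TB2Er P M g) (hf : ∀ v, P v → f v ≤ g v) : TB2Er P M f := by
  obtain ⟨C, h0, h⟩ := h
  exact ⟨C, h0, fun v hv => (hf v hv).trans (h v hv)⟩

theorem TB2Er.mono (h : TB2Er P M f) (hM : ∀ v, M v ≤ M' v) : TB2Er P M' f := by
  obtain ⟨C, h0, h⟩ := h
  exact ⟨C, h0, fun v hv => (h v hv).trans (mul_le_mul_of_nonneg_left (hM v) h0)⟩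

theorem TB2Er.add (hf : TB2Er P M f) (hg : TB2Er P M g) : TB2Er P M fun v => f v + g v := by
  obtain ⟨C, h0, h⟩ := hf
  obtain ⟨C', h0', h'⟩ := hg
  exact ⟨C + C', add_nonneg h0 h0', fun v hv => by
    rw [add_mul]; exact add_le_add (h v hv) (h' v hv)⟩

theorem TB2Er.sum {α : Type} (A : Finset α) {F : α → β → ℝ} (h : ∀ a ∈ A, TB2Er P M (F a)) :
    TB2Er P M fun v => ∑ a ∈ A, F a v := by
  classical
  induction A using Finset.induction_on with
  | empty => exact ⟨0, le_rfl, fun v _ => by simp⟩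
  | insert a A ha ih =>
    simp only [Finset.sum_insert ha]
    exact (h a (Finset.mem_insert_self _ _)).add (ih fun b hb => h b (Finset.mem_insert_of_mem hb))

theorem TB2Er.cmul (h : TB2Er P M f) {c : ℝ} (hc : 0 ≤ c) : TB2Er P M fun v => c * f v := by
  obtain ⟨C, h0, h⟩ := h
  exact ⟨c * C, mul_nonneg hc h0, fun v hv => by
    rw [mul_assoc]; exact mul_le_mul_of_nonneg_left (h v hv) hc⟩

theorem TB2Er.int {p q : β → Tr d} (hM : ∀ v, 0 ≤ M v) (hp : TB2Er P M fun v => n0 (p v))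
    (hq : TB2Er P M' fun v => n0 (q v)) :
    TB2Er P (fun v => M v * M' v) fun v => |I (p v * q v)| := by
  obtain ⟨C, h0, h⟩ := hp
  obtain ⟨C', h0', h'⟩ := hq
  refine ⟨C * C', mul_nonneg h0 h0', fun v hv => (abs_I_mul_le _ _).trans ?_⟩
  rw [mul_mul_mul_comm]
  exact mul_le_mul (h v hv) (h' v hv) (n0_nonneg _) (mul_nonneg h0 (hM v))

theorem TB2Er.mul {p q : β → Tr d} (hq : TB2Er P M fun v => n0 (q v))
    (hp : ∃ C, ∀ v, P v → ∀ x, |(p v).1 x| ≤ C) : TB2Er P M fun v => n0 (p v * q v) := by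
  obtain ⟨C, h⟩ := hp
  exact (hq.cmul (abs_nonneg C)).le fun v hv =>
    n0_mul_le (fun x => (h v hv x).trans (le_abs_self C)) _

end er

theorem tb2_id (w : List d) (u Z a : Tr d) (Y : d → Tr d) :
    I (dw w u * dw w (a * vf Y Z)) = -I (a * dw w (vf Y u) * dw w Z) +
      (I ((a * ∑ i, (dw w (Y i * pd i u) - Y i * dw w (pd i u))) * dw w Z) +
      ∑ i, (-I ((pd i (a * Y i) * dw w u) * dw w Z) +
        I (dw w u * (dw w ((a * Y i) * pd i Z) - (a * Y i) * dw w (pd i Z))))) := by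
  have e1 : ∀ i, I (dw w u * dw w ((a * Y i) * pd i Z)) =
      -I (a * (Y i * dw w (pd i u)) * dw w Z) + (-I ((pd i (a * Y i) * dw w u) * dw w Z) +
        I (dw w u * (dw w ((a * Y i) * pd i Z) - (a * Y i) * dw w (pd i Z)))) := fun i => by
    have h := I_parts i (dw w u * (a * Y i)) (dw w Z)
    rw [Derivation.leibniz, smul_eq_mul, smul_eq_mul, add_mul, map_add, ← dw_pd, ← dw_pd] at h
    rw [mul_sub, map_sub, ← mul_assoc (dw w u), h, mul_comm (dw w u) (pd i (a * Y i)),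
      mul_assoc a (Y i) (dw w (pd i u))]
    ring
  have e2 : a * vf Y Z = ∑ i, (a * Y i) * pd i Z := by
    simp only [vf, Finset.mul_sum, mul_assoc]
  rw [e2, map_sum, Finset.mul_sum, map_sum]
  simp only [e1]
  rw [Finset.sum_add_distrib, ← add_assoc]
  congr 1
  simp only [vf, map_sum, Finset.mul_sum, Finset.sum_mul, mul_sub, sub_mul, map_sub,
    Finset.sum_sub_distrib, Finset.sum_neg_distrib]
  ring

/-- The size of the unknown. -/
noncomputable def tb2N0 (r : ℕ) (v : ι → Tr d) : ℝ := √(en r v)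

namespace Op

variable (S : Op d ι)

/-- The dissipation. -/
noncomputable def tb2E (r : ℕ) (v : ι → Tr d) : ℝ := ∑ a, en r fun c => vf (S.X a) (v c)

/-- The size of the unknown and of its derivatives along the fields. -/
noncomputable def tb2N1 (r : ℕ) (v : ι → Tr d) : ℝ := tb2N0 r v + √(S.tb2E r v)

theorem tb2_nm1 : Nm S.tb2N1 :=
  ⟨fun _ _ => add_nonneg (Real.sqrt_nonneg _) (Real.sqrt_nonneg _), fun _ _ h _ =>
    add_le_add (Real.sqrt_le_sqrt (en_mono h _))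
      (Real.sqrt_le_sqrt (Finset.sum_le_sum fun _ _ => en_mono h _))⟩

end Op

theorem tb2_nm0 : Nm (tb2N0 (d := d) (ι := ι)) :=
  ⟨fun _ _ => Real.sqrt_nonneg _, fun _ _ h _ => Real.sqrt_le_sqrt (en_mono h _)⟩

theorem tb2_v0 {k : ℕ} {w : List d} (hw : w.length ≤ k) (v : ι → Tr d) (c : ι) :
    n0 (dw w (v c)) ≤ tb2N0 k v :=
  (n0_dw_le hw _).trans (Real.sqrt_le_sqrt (ip_le_en _ v c))

namespace Op

variable (S : Op d ι)

theorem tb2_le (k : ℕ) (v : ι → Tr d) : tb2N0 k v ≤ S.tb2N1 k v :=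
  le_add_of_nonneg_right (Real.sqrt_nonneg _)

theorem tb2_z {k : ℕ} {w : List d} (hw : w.length ≤ k) (v : ι → Tr d) (a c : ι) :
    n0 (dw w (vf (S.X a) (v c))) ≤ S.tb2N1 k v :=
  (tb2_v0 hw (fun c => vf (S.X a) (v c)) c).trans ((Real.sqrt_le_sqrt (Finset.single_le_sum
    (f := fun a => en k fun c => vf (S.X a) (v c)) (fun _ _ => en_nonneg _ _)
    (Finset.mem_univ a))).trans (le_add_of_nonneg_left (Real.sqrt_nonneg _)))

theorem tb2_var (c : ι) : (Cl S.tb2N1 0 0 fun v => v c) ∧ ∀ i, Cl S.tb2N1 0 1 fun v => pd i (v c) :=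
  cl_var S.tb2_nm1 (fun v c _ => (tb2_v0 le_rfl v c).trans (S.tb2_le _ v)) c

theorem tb2_clz (a c : ι) : Cl S.tb2N1 0 0 fun v => vf (S.X a) (v c) := fun w =>
  ⟨(Cl.sum S.tb2_nm1 Finset.univ (fun i _ =>
    (Cl.const S.tb2_nm1 (S.X a i)).mul S.tb2_nm1 ((S.tb2_var c).2 i)) w).1,
    fun _ _ _ => ⟨1, fun v _ => (S.tb2_z (k := w.length) le_rfl v a c).trans (by simp)⟩⟩

theorem tb2_clco (a b : ι) : Cl S.tb2N1 0 0 fun v => S.co v a b :=
  Cl.cmp S.tb2_nm1 (S.sm a b) (G := fun s v => S.mm v s) fun s =>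
    (Cl.sum S.tb2_nm1 Finset.univ fun c _ =>
      (S.tb2_clz s.1 c).mul S.tb2_nm1 (S.tb2_clz s.2 c)).add S.tb2_nm1 (Cl.const S.tb2_nm1 _)

theorem tb2_clal (a b : ι) (i : d) : Cl S.tb2N1 0 0 fun v => S.co v a b * S.X a i :=
  (S.tb2_clco a b).mul S.tb2_nm1 (Cl.const S.tb2_nm1 _)

theorem tb2_clrhs (c : ι) : Cl S.tb2N1 1 1 fun v => S.rhs v c :=
  (Cl.sum S.tb2_nm1 Finset.univ fun a _ => Cl.sum S.tb2_nm1 Finset.univ fun b _ =>
    (S.tb2_clco a b).mul S.tb2_nm1 (Cl.sum S.tb2_nm1 Finset.univ fun i _ =>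
      (Cl.const S.tb2_nm1 (S.X a i)).mul S.tb2_nm1 ((S.tb2_clz b c).pd i))).add S.tb2_nm1
    (((S.tb2_var c).1.smul S.tb2_nm1 S.c).mono S.tb2_nm1 zero_le_one zero_le_one)

theorem tb2_ell (v g : ι → Tr d) :
    S.lam * ∑ a, I (g a * g a) ≤ ∑ a, ∑ b, I (S.co v a b * g a * g b) := by
  simp only [← map_sum]
  rw [← smul_eq_mul, ← map_smul]
  refine I_mono fun x => ?_
  have h := S.ell (fun s => (S.mm v s).1 x) fun a => (g a).1 x
  rw [← evx_apply, ← evx_apply]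
  simp only [map_smul, map_sum, map_mul, smul_eq_mul]
  simpa only [evx_apply, co, cmp, sq] using h

theorem tb2_word {k j : ℕ} (hj : 1 ≤ j) (hk : k ≤ 2 * j) (B : ℝ) (c : ι) {w : List d}
    (hw : w.length ≤ k) :
    TB2Er (fun v => CB (j + 1) v B) (fun v => (1 + tb2N0 k v) * (1 + S.tb2N1 k v)) fun v =>
      I (dw w (v c) * dw w (S.rhs v c)) +
        S.lam * ∑ a, I (dw w (vf (S.X a) (v c)) * dw w (vf (S.X a) (v c))) := by
  have p0 : ∀ v : ι → Tr d, 0 ≤ 1 + tb2N0 k v := fun v =>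
    add_nonneg zero_le_one (tb2_nm0.nonneg _ _)
  have hV : TB2Er (fun v => CB (j + 1) v B) (fun v => 1 + tb2N0 k v)
      fun v => n0 (dw w (v c)) := ⟨1, zero_le_one, fun v _ => (tb2_v0 hw v c).trans (by simp)⟩
  have hG : ∀ b, TB2Er (fun v => CB (j + 1) v B) (fun v => 1 + S.tb2N1 k v)
      fun v => n0 (dw w (vf (S.X b) (v c))) := fun b =>
    ⟨1, zero_le_one, fun v _ => (S.tb2_z hw v b c).trans (by simp)⟩
  have hR : ∀ a, TB2Er (fun v => CB (j + 1) v B) (fun v => 1 + tb2N0 k v) fun v =>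
      n0 (∑ i, (dw w (S.X a i * pd i (v c)) - S.X a i * dw w (pd i (v c)))) := fun a => by
    refine (TB2Er.sum Finset.univ fun i _ => ?_).le fun v _ => n0_sum_le _ _
    have h := (Cl.const tb2_nm0 (S.X a i)).comm tb2_nm0 (r := 0)
      ((cl_var tb2_nm0 (fun v c _ => tb2_v0 le_rfl v c) c).2 i) w j B (by omega)
    exact (tb2_of (fun v => add_nonneg zero_le_one (tb2_nm0.nonneg _ v)) h).mono fun v =>
      add_le_add_right (tb2_nm0.mono _ _ (by omega) v) _
  have hQ : ∀ a b i, TB2Er (fun v => CB (j + 1) v B) (fun v => 1 + S.tb2N1 k v) fun v =>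
      n0 (dw w ((S.co v a b * S.X a i) * pd i (vf (S.X b) (v c))) -
        (S.co v a b * S.X a i) * dw w (pd i (vf (S.X b) (v c)))) := fun a b i => by
    have h := (S.tb2_clal a b i).comm S.tb2_nm1 (r := 0) ((S.tb2_clz b c).pd i) w j B (by omega)
    exact (tb2_of (fun v => add_nonneg zero_le_one (S.tb2_nm1.nonneg _ v)) h).mono fun v =>
      add_le_add_right (S.tb2_nm1.mono _ _ (by omega) v) _
  have hco : ∀ a b, ∃ C, ∀ v, CB (j + 1) v B → ∀ x, |(S.co v a b).1 x| ≤ C := fun a b => by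
    obtain ⟨C, h⟩ := (S.tb2_clco a b []).1 B
    exact ⟨C, fun v hv => h v (hv.mono (by simp) le_rfl)⟩
  have hal : ∀ a b i, ∃ C, ∀ v, CB (j + 1) v B → ∀ x,
      |(pd i (S.co v a b * S.X a i)).1 x| ≤ C := fun a b i => by
    obtain ⟨C, h⟩ := ((S.tb2_clal a b i).pd i []).1 B
    exact ⟨C, fun v hv => h v (hv.mono (by simpa using hj) le_rfl)⟩
  have h1 := (TB2Er.sum Finset.univ fun a _ => TB2Er.sum Finset.univ fun b _ =>
    (((hR a).mul (hco a b)).int p0 (hG b)).add (TB2Er.sum Finset.univ fun i _ =>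
      ((hV.mul (hal a b i)).int p0 (hG b)).add (hV.int p0 (hQ a b i)))).add
    ((hV.int p0 (hV.mono fun v => add_le_add_right (S.tb2_le k v) 1)).cmul (abs_nonneg S.c))
  refine h1.le fun v _ => ?_
  have h2 := S.tb2_ell v fun a => dw w (vf (S.X a) (v c))
  have h3 : S.c * I (dw w (v c) * dw w (v c)) ≤ |S.c| * |I (dw w (v c) * dw w (v c))| :=
    (le_abs_self _).trans_eq (abs_mul _ _)
  rw [rhs, map_add, mul_add, map_add, map_smul, mul_smul_comm, map_smul, smul_eq_mul]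
  simp only [map_sum (dw w), Finset.mul_sum Finset.univ _ (dw w (v c)), map_sum I, tb2_id]
  simp only [Finset.sum_add_distrib (f := fun b => -I (S.co v _ b * _ * _)),
    Finset.sum_neg_distrib, Finset.sum_add_distrib (f := fun a => -∑ b, I (S.co v a b * _ * _))]
  have h4 := Finset.sum_le_sum (s := Finset.univ) fun a _ => Finset.sum_le_sum (s := Finset.univ)
    fun b _ => add_le_add (le_abs_self (I ((S.co v a b * ∑ i, (dw w (S.X a i * pd i (v c)) -
      S.X a i * dw w (pd i (v c)))) * dw w (vf (S.X b) (v c)))))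
      (Finset.sum_le_sum (s := Finset.univ) fun i _ => add_le_add
        (neg_le_abs (I ((pd i (S.co v a b * S.X a i) * dw w (v c)) * dw w (vf (S.X b) (v c)))))
        (le_abs_self (I (dw w (v c) * (dw w ((S.co v a b * S.X a i) * pd i (vf (S.X b) (v c))) -
          (S.co v a b * S.X a i) * dw w (pd i (vf (S.X b) (v c))))))))
  linarith

end Op

theorem Op.rhs_cb (S : Op d ι) (k : ℕ) (B : ℝ) :
    ∃ C, ∀ v, CB (k + 2) v B → CB k (S.rhs v) C := by
  choose C hC using fun (c : ι) (w : List d) => (S.tb2_clrhs c w).1 B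
  refine ⟨∑ c, ∑ w ∈ wd d k, |C c w|, fun v hv c w hw x => ?_⟩
  refine (hC c w v (hv.mono (by omega) le_rfl) x).trans ((le_abs_self _).trans ?_)
  exact (Finset.single_le_sum (f := fun w => |C c w|) (fun _ _ => abs_nonneg _)
    (mem_wd.2 hw)).trans (Finset.single_le_sum (f := fun c => ∑ w ∈ wd d k, |C c w|)
      (fun _ _ => Finset.sum_nonneg fun _ _ => abs_nonneg _) (Finset.mem_univ c))

theorem Op.energy (S : Op d ι) {k j : ℕ} (hj : 1 ≤ j) (hk : k ≤ 2 * j) (B : ℝ) :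
    ∃ C, ∀ v, CB (j + 1) v B → ∑ c, ip k (v c) (S.rhs v c) ≤ C * (1 + en k v) := by
  obtain ⟨C, h0, h⟩ := TB2Er.sum Finset.univ fun c _ => TB2Er.sum (wd d k) fun w hw =>
    S.tb2_word hj hk B c (mem_wd.1 hw)
  refine ⟨2 * (C + C ^ 2 / S.lam), fun v hv => ?_⟩
  have h1 := h v hv
  have e : ∑ c, ∑ w ∈ wd d k, S.lam * ∑ a,
      I (dw w (vf (S.X a) (v c)) * dw w (vf (S.X a) (v c))) = S.lam * S.tb2E k v := by
    simp only [← Finset.mul_sum, Op.tb2E, en, ip]
    congr 1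
    rw [Finset.sum_comm (s := Finset.univ) (t := Finset.univ)]
    exact Finset.sum_congr rfl fun c _ => Finset.sum_comm
  simp only [Finset.sum_add_distrib, e, Op.tb2N1, tb2N0] at h1
  have hE : 0 ≤ S.tb2E k v := Finset.sum_nonneg fun _ _ => en_nonneg _ _
  have a1 := Real.sq_sqrt hE
  have a2 := Real.sq_sqrt (en_nonneg k v)
  have hl := S.pos
  simp only [ip]
  generalize ∑ c, ∑ w ∈ wd d k, I (dw w (v c) * dw w (S.rhs v c)) = T at h1 ⊢
  rw [← a1] at h1
  rw [← a2]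
  rw [Real.sqrt_sq (Real.sqrt_nonneg _)] at h1
  generalize √(S.tb2E k v) = y at h1
  generalize √(en k v) = x at h1
  have a3 : C * (1 + x) * y ≤ S.lam * y ^ 2 + C ^ 2 / S.lam * (1 + x) ^ 2 := by
    have : S.lam * y ^ 2 + C ^ 2 / S.lam * (1 + x) ^ 2 - C * (1 + x) * y =
        ((S.lam * y - C * (1 + x) / 2) ^ 2 + 3 / 4 * (C * (1 + x)) ^ 2) / S.lam := by
      field_simp; ring
    have h2 : 0 ≤ ((S.lam * y - C * (1 + x) / 2) ^ 2 + 3 / 4 * (C * (1 + x)) ^ 2) / S.lam := by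
      positivity
    linarith
  have a4 : (C + C ^ 2 / S.lam) * (1 + x) ^ 2 ≤ (C + C ^ 2 / S.lam) * (2 * (1 + x ^ 2)) :=
    mul_le_mul_of_nonneg_left (by nlinarith [sq_nonneg (x - 1)]) (by positivity)
  nlinarith

end Pool.Agent.Lib.MP_de485e_gt.Ex
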