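import Pool.Agent.Lib.MP_de485e_gt.Ex.TDef

/-! The operator as a smooth function of jets; a cut off inverse of matrices. -/

open Set
open scoped ContDiff

namespace Pool.Agent.Lib.MP_de485e_gt.Ex

variable {d : Type} [Fintype d] [DecidableEq d] {ι : Type} [Fintype ι]

theorem Op.exists_psi (S : Op d ι) : ∃ Ψ : ι → (d → ℝ) × Jt d ι → ℝ,
    (∀ c, ContDiff ℝ ∞ (Ψ c)) ∧ ∀ v c x, (S.rhs v c).1 x = Ψ c (x, jet v x) := by
  have hu : ∀ u : Tr d, ContDiff ℝ ∞ fun p : (d → ℝ) × Jt d ι => u.1 p.1 := fun u =>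
    u.smooth.comp contDiff_fst
  let V : ι → ι → (d → ℝ) × Jt d ι → ℝ := fun a c p => ∑ i, (S.X a i).1 p.1 * p.2.2.1 i c
  have hV : ∀ a c, ContDiff ℝ ∞ (V a c) := fun a c =>
    ContDiff.sum fun i _ => (hu _).mul (by fun_prop)
  refine ⟨fun c p => ∑ a, ∑ b, S.Φ a b (fun s => ∑ e, V s.1 e p * V s.2 e p + (S.K s.1 s.2).1 p.1) *
    (∑ i, (S.X a i).1 p.1 * ∑ l, ((S.X b l).1 p.1 * p.2.2.2 i l c +
      p.2.2.1 l c * (pd i (S.X b l)).1 p.1)) + S.c * p.2.1 c, fun c => ?_, fun v c x => ?_⟩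
  · refine ContDiff.add (ContDiff.sum fun a _ => ContDiff.sum fun b _ => ContDiff.mul
      ((S.sm a b).comp (contDiff_pi.2 fun s =>
        (ContDiff.sum fun e _ => (hV _ _).mul (hV _ _)).add (hu _)))
      (ContDiff.sum fun i _ => (hu _).mul (ContDiff.sum fun l _ =>
        ((hu _).mul (by fun_prop)).add (ContDiff.mul (by fun_prop) (hu _))))) (by fun_prop)
  · have e : ∀ a b, evx x (S.co v a b) = S.Φ a b fun s => evx x (S.mm v s) := fun _ _ => rfl
    rw [← evx_apply]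
    simp only [Op.rhs, Op.mm, vf, map_add, map_sum, map_mul, map_smul, e, Derivation.leibniz,
      smul_eq_mul]
    rfl

theorem exists_phi (ι : Type) [Fintype ι] [DecidableEq ι] :
    ∃ (Φ : ι → ι → (ι × ι → ℝ) → ℝ) (lam δ : ℝ), 0 < lam ∧ 0 < δ ∧
      (∀ a b, ContDiff ℝ ∞ (Φ a b)) ∧
      (∀ m (ξ : ι → ℝ), lam * ∑ a, ξ a ^ 2 ≤ ∑ a, ∑ b, Φ a b m * ξ a * ξ b) ∧
      ∀ m : ι × ι → ℝ, (∀ a b, |m (a, b) - if a = b then 1 else 0| < δ) →
        ∀ a c, ∑ b, m (a, b) * Φ b c m = if a = c then 1 else 0 := by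
  let R := EuclideanSpace ℝ ι →L[ℝ] EuclideanSpace ℝ ι
  let e : Matrix ι ι ℝ ≃⋆ₐ[ℝ] R := Matrix.toEuclideanCLM (𝕜 := ℝ)
  let op : (ι × ι → ℝ) →L[ℝ] R := LinearMap.toContinuousLinearMap
    { toFun := fun m => e (Matrix.of fun a b => m (a, b))
      map_add' := fun m m' => by rw [← map_add]; rfl
      map_smul' := fun r m => by rw [RingHom.id_apply, ← map_smul]; rfl }
  have hop : ∀ m, op m = e (Matrix.of fun a b => m (a, b)) := fun _ => rfl
  let en : ι → ι → R →L[ℝ] ℝ := fun a b => LinearMap.toContinuousLinearMap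
    { toFun := fun L => e.symm L a b
      map_add' := fun m m' => by rw [map_add]; rfl
      map_smul' := fun r m => by rw [map_smul]; rfl }
  let o : ι × ι → ℝ := fun s => if s.1 = s.2 then 1 else 0
  have ho : op o = 1 := by
    rw [hop, ← map_one e]
    congr 1
  have h0 : 0 < 2 * (‖op‖ + 1) := by positivity
  let χ : ContDiffBump o := ⟨1 / (2 * (‖op‖ + 1)) / 2, 1 / (2 * (‖op‖ + 1)), by positivity,
    half_lt_self (by positivity)⟩
  let T : (ι × ι → ℝ) → R := fun m => op (χ m • (o - m))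
  have hT : ∀ m, ‖T m‖ ≤ 1 / 2 := fun m => by
    have h1 : ‖T m‖ ≤ ‖op‖ * ‖χ m • (o - m)‖ := op.le_opNorm _
    rw [norm_smul, Real.norm_of_nonneg (χ.nonneg' m)] at h1
    rcases le_total χ.rOut (dist m o) with h | h
    · rw [χ.zero_of_le_dist h] at h1
      linarith
    · rw [dist_comm, dist_eq_norm, le_div_iff₀ h0] at h
      have h2 : χ m * (‖op‖ * ‖o - m‖) ≤ 1 * (‖op‖ * ‖o - m‖) :=
        mul_le_mul_of_nonneg_right χ.le_one (by positivity)
      nlinarith [norm_nonneg (o - m)]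
  have hU : ∀ m, IsUnit (1 - T m) := fun m => (Units.oneSub (T m) (by linarith [hT m])).isUnit
  have hs : ContDiff ℝ ∞ fun m => 1 - T m :=
    contDiff_const.sub (op.contDiff.comp (χ.contDiff.smul (contDiff_const.sub contDiff_id)))
  refine ⟨fun a b m => en a b (Ring.inverse (1 - T m)), 2 / 9, χ.rIn, by norm_num, χ.rIn_pos,
    fun a b => (en a b).contDiff.comp (contDiff_iff_contDiffAt.2 fun m => ?_), fun m ξ => ?_,
    fun m hm a c => ?_⟩
  · refine ContDiffAt.comp m (g := Ring.inverse) ?_ hs.contDiffAt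
    obtain ⟨u, hu⟩ := hU m
    exact hu ▸ contDiffAt_ringInverse ℝ u
  · set B := Ring.inverse (1 - T m) with hB
    set z : EuclideanSpace ℝ ι := WithLp.toLp 2 ξ with hz
    have h1 : ∑ a, ∑ b, en a b B * ξ a * ξ b = inner ℝ z (B z) := by
      rw [← e.apply_symm_apply B, Matrix.inner_toEuclideanCLM, e.apply_symm_apply]
      simp only [dotProduct, Matrix.mulVec, Finset.mul_sum]
      exact Finset.sum_congr rfl fun a _ => Finset.sum_congr rfl fun b _ => by
        change e.symm B a b * ξ a * ξ b = ξ a * (e.symm B a b * ξ b)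
        ring
    have h2 : z = B z - T m (B z) :=
      (congrArg (fun L : R => L z) (Ring.mul_inverse_cancel _ (hU m))).symm
    have h3 : ‖T m (B z)‖ ≤ 1 / 2 * ‖B z‖ := (T m).le_of_opNorm_le (hT m) _
    have h4 : inner ℝ z (B z) = ‖B z‖ ^ 2 - inner ℝ (T m (B z)) (B z) := by
      conv_lhs => rw [h2, inner_sub_left, ← h2, real_inner_self_eq_norm_sq]
    have h5 := real_inner_le_norm (T m (B z)) (B z)
    have h6 : ‖z‖ ≤ ‖B z‖ + ‖T m (B z)‖ := by
      conv_lhs => rw [h2]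
      exact norm_sub_le _ _
    have h7 : ‖z‖ ^ 2 = ∑ a, ξ a ^ 2 := EuclideanSpace.real_norm_sq_eq z
    rw [h1, h4, ← h7]
    nlinarith [norm_nonneg z, norm_nonneg (B z)]
  · have h1 : χ m = 1 := χ.one_of_mem_closedBall ((dist_pi_le_iff χ.rIn_pos.le).2 fun s =>
      (hm s.1 s.2).le)
    have h2 : 1 - T m = op m := by simp [T, h1, ho]
    have h3 := congrArg e.symm (Ring.mul_inverse_cancel _ (hU m))
    rw [map_mul, map_one] at h3
    have h4 := congrFun (congrFun h3 a) c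
    rw [Matrix.mul_apply, Matrix.one_apply] at h4
    rw [← h4]
    have h5 : e.symm (1 - T m) = Matrix.of fun a b => m (a, b) := by
      rw [h2, hop, e.symm_apply_apply]
    rw [h5]
    rfl

end Pool.Agent.Lib.MP_de485e_gt.Ex
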