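import Pool.Agent.Lib.MP_de485e_gt.Ex.TA3
import Pool.Agent.Lib.MP_de485e_gt.Ex.TB3

/-! The projected equation is an ordinary differential equation. -/

open Set
open scoped ContDiff

namespace Pool.Agent.Lib.MP_de485e_gt.Ex

variable {d : Type} [Fintype d] [DecidableEq d] {ι : Type} [Fintype ι]

theorem tc1_loc {E : Type} [NormedAddCommGroup E] [NormedSpace ℝ E] [CompleteSpace E] {V : E → E}
    {M K : NNReal} (hM : ∀ z, ‖V z‖ ≤ M) (hK : LipschitzWith K V) (x : E) :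
    ∃ α : ℝ → E, α 0 = x ∧ ∀ t ∈ Icc (0 : ℝ) 1, HasDerivAt α (V (α t)) t := by
  have hp : IsPicardLindelof (fun _ => V) (tmin := -2) (tmax := 2)
      ⟨0, by constructor <;> norm_num⟩ x (M * 2) 0 M K :=
    IsPicardLindelof.of_time_independent (fun z _ => hM z) hK.lipschitzOnWith (by simp)
  obtain ⟨α, h0, hα⟩ := hp.exists_eq_forall_mem_Icc_hasDerivWithinAt₀
  exact ⟨α, h0, fun t ht => (hα t ⟨by linarith [ht.1], by linarith [ht.2]⟩).hasDerivAt
    (Icc_mem_nhds (by linarith [ht.1]) (by linarith [ht.2]))⟩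

omit [DecidableEq d] in
theorem tc1_int {W : Type} [NormedAddCommGroup W] [NormedSpace ℝ W] {H : W × (d → ℝ) → ℝ}
    (h : ContDiff ℝ 1 H) (hc : HasCompactSupport H) : ∃ M K : NNReal,
      (∀ b, ‖∫ x in Icc (0 : d → ℝ) 1, H (b, x)‖ ≤ M) ∧
      LipschitzWith K fun b => ∫ x in Icc (0 : d → ℝ) 1, H (b, x) := by
  obtain ⟨K, hK⟩ := h.lipschitzWith_of_hasCompactSupport hc one_ne_zero
  obtain ⟨M, hM⟩ := h.continuous.bounded_above_of_compact_support hc
  have v : (MeasureTheory.volume : MeasureTheory.Measure (d → ℝ)).real (Icc 0 1) = 1 := by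
    simp [MeasureTheory.Measure.real, Real.volume_Icc_pi]
  have i : ∀ b, MeasureTheory.IntegrableOn (fun x => H (b, x)) (Icc (0 : d → ℝ) 1) := fun b =>
    (h.continuous.comp (by fun_prop)).continuousOn.integrableOn_compact isCompact_Icc
  refine ⟨⟨M, (norm_nonneg _).trans (hM 0)⟩, K, fun b => ?_,
    LipschitzWith.of_dist_le_mul fun b b' => ?_⟩
  · exact (MeasureTheory.norm_setIntegral_le_of_norm_le_const (C := M)
      isCompact_Icc.measure_lt_top fun x _ => hM (b, x)).trans (by rw [v, mul_one]; rfl)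
  · rw [dist_eq_norm, ← MeasureTheory.integral_sub (i b) (i b')]
    refine (MeasureTheory.norm_setIntegral_le_of_norm_le_const (C := K * dist b b')
      isCompact_Icc.measure_lt_top fun x _ => ?_).trans (by rw [v, mul_one])
    simpa [dist_eq_norm, Prod.norm_def] using hK.dist_le_mul (b, x) (b', x)

/-- The inner product as a linear map. -/
noncomputable def tc1_ip (k : ℕ) (u : Tr d) : Tr d →ₗ[ℝ] ℝ where
  toFun := ip k u
  map_add' := ip_add_right k u
  map_smul' r v := ip_smul_right k u v r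

/-- Synthesis. -/
noncomputable def tc1_syn (G : Gal d) (N : ℕ) (a : ι → G.κ N → ℝ) (c : ι) : Tr d :=
  ∑ i, a c i • G.e N i

omit [Fintype ι] in
theorem tc1_lin (G : Gal d) (N : ℕ) (a : ι → G.κ N → ℝ) (c : ι) (A : Tr d →ₗ[ℝ] ℝ) :
    A (tc1_syn G N a c) = ∑ i, a c i * A (G.e N i) := by
  simp [tc1_syn]

omit [Fintype ι] in
theorem tc1_pr (G : Gal d) (N : ℕ) (a : ι → G.κ N → ℝ) (c : ι) :
    G.pr N (tc1_syn G N a c) = tc1_syn G N a c := by
  simp [tc1_syn, G.pr_e]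

theorem tc1_cd (G : Gal d) (N : ℕ) (c : ι) (L : Tr d →ₗ[ℝ] Tr d) :
    ContDiff ℝ 1 fun p : (ι → G.κ N → ℝ) × (d → ℝ) => (L (tc1_syn G N p.1 c)).1 p.2 := by
  have : (fun p : (ι → G.κ N → ℝ) × (d → ℝ) => (L (tc1_syn G N p.1 c)).1 p.2)
      = fun p => ∑ i, p.1 c i * (L (G.e N i)).1 p.2 :=
    funext fun p => tc1_lin G N p.1 c ((evx p.2).toLinearMap ∘ₗ L)
  rw [this]
  exact ContDiff.sum fun i _ => ContDiff.mul (by fun_prop)
    (((L (G.e N i)).smooth.of_le (by simp)).comp contDiff_snd)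

theorem tc1_field (S : Op d ι) (G : Gal d) (N : ℕ) (R : ℝ) :
    ∃ (F : (ι → G.κ N → ℝ) → ι → G.κ N → ℝ) (M K : NNReal), (∀ b, ‖F b‖ ≤ M) ∧ LipschitzWith K F ∧
      ∀ b, ‖b‖ ≤ R → ∀ c i, F b c i = I (G.e N i * S.rhs (tc1_syn G N b) c) := by
  obtain ⟨Ψ, hΨ, e⟩ := S.exists_psi
  let β : ContDiffBump (0 : (ι → G.κ N → ℝ) × (d → ℝ)) :=
    ⟨max R 1, max R 1 + 1, by positivity, by linarith⟩
  have hj : ContDiff ℝ 1 fun p : (ι → G.κ N → ℝ) × (d → ℝ) => jet (tc1_syn G N p.1) p.2 :=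
    (contDiff_pi.2 fun c => tc1_cd G N c LinearMap.id).prodMk
      ((contDiff_pi.2 fun i => contDiff_pi.2 fun c => tc1_cd G N c (pd i).toLinearMap).prodMk
        (contDiff_pi.2 fun i => contDiff_pi.2 fun l => contDiff_pi.2 fun c =>
          tc1_cd G N c ((pd i).toLinearMap ∘ₗ (pd l).toLinearMap)))
  choose M K hM hK using fun c i => tc1_int
    (H := fun p => β p * ((G.e N i).1 p.2 * Ψ c (p.2, jet (tc1_syn G N p.1) p.2)))
    (β.contDiff.mul ((((G.e N i).smooth.of_le (by simp)).comp contDiff_snd).mul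
      (((hΨ c).of_le (by simp)).comp (contDiff_snd.prodMk hj)))) β.hasCompactSupport.mul_right
  refine ⟨fun b c i => ∫ x in Icc (0 : d → ℝ) 1,
    β (b, x) * ((G.e N i).1 x * Ψ c (x, jet (tc1_syn G N b) x)), ‖fun c i => (M c i : ℝ)‖₊, ‖fun c i => (K c i : ℝ)‖₊, fun b => ?_,
    LipschitzWith.of_dist_le_mul fun b b' => ?_, fun b hb c i => ?_⟩
  · refine (pi_norm_le_iff_of_nonneg (by positivity)).2 fun c =>
      (pi_norm_le_iff_of_nonneg (by positivity)).2 fun i => (hM c i b).trans ?_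
    exact (le_abs_self _).trans ((norm_le_pi_norm (fun i => (M c i : ℝ)) i).trans
      (norm_le_pi_norm (fun c i => (M c i : ℝ)) c))
  · refine (dist_pi_le_iff (by positivity)).2 fun c => (dist_pi_le_iff (by positivity)).2 fun i =>
      ((hK c i).dist_le_mul b b').trans (mul_le_mul_of_nonneg_right ?_ dist_nonneg)
    exact (le_abs_self _).trans ((norm_le_pi_norm (fun i => (K c i : ℝ)) i).trans
      (norm_le_pi_norm (fun c i => (K c i : ℝ)) c))
  · refine MeasureTheory.setIntegral_congr_fun measurableSet_Icc fun x hx => ?_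
    have : β (b, x) = 1 := β.one_of_mem_closedBall (by
      rw [mem_closedBall_zero_iff, Prod.norm_def]
      refine max_le_max hb ((pi_norm_le_iff_of_nonneg zero_le_one).2 fun l => ?_)
      exact (abs_le.2 ⟨le_trans (by simp) (hx.1 l), hx.2 l⟩ :))
    simp only [this, one_mul, ← e]
    rfl

theorem gal_ode (S : Op d ι) (G : Gal d) (u₀ : ι → Tr d) (N : ℕ) (ρ : ℝ) :
    ∃ v v' : ℝ → ι → Tr d, (∀ c, v 0 c = G.pr N (u₀ c)) ∧ (∀ t c, G.pr N (v t c) = v t c) ∧
      (∀ t, en 0 (v t) ≤ ρ → ∀ c, v' t c = G.pr N (S.rhs (v t) c)) ∧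
      (∀ (A : Tr d →ₗ[ℝ] ℝ) c, ∀ t ∈ Icc (0 : ℝ) 1,
        HasDerivAt (fun s => A (v s c)) (A (v' t c)) t) ∧
      ∀ k, ∀ t ∈ Icc (0 : ℝ) 1,
        HasDerivAt (fun s => en k (v s)) (2 * ∑ c, ip k (v t c) (v' t c)) t := by
  obtain ⟨F, M, K, hM, hK, hF⟩ := tc1_field S G N ((∑ i, n0 (G.e N i)) * √ρ)
  let A : (ι → G.κ N → ℝ) → ι → G.κ N → ℝ := fun a c i => I (G.e N i * tc1_syn G N a c)
  have sA : ∀ a, tc1_syn G N (A a) = tc1_syn G N a := fun a => funext fun c =>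
    (G.pr_eq N _).symm.trans (tc1_pr G N a c)
  obtain ⟨L, hL⟩ : ∃ L, LipschitzWith L A := by
    let A' : (ι → G.κ N → ℝ) →ₗ[ℝ] ι → G.κ N → ℝ :=
      { toFun := A
        map_add' := fun a b => by
          ext c i; simp [A, tc1_syn, add_smul, Finset.sum_add_distrib, mul_add]
        map_smul' := fun r a => by
          ext c i; simp [A, tc1_syn, Finset.mul_sum, mul_assoc] }
    exact ⟨_, A'.toContinuousLinearMap.lipschitz⟩
  obtain ⟨α, h0, hα⟩ := tc1_loc (V := F ∘ A) (fun z => hM _) (hK.comp hL)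
    fun c i => I (G.e N i * u₀ c)
  have hc : ∀ c i, ∀ t ∈ Icc (0 : ℝ) 1, HasDerivAt (fun s => α s c i) (F (A (α t)) c i) t :=
    fun c i t ht => hasDerivAt_pi.1 (hasDerivAt_pi.1 (hα t ht) c) i
  have hd : ∀ (B : Tr d →ₗ[ℝ] ℝ) c, ∀ t ∈ Icc (0 : ℝ) 1, HasDerivAt
      (fun s => B (tc1_syn G N (α s) c)) (B (tc1_syn G N (F (A (α t))) c)) t := fun B c t ht => by
    simp only [tc1_lin]
    exact HasDerivAt.fun_sum fun i _ => (hc c i t ht).mul_const _
  refine ⟨fun t => tc1_syn G N (α t), fun t => tc1_syn G N (F (A (α t))), fun c => ?_,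
    fun t c => tc1_pr G N _ c, fun t ht c => ?_, hd, fun k t ht => ?_⟩
  · simp only [G.pr_eq, h0]; rfl
  · have : ‖A (α t)‖ ≤ (∑ i, n0 (G.e N i)) * √ρ := by
      have p : 0 ≤ (∑ i, n0 (G.e N i)) * √ρ :=
        mul_nonneg (Finset.sum_nonneg fun i _ => n0_nonneg _) (Real.sqrt_nonneg _)
      refine (pi_norm_le_iff_of_nonneg p).2 fun c => (pi_norm_le_iff_of_nonneg p).2 fun i =>
        (abs_I_mul_le _ _).trans (mul_le_mul
          (Finset.single_le_sum (fun i _ => n0_nonneg (G.e N i)) (Finset.mem_univ i))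
          ((n0_dw_le (k := 0) (w := []) le_rfl _).trans
            (Real.sqrt_le_sqrt ((ip_le_en 0 _ c).trans ht))) (n0_nonneg _)
          (Finset.sum_nonneg fun i _ => n0_nonneg _))
    rw [G.pr_eq]
    exact Finset.sum_congr rfl fun i _ => by rw [hF _ this, sA]
  · have e : ∀ (a : ι → G.κ N → ℝ) c (u : Tr d),
        ip k (tc1_syn G N a c) u = ∑ i, a c i * tc1_ip k (G.e N i) u := fun a c u => by
      rw [ip_comm]
      refine (tc1_lin G N a c (tc1_ip k u)).trans (Finset.sum_congr rfl fun i _ => ?_)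
      exact congrArg _ (ip_comm _ _ _)
    rw [Finset.mul_sum]
    refine HasDerivAt.fun_sum fun c _ => ?_
    rw [two_mul]
    nth_rewrite 1 [ip_comm]
    simp only [e, ← Finset.sum_add_distrib]
    exact HasDerivAt.fun_sum fun i _ => (hc c i t ht).fun_mul (hd _ c t ht)

end Pool.Agent.Lib.MP_de485e_gt.Ex
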