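import Pool.Agent.Lib.MP_de485e_gt.Ex.TB2
import Pool.Agent.Lib.MP_de485e_gt.Ex.TC1

/-! Approximate solutions on a common interval with uniform bounds. -/

open Set
open scoped ContDiff

namespace Pool.Agent.Lib.MP_de485e_gt.Ex

variable {d : Type} [Fintype d] [DecidableEq d] {ι : Type} [Fintype ι]

theorem galerkin (S : Op d ι) (G : Gal d) (u₀ : ι → Tr d) :
    ∃ T, 0 < T ∧ ∃ v : ℕ → ℝ → ι → Tr d, (∀ N c, v N 0 c = G.pr N (u₀ c)) ∧
      (∀ N (A : Tr d →ₗ[ℝ] ℝ) c, ∀ t ∈ Icc 0 T,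
        HasDerivAt (fun s => A (v N s c)) (A (G.pr N (S.rhs (v N t) c))) t) ∧
      ∀ k, ∃ C, ∀ N, ∀ t ∈ Icc 0 T, en k (v N t) ≤ C := by
  obtain ⟨E, hE⟩ : ∃ E, E = en (2 * G.m + 4) u₀ := ⟨_, rfl⟩
  have E0 : 0 ≤ E := hE ▸ en_nonneg _ _
  obtain ⟨B, hB⟩ := G.cb_of_en (ι := ι) (G.m + 2 + 1) (E + 1)
  obtain ⟨C, hC⟩ := S.energy (k := 2 * G.m + 4) (j := G.m + 2) (by omega) (by omega) B
  obtain ⟨K, hK⟩ : ∃ K, K = 2 * |C| * (2 + E) + 1 := ⟨_, rfl⟩
  have K1 : 1 ≤ K := by rw [hK]; linarith [show 0 ≤ 2 * |C| * (2 + E) by positivity]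
  choose v v' h0 hp hr hA hen using fun N => gal_ode S G u₀ N (E + 1)
  have sub : Icc 0 K⁻¹ ⊆ Icc (0 : ℝ) 1 := Icc_subset_Icc_right (inv_le_one_of_one_le₀ K1)
  have st : ∀ k N, en k (v N 0) ≤ en k u₀ := fun k N =>
    Finset.sum_le_sum fun c _ => by rw [h0]; exact G.ip_pr_le N k _
  have eq : ∀ k N t, en (2 * G.m + 4) (v N t) ≤ E + 1 →
      ∑ c, ip k (v N t c) (v' N t c) = ∑ c, ip k (v N t c) (S.rhs (v N t) c) := fun k N t h =>
    Finset.sum_congr rfl fun c _ => by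
      rw [hr N t ((en_mono (Nat.zero_le _) _).trans h), ← G.ip_pr, hp]
  have fen : ∀ k N (b b' : ℝ → ℝ), en k u₀ ≤ b 0 → (∀ t, HasDerivAt b (b' t) t) →
      (∀ t ∈ Ico 0 K⁻¹, en k (v N t) = b t → 2 * ∑ c, ip k (v N t c) (v' N t c) < b' t) →
      ∀ t ∈ Icc 0 K⁻¹, en k (v N t) ≤ b t := fun k N b b' a1 a2 a3 t ht =>
    image_le_of_deriv_right_lt_deriv_boundary (f := fun s => en k (v N s))
      (fun s hs => (hen N k s (sub hs)).continuousAt.continuousWithinAt)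
      (fun s hs => (hen N k s (sub (Ico_subset_Icc_self hs))).hasDerivWithinAt)
      ((st k N).trans a1) a2 a3 ht
  have lin : ∀ t ∈ Icc 0 K⁻¹, E + K * t ≤ E + 1 := fun t ht => by
    have := mul_le_mul_of_nonneg_left ht.2 (zero_le_one.trans K1)
    rw [mul_inv_cancel₀ (by positivity)] at this
    linarith
  have base : ∀ N, ∀ t ∈ Icc 0 K⁻¹, en (2 * G.m + 4) (v N t) ≤ E + 1 := fun N t ht => by
    refine (fen _ N (fun s => E + K * s) (fun _ => K) (by simp [hE]) (fun s => ?_)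
      (fun s hs e => ?_) t ht).trans (lin t ht)
    · simpa using ((hasDerivAt_id s).const_mul K).const_add E
    · have a := e.le.trans (lin s (Ico_subset_Icc_self hs))
      have b := hC _ (hB _ ((en_mono (by omega) _).trans a))
      have c : C * (1 + en (2 * G.m + 4) (v N s)) ≤ |C| * (2 + E) :=
        mul_le_mul (le_abs_self _) (by linarith) (by linarith [en_nonneg (2 * G.m + 4) (v N s)])
          (abs_nonneg _)
      rw [eq _ N s a, hK]
      linarith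
  refine ⟨K⁻¹, by positivity, v, h0, fun N A c t ht => ?_, fun k => ?_⟩
  · rw [← hr N t ((en_mono (Nat.zero_le _) _).trans (base N t ht))]
    exact hA N A c t (sub ht)
  suffices h : ∀ n, ∃ C, ∀ N, ∀ t ∈ Icc 0 K⁻¹, en (2 * G.m + 4 + n) (v N t) ≤ C by
    obtain ⟨C, h⟩ := h k
    exact ⟨C, fun N t ht => (en_mono (by omega) _).trans (h N t ht)⟩
  intro n
  induction n with
  | zero => exact ⟨_, base⟩
  | succ n ih =>
    obtain ⟨D, hD⟩ := ih
    obtain ⟨B', hB'⟩ := G.cb_of_en (ι := ι) (G.m + 3 + n + 1) D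
    obtain ⟨C', hC'⟩ := S.energy (k := 2 * G.m + 4 + (n + 1)) (j := G.m + 3 + n) (by omega)
      (by omega) B'
    obtain ⟨F, hF⟩ : ∃ F, F = 1 + en (2 * G.m + 4 + (n + 1)) u₀ := ⟨_, rfl⟩
    have F0 : 0 < F := by rw [hF]; linarith [en_nonneg (2 * G.m + 4 + (n + 1)) u₀]
    refine ⟨F * Real.exp ((2 * |C'| + 1) * K⁻¹), fun N t ht => ?_⟩
    refine (fen _ N (fun s => F * Real.exp ((2 * |C'| + 1) * s) - 1)
      (fun s => F * (Real.exp ((2 * |C'| + 1) * s) * (2 * |C'| + 1))) (by simp [hF]) (fun s => ?_)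
      (fun s hs e => ?_) t ht).trans ?_
    · simpa using ((((hasDerivAt_id s).const_mul (2 * |C'| + 1)).exp).const_mul F).sub_const 1
    · have hs' := Ico_subset_Icc_self hs
      have b := hC' _ (hB' _ ((en_mono (by omega) _).trans (hD N s hs')))
      have p : 0 < F * Real.exp ((2 * |C'| + 1) * s) := by positivity
      rw [eq _ N s (base N s hs')]
      rw [e] at b
      nlinarith [mul_le_mul_of_nonneg_right (le_abs_self C') p.le]
    · have : F * Real.exp ((2 * |C'| + 1) * t) ≤ F * Real.exp ((2 * |C'| + 1) * K⁻¹) := by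
        gcongr; exact ht.2
      linarith

end Pool.Agent.Lib.MP_de485e_gt.Ex
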