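import Pool.Agent.Lib.MP_de485e_gt.Ex.TA2
import Pool.Agent.Lib.MP_de485e_gt.Ex.TC2
import Pool.Agent.Lib.MP_de485e_gt.Ex.Boot3

/-! The limit of the approximate solutions. -/

open Set Filter Topology
open scoped ContDiff

namespace Pool.Agent.Lib.MP_de485e_gt.Ex

variable {d : Type} [Fintype d] [DecidableEq d] {ι : Type} [Fintype ι]

theorem sw_eq_dw (w : List d) (u : Tr d) : sw (Pi.basisFun ℝ d) w u.1 = (dw w u).1 := by
  induction w generalizing u with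
  | nil => rfl
  | cons i w ih =>
    rw [dw_cons, ← ih]
    change sw _ w (fun y => fderiv ℝ u.1 y (Pi.basisFun ℝ d i)) =
      sw _ w fun y => fderiv ℝ u.1 y (Pi.single i 1)
    rw [Pi.basisFun_apply]

theorem td1_lim (l : Ultrafilter ℕ) (f : ℕ → Tr d)
    (hb : ∀ w : List d, ∃ C, ∀ N x, |(dw w (f N)).1 x| ≤ C) :
    ∃ u : Tr d, ∀ w x, Tendsto (fun N => (dw w (f N)).1 x) l (𝓝 ((dw w u).1 x)) := by
  have h1 : ∀ (w : List d) x, ∃ g : ℝ, Tendsto (fun N => (dw w (f N)).1 x) l (𝓝 g) := by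
    intro w x
    obtain ⟨C, hC⟩ := hb w
    obtain ⟨g, -, hg⟩ := (isCompact_Icc (a := -C) (b := C)).ultrafilter_le_nhds
      (l.map fun N => (dw w (f N)).1 x)
      (le_principal_iff.2 (mem_map.2 (univ_mem' fun N => abs_le.1 (hC N x))))
    exact ⟨g, hg⟩
  choose g hg using h1
  have h2 := lim_fam (Pi.basisFun ℝ d) isOpen_univ (l := l) (f := fun N => (f N).1) (g := g)
    (Eventually.of_forall fun N => (f N).smooth.contDiffOn)
    (fun w => (hb w).imp fun C hC => Eventually.of_forall fun N y _ => by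
      rw [sw_eq_dw]; exact hC N y)
    (fun w y _ => by simpa only [sw_eq_dw] using hg w y)
  obtain ⟨h3, h4⟩ := sw_of_fam (Pi.basisFun ℝ d) isOpen_univ h2
  have hp : ∀ i x, g [] (x + Pi.single i 1) = g [] x := fun i x =>
    tendsto_nhds_unique (hg [] _) ((hg [] x).congr fun N => ((dw [] (f N)).per i x).symm)
  refine ⟨⟨g [], contDiffOn_univ.1 h3, hp⟩, fun w x => ?_⟩
  rw [← sw_eq_dw]
  change Tendsto _ _ (𝓝 (sw _ w (g []) x))
  rw [h4 w (mem_univ x)]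
  exact hg w x

theorem td1_der {l : Filter ℕ} [l.NeBot] {J : Set ℝ} (hJ : Convex ℝ J) {f f' : ℕ → ℝ → ℝ}
    {g : ℝ → ℝ} {t a : ℝ} (ht : t ∈ J) (hd : ∀ N, ∀ s ∈ J, HasDerivAt (f N) (f' N s) s)
    (hg : ∀ s ∈ J, Tendsto (fun N => f N s) l (𝓝 (g s)))
    (ha : ∀ ε > 0, ∃ r > 0, ∀ᶠ N in l, ∀ s ∈ J, |s - t| < r → |f' N s - a| ≤ ε) :
    HasDerivWithinAt g a J t := by
  rw [hasDerivWithinAt_iff_isLittleO, Asymptotics.isLittleO_iff]
  intro ε hε
  obtain ⟨r, hr, h⟩ := ha ε hε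
  filter_upwards [inter_mem_nhdsWithin J (Metric.ball_mem_nhds t hr)] with s hs
  have h1 : Tendsto (fun N => ‖f N s - f N t - (s - t) • a‖) l (𝓝 ‖g s - g t - (s - t) • a‖) :=
    (((hg s hs.1).sub (hg t ht)).sub_const _).norm
  refine le_of_tendsto h1 (h.mono fun N hN => ?_)
  have h2 := Convex.norm_image_sub_le_of_norm_hasDerivWithin_le
    (f := fun σ => f N σ - σ * a) (f' := fun σ => f' N σ - a) (C := ε) (s := J ∩ Metric.ball t r)
    (fun σ hσ => ((hd N σ hσ.1).sub (hasDerivAt_mul_const a)).hasDerivWithinAt)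
    (fun σ hσ => hN σ hσ.1 hσ.2) (hJ.inter (convex_ball t r)) ⟨ht, Metric.mem_ball_self hr⟩ hs
  have e : f N s - f N t - (s - t) • a = f N s - s * a - (f N t - t * a) := by
    rw [smul_eq_mul]; ring
  rw [e]
  exact h2

theorem td1_jet_le {v v' : ι → Tr d} {x : d → ℝ} {r : ℝ} (hr : 0 ≤ r)
    (h : ∀ c (w : List d), w.length ≤ 2 → |(dw w (v c)).1 x - (dw w (v' c)).1 x| ≤ r) :
    dist (jet v x) (jet v' x) ≤ r := by
  simp only [jet, Prod.dist_eq, max_le_iff, dist_pi_le_iff hr, Real.dist_eq]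
  exact ⟨fun c => h c [] (by simp), fun i c => h c [i] (by simp), fun i l c => h c [l, i] (by simp)⟩

omit [Fintype ι] in
theorem td1_jet_lim {l : Filter ℕ} {v : ℕ → ι → Tr d} {u : ι → Tr d} {x : d → ℝ}
    (h : ∀ c (w : List d), Tendsto (fun N => (dw w (v N c)).1 x) l (𝓝 ((dw w (u c)).1 x))) :
    Tendsto (fun N => jet (v N) x) l (𝓝 (jet u x)) :=
  (tendsto_pi_nhds.2 fun c => h c []).prodMk_nhds
    ((tendsto_pi_nhds.2 fun i => tendsto_pi_nhds.2 fun c => h c [i]).prodMk_nhds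
      (tendsto_pi_nhds.2 fun i => tendsto_pi_nhds.2 fun j => tendsto_pi_nhds.2 fun c => h c [j, i]))

theorem gal_limit (S : Op d ι) (u₀ : ι → Tr d) :
    ∃ T, 0 < T ∧ ∃ u : ℝ → ι → Tr d, u 0 = u₀ ∧
      (∀ c, Cm (Pi.basisFun ℝ d) (Icc 0 T) univ 0 fun t => (u t c).1) ∧
      ∀ t ∈ Icc 0 T, ∀ c x,
        HasDerivWithinAt (fun s => (u s c).1 x) ((S.rhs (u t) c).1 x) (Icc 0 T) t := by
  obtain ⟨G⟩ := exists_gal d
  obtain ⟨T, hT, v, h0, hd, hE⟩ := galerkin S G u₀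
  have hB : ∀ k, ∃ B, ∀ N, ∀ t ∈ Icc 0 T, CB k (v N t) B := fun k => by
    obtain ⟨C, hC⟩ := hE (k + G.m)
    obtain ⟨B, hB⟩ := G.cb_of_en (ι := ι) k C
    exact ⟨B, fun N t ht => hB _ (hC N t ht)⟩
  have hR : ∀ k, ∃ B, ∀ N, ∀ t ∈ Icc 0 T, CB k (S.rhs (v N t)) B := fun k => by
    obtain ⟨B, hB⟩ := hB (k + 2)
    obtain ⟨C, hC⟩ := S.rhs_cb k B
    exact ⟨C, fun N t ht => hC _ (hB N t ht)⟩
  have hP : ∀ k, ∃ B, ∀ N, ∀ t ∈ Icc 0 T, CB k (fun c => G.pr N (S.rhs (v N t) c)) B := fun k => by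
    obtain ⟨B, hB⟩ := hR (k + G.m)
    obtain ⟨C, hC⟩ := G.cb_pr (ι := ι) k B
    exact ⟨C, fun N t ht => hC N _ (hB N t ht)⟩
  have hL : ∀ k, ∃ K, 0 ≤ K ∧ ∀ N, ∀ s ∈ Icc 0 T, ∀ t ∈ Icc 0 T, ∀ x c (w : List d), w.length ≤ k →
      |(dw w (v N s c)).1 x - (dw w (v N t c)).1 x| ≤ K * |s - t| := fun k => by
    obtain ⟨B, hB⟩ := hP k
    refine ⟨|B|, abs_nonneg B, fun N s hs t ht x c w hw => ?_⟩
    exact Convex.norm_image_sub_le_of_norm_hasDerivWithin_le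
      (f := fun σ => (dw w (v N σ c)).1 x)
      (f' := fun σ => (dw w (G.pr N (S.rhs (v N σ) c))).1 x) (C := |B|) (s := Icc 0 T)
      (fun σ hσ => (hd N ((evx x).toLinearMap ∘ₗ dw w) c σ hσ).hasDerivWithinAt)
      (fun σ hσ => (hB N σ hσ c w hw x).trans (le_abs_self B)) (convex_Icc 0 T) ht hs
  have hex : ∀ t ∈ Icc 0 T, ∀ c, ∃ u : Tr d, ∀ w x,
      Tendsto (fun N => (dw w (v N t c)).1 x) (hyperfilter ℕ) (𝓝 ((dw w u).1 x)) :=
    fun t ht c => td1_lim (hyperfilter ℕ) (fun N => v N t c) fun w =>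
      (hB w.length).imp fun B hB N x => hB N t ht c w le_rfl x
  choose! u hu using hex
  have hl : (hyperfilter ℕ : Filter ℕ) ≤ atTop := Nat.hyperfilter_le_atTop
  refine ⟨T, hT, u, funext fun c => Tr.ext' fun x => ?_, fun c => ?_, fun t ht c x => ?_⟩
  · exact tendsto_nhds_unique (hu 0 ⟨le_rfl, hT.le⟩ c [] x)
      (((G.tendsto_pr (u₀ c) x).mono_left hl).congr fun N => by rw [dw_nil, h0])
  · refine cm_of_lip (Pi.basisFun ℝ d) isOpen_univ convex_univ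
      (fun t _ => (u t c).smooth.contDiffOn) (fun w => ?_) fun w => ?_
    · obtain ⟨B, hB⟩ := hB w.length
      refine ⟨B, fun t ht y _ => ?_⟩
      rw [sw_eq_dw]
      exact le_of_tendsto' (hu t ht c w y).abs fun N => hB N t ht c w le_rfl y
    · obtain ⟨K, -, hK⟩ := hL w.length
      refine ⟨K, fun s hs t ht y _ => ?_⟩
      rw [sw_eq_dw, sw_eq_dw]
      exact le_of_tendsto' ((hu s hs c w y).sub (hu t ht c w y)).abs
        fun N => hK N s hs t ht y c w le_rfl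
  · obtain ⟨Ψ, hΨ, hΨ'⟩ := S.exists_psi
    obtain ⟨B, hB⟩ := hR G.m
    obtain ⟨e, he, he'⟩ := G.tail_cb (ι := ι) B
    obtain ⟨K, hK0, hK⟩ := hL 2
    refine td1_der (l := hyperfilter ℕ) (convex_Icc 0 T) (f := fun N s => (v N s c).1 x)
      (f' := fun N s => (G.pr N (S.rhs (v N s) c)).1 x) ht
      (fun N s hs => hd N (evx x).toLinearMap c s hs) (fun s hs => hu s hs c [] x) fun ε hε => ?_
    have hc : ContinuousAt (fun j => Ψ c (x, j)) (jet (u t) x) :=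
      ((hΨ c).continuous.comp (continuous_const.prodMk continuous_id)).continuousAt
    obtain ⟨δ, hδ, hδ'⟩ := Metric.continuousAt_iff.1 hc (ε / 2) (half_pos hε)
    refine ⟨δ / 2 / (K + 1), by positivity, ?_⟩
    filter_upwards [Metric.tendsto_nhds.1 (td1_jet_lim (v := fun N => v N t) (u := u t) (x := x)
      fun c w => hu t ht c w x) (δ / 2) (half_pos hδ),
      hl ((tendsto_order.1 he).2 (ε / 2) (half_pos hε))] with N h1 h2 s hs hst
    have h3 : dist (jet (v N s) x) (jet (v N t) x) ≤ K * |s - t| :=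
      td1_jet_le (mul_nonneg hK0 (abs_nonneg _)) (hK N s hs t ht x)
    have h4 : K * |s - t| ≤ δ / 2 := by
      rw [lt_div_iff₀ (by positivity)] at hst
      nlinarith [abs_nonneg (s - t)]
    have h5 : dist (jet (v N s) x) (jet (u t) x) < δ := by
      linarith [dist_triangle (jet (v N s) x) (jet (v N t) x) (jet (u t) x)]
    have h6 := hδ' h5
    rw [Real.dist_eq, ← hΨ', ← hΨ'] at h6
    have h7 := he' N _ (hB N s hs) c x
    have h8 : e N < ε / 2 := h2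
    rw [abs_le] at h7 ⊢
    rw [abs_lt] at h6
    constructor <;> linarith [h6.1, h6.2, h7.1, h7.2]

end Pool.Agent.Lib.MP_de485e_gt.Ex
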