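import Pool.Agent.Lib.MP_de485e_gt.Ex.Geo1

/-! The two point inequality for mean curvature vectors. -/

open Set Filter Topology Module Metric
open scoped RealInnerProductSpace InnerProduct Manifold ContDiff

namespace Pool.Agent.Lib.MP_de485e_gt.Ex

open Conv

variable {P Q : Type} [NormedAddCommGroup P] [InnerProductSpace ℝ P] [CompleteSpace P]
  [FiniteDimensional ℝ P] [NormedAddCommGroup Q] [InnerProductSpace ℝ Q] [CompleteSpace Q]
  [FiniteDimensional ℝ Q]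

omit [CompleteSpace Q] [FiniteDimensional ℝ Q] in
private theorem U1_res {ι : Type} [Fintype ι] {z : ι → Q} (hz : Orthonormal ℝ z) (y y' : Q) :
    ⟪y - ∑ i, ⟪z i, y⟫ • z i, y' - ∑ i, ⟪z i, y'⟫ • z i⟫ = ⟪y, y'⟫ - ∑ i, ⟪z i, y⟫ * ⟪z i, y'⟫ := by
  rw [inner_sub_left, inner_sub_right, inner_sub_right, hz.inner_sum, inner_sum, sum_inner]
  simp only [inner_smul_left, inner_smul_right, conj_trivial, real_inner_comm (z _) y, sub_self,
    sub_zero, mul_comm]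

omit [CompleteSpace P] [FiniteDimensional ℝ P] [CompleteSpace Q] [FiniteDimensional ℝ Q] in
private theorem U1_one {L' : P →L[ℝ] Q} {B' : P →L[ℝ] P →L[ℝ] Q} {w z : Q} {δ : ℝ} {ζ₀ : P}
    (h0 : 0 ≤ δ) (h1 : δ ≤ 1 / 2) (hβ : ∀ ζ η, |⟪w, B' ζ η⟫| ≤ δ * ‖L' ζ‖ * ‖L' η‖)
    (hp : ∀ η, ⟪z - L' ζ₀, L' η⟫ = 0) (hn : ‖L' ζ₀‖ ≤ 1) (ζ : P) :
    ‖z - L' ζ₀‖ ^ 2 - ⟪w, B' ζ₀ ζ₀⟫ - 2 * δ ^ 2 ≤ ‖z - L' ζ‖ ^ 2 - ⟪w, B' ζ ζ⟫ := by
  obtain ⟨η, rfl⟩ : ∃ η, ζ = ζ₀ + η := ⟨ζ - ζ₀, by abel⟩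
  rw [map_add L', ← sub_sub, norm_sub_sq_real (z - L' ζ₀), hp]
  simp only [map_add, add_apply, inner_add_right]
  have a1 := (le_abs_self _).trans (hβ ζ₀ η)
  have a2 := (le_abs_self _).trans (hβ η ζ₀)
  have a3 := (le_abs_self _).trans (hβ η η)
  have a4 := mul_le_mul_of_nonneg_left hn (mul_nonneg h0 (norm_nonneg (L' η)))
  have a5 := mul_le_mul_of_nonneg_right h1 (sq_nonneg ‖L' η‖)
  nlinarith [sq_nonneg (‖L' η‖ - 2 * δ)]

theorem two_point {L L' : P →L[ℝ] Q} (hL : Function.Injective L) (hL' : Function.Injective L')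
    {B B' : P →L[ℝ] P →L[ℝ] Q} {f f' : Q} {κ : ℝ} (hκ : 0 ≤ κ) (h1 : (L†) (f - f') = 0)
    (h2 : (L'†) (f - f') = 0) (hB : ∀ ζ η, ‖B' ζ η‖ ≤ κ * ‖L' ζ‖ * ‖L' η‖)
    (hs : 2 * ((finrank ℝ P : ℝ) + 1) * κ * ‖f - f'‖ ≤ 1)
    (h : ∀ ξ ε, 0 < ε → ∃ ζ, ‖L ξ - L' ζ‖ ^ 2 + ⟪f - f', B ξ ξ - B' ζ ζ⟫ ≤ ε) :
    ⟪f - f', Hj f L B - Hj f' L' B'⟫ ≤ (finrank ℝ P : ℝ) * (1 + 2 * κ ^ 2) * ‖f - f'‖ ^ 2 := by
  classical
  obtain ⟨b, hb⟩ := exists_frame hL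
  obtain ⟨b', hb', hm⟩ := Hi.m_frame hL'
  have e0 : ⟪f - f', Hj f L B - Hj f' L' B'⟫ = ∑ i, ⟪f - f', B (b i) (b i)⟫ -
      ∑ j, ⟪f - f', B' (b' j) (b' j)⟫ + finrank ℝ P * ‖f - f'‖ ^ 2 := by
    have k1 : ∀ x, ⟪f - f', L x⟫ = 0 := fun x => by
      rw [← ContinuousLinearMap.adjoint_inner_left, h1, inner_zero_left]
    have k2 : ∀ x, ⟪f - f', L' x⟫ = 0 := fun x => by
      rw [← ContinuousLinearMap.adjoint_inner_left, h2, inner_zero_left]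
    rw [← real_inner_self_eq_norm_sq, ← inner_sum, ← inner_sum, ← trB_frame hL B hb,
      ← trB_frame hL' B' hb', inner_sub_right _ f f']
    simp only [Hj, inner_sub_right, inner_add_right, k1, k2, inner_smul_right]
    ring
  rw [e0]
  generalize f - f' = w at *
  have n0 : (0 : ℝ) ≤ finrank ℝ P := Nat.cast_nonneg _
  have δ0 : 0 ≤ κ * ‖w‖ := mul_nonneg hκ (norm_nonneg _)
  have δ1 : finrank ℝ P * (κ * ‖w‖) ≤ 1 / 2 := by nlinarith
  have δ2 : κ * ‖w‖ ≤ 1 / 2 := by nlinarith [mul_nonneg n0 δ0]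
  have hβ : ∀ ζ η, |⟪w, B' ζ η⟫| ≤ κ * ‖w‖ * ‖L' ζ‖ * ‖L' η‖ := fun ζ η =>
    (abs_real_inner_le_norm _ _).trans
      ((mul_le_mul_of_nonneg_left (hB ζ η) (norm_nonneg w)).trans_eq (by ring))
  have e1 : (finrank ℝ P : ℝ) * (1 + 2 * κ ^ 2) * ‖w‖ ^ 2 =
      finrank ℝ P * (2 * (κ * ‖w‖) ^ 2) + finrank ℝ P * ‖w‖ ^ 2 := by ring
  rw [e1, add_le_add_iff_right]
  generalize κ * ‖w‖ = δ at *
  have one : ∀ {v : Fin (finrank ℝ P) → Q}, Orthonormal ℝ v → ∀ i, ⟪v i, v i⟫ = (1 : ℝ) :=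
    fun hv i => by rw [real_inner_self_eq_norm_sq, hv.1 i, one_pow]
  set c := fun i j => ⟪L' (b' j), L (b i)⟫ with hc
  have s1 : ∀ i, ⟪w, B (b i) (b i)⟫ ≤ ∑ j, ∑ l, c i j * c i l * ⟪w, B' (b' j) (b' l)⟫ -
      (1 - ∑ j, c i j * c i j) + 2 * δ ^ 2 := fun i => by
    have a0 : L' (∑ j, c i j • b' j) = ∑ j, c i j • L' (b' j) := by simp only [map_sum, map_smul]
    have a1 : ‖L (b i) - L' (∑ j, c i j • b' j)‖ ^ 2 = 1 - ∑ j, c i j * c i j := by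
      rw [a0, ← real_inner_self_eq_norm_sq, U1_res hb', one hb]
    have a2 : ‖L' (∑ j, c i j • b' j)‖ ^ 2 = ∑ j, c i j * c i j := by
      rw [a0, ← real_inner_self_eq_norm_sq, hb'.inner_sum]
      rfl
    have a3 : ‖L' (∑ j, c i j • b' j)‖ ≤ 1 := by
      refine (sq_le_one_iff₀ (norm_nonneg _)).1 ?_
      linarith [sq_nonneg ‖L (b i) - L' (∑ j, c i j • b' j)‖]
    have a4 : ∀ η, ⟪L (b i) - L' (∑ j, c i j • b' j), L' η⟫ = 0 := fun η => by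
      have := hm (L' η) (L (b i))
      rw [pinv_apply hL'] at this
      rw [inner_sub_left, ← this, a0, sum_inner, sub_eq_zero]
      refine Finset.sum_congr rfl fun j _ => ?_
      rw [real_inner_smul_left, mul_comm, real_inner_comm (L' (b' j)), real_inner_comm (L' (b' j))]
    have a5 : ⟪w, B' (∑ j, c i j • b' j) (∑ j, c i j • b' j)⟫ =
        ∑ j, ∑ l, c i j * c i l * ⟪w, B' (b' j) (b' l)⟫ := by
      rw [map_sum B', sum_apply, inner_sum]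
      refine Finset.sum_congr rfl fun j _ => ?_
      rw [map_sum, inner_sum]
      refine Finset.sum_congr rfl fun l _ => ?_
      simp only [map_smul, smul_apply, real_inner_smul_right]
      ring
    refine le_of_forall_pos_le_add fun ε hε => ?_
    obtain ⟨ζ, hζ⟩ := h (b i) ε hε
    have a6 := U1_one δ0 δ2 hβ a4 a3 ζ
    rw [a1, a5] at a6
    rw [inner_sub_right] at hζ
    linarith
  set q := fun j => L' (b' j) - ∑ i, ⟪L (b i), L' (b' j)⟫ • L (b i) with hq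
  have g : ∀ j l, ∑ i, c i j * c i l = (if j = l then 1 else 0) - ⟪q j, q l⟫ := fun j l => by
    rw [hq, U1_res hb, orthonormal_iff_ite.1 hb', sub_sub_cancel]
    simp only [hc, real_inner_comm (L (b _))]
  have s2 : ∑ i, ∑ j, ∑ l, c i j * c i l * ⟪w, B' (b' j) (b' l)⟫ =
      ∑ j, ⟪w, B' (b' j) (b' j)⟫ - ∑ j, ∑ l, ⟪q j, q l⟫ * ⟪w, B' (b' j) (b' l)⟫ := by
    rw [Finset.sum_comm, ← Finset.sum_sub_distrib]
    refine Finset.sum_congr rfl fun j _ => ?_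
    rw [Finset.sum_comm]
    simp only [← Finset.sum_mul, g, sub_mul, Finset.sum_sub_distrib, ite_mul, one_mul, zero_mul,
      Finset.sum_ite_eq, Finset.mem_univ, if_true]
  have s3 : ∑ i, (1 - ∑ j, c i j * c i j) = ∑ j, ‖q j‖ ^ 2 := by
    rw [Finset.sum_sub_distrib, Finset.sum_comm, ← Finset.sum_sub_distrib]
    refine Finset.sum_congr rfl fun j _ => ?_
    rw [g, if_pos rfl, sub_sub_cancel, real_inner_self_eq_norm_sq]
  have s4 : -∑ j, ∑ l, ⟪q j, q l⟫ * ⟪w, B' (b' j) (b' l)⟫ ≤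
      ∑ j, ∑ l, δ / 2 * (‖q j‖ ^ 2 + ‖q l‖ ^ 2) := by
    rw [← Finset.sum_neg_distrib]
    refine Finset.sum_le_sum fun j _ => ?_
    rw [← Finset.sum_neg_distrib]
    refine Finset.sum_le_sum fun l _ => (neg_le_abs _).trans ?_
    have a1 := hβ (b' j) (b' l)
    rw [hb'.1 j, hb'.1 l, mul_one, mul_one] at a1
    rw [abs_mul]
    refine (mul_le_mul (abs_real_inner_le_norm _ _) a1 (abs_nonneg _) (by positivity)).trans ?_
    nlinarith [mul_nonneg δ0 (sq_nonneg (‖q j‖ - ‖q l‖))]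
  have s5 : ∑ j, ∑ l, δ / 2 * (‖q j‖ ^ 2 + ‖q l‖ ^ 2) = finrank ℝ P * δ * ∑ j, ‖q j‖ ^ 2 := by
    simp only [← Finset.mul_sum, Finset.sum_add_distrib, Finset.sum_const, Finset.card_univ,
      Fintype.card_fin, nsmul_eq_mul]
    ring
  have s6 := Finset.sum_le_sum fun i (_ : i ∈ Finset.univ) => s1 i
  rw [Finset.sum_add_distrib, Finset.sum_sub_distrib, s2, s3, Finset.sum_const, Finset.card_univ,
    Fintype.card_fin, nsmul_eq_mul] at s6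
  have s7 : 0 ≤ ∑ j, ‖q j‖ ^ 2 := Finset.sum_nonneg fun j _ => sq_nonneg _
  have s8 := mul_le_mul_of_nonneg_right δ1 s7
  linarith

theorem adj_zero {L L' : P →L[ℝ] Q} (hL : Function.Injective L) (hL' : Function.Injective L')
    (h : ∀ ξ ε, 0 < ε → ∃ ζ, ‖L ξ - L' ζ‖ ^ 2 ≤ ε) {v : Q} (hv : (L†) v = 0) : (L'†) v = 0 := by
  have k : ∀ ξ, L' (pinv L' (L ξ)) = L ξ := fun ξ => by
    have a : ‖L ξ - L' (pinv L' (L ξ))‖ ^ 2 ≤ 0 := le_of_forall_pos_le_add fun ε hε => by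
      obtain ⟨ζ, hζ⟩ := h ξ ε hε
      have := U1_one (L' := L') (B' := 0) (w := 0) (z := L ξ - L' (pinv L' (L ξ))) (δ := 0)
        (ζ₀ := 0) le_rfl (by norm_num) (by simp)
        (fun η => by rw [map_zero, sub_zero, inner_sub_left, inner_pinv hL', sub_self]) (by simp)
        (ζ - pinv L' (L ξ))
      simp only [map_zero, sub_zero, inner_zero_left, map_sub, sub_sub_sub_cancel_right] at this
      linarith
    exact (sub_eq_zero.1 (norm_eq_zero.1 (pow_eq_zero_iff two_ne_zero |>.1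
      (a.antisymm (sq_nonneg _))))).symm
  have i : Function.Injective (pinv L' ∘L L) := fun a b e => hL (by
    rw [← k a, ← k b]
    exact congrArg L' e)
  refine ext_inner_right ℝ fun x => ?_
  obtain ⟨ξ, rfl⟩ := (LinearMap.injective_iff_surjective (f := (pinv L' ∘L L).toLinearMap)).1 i x
  rw [ContinuousLinearMap.adjoint_inner_left, inner_zero_left]
  change ⟪v, L' (pinv L' (L ξ))⟫ = 0
  rw [k, ← ContinuousLinearMap.adjoint_inner_left, hv, inner_zero_left]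

end Pool.Agent.Lib.MP_de485e_gt.Ex
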